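import Pool.Agent.Lib.MP_614bef_an.Defs

set_option autoImplicit false

namespace MP_614bef_an

open MeasureTheory Set Filter Metric
open scoped RealInnerProductSpace ENNReal NNReal Topology ContDiff

/-- the curve on a convex set where the derivative is almost constant -/
private theorem area_dist {γ γ' : ℝ → V} (hγ : ∀ t, HasDerivAt γ (γ' t) t) {K : Set ℝ}
    (hK : Convex ℝ K) (w : V) {ε : ℝ} (hw : ∀ x ∈ K, ‖γ' x - w‖ ≤ ε) :
    ∀ x ∈ K, ∀ y ∈ K, |dist (γ x) (γ y) - ‖w‖ * dist x y| ≤ ε * dist x y := by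
  intro x hx y hy
  have h1 : ∀ z ∈ K, HasDerivWithinAt (fun z => γ z - z • w) (γ' z - w) K z := by
    intro z _
    have h2 : HasDerivAt (fun z : ℝ => z • w) ((1 : ℝ) • w) z := (hasDerivAt_id z).smul_const w
    rw [one_smul] at h2
    exact ((hγ z).sub h2).hasDerivWithinAt
  have h3 := Convex.norm_image_sub_le_of_norm_hasDerivWithin_le h1 hw hK hy hx
  have h4 : ‖w‖ * dist x y = ‖(x - y) • w‖ := by
    rw [norm_smul, Real.dist_eq, Real.norm_eq_abs, mul_comm]
  rw [h4, dist_eq_norm]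
  refine (abs_norm_sub_norm_le _ _).trans ?_
  rw [Real.dist_eq, ← Real.norm_eq_abs]
  refine le_trans (le_of_eq ?_) h3
  congr 1
  rw [sub_smul]
  abel

private theorem area_piece {γ γ' : ℝ → V} (hγ : ∀ t, HasDerivAt γ (γ' t) t) {S K : Set ℝ}
    (hK : Convex ℝ K) (hSK : S ⊆ K) (w : V) {ε : ℝ} (hε : 0 ≤ ε) (hw : ∀ x ∈ K, ‖γ' x - w‖ ≤ ε) :
    μH[1] (γ '' S) ≤ ENNReal.ofReal (‖w‖ + ε) * volume S ∧
    ENNReal.ofReal (‖w‖ - ε) * volume S ≤ μH[1] (γ '' S) := by
  have hdist := area_dist hγ hK w hw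
  constructor
  · have h1 : LipschitzOnWith (Real.toNNReal (‖w‖ + ε)) γ S := by
      apply LipschitzOnWith.of_dist_le_mul
      intro x hx y hy
      rw [Real.coe_toNNReal _ (by positivity)]
      have := abs_le.1 (hdist x (hSK hx) y (hSK hy))
      rw [add_mul]
      linarith [this.2]
    have h2 := h1.hausdorffMeasure_image_le (zero_le_one (α := ℝ))
    rw [ENNReal.rpow_one, hausdorffMeasure_real] at h2
    exact h2
  · by_cases hc : ‖w‖ - ε ≤ 0
    · rw [ENNReal.ofReal_of_nonpos hc, zero_mul]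
      exact zero_le
    push Not at hc
    have hlow : ∀ x ∈ S, ∀ y ∈ S, (‖w‖ - ε) * dist x y ≤ dist (γ x) (γ y) := by
      intro x hx y hy
      have := abs_le.1 (hdist x (hSK hx) y (hSK hy))
      rw [sub_mul]
      linarith [this.1]
    have hinj : InjOn γ S := by
      intro x hx y hy hxy
      have h1 := hlow x hx y hy
      rw [hxy, dist_self] at h1
      have h2 : dist x y ≤ 0 := by
        by_contra hcon
        push Not at hcon
        have := mul_pos hc hcon
        linarith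
      exact dist_le_zero.1 h2
    have h1 : LipschitzOnWith (Real.toNNReal (‖w‖ - ε)⁻¹) (Function.invFunOn γ S) (γ '' S) := by
      apply LipschitzOnWith.of_dist_le_mul
      rintro _ ⟨x, hx, rfl⟩ _ ⟨y, hy, rfl⟩
      rw [Real.coe_toNNReal _ (by positivity)]
      rw [hinj.leftInvOn_invFunOn hx, hinj.leftInvOn_invFunOn hy, inv_mul_eq_div, le_div_iff₀ hc]
      have := hlow x hx y hy
      linarith
    have h2 := h1.hausdorffMeasure_image_le (zero_le_one (α := ℝ))
    have h3 : Function.invFunOn γ S '' (γ '' S) = S := hinj.leftInvOn_invFunOn.image_image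
    rw [ENNReal.rpow_one, h3, hausdorffMeasure_real] at h2
    calc ENNReal.ofReal (‖w‖ - ε) * volume S
        ≤ ENNReal.ofReal (‖w‖ - ε) * (ENNReal.ofReal (‖w‖ - ε)⁻¹ * μH[1] (γ '' S)) := by
          gcongr
          exact h2
      _ = μH[1] (γ '' S) := by
          rw [← mul_assoc, ← ENNReal.ofReal_mul hc.le, mul_inv_cancel₀ hc.ne',
            ENNReal.ofReal_one, one_mul]

private theorem area_len_bounds {γ γ' : ℝ → V} (hγ : ∀ t, HasDerivAt γ (γ' t) t)
    (hγ' : Continuous γ') {a b : ℝ} (hinj : InjOn γ (Ioc a b)) {S : Set ℝ} (hS : MeasurableSet S)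
    (hSI : S ⊆ Ioc a b) {ε : ℝ≥0} (hε : 0 < ε) :
    μH[1] (γ '' S) ≤ (∫⁻ t in S, ENNReal.ofReal ‖γ' t‖) + 2 * ε * volume S ∧
    (∫⁻ t in S, ENNReal.ofReal ‖γ' t‖) ≤ μH[1] (γ '' S) + 2 * ε * volume S := by
  have hγc : Continuous γ := continuous_iff_continuousAt.2 fun t => (hγ t).continuousAt
  have huc := (isCompact_Icc (a := a) (b := b)).uniformContinuousOn_of_continuous hγ'.continuousOn
  rw [Metric.uniformContinuousOn_iff] at huc
  obtain ⟨δ, hδ, huc⟩ := huc ε (by exact_mod_cast hε)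
  have hη : 0 < δ / 2 := by positivity
  set η := δ / 2 with hηd
  set J : ℤ → Set ℝ := fun n => Ioc (n • η) ((n + 1) • η) with hJ
  have hJm : ∀ n, MeasurableSet (J n) := fun n => measurableSet_Ioc
  have hJd : Pairwise (Function.onFun Disjoint J) := by
    have := pairwise_disjoint_Ioc_zsmul (α := ℝ) η
    exact this
  have hJu : ⋃ n, J n = univ := iUnion_Ioc_zsmul hη
  have hSdec : S = ⋃ n, S ∩ J n := by rw [← inter_iUnion, hJu, inter_univ]
  have hSm : ∀ n, MeasurableSet (S ∩ J n) := fun n => hS.inter (hJm n)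
  have hSd : Pairwise (Function.onFun Disjoint fun n => S ∩ J n) := fun i j hij =>
    (hJd hij).mono inter_subset_right inter_subset_right
  have hpiece : ∀ n, μH[1] (γ '' (S ∩ J n)) ≤ (∫⁻ t in S ∩ J n, ENNReal.ofReal ‖γ' t‖) +
        2 * ε * volume (S ∩ J n) ∧
      (∫⁻ t in S ∩ J n, ENNReal.ofReal ‖γ' t‖) ≤ μH[1] (γ '' (S ∩ J n)) +
        2 * ε * volume (S ∩ J n) := by
    intro n
    rcases (S ∩ J n).eq_empty_or_nonempty with he | ⟨x0, hx0⟩
    · rw [he]
      simp
    · set w := γ' x0 with hw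
      have hK : Convex ℝ (J n ∩ Ioc a b) := (convex_Ioc _ _).inter (convex_Ioc _ _)
      have hSK : S ∩ J n ⊆ J n ∩ Ioc a b := fun x hx => ⟨hx.2, hSI hx.1⟩
      have hwb : ∀ x ∈ J n ∩ Ioc a b, ‖γ' x - w‖ ≤ ε := by
        intro x hx
        have h0 := hSK hx0
        have h1 := huc x ⟨hx.2.1.le, hx.2.2⟩ x0 ⟨h0.2.1.le, h0.2.2⟩ (by
          have e1 := hx.1
          have e2 := h0.1
          simp only [hJ, mem_Ioc, add_smul, one_smul] at e1 e2
          rw [Real.dist_eq, abs_lt]
          constructor <;> linarith [e1.1, e1.2, e2.1, e2.2])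
        rw [dist_eq_norm] at h1
        exact h1.le
      have hb := area_piece hγ hK hSK w (by positivity) hwb
      have h2 : (2 * ε : ℝ≥0∞) = ENNReal.ofReal (2 * ε) := by
        rw [ENNReal.ofReal_mul (by norm_num), ENNReal.ofReal_coe_nnreal]
        simp
      have hae : ∀ x ∈ S ∩ J n, |‖γ' x‖ - ‖w‖| ≤ ε := fun x hx =>
        (abs_norm_sub_norm_le _ _).trans (hwb x (hSK hx))
      have hε0 : (0 : ℝ) ≤ ε := ε.2
      constructor
      · calc μH[1] (γ '' (S ∩ J n)) ≤ ENNReal.ofReal (‖w‖ + ε) * volume (S ∩ J n) := hb.1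
          _ = ∫⁻ t in S ∩ J n, ENNReal.ofReal (‖w‖ + ε) := by rw [setLIntegral_const]
          _ ≤ ∫⁻ t in S ∩ J n, (ENNReal.ofReal ‖γ' t‖ + 2 * ε) := by
            apply setLIntegral_mono' (hSm n)
            intro x hx
            rw [h2, ← ENNReal.ofReal_add (norm_nonneg _) (by positivity)]
            apply ENNReal.ofReal_le_ofReal
            linarith [(abs_le.1 (hae x hx)).1]
          _ = _ := by
            rw [lintegral_add_right _ measurable_const, setLIntegral_const]
      · calc (∫⁻ t in S ∩ J n, ENNReal.ofReal ‖γ' t‖)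
          _ ≤ (∫⁻ t in S ∩ J n, (ENNReal.ofReal (‖w‖ - ε) + 2 * ε)) := by
            apply setLIntegral_mono' (hSm n)
            intro x hx
            rw [h2]
            refine le_trans ?_ ENNReal.ofReal_add_le
            apply ENNReal.ofReal_le_ofReal
            linarith [(abs_le.1 (hae x hx)).2]
          _ = ENNReal.ofReal (‖w‖ - ε) * volume (S ∩ J n) + 2 * ε * volume (S ∩ J n) := by
            rw [lintegral_add_right _ measurable_const, setLIntegral_const, setLIntegral_const]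
          _ ≤ _ := by gcongr; exact hb.2
  have e1 : μH[1] (γ '' S) = ∑' n, μH[1] (γ '' (S ∩ J n)) := by
    conv_lhs => rw [hSdec, image_iUnion]
    rw [measure_iUnion]
    · intro i j hij
      rw [Function.onFun, Set.disjoint_left]
      rintro _ ⟨x, hx, rfl⟩ ⟨y, hy, hxy⟩
      have hxy' : y = x := hinj (hSI hy.1) (hSI hx.1) hxy
      subst hxy'
      exact Set.disjoint_left.1 (hJd hij) hx.2 hy.2
    · intro n
      exact (hSm n).image_of_continuousOn_injOn hγc.continuousOn
        (hinj.mono fun x hx => hSI hx.1)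
  have e2 : ∫⁻ t in S, ENNReal.ofReal ‖γ' t‖ = ∑' n, ∫⁻ t in S ∩ J n, ENNReal.ofReal ‖γ' t‖ := by
    conv_lhs => rw [hSdec]
    exact lintegral_iUnion hSm hSd _
  have e3 : volume S = ∑' n, volume (S ∩ J n) := by
    conv_lhs => rw [hSdec]
    exact measure_iUnion hSd hSm
  constructor
  · rw [e1, e2, e3, ← ENNReal.tsum_mul_left, ← ENNReal.tsum_add]
    exact ENNReal.tsum_le_tsum fun n => (hpiece n).1
  · rw [e1, e2, e3, ← ENNReal.tsum_mul_left, ← ENNReal.tsum_add]
    exact ENNReal.tsum_le_tsum fun n => (hpiece n).2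

/-- length of a part of the curve -/
theorem area_len {γ γ' : ℝ → V} (hγ : ∀ t, HasDerivAt γ (γ' t) t)
    (hγ' : Continuous γ') {a b : ℝ} (hinj : InjOn γ (Ioc a b)) {S : Set ℝ} (hS : MeasurableSet S)
    (hSI : S ⊆ Ioc a b) : μH[1] (γ '' S) = ∫⁻ t in S, ENNReal.ofReal ‖γ' t‖ := by
  have hfin : volume S ≠ ⊤ := measure_ne_top_of_subset hSI (by simp)
  have key : ∀ x y : ℝ≥0∞, (∀ ε : ℝ≥0, 0 < ε → x ≤ y + 2 * ε * volume S) → x ≤ y := by
    intro x y h
    apply ENNReal.le_of_forall_pos_le_add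
    intro δ hδ _
    set W := (volume S).toNNReal with hW
    have hW' : volume S = W := (ENNReal.coe_toNNReal hfin).symm
    set ε := δ / (2 * W + 1) with hε
    have hε0 : 0 < ε := by positivity
    refine (h ε hε0).trans ?_
    gcongr
    rw [hW']
    have h2 : 2 * ε * W ≤ δ := by
      have h3 : ε ≤ δ / (2 * W + 1) := le_rfl
      rw [le_div_iff₀ (by positivity)] at h3
      calc 2 * ε * W = ε * (2 * W) := by ring
        _ ≤ ε * (2 * W + 1) := by gcongr; exact le_self_add
        _ ≤ δ := h3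
    exact_mod_cast h2
  apply le_antisymm
  · exact key _ _ fun ε h0 => (area_len_bounds hγ hγ' hinj hS hSI h0).1
  · exact key _ _ fun ε h0 => (area_len_bounds hγ hγ' hinj hS hSI h0).2

/-- **AREA.** area formula for a `C¹` curve, injective on an interval.
PROOF: as in `Pool/Agent/Lib/MP_9ebc94_an/CurveMeas.lean` (already proved there for Lipschitz graphs:
theorem `integral_curve`; copy and adapt): partition of `I` by
`exists_partition_approximatesLinearOn_of_hasFDerivWithinAt` into pieces on which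
`‖γ x - γ y - (x - y) • w_n‖ ≤ ε |x - y|`; on a piece `H¹(γ(B))` is between `(‖w_n‖ - ε) |B|` and
`(‖w_n‖ + ε) |B|` (Lipschitz and inverse Lipschitz); sum up and let `ε → 0`. -/
theorem area_curve {γ γ' : ℝ → V} (hγ : ∀ t, HasDerivAt γ (γ' t) t) (hγ' : Continuous γ')
    {a b : ℝ} (hinj : InjOn γ (Ioc a b)) {F : V → ℝ} (hF : Continuous F) :
    ∫ y in γ '' (Ioc a b), F y ∂μH[1] = ∫ t in Ioc a b, ‖γ' t‖ * F (γ t) := by
  have hγc : Continuous γ := continuous_iff_continuousAt.2 fun t => (hγ t).continuousAt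
  have hmeas : Measurable fun t => ‖γ' t‖₊ := hγ'.nnnorm.measurable
  have h1 : (μH[1] : Measure V).restrict (γ '' (Ioc a b)) =
      Measure.map γ ((volume.restrict (Ioc a b)).withDensity
        fun t => ((‖γ' t‖₊ : ℝ≥0) : ℝ≥0∞)) := by
    ext B hB
    have hBm : MeasurableSet (γ ⁻¹' B) := hγc.measurable hB
    rw [Measure.restrict_apply hB, Measure.map_apply hγc.measurable hB,
      withDensity_apply _ hBm, Measure.restrict_restrict hBm]
    have h2 : B ∩ γ '' (Ioc a b) = γ '' (γ ⁻¹' B ∩ Ioc a b) := by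
      rw [inter_comm, ← image_inter_preimage, inter_comm]
    rw [h2, area_len hγ hγ' hinj (hBm.inter measurableSet_Ioc) inter_subset_right]
    apply lintegral_congr
    intro t
    rw [← ENNReal.ofReal_coe_nnreal, coe_nnnorm]
  rw [h1, integral_map hγc.aemeasurable hF.aestronglyMeasurable,
    integral_withDensity_eq_integral_smul hmeas]
  apply integral_congr_ae
  filter_upwards with t
  rw [NNReal.smul_def, coe_nnnorm, smul_eq_mul]

theorem area_finite {γ γ' : ℝ → V} (hγ : ∀ t, HasDerivAt γ (γ' t) t) (hγ' : Continuous γ')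
    {a b : ℝ} : μH[1] (γ '' (Ioc a b)) < ⊤ := by
  obtain ⟨C, hC⟩ := (isCompact_Icc (a := a) (b := b)).exists_bound_of_continuousOn
    hγ'.continuousOn
  have h1 := (area_piece hγ (convex_Icc a b) (Ioc_subset_Icc_self (a := a) (b := b)) 0
    (le_max_right C 0) (fun x hx => by
      rw [sub_zero]
      exact (hC x hx).trans (le_max_left _ _))).1
  refine lt_of_le_of_lt h1 ?_
  rw [Real.volume_Ioc]
  exact ENNReal.mul_lt_top ENNReal.ofReal_lt_top ENNReal.ofReal_lt_top

end MP_614bef_an
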