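import Pool.Agent.Lib.MP_614bef_an.Moll

set_option autoImplicit false

namespace MP_614bef_an

open MeasureTheory Set Filter Metric
open scoped RealInnerProductSpace ENNReal NNReal Topology ContDiff

/-- `Θ_ν(z) = ∫_{⟪z - w, ν⟫ > 0} ρ(w) dw` -/
noncomputable def Th (ν z : V) : ℝ := ∫ w in {w : V | 0 < ⟪z - w, ν⟫}, rho w

private theorem blow_rho_int : Integrable rho := by
  unfold rho
  exact bmp.integrable_normed

private theorem blow_rhoE_cont (ε : ℝ) : Continuous (rhoE ε) := (rhoE_smooth ε).continuous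

private theorem blow_rhoE_int {ε : ℝ} (hε : 0 < ε) : Integrable (rhoE ε) :=
  (blow_rhoE_cont ε).integrable_of_hasCompactSupport (rhoE_compact hε)

private theorem blow_rhoE_le {M : ℝ} (hM : ∀ x, rho x ≤ M) (ε : ℝ) (x : V) :
    ‖rhoE ε x‖ ≤ (ε ^ 2)⁻¹ * M := by
  rw [Real.norm_eq_abs, abs_of_nonneg (rhoE_nonneg ε x)]
  unfold rhoE
  exact mul_le_mul_of_nonneg_left (hM _) (by positivity)

/-- the two-valued function with jump through `x` -/
private noncomputable def blow_v1 (x ν : V) (a b : ℝ) (y : V) : ℝ :=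
  {y : V | 0 < ⟪y - x, ν⟫}.indicator (fun _ => a - b) y + b

private theorem blow_meas (x ν : V) : MeasurableSet {y : V | 0 < ⟪y - x, ν⟫} :=
  (isOpen_lt continuous_const (by fun_prop)).measurableSet

private theorem blow_meas' (x ν : V) : MeasurableSet {y : V | ⟪y - x, ν⟫ < 0} :=
  (isOpen_lt (by fun_prop) continuous_const).measurableSet

private theorem blow_v1_meas (x ν : V) (a b : ℝ) : Measurable (blow_v1 x ν a b) :=
  (measurable_const.indicator (blow_meas x ν)).add_const b

private theorem blow_v1_bdd (x ν : V) (a b : ℝ) (y : V) :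
    ‖blow_v1 x ν a b y‖ ≤ |a - b| + |b| := by
  unfold blow_v1
  refine (norm_add_le _ _).trans (add_le_add ?_ le_rfl)
  refine (norm_indicator_le_norm_self _ _).trans ?_
  exact le_rfl

private theorem blow_v1_pos {x ν : V} {a b : ℝ} {y : V} (h : 0 < ⟪y - x, ν⟫) :
    blow_v1 x ν a b y = a := by
  unfold blow_v1
  rw [indicator_of_mem (by exact h)]
  ring

private theorem blow_v1_neg {x ν : V} {a b : ℝ} {y : V} (h : ¬ 0 < ⟪y - x, ν⟫) :
    blow_v1 x ν a b y = b := by
  unfold blow_v1
  rw [indicator_of_notMem (by exact h)]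
  ring

/-- the limit function is the mollification of the two-valued function -/
private theorem blow_Th {ε : ℝ} (hε : 0 < ε) (x ν : V) (a b : ℝ) (z : V) :
    mol ε (blow_v1 x ν a b) (x + ε • z) = b + (a - b) * Th ν z := by
  rw [mol_eq hε]
  have hS : MeasurableSet {w : V | 0 < ⟪z - w, ν⟫} :=
    (isOpen_lt continuous_const (by fun_prop)).measurableSet
  have e1 : ∀ w : V, rho w • blow_v1 x ν a b (x + ε • z - ε • w) =
      b * rho w + (a - b) * {w : V | 0 < ⟪z - w, ν⟫}.indicator rho w := by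
    intro w
    have e2 : x + ε • z - ε • w - x = ε • (z - w) := by
      rw [smul_sub]
      abel
    have e3 : 0 < ⟪x + ε • z - ε • w - x, ν⟫ ↔ 0 < ⟪z - w, ν⟫ := by
      rw [e2, real_inner_smul_left]
      exact mul_pos_iff_of_pos_left hε
    by_cases h : 0 < ⟪z - w, ν⟫
    · rw [blow_v1_pos (e3.2 h), indicator_of_mem (by exact h), smul_eq_mul]
      ring
    · rw [blow_v1_neg (fun h' => h (e3.1 h')), indicator_of_notMem (by exact h), smul_eq_mul]
      ring
  simp_rw [e1]
  rw [integral_add (blow_rho_int.const_mul b) ((blow_rho_int.indicator hS).const_mul (a - b)),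
    integral_const_mul, integral_const_mul, rho_int, integral_indicator hS]
  unfold Th
  ring

/-- the line through `x` orthogonal to `ν` is a null set -/
private theorem blow_null (x : V) {ν : V} (hν : ‖ν‖ = 1) :
    volume {y : V | ⟪y - x, ν⟫ = 0} = 0 := by
  have h0 : volume ((LinearMap.ker (innerSL ℝ ν).toLinearMap : Submodule ℝ V) : Set V) = 0 := by
    apply Measure.addHaar_submodule
    intro htop
    have h1 : ν ∈ LinearMap.ker (innerSL ℝ ν).toLinearMap := by
      rw [htop]
      trivial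
    rw [LinearMap.mem_ker] at h1
    have h2 : ⟪ν, ν⟫ = 0 := h1
    rw [real_inner_self_eq_norm_sq, hν] at h2
    norm_num at h2
  have h1 : {y : V | ⟪y - x, ν⟫ = 0} = (fun y => y - x) ⁻¹'
      ((LinearMap.ker (innerSL ℝ ν).toLinearMap : Submodule ℝ V) : Set V) := by
    ext y
    rw [mem_preimage, SetLike.mem_coe, LinearMap.mem_ker]
    change ⟪y - x, ν⟫ = 0 ↔ ⟪ν, y - x⟫ = 0
    rw [real_inner_comm]
  rw [h1, (measurePreserving_sub_right volume x).measure_preimage ?_]
  · exact h0
  · exact (Submodule.closed_of_finiteDimensional _).measurableSet.nullMeasurableSet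

private theorem blow_split {v : V → ℝ} (hv : Integrable v) {x : V} {a b : ℝ} {ν : V}
    (hν : ‖ν‖ = 1) (r : ℝ) :
    ∫ y in ball x r, |v y - blow_v1 x ν a b y| =
      (∫ y in ball x r ∩ {y | 0 < ⟪y - x, ν⟫}, |v y - a|) +
        ∫ y in ball x r ∩ {y | ⟪y - x, ν⟫ < 0}, |v y - b| := by
  have hint : IntegrableOn (fun y => |v y - blow_v1 x ν a b y|) (ball x r) := by
    have h1 : IntegrableOn (blow_v1 x ν a b) (ball x r) := by
      refine Measure.integrableOn_of_bounded (M := |a - b| + |b|) measure_ball_lt_top.ne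
        (blow_v1_meas x ν a b).aestronglyMeasurable
        (Eventually.of_forall fun y => blow_v1_bdd x ν a b y)
    exact (hv.integrableOn.sub h1).abs
  rw [← integral_inter_add_sdiff (blow_meas x ν) hint]
  congr 1
  · refine setIntegral_congr_fun (measurableSet_ball.inter (blow_meas x ν)) fun y hy => ?_
    rw [blow_v1_pos hy.2]
  · have h1 : ∫ y in ball x r \ {y | 0 < ⟪y - x, ν⟫}, |v y - blow_v1 x ν a b y| =
        ∫ y in ball x r \ {y | 0 < ⟪y - x, ν⟫}, |v y - b| := by
      refine setIntegral_congr_fun (measurableSet_ball.diff (blow_meas x ν)) fun y hy => ?_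
      rw [blow_v1_neg hy.2]
    rw [h1]
    refine setIntegral_congr_set ?_
    have h2 : ∀ᵐ y : V, ¬ ⟪y - x, ν⟫ = 0 := by
      rw [ae_iff]
      simp only [not_not]
      exact blow_null x hν
    filter_upwards [h2] with y hy
    apply propext
    constructor
    · intro h
      exact ⟨h.1, lt_of_le_of_ne (not_lt.1 h.2) hy⟩
    · intro h
      have h3 : ⟪y - x, ν⟫ < 0 := h.2
      exact ⟨h.1, fun h' => lt_asymm h3 (show 0 < ⟪y - x, ν⟫ from h')⟩

/-- **BLOW (a).** At a point with one-sided limits the mollifications converge, after rescaling,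
uniformly on `‖z‖ ≤ 2` to `b + (a - b) Θ_ν`.
PROOF: `mol ε v (x + ε z) = ∫ ρ(w) v(x + ε (z - w)) dw` (`mol_eq`), and
`b + (a-b) Θ_ν(z) = ∫ ρ(w) v₀(z - w) dw` with `v₀ = a` on `{⟪·,ν⟫ > 0}`, `b` on `{⟪·,ν⟫ < 0}`
(the line `⟪·,ν⟫ = 0` is a null set, `rho_int`).  So the difference is at most
`M ∫_{‖y‖ < 5} |v(x + ε y) - v₀(y)| dy = M ε⁻² (∫_{B_{5ε}(x), ⟪y-x,ν⟫>0} |v - a| +
∫_{B_{5ε}(x), ⟪y-x,ν⟫<0} |v - b|)` with `M` from `rho_bdd` (`‖z - w‖ ≤ 4`), and this tends to `0`
by `HasTraces` (with `r = 5 ε`). -/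
theorem blow_unif {v : V → ℝ} (hv : Integrable v) {x : V} {a b : ℝ} {ν : V}
    (h : HasTraces v x a b ν) {η : ℝ} (hη : 0 < η) :
    ∀ᶠ ε : ℝ in 𝓝[>] 0, ∀ z : V, ‖z‖ ≤ 2 → |mol ε v (x + ε • z) - (b + (a - b) * Th ν z)| ≤ η := by
  obtain ⟨M0, hM0⟩ := rho_bdd
  obtain ⟨M, hMpos, hM⟩ : ∃ M : ℝ, 0 < M ∧ ∀ x, rho x ≤ M :=
    ⟨max M0 1, lt_of_lt_of_le one_pos (le_max_right _ _), fun x => (hM0 x).trans (le_max_left _ _)⟩
  obtain ⟨hν, hA, hB⟩ := h
  have hpos : ∀ᶠ ε : ℝ in 𝓝[>] 0, 0 < ε := self_mem_nhdsWithin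
  have h5 : Tendsto (fun ε : ℝ => 5 * ε) (𝓝[>] 0) (𝓝[>] 0) := by
    rw [tendsto_nhdsWithin_iff]
    constructor
    · have h3 : Tendsto (fun ε : ℝ => 5 * ε) (𝓝 0) (𝓝 (5 * 0)) :=
        (continuous_const.mul continuous_id).tendsto 0
      rw [mul_zero] at h3
      exact h3.mono_left nhdsWithin_le_nhds
    · filter_upwards [hpos] with ε hε
      exact mem_Ioi.2 (by linarith)
  have hη' : 0 < η / (50 * M) := by positivity
  have hA' := (hA.comp h5).eventually (gt_mem_nhds hη')
  have hB' := (hB.comp h5).eventually (gt_mem_nhds hη')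
  filter_upwards [hpos, hA', hB'] with ε hε hAε hBε z hz
  simp only [Function.comp_apply] at hAε hBε
  set p := x + ε • z with hp
  rw [← blow_Th hε x ν a b z, ← hp]
  unfold mol
  have hmeas : AEStronglyMeasurable (fun y : V => rhoE ε (p - y)) volume :=
    ((blow_rhoE_cont ε).comp (by fun_prop : Continuous fun y : V => p - y)).aestronglyMeasurable
  have hbd : ∀ y : V, ‖rhoE ε (p - y)‖ ≤ (ε ^ 2)⁻¹ * M := fun y => blow_rhoE_le hM ε _
  have i1 : Integrable fun y => rhoE ε (p - y) • v y := by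
    simp only [smul_eq_mul]
    exact hv.bdd_mul hmeas (Eventually.of_forall hbd)
  have i2 : Integrable fun y => rhoE ε (p - y) • blow_v1 x ν a b y := by
    simp only [smul_eq_mul]
    exact ((blow_rhoE_int hε).comp_sub_left p).mul_bdd
      (blow_v1_meas x ν a b).aestronglyMeasurable
      (Eventually.of_forall fun y => blow_v1_bdd x ν a b y)
  rw [← integral_sub i1 i2, ← Real.norm_eq_abs]
  refine (norm_integral_le_integral_norm _).trans ?_
  have hint : IntegrableOn (fun y => |v y - blow_v1 x ν a b y|) (ball x (5 * ε)) := by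
    have h1 : IntegrableOn (blow_v1 x ν a b) (ball x (5 * ε)) := by
      refine Measure.integrableOn_of_bounded (M := |a - b| + |b|) measure_ball_lt_top.ne
        (blow_v1_meas x ν a b).aestronglyMeasurable
        (Eventually.of_forall fun y => blow_v1_bdd x ν a b y)
    exact (hv.integrableOn.sub h1).abs
  have hle : ∫ y, ‖rhoE ε (p - y) • v y - rhoE ε (p - y) • blow_v1 x ν a b y‖ ≤
      ∫ y, (ball x (5 * ε)).indicator
        (fun y => (ε ^ 2)⁻¹ * M * |v y - blow_v1 x ν a b y|) y := by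
    have hint2 : IntegrableOn (fun y => (ε ^ 2)⁻¹ * M * |v y - blow_v1 x ν a b y|)
        (ball x (5 * ε)) := hint.const_mul _
    refine integral_mono (i1.sub i2).norm (hint2.integrable_indicator
      measurableSet_ball) fun y => ?_
    simp only
    rw [← smul_sub, norm_smul]
    by_cases hy : y ∈ ball x (5 * ε)
    · rw [indicator_of_mem hy]
      exact mul_le_mul_of_nonneg_right (hbd y) (abs_nonneg _)
    · rw [indicator_of_notMem hy, rhoE_zero hε, norm_zero, zero_mul]
      rw [mem_ball, not_lt, dist_eq_norm] at hy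
      have h1 : y - x = ε • z - (p - y) := by
        rw [hp]
        abel
      have h2 : ‖y - x‖ ≤ ‖ε • z‖ + ‖p - y‖ := by
        rw [h1]
        exact norm_sub_le _ _
      have h3 : ‖ε • z‖ ≤ 2 * ε := by
        rw [norm_smul, Real.norm_eq_abs, abs_of_pos hε, mul_comm]
        exact mul_le_mul_of_nonneg_right hz hε.le
      linarith
  refine hle.trans ?_
  rw [integral_indicator measurableSet_ball, integral_const_mul, blow_split hv hν]
  have hr2 : (0 : ℝ) < (5 * ε) ^ 2 := by positivity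
  rw [div_lt_iff₀ hr2] at hAε hBε
  have hc : 0 < (ε ^ 2)⁻¹ * M := by positivity
  have hsum := add_le_add hAε.le hBε.le
  refine (mul_le_mul_of_nonneg_left hsum hc.le).trans (le_of_eq ?_)
  field_simp
  ring

private theorem blow_mol_cont {v : V → ℝ} (hv : Integrable v) (ε : ℝ) :
    Continuous (mol ε v) := by
  obtain ⟨M, hM⟩ := rho_bdd
  unfold mol
  refine continuous_of_dominated (bound := fun y => (ε ^ 2)⁻¹ * M * ‖v y‖) ?_ ?_ ?_ ?_
  · intro p
    exact (((blow_rhoE_cont ε).comp
      (by fun_prop : Continuous fun y : V => p - y)).aestronglyMeasurable).smul hv.1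
  · intro p
    refine Eventually.of_forall fun y => ?_
    rw [norm_smul]
    exact mul_le_mul_of_nonneg_right (blow_rhoE_le hM ε _) (norm_nonneg _)
  · exact hv.norm.const_mul _
  · refine Eventually.of_forall fun y => ?_
    exact ((blow_rhoE_cont ε).comp (by fun_prop : Continuous fun p : V => p - y)).smul
      continuous_const

/-- change of variables -/
private theorem blow_change {ε : ℝ} (hε : 0 < ε) (u : V → ℝ) (x : V) :
    ∫ y, rhoE ε (y - x) * u y = ∫ z, rho z * u (x + ε • z) := by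
  have h1 := mol_eq hε u x
  unfold mol at h1
  simp only [smul_eq_mul] at h1
  have h2 : ∫ y, rhoE ε (y - x) * u y = ∫ y, rhoE ε (x - y) * u y := by
    congr 1
    funext y
    rw [← rhoE_even ε (y - x), neg_sub]
  rw [h2, h1, ← integral_neg_eq_self (fun w => rho w * u (x - ε • w))]
  congr 1
  funext z
  rw [rho_even, smul_neg, sub_neg_eq_add]

/-- **BLOW (b).** PROOF: change variables `y = x + ε z`:
`∫ rhoE ε (y - x) k(mol ε v y) w y dy = ∫ ρ(z) k(mol ε v (x + ε z)) w(x + ε z) dz`; dominated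
convergence (`k` bounded, `w` bounded near `x`, `ρ` integrable with support in `‖z‖ ≤ 2`), pointwise
convergence by (a) and continuity. -/
theorem blow_lim {v : V → ℝ} (hv : Integrable v) {x : V} {a b : ℝ} {ν : V}
    (h : HasTraces v x a b ν) {k : ℝ → ℝ} (hk : Continuous k) {M : ℝ} (hM : ∀ t, |k t| ≤ M)
    {w : V → ℝ} (hw : Continuous w) :
    Tendsto (fun ε : ℝ => ∫ y, rhoE ε (y - x) * (k (mol ε v y) * w y)) (𝓝[>] 0)
      (𝓝 (w x * ∫ z, rho z * k (b + (a - b) * Th ν z))) := by
  have hM0 : 0 ≤ M := (abs_nonneg _).trans (hM 0)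
  have hpos : ∀ᶠ ε : ℝ in 𝓝[>] 0, 0 < ε := self_mem_nhdsWithin
  have hone : ∀ᶠ ε : ℝ in 𝓝[>] 0, ε < 1 := nhdsWithin_le_nhds (gt_mem_nhds one_pos)
  obtain ⟨W, hW⟩ := (isCompact_closedBall x 2).exists_bound_of_continuousOn hw.continuousOn
  have hlim : w x * ∫ z, rho z * k (b + (a - b) * Th ν z) =
      ∫ z, rho z * (k (b + (a - b) * Th ν z) * w x) := by
    rw [← integral_const_mul]
    congr 1
    funext z
    ring
  rw [hlim]
  have hcongr : ∀ᶠ ε : ℝ in 𝓝[>] 0, ∫ z, rho z * (k (mol ε v (x + ε • z)) * w (x + ε • z)) =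
      ∫ y, rhoE ε (y - x) * (k (mol ε v y) * w y) := by
    filter_upwards [hpos] with ε hε
    exact (blow_change hε (fun y => k (mol ε v y) * w y) x).symm
  refine Tendsto.congr' hcongr ?_
  refine tendsto_integral_filter_of_dominated_convergence (fun z => rho z * (M * W)) ?_ ?_
    (blow_rho_int.mul_const _) ?_
  · refine Eventually.of_forall fun ε => ?_
    have hc : Continuous fun z : V => rho z * (k (mol ε v (x + ε • z)) * w (x + ε • z)) := by
      have h1 := rho_smooth.continuous
      have h2 := blow_mol_cont hv ε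
      fun_prop
    exact hc.aestronglyMeasurable
  · filter_upwards [hpos, hone] with ε hε hε1
    refine Eventually.of_forall fun z => ?_
    rw [norm_mul, Real.norm_eq_abs, abs_of_nonneg (rho_nonneg z)]
    by_cases hz : ‖z‖ ≤ 2
    · refine mul_le_mul_of_nonneg_left ?_ (rho_nonneg z)
      rw [norm_mul]
      refine mul_le_mul (hM _) (hW _ ?_) (norm_nonneg _) hM0
      rw [mem_closedBall, dist_eq_norm, add_sub_cancel_left, norm_smul, Real.norm_eq_abs,
        abs_of_pos hε]
      calc ε * ‖z‖ ≤ 1 * 2 := mul_le_mul hε1.le hz (norm_nonneg _) one_pos.le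
        _ = 2 := one_mul 2
    · rw [rho_zero (not_le.1 hz).le, zero_mul, zero_mul]
  · refine Eventually.of_forall fun z => ?_
    by_cases hz : ‖z‖ ≤ 2
    · have h1 : Tendsto (fun ε : ℝ => mol ε v (x + ε • z)) (𝓝[>] 0)
          (𝓝 (b + (a - b) * Th ν z)) := by
        rw [Metric.tendsto_nhds]
        intro η hη
        filter_upwards [blow_unif hv h (half_pos hη)] with ε hε
        rw [Real.dist_eq]
        exact lt_of_le_of_lt (hε z hz) (half_lt_self hη)
      have h2 : Tendsto (fun ε : ℝ => w (x + ε • z)) (𝓝[>] 0) (𝓝 (w x)) := by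
        have h3 : Tendsto (fun ε : ℝ => w (x + ε • z)) (𝓝 0) (𝓝 (w (x + (0 : ℝ) • z))) :=
          (by fun_prop : Continuous fun ε : ℝ => w (x + ε • z)).tendsto 0
        rw [zero_smul, add_zero] at h3
        exact h3.mono_left nhdsWithin_le_nhds
      exact (((hk.tendsto _).comp h1).mul h2).const_mul (rho z)
    · have h0 : rho z = 0 := rho_zero (not_le.1 hz).le
      simp only [h0, zero_mul]
      exact tendsto_const_nhds

end MP_614bef_an
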