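import Pool.Agent.Lib.MP_614bef_an.Chain

set_option autoImplicit false

namespace MP_614bef_an

open MeasureTheory Set Filter Metric
open scoped RealInnerProductSpace ENNReal NNReal Topology ContDiff

/-- A calibration `Ψ(x,t) = h1(t) b1(x) + h2(t) b2(x)`. -/
structure Calib (D : Set V) (f c : V → ℝ) (b1 b2 : V → V) (h1 h2 : ℝ → ℝ) : Prop where
  Dm : MeasurableSet D
  Db : Bornology.IsBounded D
  fm : Measurable f
  fb : ∃ M : ℝ, ∀ x, |f x| ≤ M
  cm : Measurable c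
  c0 : ∀ x, 0 ≤ c x
  cb : ∃ M : ℝ, ∀ x, c x ≤ M
  b1l : ∃ K : ℝ≥0, LipschitzWith K b1
  b2l : ∃ K : ℝ≥0, LipschitzWith K b2
  b1b : ∀ x, ‖b1 x‖ ≤ 1
  b2b : ∀ x, ‖b2 x‖ ≤ 1
  h1c : ContDiff ℝ 1 h1
  h2c : ContDiff ℝ 1 h2
  h10 : h1 0 = 0
  h20 : h2 0 = 0
  h1d : ∃ M : ℝ, ∀ t, |deriv h1 t| ≤ M
  h2d : ∃ M : ℝ, ∀ t, |deriv h2 t| ≤ M
  d10 : deriv h1 0 = 0
  d20 : deriv h2 0 = 0
  h1n : ∀ t, 0 ≤ h1 t
  h2n : ∀ t, 0 ≤ h2 t
  hs : ∀ t, h1 t + h2 t ≤ t ^ 2
  main : ∀ᵐ x ∂(volume.restrict D), ∀ t : ℝ, t ≠ 0 →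
    0 ≤ 1 + c x - f x * t - (h1 t * divg b1 x + h2 t * divg b2 x) -
      ‖deriv h1 t • b1 x + deriv h2 t • b2 x‖ ^ 2 / 4

private theorem Cal_lip {h : ℝ → ℝ} (hh : ContDiff ℝ 1 h) {M : ℝ} (hM : ∀ t, |deriv h t| ≤ M)
    (s t : ℝ) : |h s - h t| ≤ M * |s - t| := by
  have h1 := Convex.norm_image_sub_le_of_norm_deriv_le (f := h) (s := Set.univ) (x := t) (y := s)
    (C := M) (fun x _ => (hh.differentiable one_ne_zero).differentiableAt)
    (fun x _ => hM x) convex_univ (mem_univ _) (mem_univ _)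
  exact h1

private theorem Cal_int1 {v : V → ℝ} (hv : Integrable v) {h : ℝ → ℝ} (hh : ContDiff ℝ 1 h)
    (h0 : h 0 = 0) {M : ℝ} (hM : ∀ t, |deriv h t| ≤ M) {b : V → V} {K : ℝ≥0}
    (hb : LipschitzWith K b) : Integrable (fun x => h (v x) * divg b x) := by
  have h1 : Integrable (fun x => h (v x)) := by
    refine (hv.norm.const_mul M).mono' (hh.continuous.comp_aestronglyMeasurable hv.1) ?_
    filter_upwards with x
    have := Cal_lip hh hM (v x) 0
    rw [h0, sub_zero, sub_zero] at this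
    exact this
  exact h1.mul_bdd (c := 2 * K) (divg_measurable hb.continuous).aestronglyMeasurable
    (Eventually.of_forall fun x => divg_bound hb x)

private theorem Cal_int2 {v : V → ℝ} (hv : Integrable v) {g : V → V} (hg : Integrable g)
    {h : ℝ → ℝ} (hh : ContDiff ℝ 1 h)
    {M : ℝ} (hM : ∀ t, |deriv h t| ≤ M) {b : V → V} (hb : Continuous b)
    (hB : ∀ x, ‖b x‖ ≤ 1) : Integrable (fun x => deriv h (v x) * ⟪b x, g x⟫) := by
  have h1 : Integrable (fun x => ⟪b x, g x⟫) := by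
    refine hg.norm.mono' ?_ ?_
    · exact hb.aestronglyMeasurable.inner hg.1
    · filter_upwards with x
      calc ‖⟪b x, g x⟫‖ ≤ ‖b x‖ * ‖g x‖ := norm_inner_le_norm _ _
        _ ≤ 1 * ‖g x‖ := by gcongr; exact hB x
        _ = ‖g x‖ := one_mul _
  have h2 : AEStronglyMeasurable (fun x => deriv h (v x)) volume :=
    (hh.continuous_deriv le_rfl).comp_aestronglyMeasurable hv.1
  exact h1.bdd_mul (c := M) h2 (Eventually.of_forall fun x => hM _)

private theorem Cal_int3 {v : V → ℝ} {g : V → V} {vp vm : V → ℝ} {ν : V → V}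
    (hv : IsSBV v g vp vm ν) {h : ℝ → ℝ} (hh : ContDiff ℝ 1 h)
    {M : ℝ} (hM : ∀ t, |deriv h t| ≤ M) {b : V → V} (hb : Continuous b)
    (hB : ∀ x, ‖b x‖ ≤ 1) :
    Integrable (fun x => (h (vp x) - h (vm x)) * ⟪b x, ν x⟫) (μH[1].restrict (jumpSet v)) := by
  have hm : Measurable (fun x => (h (vp x) - h (vm x)) * ⟪b x, ν x⟫) :=
    (((hh.continuous.measurable.comp hv.mp).sub (hh.continuous.measurable.comp hv.mm)).mul
      (hb.measurable.inner hv.mν))
  refine (hv.intJ.norm.const_mul M).mono' hm.aestronglyMeasurable ?_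
  filter_upwards [ae_restrict_mem hv.mJ] with x hx
  have hν : ‖ν x‖ = 1 := (hv.tr x hx).2.1
  rw [norm_mul]
  have e1 := Cal_lip hh hM (vp x) (vm x)
  have e2 : ‖⟪b x, ν x⟫‖ ≤ 1 := by
    calc ‖⟪b x, ν x⟫‖ ≤ ‖b x‖ * ‖ν x‖ := norm_inner_le_norm _ _
      _ ≤ 1 * 1 := by rw [hν]; gcongr; exact hB x
      _ = 1 := one_mul _
  calc ‖h (vp x) - h (vm x)‖ * ‖⟪b x, ν x⟫‖ ≤ ‖h (vp x) - h (vm x)‖ * 1 := by gcongr
    _ = |h (vp x) - h (vm x)| := by rw [mul_one]; rfl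
    _ ≤ M * ‖vp x - vm x‖ := e1

/-- the sum of the two chain rule identities, in `D` -/
private theorem Cal_core {D : Set V} {f c : V → ℝ} {b1 b2 : V → V} {h1 h2 : ℝ → ℝ}
    (H : Calib D f c b1 b2 h1 h2) {v : V → ℝ} {g : V → V} {vp vm : V → ℝ} {ν : V → V}
    (hv : Adm D v g vp vm ν) :
    Integrable (fun x => (h1 (vp x) - h1 (vm x)) * ⟪b1 x, ν x⟫ +
      (h2 (vp x) - h2 (vm x)) * ⟪b2 x, ν x⟫) (μH[1].restrict (jumpSet v)) ∧
    IntegrableOn (fun x => ‖g x‖ ^ 2 - f x * v x + (if v x ≠ 0 then (1 : ℝ) else 0) -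
      (h1 (v x) * divg b1 x + h2 (v x) * divg b2 x) -
        ⟪deriv h1 (v x) • b1 x + deriv h2 (v x) • b2 x, g x⟫) D ∧
    bulkE D f v g = (∫ x in D, (‖g x‖ ^ 2 - f x * v x + (if v x ≠ 0 then (1 : ℝ) else 0) -
      (h1 (v x) * divg b1 x + h2 (v x) * divg b2 x) -
        ⟪deriv h1 (v x) • b1 x + deriv h2 (v x) • b2 x, g x⟫)) -
      ∫ x in jumpSet v, ((h1 (vp x) - h1 (vm x)) * ⟪b1 x, ν x⟫ +
      (h2 (vp x) - h2 (vm x)) * ⟪b2 x, ν x⟫) ∂μH[1] := by
  classical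
  obtain ⟨K1, hK1⟩ := H.b1l
  obtain ⟨K2, hK2⟩ := H.b2l
  obtain ⟨M1, hM1⟩ := H.h1d
  obtain ⟨M2, hM2⟩ := H.h2d
  obtain ⟨Mf, hMf⟩ := H.fb
  obtain ⟨R, hR⟩ := H.Db.subset_closedBall (0 : V)
  have hvR : ∀ᵐ x, x ∉ closedBall (0 : V) R → v x = 0 := by
    filter_upwards [hv.out] with x hx hxR
    exact hx fun h => hxR (hR h)
  have c1 := chain_ibp hv.sbv hvR H.h1c H.h10 hM1 hK1 H.b1b
  have c2 := chain_ibp hv.sbv hvR H.h2c H.h20 hM2 hK2 H.b2b
  have i11 := Cal_int1 hv.sbv.int H.h1c H.h10 hM1 hK1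
  have i12 := Cal_int1 hv.sbv.int H.h2c H.h20 hM2 hK2
  have i21 := Cal_int2 hv.sbv.int hv.sbv.intg H.h1c hM1 hK1.continuous H.b1b
  have i22 := Cal_int2 hv.sbv.int hv.sbv.intg H.h2c hM2 hK2.continuous H.b2b
  have i31 := Cal_int3 hv.sbv H.h1c hM1 hK1.continuous H.b1b
  have i32 := Cal_int3 hv.sbv H.h2c hM2 hK2.continuous H.b2b
  have hDv : volume D < ⊤ := H.Db.measure_lt_top
  -- integrability of the energy density
  have j1 : IntegrableOn (fun x => ‖g x‖ ^ 2) D := by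
    have := hv.sq.integrable_norm_pow (by norm_num : (2 : ℕ) ≠ 0)
    exact this.integrableOn
  have j2 : IntegrableOn (fun x => f x * v x) D :=
    (hv.sbv.int.bdd_mul (c := Mf) H.fm.aestronglyMeasurable
      (Eventually.of_forall fun x => hMf x)).integrableOn
  have hvm : NullMeasurableSet {x | v x ≠ 0} volume := by
    have : {x | v x ≠ 0} = (v ⁻¹' {0})ᶜ := rfl
    rw [this]
    exact (hv.sbv.int.1.aemeasurable.nullMeasurableSet_preimage (measurableSet_singleton 0)).compl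
  have j3 : IntegrableOn (fun x => if v x ≠ 0 then (1 : ℝ) else 0) D := by
    have h3 : (fun x => if v x ≠ 0 then (1 : ℝ) else 0) = {x | v x ≠ 0}.indicator (fun _ => 1) := by
      ext x
      rw [indicator_apply]
      rfl
    rw [h3]
    have h4 : IntegrableOn (fun _ : V => (1 : ℝ)) D := by
      rw [integrableOn_const_iff]
      exact Or.inr hDv
    exact h4.indicator₀ (hvm.mono_ac Measure.restrict_le_self.absolutelyContinuous)
  have hA : (fun x => h1 (v x) * divg b1 x + h2 (v x) * divg b2 x) =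
      (fun x => h1 (v x) * divg b1 x) + fun x => h2 (v x) * divg b2 x := rfl
  have hBe : (fun x => ⟪deriv h1 (v x) • b1 x + deriv h2 (v x) • b2 x, g x⟫) =
      (fun x => deriv h1 (v x) * ⟪b1 x, g x⟫) + fun x => deriv h2 (v x) * ⟪b2 x, g x⟫ := by
    ext x
    simp only [Pi.add_apply, inner_add_left, real_inner_smul_left]
  have kA : Integrable (fun x => h1 (v x) * divg b1 x + h2 (v x) * divg b2 x) := by
    rw [hA]; exact i11.add i12
  have kB : Integrable (fun x => ⟪deriv h1 (v x) • b1 x + deriv h2 (v x) • b2 x, g x⟫) := by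
    rw [hBe]; exact i21.add i22
  refine ⟨i31.add i32, (((j1.sub j2).add j3).sub kA.integrableOn).sub kB.integrableOn, ?_⟩
  -- the volume term
  have hvol : volume.real {x | v x ≠ 0} = ∫ x in D, (if v x ≠ 0 then (1 : ℝ) else 0) := by
    have h3 : (fun x => if v x ≠ 0 then (1 : ℝ) else 0) = {x | v x ≠ 0}.indicator (fun _ => 1) := by
      ext x
      rw [indicator_apply]
      rfl
    rw [h3, integral_indicator₀ (hvm.mono_ac Measure.restrict_le_self.absolutelyContinuous),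
      setIntegral_const, smul_eq_mul, mul_one]
    unfold Measure.real
    congr 1
    rw [Measure.restrict_apply₀ (hvm.mono_ac Measure.restrict_le_self.absolutelyContinuous)]
    apply measure_congr
    filter_upwards [hv.out] with x hx
    have : (v x ≠ 0) = (v x ≠ 0 ∧ x ∈ D) := by
      apply propext
      exact ⟨fun h => ⟨h, by_contra fun h' => h (hx h')⟩, fun h => h.1⟩
    exact this
  -- integrals over the plane are integrals over `D`
  have eA : ∫ x, (h1 (v x) * divg b1 x + h2 (v x) * divg b2 x) =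
      ∫ x in D, (h1 (v x) * divg b1 x + h2 (v x) * divg b2 x) := by
    symm
    apply setIntegral_eq_integral_of_ae_compl_eq_zero
    filter_upwards [hv.out] with x hx hxD
    rw [hx hxD, H.h10, H.h20]
    ring
  have eB : ∫ x, ⟪deriv h1 (v x) • b1 x + deriv h2 (v x) • b2 x, g x⟫ =
      ∫ x in D, ⟪deriv h1 (v x) • b1 x + deriv h2 (v x) • b2 x, g x⟫ := by
    symm
    apply setIntegral_eq_integral_of_ae_compl_eq_zero
    filter_upwards [hv.out] with x hx hxD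
    rw [hx hxD, H.d10, H.d20]
    simp
  have e1 : ∫ x, (h1 (v x) * divg b1 x + h2 (v x) * divg b2 x) =
      (∫ x, h1 (v x) * divg b1 x) + ∫ x, h2 (v x) * divg b2 x := integral_add i11 i12
  have e2 : ∫ x, ⟪deriv h1 (v x) • b1 x + deriv h2 (v x) • b2 x, g x⟫ =
      (∫ x, deriv h1 (v x) * ⟪b1 x, g x⟫) + ∫ x, deriv h2 (v x) * ⟪b2 x, g x⟫ := by
    rw [hBe]
    exact integral_add i21 i22
  have e3 : ∫ x in jumpSet v, ((h1 (vp x) - h1 (vm x)) * ⟪b1 x, ν x⟫ +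
      (h2 (vp x) - h2 (vm x)) * ⟪b2 x, ν x⟫) ∂μH[1] =
      (∫ x in jumpSet v, (h1 (vp x) - h1 (vm x)) * ⟪b1 x, ν x⟫ ∂μH[1]) +
      ∫ x in jumpSet v, (h2 (vp x) - h2 (vm x)) * ⟪b2 x, ν x⟫ ∂μH[1] := integral_add i31 i32
  have e4 : (∫ x in D, (‖g x‖ ^ 2 - f x * v x + (if v x ≠ 0 then (1 : ℝ) else 0) -
      (h1 (v x) * divg b1 x + h2 (v x) * divg b2 x) -
        ⟪deriv h1 (v x) • b1 x + deriv h2 (v x) • b2 x, g x⟫)) =
      (∫ x in D, (‖g x‖ ^ 2 - f x * v x)) + (∫ x in D, (if v x ≠ 0 then (1 : ℝ) else 0)) -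
      (∫ x in D, (h1 (v x) * divg b1 x + h2 (v x) * divg b2 x)) -
      ∫ x in D, ⟪deriv h1 (v x) • b1 x + deriv h2 (v x) • b2 x, g x⟫ := by
    have j12 : IntegrableOn (fun x => ‖g x‖ ^ 2 - f x * v x) D := j1.sub j2
    have j123 : IntegrableOn (fun x => ‖g x‖ ^ 2 - f x * v x +
      (if v x ≠ 0 then (1 : ℝ) else 0)) D := j12.add j3
    have j1234 : IntegrableOn (fun x => ‖g x‖ ^ 2 - f x * v x +
      (if v x ≠ 0 then (1 : ℝ) else 0) - (h1 (v x) * divg b1 x + h2 (v x) * divg b2 x)) D :=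
      j123.sub kA.integrableOn
    rw [integral_sub j1234 kB.integrableOn, integral_sub j123 kA.integrableOn,
      integral_add j12 j3]
  rw [e4, e3, ← eA, ← eB, e1, e2]
  unfold bulkE
  rw [hvol]
  linarith

/-- **CALA (a).** Lower bound for all admissible functions. -/
theorem calib_lower {D : Set V} {f c : V → ℝ} {b1 b2 : V → V} {h1 h2 : ℝ → ℝ}
    (H : Calib D f c b1 b2 h1 h2) {v : V → ℝ} {g : V → V} {vp vm : V → ℝ} {ν : V → V}
    (hv : Adm D v g vp vm ν) :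
    ((-(∫ x in D, c x) : ℝ) : EReal) ≤ energy D f v g vp vm := by
  obtain ⟨k1, k2, k3⟩ := Cal_core H hv
  unfold energy
  by_cases hJ : jumpE v vp vm = ⊤
  · rw [hJ]
    simp
  have hm : Measurable fun x => vp x ^ 2 + vm x ^ 2 := (hv.sbv.mp.pow_const 2).add
    (hv.sbv.mm.pow_const 2)
  have hJi : Integrable (fun x => vp x ^ 2 + vm x ^ 2) (μH[1].restrict (jumpSet v)) := by
    refine ⟨hm.aestronglyMeasurable, ?_⟩
    rw [hasFiniteIntegral_iff_ofReal (Eventually.of_forall fun x => by positivity)]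
    exact lt_of_le_of_ne le_top hJ
  have hJr : (jumpE v vp vm) = ENNReal.ofReal (∫ x in jumpSet v, (vp x ^ 2 + vm x ^ 2) ∂μH[1]) := by
    rw [ofReal_integral_eq_lintegral_ofReal hJi (Eventually.of_forall fun x => by positivity)]
    rfl
  have hJ0 : 0 ≤ ∫ x in jumpSet v, (vp x ^ 2 + vm x ^ 2) ∂μH[1] :=
    integral_nonneg fun x => by positivity
  rw [hJr, EReal.coe_ennreal_ofReal, max_eq_left hJ0, ← EReal.coe_add, EReal.coe_le_coe_iff, k3]
  have hc : IntegrableOn c D := by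
    obtain ⟨M, hM⟩ := H.cb
    refine Measure.integrableOn_of_bounded (M := M) H.Db.measure_lt_top.ne
      H.cm.aestronglyMeasurable ?_
    filter_upwards with x
    rw [Real.norm_eq_abs, abs_of_nonneg (H.c0 x)]
    exact hM x
  have g1 : -(∫ x in D, c x) ≤ ∫ x in D, (‖g x‖ ^ 2 - f x * v x + (if v x ≠ 0 then (1 : ℝ) else 0) -
      (h1 (v x) * divg b1 x + h2 (v x) * divg b2 x) -
        ⟪deriv h1 (v x) • b1 x + deriv h2 (v x) • b2 x, g x⟫) := by
    rw [← integral_neg]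
    apply integral_mono_ae hc.neg k2
    filter_upwards [H.main] with x hx
    by_cases h0 : v x = 0
    · simp only [h0, ne_eq, not_true_eq_false, if_false, H.h10, H.h20, H.d10, H.d20, zero_smul,
        add_zero, inner_zero_left, zero_mul, mul_zero, sub_zero, Pi.neg_apply]
      have := H.c0 x
      have := sq_nonneg ‖g x‖
      linarith
    · have h3 := hx (v x) h0
      simp only [h0, ne_eq, not_false_eq_true, if_true, Pi.neg_apply]
      obtain ⟨w, hw⟩ : ∃ w : V, w = deriv h1 (v x) • b1 x + deriv h2 (v x) • b2 x := ⟨_, rfl⟩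
      rw [← hw] at h3 ⊢
      have h4 := real_inner_le_norm w (g x)
      nlinarith [sq_nonneg (‖g x‖ - ‖w‖ / 2)]
  have g2 : ∫ x in jumpSet v, ((h1 (vp x) - h1 (vm x)) * ⟪b1 x, ν x⟫ +
      (h2 (vp x) - h2 (vm x)) * ⟪b2 x, ν x⟫) ∂μH[1] ≤
      ∫ x in jumpSet v, (vp x ^ 2 + vm x ^ 2) ∂μH[1] := by
    apply integral_mono_ae k1 hJi
    filter_upwards [ae_restrict_mem hv.sbv.mJ] with x hx
    have hν : ‖ν x‖ = 1 := (hv.sbv.tr x hx).2.1
    have key : ∀ (b : V → V) (p q : ℝ), ‖b x‖ ≤ 1 → 0 ≤ p → 0 ≤ q →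
        (p - q) * ⟪b x, ν x⟫ ≤ p + q := by
      intro b p q hb hp hq
      have e1 : |⟪b x, ν x⟫| ≤ 1 := by
        calc |⟪b x, ν x⟫| ≤ ‖b x‖ * ‖ν x‖ := abs_real_inner_le_norm _ _
          _ ≤ 1 * 1 := by rw [hν]; gcongr
          _ = 1 := one_mul _
      obtain ⟨e2, e3⟩ := abs_le.1 e1
      nlinarith
    have q1 := key b1 (h1 (vp x)) (h1 (vm x)) (H.b1b x) (H.h1n _) (H.h1n _)
    have q2 := key b2 (h2 (vp x)) (h2 (vm x)) (H.b2b x) (H.h2n _) (H.h2n _)
    have q3 := H.hs (vp x)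
    have q4 := H.hs (vm x)
    linarith
  linarith

/-- **CALA (b).** The calibrated function has energy `-∫_D c`. Same computation with equalities. -/
theorem calib_eq {D : Set V} {f c : V → ℝ} {b1 b2 : V → V} {h1 h2 : ℝ → ℝ}
    (H : Calib D f c b1 b2 h1 h2) {u : V → ℝ} {g : V → V} {up um : V → ℝ} {ν : V → V}
    (hu : Adm D u g up um ν)
    (e1 : ∀ᵐ x ∂(volume.restrict D), u x ≠ 0 →
      ‖g x‖ ^ 2 - f x * u x + 1 - (h1 (u x) * divg b1 x + h2 (u x) * divg b2 x) -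
        ⟪deriv h1 (u x) • b1 x + deriv h2 (u x) • b2 x, g x⟫ = - c x)
    (e0 : ∀ᵐ x ∂(volume.restrict D), u x = 0 → g x = 0 ∧ c x = 0)
    (eJ : ∀ x ∈ jumpSet u, (h1 (up x) - h1 (um x)) * ⟪b1 x, ν x⟫ +
      (h2 (up x) - h2 (um x)) * ⟪b2 x, ν x⟫ = up x ^ 2 + um x ^ 2) :
    energy D f u g up um = ((-(∫ x in D, c x) : ℝ) : EReal) := by
  obtain ⟨k1, k2, k3⟩ := Cal_core H hu
  have hJae : ∀ᵐ x ∂(μH[1].restrict (jumpSet u)), (h1 (up x) - h1 (um x)) * ⟪b1 x, ν x⟫ +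
      (h2 (up x) - h2 (um x)) * ⟪b2 x, ν x⟫ = up x ^ 2 + um x ^ 2 := by
    filter_upwards [ae_restrict_mem hu.sbv.mJ] with x hx
    exact eJ x hx
  have hJi : Integrable (fun x => up x ^ 2 + um x ^ 2) (μH[1].restrict (jumpSet u)) :=
    k1.congr hJae
  have hJr : (jumpE u up um) = ENNReal.ofReal (∫ x in jumpSet u, (up x ^ 2 + um x ^ 2) ∂μH[1]) := by
    rw [ofReal_integral_eq_lintegral_ofReal hJi (Eventually.of_forall fun x => by positivity)]
    rfl
  have hJ0 : 0 ≤ ∫ x in jumpSet u, (up x ^ 2 + um x ^ 2) ∂μH[1] :=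
    integral_nonneg fun x => by positivity
  unfold energy
  rw [hJr, EReal.coe_ennreal_ofReal, max_eq_left hJ0, ← EReal.coe_add, k3,
    integral_congr_ae hJae, sub_add_cancel, ← integral_neg]
  congr 1
  apply integral_congr_ae
  filter_upwards [e1, e0] with x h1x h0x
  by_cases h0 : u x = 0
  · obtain ⟨hg, hc⟩ := h0x h0
    simp only [h0, ne_eq, not_true_eq_false, if_false, H.h10, H.h20, H.d10, H.d20, zero_smul,
      add_zero, inner_zero_left, zero_mul, mul_zero, sub_zero, hg, hc, norm_zero, neg_zero]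
    norm_num
  · have h3 := h1x h0
    simp only [h0, ne_eq, not_false_eq_true, if_true]
    exact h3

end MP_614bef_an

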