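import Pool.Agent.Lib.MP_614bef_an.CalIneq

set_option autoImplicit false

namespace MP_614bef_an

open MeasureTheory Set Filter Metric
open scoped RealInnerProductSpace ENNReal NNReal Topology ContDiff

theorem CalCold_N {x y : ℝ} {v1 v2 : V} (hv1 : ‖v1‖ ≤ 1) (hv2 : ‖v2‖ ≤ 1) {M : ℝ}
    (h : |x| + |y| ≤ M) : ‖x • v1 + y • v2‖ ^ 2 / 4 ≤ M ^ 2 / 4 := by
  have h1 : ‖x • v1 + y • v2‖ ≤ M := by
    calc ‖x • v1 + y • v2‖ ≤ ‖x • v1‖ + ‖y • v2‖ := norm_add_le _ _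
      _ = |x| * ‖v1‖ + |y| * ‖v2‖ := by rw [norm_smul, norm_smul, Real.norm_eq_abs, Real.norm_eq_abs]
      _ ≤ |x| * 1 + |y| * 1 := by gcongr
      _ ≤ M := by linarith
  have h2 := pow_le_pow_left₀ (norm_nonneg _) h1 2
  linarith

/-- **CALCOLD.** The calibration inequality in the cold ring: `v1 = b1 x`, `v2 = b2 x`,
`divg b1 = -B`, `divg b2 = -(q + η²)`, `η = ‖v2‖`.
PROOF. Write `a = aa`, `m = mm = a²`, `N = ‖h1' v1 + h2' v2‖ ≤ |h1'| + |h2'|`.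
* `t ≤ 2a`: `h1 = 0`, `h2 = t²`, `h2' = 2t`: the value is
  `q u² - 2 q u t + t² (q + η²) - t² η² = q (u - t)² ≥ 0`.
* `2a ≤ t ≤ 101a`: `h2 = 4a(t-a)`, `h1 ≥ 0`, `N ≤ 2t`:
  value `≥ q (u² - 2ut + 4a(t-a)) - t²`, and for `a ≤ u ≤ 1.001a`, `t ≥ 2a`:
  `u² - 2ut + 4at - 4a² ≥ 0.9 a² + 1.9 a (t - 2a)`; with `q ≥ 1.1/m` this is `≥ 0.99 + ... ≥ t²`.
* `101a ≤ t ≤ 201a`: `h2 ≥ 0`, `h1 ≥ (t-2a)²`, `N ≤ 2t + 20a`: value
  `≥ -2 q u t + (t-2a)²/(18 m) - (t + 10 a)²`; `2 q u t ≤ 2.61 t/a`.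
* `201a ≤ t ≤ 1`: `h2 = 0`, `h1 = t²`, `N ≤ 2t`: value `≥ q u² - 2qut + t² B - t²`.
* `t ≥ 1`: `h1 = 2t-1`, `N ≤ 2`: value `≥ -2 q u t + (2t-1) B - 1`. -/
theorem cal_cold {q u B t : ℝ} {v1 v2 : V} (hq1 : 11 / 10 / mm ≤ q) (hq2 : q ≤ 13 / 10 / mm)
    (hu1 : aa ≤ u) (hu2 : u ≤ 1001 / 1000 * aa) (hB : 1 / (18 * mm) ≤ B)
    (hv1 : ‖v1‖ ≤ 1) (hv2 : ‖v2‖ ≤ 1) (ht : 0 < t) :
    0 ≤ QQ q u (-B) (-(q + ‖v2‖ ^ 2)) t v1 v2 := by
  have ha : aa = 1 / 10000 := by unfold aa; norm_num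
  have hm : mm = 1 / 100000000 := by unfold mm; norm_num
  have hq0 : 110000000 ≤ q := by rw [hm] at hq1; norm_num at hq1; exact hq1
  have hq3 : q ≤ 130000000 := by rw [hm] at hq2; norm_num at hq2; exact hq2
  have hu0 : 1 / 10000 ≤ u := by rw [ha] at hu1; exact hu1
  have hu3 : u ≤ 1001 / 10000000 := by rw [ha] at hu2; norm_num at hu2; exact hu2
  have hB0 : 50000000 / 9 ≤ B := by rw [hm] at hB; norm_num at hB; exact hB
  have hqpos : 0 < q := by linarith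
  have hupos : 0 < u := by linarith
  have hBpos : 0 < B := by linarith
  have hqu : q * u ≤ 13013 := by
    have := mul_le_mul hq3 hu3 hupos.le (by norm_num : (0 : ℝ) ≤ 130000000)
    linarith
  have hqut : 2 * q * u * t ≤ 26026 * t := by
    have := mul_le_mul_of_nonneg_right hqu ht.le
    linarith
  have hquu : 0 ≤ q * u ^ 2 := by positivity
  obtain ⟨η, hη⟩ : ∃ η : ℝ, η = ‖v2‖ ^ 2 := ⟨_, rfl⟩
  have hη0 : 0 ≤ η := by rw [hη]; positivity
  unfold QQ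
  rcases le_total t (2 * aa) with h2a | h2a
  · obtain ⟨e1, e2, e3, e4⟩ := h_piece1 ht.le h2a
    rw [e1, e2, e3, e4, zero_smul, zero_add, norm_smul, Real.norm_eq_abs,
      abs_of_nonneg (by linarith : (0 : ℝ) ≤ 2 * t), mul_pow, ← hη]
    have h3 : 0 ≤ q * (u - t) ^ 2 := by positivity
    linarith
  rcases le_total t (101 * aa) with h101 | h101
  · obtain ⟨e1, e2, e3, e4⟩ := h_piece2 h2a h101
    have hN := CalCold_N (x := deriv h1 t) (y := deriv h2 t) hv1 hv2 (M := 2 * t) (by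
      rw [e3, e4, abs_of_nonneg (by linarith), abs_of_nonneg (by rw [ha]; norm_num)]
      linarith)
    rw [e1, e2, ← hη]
    rw [ha] at h2a h101 ⊢
    have hE : 9 / 1000000000 ≤ u ^ 2 - 2 * u * t + 4 * (1 / 10000) * (t - 1 / 10000) := by
      nlinarith [mul_nonneg (sub_nonneg.2 h2a) (by linarith : (0 : ℝ) ≤ 4 * (1 / 10000) - 2 * u),
        mul_nonneg (by linarith : (0 : ℝ) ≤ (1001 / 10000000 - u))
          (by linarith : (0 : ℝ) ≤ 4 * (1 / 10000) - u - 1001 / 10000000)]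
    have hmain : 99 / 100 ≤ q * (u ^ 2 - 2 * u * t + 4 * (1 / 10000) * (t - 1 / 10000)) := by
      have := mul_le_mul hq0 hE (by norm_num) hqpos.le
      linarith
    have ht2 : t ^ 2 ≤ 1 / 100 := by nlinarith
    have hBt : 0 ≤ (t - 2 * (1 / 10000)) ^ 2 * B := by positivity
    have hηt : 0 ≤ 4 * (1 / 10000) * (t - 1 / 10000) * η := by
      apply mul_nonneg _ hη0
      apply mul_nonneg (by norm_num)
      linarith
    linarith
  rcases le_total t (201 * aa) with h201 | h201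
  · obtain ⟨e1, e2, e2', e3, e4⟩ := h_piece3 h101 h201
    have h4 := abs_le.1 e4
    have hN := CalCold_N (x := deriv h1 t) (y := deriv h2 t) hv1 hv2 (M := 2 * t + 20 * aa) (by
      rw [e3]
      have h5 : |2 * t - deriv h2 t| ≤ |2 * t| + |deriv h2 t| := abs_sub _ _
      rw [abs_of_nonneg (by linarith : (0 : ℝ) ≤ 2 * t)] at h5
      linarith)
    rw [← hη]
    rw [ha] at h101 h201 e2' hN
    have hh1 : (t - 2 * (1 / 10000)) ^ 2 ≤ h1 t := by rw [e1]; nlinarith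
    have hB1 : (t - 2 * (1 / 10000)) ^ 2 * (50000000 / 9) ≤ h1 t * B :=
      mul_le_mul hh1 hB0 (by norm_num) ((sq_nonneg _).trans hh1)
    have hh2 : 0 ≤ h2 t * (q + η) := mul_nonneg e2 (by linarith)
    have hk1 : 99 / 10000 * (t - 2 * (1 / 10000)) ≤ (t - 2 * (1 / 10000)) ^ 2 := by
      have h6 : 99 / 10000 ≤ t - 2 * (1 / 10000) := by linarith
      have h7 := mul_le_mul_of_nonneg_right h6 (by linarith : 0 ≤ t - 2 * (1 / 10000))
      linarith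
    have hg : (2 * t + 20 * (1 / 10000)) ^ 2 / 4 ≤ 1 / 10 := by nlinarith
    linarith
  rcases le_total t 1 with h1' | h1'
  · obtain ⟨e1, e2, e3, e4⟩ := h_piece4 h201 h1'
    have hN := CalCold_N (x := deriv h1 t) (y := deriv h2 t) hv1 hv2 (M := 2 * t) (by
      rw [e3, e4, abs_of_nonneg (by linarith), abs_zero, add_zero])
    rw [e1, e2, ← hη]
    rw [ha] at h201
    have hB1 : t ^ 2 * (50000000 / 9) ≤ t ^ 2 * B := mul_le_mul_of_nonneg_left hB0 (sq_nonneg t)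
    have hk1 : 201 / 10000 * t ≤ t ^ 2 := by
      have h7 := mul_le_mul_of_nonneg_right h201 ht.le
      linarith
    linarith
  · obtain ⟨e1, e2, e3, e4⟩ := h_piece5 h1'
    have hN := CalCold_N (x := deriv h1 t) (y := deriv h2 t) hv1 hv2 (M := 2) (by
      rw [e3, e4, abs_of_nonneg (by norm_num), abs_zero, add_zero])
    rw [e1, e2, ← hη]
    have hB1 : (2 * t - 1) * (50000000 / 9) ≤ (2 * t - 1) * B :=
      mul_le_mul_of_nonneg_left hB0 (by linarith)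
    linarith

end MP_614bef_an
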