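import Pool.Agent.Lib.MP_614bef_an.CalIneq

set_option autoImplicit false

namespace MP_614bef_an

open MeasureTheory Set Filter Metric
open scoped RealInnerProductSpace ENNReal NNReal Topology ContDiff

theorem CalHot_N {x y : ℝ} {v1 v2 : V} (hv1 : ‖v1‖ ≤ 1) (hv2 : ‖v2‖ ≤ 1) {M : ℝ}
    (h : |x| + |y| ≤ M) : ‖x • v1 + y • v2‖ ^ 2 / 4 ≤ M ^ 2 / 4 := by
  have h1 : ‖x • v1 + y • v2‖ ≤ M := by
    calc ‖x • v1 + y • v2‖ ≤ ‖x • v1‖ + ‖y • v2‖ := norm_add_le _ _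
      _ = |x| * ‖v1‖ + |y| * ‖v2‖ := by rw [norm_smul, norm_smul, Real.norm_eq_abs, Real.norm_eq_abs]
      _ ≤ |x| * 1 + |y| * 1 := by gcongr
      _ ≤ M := by linarith
  have h2 := pow_le_pow_left₀ (norm_nonneg _) h1 2
  linarith

/-- **CALHOT.** The inequality in the hot disc: `divg b1 = -2/R1`, `divg b2 = d2 ≤ 2/c0`,
`q = 2/R1 - ‖v1‖²`.
PROOF.
* `t ≤ 201a` (`≤ 0.0201`): `h1 ≥ 0`, `h2 ≤ t²`, `N ≤ 2t + 20a`:
  value `≥ q u (u - 2t) - t² * 2/c0 - (t+10a)²`; `q ≥ 2/R1 - 1`, `u ≥ 0.99`, so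
  `q u (u-2t) ≥ 0.9 (2/R1 - 1) ≥ 10^7`, and `t² 2/c0 ≤ 0.0005 * 2/(15.9 m) ≤ 10^4 ...`.
* `201a ≤ t ≤ 1`: `h2 = 0`, `h1 = t²`, `‖h1' v1‖²/4 = t² ‖v1‖²`: value
  `= q u² - 2 q u t + t² (2/R1 - ‖v1‖²) = q (u - t)² ≥ 0`.
* `t ≥ 1`: `h1 = 2t - 1`, `h1' = 2`: value `= q u² - 2qut + (2t-1) 2/R1 - ‖v1‖²
  = q (1-u)(2t-1-u) + ‖v1‖² (2t - 2) ≥ 0` (`2/R1 = q + ‖v1‖²`). -/
theorem cal_hot {u d2 t : ℝ} {v1 v2 : V} (hu1 : 99 / 100 ≤ u) (hu2 : u ≤ 1) (hd : d2 ≤ 2 / c0)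
    (hv1 : ‖v1‖ ≤ 1) (hv2 : ‖v2‖ ≤ 1) (ht : 0 < t) :
    0 ≤ QQ (2 / R1 - ‖v1‖ ^ 2) u (-(2 / R1)) d2 t v1 v2 := by
  have ha : aa = 1 / 10000 := by unfold aa; norm_num
  have hR : 2 / R1 = 2000000000 / 161 := by unfold R1 ee e0 mm; norm_num
  have hc : 2 / c0 = 2000000000 / 159 := by unfold c0 ee e0 mm; norm_num
  rw [hc] at hd
  rw [hR]
  obtain ⟨w, hw⟩ : ∃ w : ℝ, w = ‖v1‖ ^ 2 := ⟨_, rfl⟩
  have hw0 : 0 ≤ w := by rw [hw]; positivity
  have hw1 : w ≤ 1 := by rw [hw]; exact pow_le_one₀ (norm_nonneg _) hv1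
  unfold QQ
  rw [← hw]
  have hq : 12000000 ≤ 2000000000 / 161 - w := by linarith
  obtain ⟨n1, n2, n3⟩ := h_nonneg t
  rcases le_total t (201 * aa) with h201 | h201
  · have hN : ‖deriv h1 t • v1 + deriv h2 t • v2‖ ^ 2 / 4 ≤ (2 * t + 20 * aa) ^ 2 / 4 := by
      rcases le_total t (2 * aa) with h2a | h2a
      · obtain ⟨e1, e2, e3, e4⟩ := h_piece1 ht.le h2a
        apply CalHot_N hv1 hv2
        rw [e3, e4, abs_zero, zero_add, abs_of_nonneg (by linarith), ha]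
        linarith
      rcases le_total t (101 * aa) with h101 | h101
      · obtain ⟨e1, e2, e3, e4⟩ := h_piece2 h2a h101
        apply CalHot_N hv1 hv2
        rw [e3, e4, abs_of_nonneg (by linarith), abs_of_nonneg (by rw [ha]; norm_num)]
        rw [ha]
        linarith
      · obtain ⟨e1, e2, e2', e3, e4⟩ := h_piece3 h101 h201
        apply CalHot_N hv1 hv2
        rw [e3]
        have h5 : |2 * t - deriv h2 t| ≤ |2 * t| + |deriv h2 t| := abs_sub _ _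
        rw [abs_of_nonneg (by linarith : (0 : ℝ) ≤ 2 * t)] at h5
        linarith
    rw [ha] at h201 hN
    have hg : (2 * t + 20 * (1 / 10000)) ^ 2 / 4 ≤ 1 / 10 := by nlinarith
    have ht2 : t ^ 2 ≤ 1 / 1000 := by nlinarith
    have hh2 : h2 t * d2 ≤ 1 / 1000 * (2000000000 / 159) := by
      have h6 : h2 t ≤ 1 / 1000 := by linarith
      have h7 : h2 t * d2 ≤ h2 t * (2000000000 / 159) := mul_le_mul_of_nonneg_left hd n2
      have h8 : h2 t * (2000000000 / 159) ≤ 1 / 1000 * (2000000000 / 159) :=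
        mul_le_mul_of_nonneg_right h6 (by norm_num)
      linarith
    have hu : 9 / 10 ≤ u * (u - 2 * t) := by nlinarith
    have hqu : 12000000 * (9 / 10) ≤ (2000000000 / 161 - w) * (u * (u - 2 * t)) :=
      mul_le_mul hq hu (by norm_num) (by linarith)
    have hh1 : 0 ≤ h1 t * (2000000000 / 161) := mul_nonneg n1 (by norm_num)
    linarith
  rcases le_total t 1 with h1' | h1'
  · obtain ⟨e1, e2, e3, e4⟩ := h_piece4 h201 h1'
    rw [e1, e2, e3, e4, zero_smul, add_zero, norm_smul, Real.norm_eq_abs,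
      abs_of_nonneg (by linarith : (0 : ℝ) ≤ 2 * t), mul_pow, ← hw]
    have h3 : 0 ≤ (2000000000 / 161 - w) * (u - t) ^ 2 :=
      mul_nonneg (by linarith) (sq_nonneg _)
    linarith
  · obtain ⟨e1, e2, e3, e4⟩ := h_piece5 h1'
    rw [e1, e2, e3, e4, zero_smul, add_zero, norm_smul, Real.norm_eq_abs,
      abs_of_nonneg (by norm_num : (0 : ℝ) ≤ 2), mul_pow, ← hw]
    have h3 : 0 ≤ (2000000000 / 161 - w) * ((1 - u) * (2 * t - 1 - u)) :=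
      mul_nonneg (by linarith) (mul_nonneg (by linarith) (by linarith))
    have h4 : 0 ≤ w * (2 * t - 2) := mul_nonneg hw0 (by linarith)
    linarith

end MP_614bef_an
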