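import Pool.Agent.Lib.MP_614bef_an.HFun

set_option autoImplicit false

namespace MP_614bef_an

open MeasureTheory Set Filter Metric
open scoped RealInnerProductSpace ENNReal NNReal Topology ContDiff

/-- the calibration expression for given data at a point -/
noncomputable def QQ (q u d1 d2 t : ℝ) (v1 v2 : V) : ℝ :=
  q * u ^ 2 - 2 * q * u * t - (h1 t * d1 + h2 t * d2) - ‖deriv h1 t • v1 + deriv h2 t • v2‖ ^ 2 / 4

end MP_614bef_an
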