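import Pool.Agent.Lib.MP_614bef_an.CalIneq

set_option autoImplicit false

namespace MP_614bef_an

open MeasureTheory Set Filter Metric
open scoped RealInnerProductSpace ENNReal NNReal Topology ContDiff

theorem CalZone_N {x y : ℝ} {v1 v2 : V} (hv1 : ‖v1‖ ≤ 1) (hv2 : ‖v2‖ ≤ 1) {M : ℝ}
    (h : |x| + |y| ≤ M) : ‖x • v1 + y • v2‖ ^ 2 / 4 ≤ M ^ 2 / 4 := by
  have h1 : ‖x • v1 + y • v2‖ ≤ M := by
    calc ‖x • v1 + y • v2‖ ≤ ‖x • v1‖ + ‖y • v2‖ := norm_add_le _ _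
      _ = |x| * ‖v1‖ + |y| * ‖v2‖ := by rw [norm_smul, norm_smul, Real.norm_eq_abs, Real.norm_eq_abs]
      _ ≤ |x| * 1 + |y| * 1 := by gcongr
      _ ≤ M := by linarith
  have h2 := pow_le_pow_left₀ (norm_nonneg _) h1 2
  linarith

/-- **CALZONE (a).** The inequality between the phases (`f = c = 0`, `B = 1/‖x‖`, `κ = divg b2`).
PROOF. With `τ = t/a`, `N = ‖h1' v1 + h2' v2‖`.
* `t ≤ 2a`: `1 + 0 - t² κ - t² ≥ 1 - 4/15.9 - 4m`.
* `2a ≤ t ≤ 201a`: `h1 ≥ (t-2a)²`, `h2 ≤ 4a(t-a)`, `N ≤ 2t + 20a`: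
  value `≥ 1 + (τ-2)²/16.2 - 4(τ-1)/15.9 - a²(τ+10)² ≥ 0.3 - small`, (quadratic in `τ`,
  `1 + (τ-2)²/16.2 - 4(τ-1)/15.9 ≥ 0.48`; `a² (τ+10)² ≤ 0.0005`).
* `201a ≤ t ≤ 1`: `1 + t² B - t² ≥ 0`.  * `t ≥ 1`: `1 + (2t-1) B - 1 ≥ 0`. -/
theorem cal_zone {B κ t : ℝ} {v1 v2 : V} (hB : 1 / (162 / 10 * mm) ≤ B) (hκ0 : 0 ≤ κ)
    (hκ : κ ≤ 1 / (159 / 10 * mm)) (hv1 : ‖v1‖ ≤ 1) (hv2 : ‖v2‖ ≤ 1) (ht : 0 < t) :
    0 ≤ 1 + QQ 0 0 (-B) κ t v1 v2 := by
  have ha : aa = 1 / 10000 := by unfold aa; norm_num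
  have hm : mm = 1 / 100000000 := by unfold mm; norm_num
  have hB0 : 500000000 / 81 ≤ B := by rw [hm] at hB; norm_num at hB; exact hB
  have hκ1 : κ ≤ 1000000000 / 159 := by rw [hm] at hκ; norm_num at hκ; exact hκ
  have hBpos : 0 < B := by linarith
  unfold QQ
  rcases le_total t (2 * aa) with h2a | h2a
  · obtain ⟨e1, e2, e3, e4⟩ := h_piece1 ht.le h2a
    have hN := CalZone_N (x := deriv h1 t) (y := deriv h2 t) hv1 hv2 (M := 2 * t) (by
      rw [e3, e4, abs_zero, zero_add, abs_of_nonneg (by linarith)])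
    rw [e1, e2]
    rw [ha] at h2a
    have ht2 : t ^ 2 ≤ 4 / 100000000 := by nlinarith
    have h3 : t ^ 2 * κ ≤ 4 / 100000000 * (1000000000 / 159) :=
      mul_le_mul ht2 hκ1 hκ0 (by norm_num)
    linarith
  rcases le_total t (201 * aa) with h201 | h201
  · have key : h1 t = t ^ 2 - h2 t ∧ 0 ≤ h2 t ∧ h2 t ≤ 4 * aa * (t - aa) ∧
        ‖deriv h1 t • v1 + deriv h2 t • v2‖ ^ 2 / 4 ≤ (2 * t + 20 * aa) ^ 2 / 4 := by
      rcases le_total t (101 * aa) with h101 | h101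
      · obtain ⟨e1, e2, e3, e4⟩ := h_piece2 h2a h101
        refine ⟨by rw [e1, e2]; ring, ?_, e2.le, ?_⟩
        · rw [e2, ha]
          rw [ha] at h2a
          have : 0 ≤ t - 1 / 10000 := by linarith
          positivity
        · apply CalZone_N hv1 hv2
          rw [e3, e4, abs_of_nonneg (by linarith), abs_of_nonneg (by rw [ha]; norm_num)]
          rw [ha]
          linarith
      · obtain ⟨e1, e2, e2', e3, e4⟩ := h_piece3 h101 h201
        refine ⟨e1, e2, e2', ?_⟩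
        apply CalZone_N hv1 hv2
        rw [e3]
        have h5 : |2 * t - deriv h2 t| ≤ |2 * t| + |deriv h2 t| := abs_sub _ _
        rw [abs_of_nonneg (by linarith : (0 : ℝ) ≤ 2 * t)] at h5
        linarith
    obtain ⟨e1, e2, e2', hN⟩ := key
    rw [ha] at h2a h201 e2' hN
    have hh1 : (t - 2 * (1 / 10000)) ^ 2 ≤ h1 t := by rw [e1]; nlinarith
    have hB1 : (t - 2 * (1 / 10000)) ^ 2 * (500000000 / 81) ≤ h1 t * B :=
      mul_le_mul hh1 hB0 (by norm_num) ((sq_nonneg _).trans hh1)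
    have hh2 : h2 t * κ ≤ 4 * (1 / 10000) * (t - 1 / 10000) * (1000000000 / 159) :=
      mul_le_mul e2' hκ1 hκ0 (e2.trans e2')
    have hf : 48 / 100 ≤ 1 + (t - 2 * (1 / 10000)) ^ 2 * (500000000 / 81) -
        4 * (1 / 10000) * (t - 1 / 10000) * (1000000000 / 159) := by
      nlinarith [sq_nonneg (t - 404 / 1000000)]
    have hg : (2 * t + 20 * (1 / 10000)) ^ 2 / 4 ≤ 1 / 10 := by nlinarith
    linarith
  rcases le_total t 1 with h1' | h1'
  · obtain ⟨e1, e2, e3, e4⟩ := h_piece4 h201 h1'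
    have hN := CalZone_N (x := deriv h1 t) (y := deriv h2 t) hv1 hv2 (M := 2 * t) (by
      rw [e3, e4, abs_of_nonneg (by linarith), abs_zero, add_zero])
    rw [e1, e2]
    have hB1 : t ^ 2 * 1 ≤ t ^ 2 * B := mul_le_mul_of_nonneg_left (by linarith) (sq_nonneg t)
    nlinarith
  · obtain ⟨e1, e2, e3, e4⟩ := h_piece5 h1'
    have hN := CalZone_N (x := deriv h1 t) (y := deriv h2 t) hv1 hv2 (M := 2) (by
      rw [e3, e4, abs_of_nonneg (by norm_num), abs_zero, add_zero])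
    rw [e1, e2]
    have hB1 : 0 ≤ (2 * t - 1) * B := mul_nonneg (by linarith) hBpos.le
    linarith

/-- **CALZONE (b).** outside the cold ring: both divergences are `≤ 0`.
`t ≤ 201a`: `1 - N²/4 ≥ 1 - (t+10a)² ≥ 0`; the rest as before. -/
theorem cal_out {B κ t : ℝ} {v1 v2 : V} (hB : 0 ≤ B) (hκ0 : 0 ≤ κ)
    (hv1 : ‖v1‖ ≤ 1) (hv2 : ‖v2‖ ≤ 1) (ht : 0 < t) :
    0 ≤ 1 + QQ 0 0 (-B) (-κ) t v1 v2 := by
  have ha : aa = 1 / 10000 := by unfold aa; norm_num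
  unfold QQ
  obtain ⟨n1, n2, n3⟩ := h_nonneg t
  have p1 : 0 ≤ h1 t * B := mul_nonneg n1 hB
  have p2 : 0 ≤ h2 t * κ := mul_nonneg n2 hκ0
  rcases le_total t (201 * aa) with h201 | h201
  · have hN : ‖deriv h1 t • v1 + deriv h2 t • v2‖ ^ 2 / 4 ≤ (2 * t + 20 * aa) ^ 2 / 4 := by
      rcases le_total t (2 * aa) with h2a | h2a
      · obtain ⟨e1, e2, e3, e4⟩ := h_piece1 ht.le h2a
        apply CalZone_N hv1 hv2
        rw [e3, e4, abs_zero, zero_add, abs_of_nonneg (by linarith), ha]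
        linarith
      rcases le_total t (101 * aa) with h101 | h101
      · obtain ⟨e1, e2, e3, e4⟩ := h_piece2 h2a h101
        apply CalZone_N hv1 hv2
        rw [e3, e4, abs_of_nonneg (by linarith), abs_of_nonneg (by rw [ha]; norm_num)]
        rw [ha]
        linarith
      · obtain ⟨e1, e2, e2', e3, e4⟩ := h_piece3 h101 h201
        apply CalZone_N hv1 hv2
        rw [e3]
        have h5 : |2 * t - deriv h2 t| ≤ |2 * t| + |deriv h2 t| := abs_sub _ _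
        rw [abs_of_nonneg (by linarith : (0 : ℝ) ≤ 2 * t)] at h5
        linarith
    rw [ha] at h201 hN
    have hg : (2 * t + 20 * (1 / 10000)) ^ 2 / 4 ≤ 1 / 10 := by nlinarith
    linarith
  rcases le_total t 1 with h1' | h1'
  · obtain ⟨e1, e2, e3, e4⟩ := h_piece4 h201 h1'
    have hN := CalZone_N (x := deriv h1 t) (y := deriv h2 t) hv1 hv2 (M := 2 * t) (by
      rw [e3, e4, abs_of_nonneg (by linarith), abs_zero, add_zero])
    have ht2 : t ^ 2 ≤ 1 := by nlinarith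
    linarith
  · obtain ⟨e1, e2, e3, e4⟩ := h_piece5 h1'
    have hN := CalZone_N (x := deriv h1 t) (y := deriv h2 t) hv1 hv2 (M := 2) (by
      rw [e3, e4, abs_of_nonneg (by norm_num), abs_zero, add_zero])
    linarith

end MP_614bef_an
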