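import Pool.Agent.Lib.MP_614bef_an.Defs

set_option autoImplicit false

namespace MP_614bef_an

open MeasureTheory Set Filter Metric
open scoped RealInnerProductSpace ENNReal NNReal Topology ContDiff

private theorem ibpl_coord_le (x : V) (i : Fin 2) : |x i| ≤ ‖x‖ := PiLp.norm_apply_le x i

private theorem ibpl_single (i : Fin 2) : ‖(EuclideanSpace.single i (1 : ℝ) : V)‖ = 1 := by
  simp

/-- **IBPL (a).** the divergence of a Lipschitz field is measurable and bounded. -/
theorem divg_measurable {b : V → V} (hb : Continuous b) : Measurable (divg b) := by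
  unfold divg
  refine Finset.measurable_sum _ fun i _ => ?_
  have h1 : Measurable fun x => fderiv ℝ b x (EuclideanSpace.single i 1) :=
    measurable_fderiv_apply_const ℝ b _
  exact (EuclideanSpace.proj i : V →L[ℝ] ℝ).continuous.measurable.comp h1

theorem divg_bound {b : V → V} {K : ℝ≥0} (hb : LipschitzWith K b) (x : V) :
    |divg b x| ≤ 2 * K := by
  have h1 : ∀ i : Fin 2, |(fderiv ℝ b x (EuclideanSpace.single i 1)) i| ≤ K := by
    intro i
    refine (ibpl_coord_le _ i).trans ?_
    refine (ContinuousLinearMap.le_opNorm _ _).trans ?_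
    rw [ibpl_single, mul_one]
    exact norm_fderiv_le_of_lipschitz ℝ hb
  unfold divg
  rw [Fin.sum_univ_two]
  have h2 := abs_add_le ((fderiv ℝ b x (EuclideanSpace.single 0 1)) 0)
    ((fderiv ℝ b x (EuclideanSpace.single 1 1)) 1)
  have h3 := h1 0
  have h4 := h1 1
  linarith

/-- **IBPL (b).** integration by parts for Lipschitz functions.  PROOF: Rademacher
(`LipschitzWith.ae_differentiableAt`) and, for each coordinate `i`,
`LipschitzWith.integral_lineDeriv_mul_eq` for the functions `fun x => b x i` and `w` in direction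
`EuclideanSpace.single i 1`; at points of differentiability `lineDeriv ℝ f x e = fderiv ℝ f x e`, and
`fderiv ℝ w x (b x) = ∑ i, b x i * fderiv ℝ w x (single i 1)`. -/
theorem ibp_lip {w : V → ℝ} {K1 : ℝ≥0} (hw : LipschitzWith K1 w) (hc : HasCompactSupport w)
    {b : V → V} {K2 : ℝ≥0} (hb : LipschitzWith K2 b) :
    ∫ x, w x * divg b x = -∫ x, fderiv ℝ w x (b x) := by
  have hbi : ∀ i : Fin 2, LipschitzWith K2 fun x => b x i := by
    intro i
    refine LipschitzWith.of_dist_le_mul fun x y => ?_
    refine le_trans ?_ (hb.dist_le_mul x y)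
    rw [Real.dist_eq, dist_eq_norm]
    exact ibpl_coord_le (b x - b y) i
  -- the two integrands for each coordinate
  have hA : ∀ i : Fin 2, Integrable fun x =>
      lineDeriv ℝ (fun x => b x i) x (EuclideanSpace.single i 1) * w x := by
    intro i
    refine (hw.continuous.integrable_of_hasCompactSupport hc).bdd_mul (c := K2 * ‖(EuclideanSpace.single i (1 : ℝ) : V)‖)
      (measurable_lineDeriv (hbi i).continuous).aestronglyMeasurable ?_
    exact Eventually.of_forall fun x => norm_lineDeriv_le_of_lipschitz ℝ (hbi i)
  have hB : ∀ i : Fin 2, Integrable fun x =>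
      lineDeriv ℝ w x (EuclideanSpace.single i 1) * b x i := by
    intro i
    have hK : IsCompact (tsupport w) := hc
    have h1 : Integrable ((tsupport w).indicator fun x => b x i) := by
      rw [integrable_indicator_iff hK.measurableSet]
      exact (hbi i).continuous.continuousOn.integrableOn_compact hK
    have h2 := h1.bdd_mul (c := K1 * ‖(EuclideanSpace.single i (1 : ℝ) : V)‖)
      (f := fun x => lineDeriv ℝ w x (EuclideanSpace.single i 1))
      (measurable_lineDeriv hw.continuous).aestronglyMeasurable
      (Eventually.of_forall fun x => norm_lineDeriv_le_of_lipschitz ℝ hw)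
    refine h2.congr (Eventually.of_forall fun x => ?_)
    by_cases hx : x ∈ tsupport w
    · change lineDeriv ℝ w x (EuclideanSpace.single i 1) * (tsupport w).indicator (fun x => b x i) x = _
      rw [indicator_of_mem hx]
    · have h3 : w =ᶠ[𝓝 x] fun _ => (0 : ℝ) := notMem_tsupport_iff_eventuallyEq.mp hx
      have h4 : lineDeriv ℝ w x (EuclideanSpace.single i 1) = 0 := by
        rw [h3.lineDeriv_eq]
        simp [lineDeriv]
      change lineDeriv ℝ w x (EuclideanSpace.single i 1) * (tsupport w).indicator (fun x => b x i) x =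
        lineDeriv ℝ w x (EuclideanSpace.single i 1) * b x i
      rw [h4, zero_mul, zero_mul]
  have hpart : ∀ i : Fin 2,
      ∫ x, lineDeriv ℝ (fun x => b x i) x (EuclideanSpace.single i 1) * w x =
      -∫ x, lineDeriv ℝ w x (EuclideanSpace.single i 1) * b x i := by
    intro i
    rw [LipschitzWith.integral_lineDeriv_mul_eq (hbi i) hw hc, ← integral_neg]
    refine integral_congr_ae (Eventually.of_forall fun x => ?_)
    change lineDeriv ℝ w x (-(EuclideanSpace.single i 1)) * b x i =
      -(lineDeriv ℝ w x (EuclideanSpace.single i 1) * b x i)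
    rw [lineDeriv_neg, neg_mul]
  have e1 : ∫ x, w x * divg b x =
      ∫ x, ∑ i : Fin 2, lineDeriv ℝ (fun x => b x i) x (EuclideanSpace.single i 1) * w x := by
    refine integral_congr_ae ?_
    filter_upwards [hb.ae_differentiableAt] with x hx
    unfold divg
    rw [Finset.mul_sum]
    refine Finset.sum_congr rfl fun i _ => ?_
    have h1 : HasFDerivAt (fun x => b x i)
        ((EuclideanSpace.proj i : V →L[ℝ] ℝ).comp (fderiv ℝ b x)) x :=
      (EuclideanSpace.proj i : V →L[ℝ] ℝ).hasFDerivAt.comp x hx.hasFDerivAt
    rw [(h1.hasLineDerivAt _).lineDeriv, mul_comm]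
    rfl
  have e2 : ∫ x, fderiv ℝ w x (b x) =
      ∫ x, ∑ i : Fin 2, lineDeriv ℝ w x (EuclideanSpace.single i 1) * b x i := by
    refine integral_congr_ae ?_
    filter_upwards [hw.ae_differentiableAt] with x hx
    have h6 : b x = ∑ i : Fin 2, (b x) i • (EuclideanSpace.single i (1 : ℝ) : V) := by
      ext j
      fin_cases j <;> simp
    conv_lhs => rw [h6]
    rw [map_sum]
    refine Finset.sum_congr rfl fun i _ => ?_
    rw [map_smul, smul_eq_mul, (hx.hasFDerivAt.hasLineDerivAt _).lineDeriv, mul_comm]
  rw [e1, e2, integral_finsetSum _ fun i _ => hA i, integral_finsetSum _ fun i _ => hB i,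
    ← Finset.sum_neg_distrib]
  exact Finset.sum_congr rfl fun i _ => hpart i

end MP_614bef_an
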