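import Pool.Agent.Lib.MP_614bef_an.Blow

set_option autoImplicit false

namespace MP_614bef_an

open MeasureTheory Set Filter Metric
open scoped RealInnerProductSpace ENNReal NNReal Topology ContDiff

private theorem cdf_cont (m : Measure ℝ) [IsProbabilityMeasure m] [NullSingletonClass m] :
    Continuous (ProbabilityTheory.cdf m) := by
  rw [continuous_iff_continuousAt]
  intro x
  have h1 := (ProbabilityTheory.cdf m).measure_singleton x
  rw [ProbabilityTheory.measure_cdf, measure_singleton] at h1
  have h2 : Function.leftLim (ProbabilityTheory.cdf m) x = ProbabilityTheory.cdf m x := by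
    apply le_antisymm
    · exact (ProbabilityTheory.cdf m).mono.leftLim_le le_rfl
    · have := ENNReal.ofReal_eq_zero.1 h1.symm
      linarith
  rw [(ProbabilityTheory.cdf m).mono.continuousAt_iff_leftLim_eq_rightLim, h2,
    StieltjesFunction.rightLim_eq]

private theorem map_cdf (m : Measure ℝ) [IsProbabilityMeasure m] [NullSingletonClass m] :
    m.map (ProbabilityTheory.cdf m) = volume.restrict (Ioc (0 : ℝ) 1) := by
  have hc := cdf_cont m
  have hmono := ProbabilityTheory.monotone_cdf m
  have hbot := ProbabilityTheory.tendsto_cdf_atBot m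
  have htop := ProbabilityTheory.tendsto_cdf_atTop m
  have : IsFiniteMeasure (m.map (ProbabilityTheory.cdf m)) := by
    have := Measure.isProbabilityMeasure_map (μ := m) hc.measurable.aemeasurable
    infer_instance
  apply Measure.ext_of_Iic
  intro s
  rw [Measure.map_apply hc.measurable measurableSet_Iic, Measure.restrict_apply measurableSet_Iic]
  rcases lt_or_ge s 0 with hs | hs
  · have e1 : (ProbabilityTheory.cdf m) ⁻¹' Iic s = ∅ := by
      ext x
      simp only [mem_preimage, mem_Iic, mem_empty_iff_false, iff_false, not_le]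
      exact lt_of_lt_of_le hs (ProbabilityTheory.cdf_nonneg m x)
    have e2 : Iic s ∩ Ioc (0 : ℝ) 1 = ∅ := by
      ext x
      simp only [mem_inter_iff, mem_Iic, mem_Ioc, mem_empty_iff_false, iff_false]
      rintro ⟨h1, h2, -⟩
      linarith
    rw [e1, e2, measure_empty, measure_empty]
  rcases le_or_gt 1 s with hs1 | hs1
  · have e1 : (ProbabilityTheory.cdf m) ⁻¹' Iic s = univ := by
      ext x
      simp only [mem_preimage, mem_Iic, mem_univ, iff_true]
      exact (ProbabilityTheory.cdf_le_one m x).trans hs1
    have e2 : Iic s ∩ Ioc (0 : ℝ) 1 = Ioc 0 1 := by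
      ext x
      simp only [mem_inter_iff, mem_Iic, mem_Ioc]
      constructor
      · exact fun h => h.2
      · exact fun h => ⟨h.2.trans hs1, h⟩
    rw [e1, e2, measure_univ, Real.volume_Ioc]
    simp
  · have e2 : Iic s ∩ Ioc (0 : ℝ) 1 = Ioc 0 s := by
      ext x
      simp only [mem_inter_iff, mem_Iic, mem_Ioc]
      constructor
      · exact fun h => ⟨h.2.1, h.1⟩
      · exact fun h => ⟨h.2, h.1, h.2.trans hs1.le⟩
    rw [e2, Real.volume_Ioc, sub_zero]
    set A : Set ℝ := (ProbabilityTheory.cdf m) ⁻¹' Iic s with hA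
    have hAcl : IsClosed A := isClosed_Iic.preimage hc
    have hAb : BddAbove A := by
      obtain ⟨y, hy⟩ := (htop.eventually (lt_mem_nhds hs1)).exists
      refine ⟨y, fun x hx => ?_⟩
      by_contra hxy
      push Not at hxy
      have h1 : ProbabilityTheory.cdf m y ≤ ProbabilityTheory.cdf m x := hmono hxy.le
      have h2 : ProbabilityTheory.cdf m x ≤ s := hx
      linarith
    rcases A.eq_empty_or_nonempty with hAe | hAn
    · rw [hAe, measure_empty]
      rcases hs.eq_or_lt with h0 | h0
      · rw [← h0, ENNReal.ofReal_zero]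
      · exfalso
        obtain ⟨y, hy⟩ := (hbot.eventually (gt_mem_nhds h0)).exists
        have : y ∈ A := le_of_lt hy
        rw [hAe] at this
        exact this
    · have hmem : sSup A ∈ A := hAcl.csSup_mem hAn hAb
      have hAeq : A = Iic (sSup A) := by
        ext x
        constructor
        · intro hx
          exact le_csSup hAb hx
        · intro hx
          exact (hmono hx).trans hmem
      have hval : ProbabilityTheory.cdf m (sSup A) = s := by
        apply le_antisymm hmem
        rcases hs.eq_or_lt with h0 | h0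
        · rw [← h0]
          exact ProbabilityTheory.cdf_nonneg m _
        · obtain ⟨y1, hy1⟩ := (hbot.eventually (gt_mem_nhds h0)).exists
          obtain ⟨y2, hy2⟩ := (htop.eventually (lt_mem_nhds hs1)).exists
          have h12 : y1 ≤ y2 := by
            by_contra hh
            push Not at hh
            have := hmono hh.le
            linarith
          obtain ⟨x0, -, hx0⟩ := intermediate_value_Icc h12 hc.continuousOn ⟨hy1.le, hy2.le⟩
          have h3 : x0 ∈ A := le_of_eq hx0
          rw [← hx0]
          exact hmono (le_csSup hAb h3)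
      rw [hAeq, ← ProbabilityTheory.ofReal_cdf m, hval]

private theorem null_line {ν : V} (hν : ‖ν‖ = 1) (t : ℝ) :
    volume {z : V | ⟪z, ν⟫ = t} = 0 := by
  have hνν : ⟪ν, ν⟫ = (1 : ℝ) := by rw [real_inner_self_eq_norm_sq, hν]; norm_num
  set S : AffineSubspace ℝ V :=
    AffineSubspace.mk' (t • ν) (LinearMap.ker (innerSL ℝ ν : V →L[ℝ] ℝ).toLinearMap) with hS
  have e1 : {z : V | ⟪z, ν⟫ = t} = (S : Set V) := by
    ext z
    rw [hS, SetLike.mem_coe, AffineSubspace.mem_mk', LinearMap.mem_ker]
    simp only [mem_setOf_eq, vsub_eq_sub, ContinuousLinearMap.coe_coe, innerSL_apply_apply,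
      inner_sub_right, inner_smul_right, hνν, mul_one]
    rw [real_inner_comm, sub_eq_zero]
  rw [e1]
  apply Measure.addHaar_affineSubspace
  intro htop
  have h1 : (t + 1) • ν ∈ S := by rw [htop]; exact AffineSubspace.mem_top ℝ V _
  have h2 : (t + 1) • ν ∈ {z : V | ⟪z, ν⟫ = t} := by rw [e1]; exact h1
  have h3 : ⟪(t + 1) • ν, ν⟫ = t := h2
  rw [real_inner_smul_left, hνν] at h3
  linarith

/-- **PIT.** Probability integral transform.  PROOF: let `P = ρ dx` (a probability measure on `V`),
`X(z) = ⟪z, ν⟫`, `m = P.map X`, a probability measure on `ℝ` without atoms (the lines `⟪z,ν⟫ = t` are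
Lebesgue null, as `ν ≠ 0`).  `Th ν z = P{w : ⟪w,ν⟫ < ⟪z,ν⟫} = G(⟪z,ν⟫)` with `G(t) = m (Iio t)`,
continuous and monotone with limits `0` and `1`.  So the left side is
`∫ k(b + (a-b) G(t)) dm(t) = ∫ k(b + (a-b) s) d(m.map G)(s)`, and `m.map G` is the Lebesgue measure
on `[0,1]`: for `0 ≤ s < 1`, `{G ≤ s}` is an interval `Iic x` or empty (only if ... ) with `G(x) = s`
by continuity, hence has measure `G(x) = s`. -/
theorem pit {ν : V} (hν : ‖ν‖ = 1) {k : ℝ → ℝ} (hk : Continuous k) (a b : ℝ) :
    ∫ z, rho z * k (b + (a - b) * Th ν z) = ∫ s in (0 : ℝ)..1, k (b + (a - b) * s) := by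
  have hrm : Measurable rho := rho_smooth.continuous.measurable
  have hri : Integrable rho := by
    by_contra h
    have := integral_undef h
    rw [rho_int] at this
    exact one_ne_zero this
  set P : Measure V := (volume : Measure V).withDensity (fun z => ENNReal.ofReal (rho z)) with hP
  have hPuniv : P univ = 1 := by
    rw [hP, withDensity_apply _ MeasurableSet.univ, Measure.restrict_univ,
      ← ofReal_integral_eq_lintegral_ofReal hri (Eventually.of_forall rho_nonneg), rho_int,
      ENNReal.ofReal_one]
  have hPp : IsProbabilityMeasure P := ⟨hPuniv⟩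
  have hPac : P ≪ volume := withDensity_absolutelyContinuous _ _
  have hX : Measurable (fun z : V => (⟪z, ν⟫ : ℝ)) := by fun_prop
  set m : Measure ℝ := P.map (fun z : V => (⟪z, ν⟫ : ℝ)) with hm
  have hmp : IsProbabilityMeasure m := Measure.isProbabilityMeasure_map hX.aemeasurable
  have hma : NullSingletonClass m := by
    refine ⟨fun t => ?_⟩
    rw [hm, Measure.map_apply hX (measurableSet_singleton t)]
    exact hPac (null_line hν t)
  have hTh : ∀ z : V, Th ν z = ProbabilityTheory.cdf m (⟪z, ν⟫ : ℝ) := by
    intro z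
    rw [ProbabilityTheory.cdf_eq_real, measureReal_def, ← Iio_ae_eq_Iic.measure_eq, hm,
      Measure.map_apply hX measurableSet_Iio]
    have hset : (fun w : V => (⟪w, ν⟫ : ℝ)) ⁻¹' Iio (⟪z, ν⟫ : ℝ) = {w : V | 0 < ⟪z - w, ν⟫} := by
      ext w
      simp only [mem_preimage, mem_Iio, mem_setOf_eq, inner_sub_left, sub_pos]
    have hmeas : MeasurableSet {w : V | 0 < ⟪z - w, ν⟫} := by
      rw [← hset]
      exact hX measurableSet_Iio
    rw [hset, hP, withDensity_apply _ hmeas]
    unfold Th
    rw [integral_eq_lintegral_of_nonneg_ae (Eventually.of_forall rho_nonneg)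
      hrm.aestronglyMeasurable]
  have hcont := cdf_cont m
  calc ∫ z, rho z * k (b + (a - b) * Th ν z)
      = ∫ z, (ENNReal.ofReal (rho z)).toReal •
          k (b + (a - b) * ProbabilityTheory.cdf m (⟪z, ν⟫ : ℝ)) := by
        apply integral_congr_ae
        refine Eventually.of_forall fun z => ?_
        simp only [hTh z, ENNReal.toReal_ofReal (rho_nonneg z), smul_eq_mul]
    _ = ∫ z, k (b + (a - b) * ProbabilityTheory.cdf m (⟪z, ν⟫ : ℝ)) ∂P := by
        rw [hP]
        rw [integral_withDensity_eq_integral_toReal_smul hrm.ennreal_ofReal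
          (Eventually.of_forall fun _ => ENNReal.ofReal_lt_top)]
    _ = ∫ t, k (b + (a - b) * ProbabilityTheory.cdf m t) ∂m := by
        rw [hm, integral_map hX.aemeasurable]
        exact (hk.comp (by fun_prop : Continuous fun t =>
          b + (a - b) * ProbabilityTheory.cdf m t)).aestronglyMeasurable
    _ = ∫ s, k (b + (a - b) * s) ∂(m.map (ProbabilityTheory.cdf m)) := by
        rw [integral_map hcont.aemeasurable]
        exact (hk.comp (by fun_prop)).aestronglyMeasurable
    _ = ∫ s in (0 : ℝ)..1, k (b + (a - b) * s) := by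
        rw [map_cdf, intervalIntegral.integral_of_le zero_le_one]

/-- **PIT (b).** fundamental theorem of calculus. -/
theorem pit_deriv {ν : V} (hν : ‖ν‖ = 1) {h : ℝ → ℝ} (hh : ContDiff ℝ 1 h) (a b : ℝ) :
    (a - b) * ∫ z, rho z * deriv h (b + (a - b) * Th ν z) = h a - h b := by
  have hd : Continuous (deriv h) := hh.continuous_deriv le_rfl
  rw [pit hν hd a b, ← intervalIntegral.integral_const_mul]
  have h1 : ∀ s ∈ uIcc (0 : ℝ) 1, HasDerivAt (fun s => h (b + (a - b) * s))
      ((a - b) * deriv h (b + (a - b) * s)) s := by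
    intro s _
    have h2 : HasDerivAt h (deriv h (b + (a - b) * s)) (b + (a - b) * s) :=
      ((hh.differentiable one_ne_zero) _).hasDerivAt
    have h3 : HasDerivAt (fun s : ℝ => b + (a - b) * s) (a - b) s := by
      simpa using ((hasDerivAt_id s).const_mul (a - b)).const_add b
    have h4 := h2.comp s h3
    rw [mul_comm] at h4
    exact h4
  rw [intervalIntegral.integral_eq_sub_of_hasDerivAt h1]
  · congr 1
    · congr 1
      ring
    · congr 1
      ring
  · apply Continuous.intervalIntegrable
    exact continuous_const.mul (hd.comp (by fun_prop))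

end MP_614bef_an
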