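import Mathlib
import Pool.Agent.Lib.MP_614bef_an.Pit

set_option autoImplicit false

namespace MP_614bef_an

open MeasureTheory Set Filter Metric
open scoped RealInnerProductSpace ENNReal NNReal Topology ContDiff

theorem Lim_mol_meas {v : V → ℝ} (hv : Integrable v) (ε : ℝ) :
    StronglyMeasurable (mol ε v) := by
  obtain ⟨v', hv', hvv'⟩ := hv.aestronglyMeasurable
  have h1 : mol ε v = fun y => ∫ x, rhoE ε (y - x) • v' x := by
    funext y
    unfold mol
    refine integral_congr_ae ?_
    filter_upwards [hvv'] with x hx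
    rw [hx]
  rw [h1]
  have h2 : StronglyMeasurable (fun p : V × V => rhoE ε (p.1 - p.2) • v' p.2) := by
    have h3 : Continuous (fun p : V × V => rhoE ε (p.1 - p.2)) :=
      (rhoE_smooth ε).continuous.comp (continuous_fst.sub continuous_snd)
    exact h3.stronglyMeasurable.smul (hv'.comp_measurable measurable_snd)
  exact h2.integral_prod_right' (ν := volume)

theorem Lim_rhoE_integrable {ε : ℝ} (hε : 0 < ε) (x : V) :
    Integrable (fun y : V => rhoE ε (y - x)) := by
  have h1 : Integrable (rhoE ε) :=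
    (rhoE_smooth ε).continuous.integrable_of_hasCompactSupport (rhoE_compact hε)
  exact h1.comp_sub_right x

theorem Lim_rhoE_int {ε : ℝ} (hε : 0 < ε) (x : V) : ∫ y, rhoE ε (y - x) = 1 := by
  rw [integral_sub_right_eq_self (rhoE ε) x, rhoE_int hε]

/-- **LIM.** limit of the jump part.
PROOF: put `σ = (μH[1].restrict (jumpSet v)).withDensity (ENNReal.ofReal (vp - vm))`, a finite
measure by `intJ`; integrals over `jumpSet v` with the factor `vp - vm > 0` are integrals with respect
to `σ`.  Fubini (`σ` and `volume` are `SFinite`; the integrand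
`rhoE ε (y - x) * deriv h (mol ε v y) * ⟪ν x, b y⟫` is measurable and bounded by
`M B rhoE ε (y - x)`, whose integral in `y` is `M B`, `rhoE_int`; `‖ν x‖ = 1` on `jumpSet v`) gives
`∫_y ... = ∫_x (∫_y rhoE ε (y - x) * (deriv h (mol ε v y) * ⟪ν x, b y⟫)) dσ(x)`.  For every
`x ∈ jumpSet v` the inner integral converges by `blow_lim` (with `k = deriv h`,
`w y = ⟪ν x, b y⟫`, `a = vp x`, `b = vm x`) to `⟪ν x, b x⟫ * ∫ ρ deriv h(vm + (vp - vm) Th)`, and it
is bounded by `M B`; dominated convergence and `pit_deriv`. -/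
theorem lim_jump {v : V → ℝ} {g : V → V} {vp vm : V → ℝ} {ν : V → V}
    (hv : IsSBV v g vp vm ν) {h : ℝ → ℝ} (hh : ContDiff ℝ 1 h) {M : ℝ}
    (hM : ∀ t, |deriv h t| ≤ M) {b : V → V} (hb : Continuous b) {B : ℝ} (hB : ∀ x, ‖b x‖ ≤ B) :
    Tendsto (fun ε : ℝ => ∫ y, deriv h (mol ε v y) *
        ∫ x in jumpSet v, (vp x - vm x) * (rhoE ε (y - x) * ⟪ν x, b y⟫) ∂μH[1]) (𝓝[>] 0)
      (𝓝 (∫ x in jumpSet v, (h (vp x) - h (vm x)) * ⟪b x, ν x⟫ ∂μH[1])) := by
  have hdh : Continuous (deriv h) := hh.continuous_deriv le_rfl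
  have hM0 : 0 ≤ M := (abs_nonneg _).trans (hM 0)
  have hB0 : 0 ≤ B := (norm_nonneg _).trans (hB 0)
  set f : V → ℝ≥0 := fun x => (vp x - vm x).toNNReal with hf
  have hfm : Measurable f := (hv.mp.sub hv.mm).real_toNNReal
  set μ : Measure V := μH[1].restrict (jumpSet v) with hμ
  set σ : Measure V := μ.withDensity (fun x => (f x : ℝ≥0∞)) with hσ
  have hfin : ∫⁻ x, (f x : ℝ≥0∞) ∂μ ≠ ⊤ := by
    have h1 : ∫⁻ x, (f x : ℝ≥0∞) ∂μ = ∫⁻ x, ENNReal.ofReal (vp x - vm x) ∂μ := rfl
    rw [h1]
    exact (hv.intJ.lintegral_lt_top).ne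
  have : IsFiniteMeasure σ := isFiniteMeasure_withDensity hfin
  have hJμ : ∀ᵐ x ∂μ, x ∈ jumpSet v := ae_restrict_mem hv.mJ
  have hac : σ ≪ μ := withDensity_absolutelyContinuous _ _
  have hJσ : ∀ᵐ x ∂σ, x ∈ jumpSet v := hac.ae_le hJμ
  have hνσ : ∀ᵐ x ∂σ, ‖ν x‖ = 1 := by
    filter_upwards [hJσ] with x hx
    exact (hv.tr x hx).2.1
  -- integrals with respect to `σ`
  have hint : ∀ F : V → ℝ, ∫ x, F x ∂σ = ∫ x in jumpSet v, (vp x - vm x) * F x ∂μH[1] := by
    intro F
    rw [hσ, integral_withDensity_eq_integral_smul hfm]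
    refine integral_congr_ae ?_
    filter_upwards [hJμ] with x hx
    have h1 : ((f x : ℝ≥0) : ℝ) = vp x - vm x :=
      Real.coe_toNNReal _ (sub_nonneg.2 (hv.tr x hx).1.le)
    rw [NNReal.smul_def, h1, smul_eq_mul]
  -- measurability and integrability on the product
  have hmeas : ∀ ε : ℝ, StronglyMeasurable (fun p : V × V =>
      deriv h (mol ε v p.1) * (rhoE ε (p.1 - p.2) * ⟪ν p.2, b p.1⟫)) := by
    intro ε
    have h1 : StronglyMeasurable (fun p : V × V => deriv h (mol ε v p.1)) :=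
      hdh.comp_stronglyMeasurable ((Lim_mol_meas hv.int ε).comp_measurable measurable_fst)
    have h2 : StronglyMeasurable (fun p : V × V => rhoE ε (p.1 - p.2)) :=
      ((rhoE_smooth ε).continuous.comp (continuous_fst.sub continuous_snd)).stronglyMeasurable
    have h3 : StronglyMeasurable (fun p : V × V => ⟪ν p.2, b p.1⟫) := by
      refine StronglyMeasurable.inner ?_ ?_
      · exact (hv.mν.comp measurable_snd).stronglyMeasurable
      · exact (hb.comp continuous_fst).stronglyMeasurable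
    exact h1.mul (h2.mul h3)
  have hG : ∀ ε : ℝ, 0 < ε → Integrable (fun p : V × V => M * B * rhoE ε (p.1 - p.2))
      ((volume : Measure V).prod σ) := by
    intro ε hε
    have h2 : StronglyMeasurable (fun p : V × V => rhoE ε (p.1 - p.2)) :=
      ((rhoE_smooth ε).continuous.comp (continuous_fst.sub continuous_snd)).stronglyMeasurable
    refine Integrable.const_mul ?_ _
    rw [integrable_prod_iff' h2.aestronglyMeasurable]
    refine ⟨Eventually.of_forall fun x => Lim_rhoE_integrable hε x, ?_⟩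
    have h3 : (fun x : V => ∫ y : V, ‖rhoE ε (y - x)‖) = fun _ => 1 := by
      funext x
      have h4 : (fun y : V => ‖rhoE ε (y - x)‖) = fun y => rhoE ε (y - x) := by
        funext y
        exact Real.norm_of_nonneg (rhoE_nonneg ε _)
      rw [h4, Lim_rhoE_int hε]
    simp only [h3]
    exact integrable_const _
  have hI : ∀ ε : ℝ, 0 < ε → Integrable (fun p : V × V =>
      deriv h (mol ε v p.1) * (rhoE ε (p.1 - p.2) * ⟪ν p.2, b p.1⟫))
      ((volume : Measure V).prod σ) := by
    intro ε hε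
    refine (hG ε hε).mono' (hmeas ε).aestronglyMeasurable ?_
    have h1 : ∀ᵐ p ∂((volume : Measure V).prod σ), ‖ν p.2‖ = 1 :=
      Measure.quasiMeasurePreserving_snd.ae hνσ
    filter_upwards [h1] with p hp
    rw [norm_mul, norm_mul, Real.norm_eq_abs, Real.norm_of_nonneg (rhoE_nonneg ε _)]
    have h2 : ‖(⟪ν p.2, b p.1⟫ : ℝ)‖ ≤ B := by
      refine (norm_inner_le_norm _ _).trans ?_
      rw [hp, one_mul]
      exact hB _
    calc |deriv h (mol ε v p.1)| * (rhoE ε (p.1 - p.2) * ‖(⟪ν p.2, b p.1⟫ : ℝ)‖)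
        ≤ M * (rhoE ε (p.1 - p.2) * B) := by
          have := rhoE_nonneg ε (p.1 - p.2)
          have := hM (mol ε v p.1)
          gcongr
      _ = M * B * rhoE ε (p.1 - p.2) := by ring
  -- Fubini
  have hfub : ∀ ε : ℝ, 0 < ε → ∫ y, deriv h (mol ε v y) *
        ∫ x in jumpSet v, (vp x - vm x) * (rhoE ε (y - x) * ⟪ν x, b y⟫) ∂μH[1] =
      ∫ x, (∫ y, rhoE ε (y - x) * (deriv h (mol ε v y) * ⟪ν x, b y⟫)) ∂σ := by
    intro ε hε
    have h1 : ∀ y : V, deriv h (mol ε v y) *
        ∫ x in jumpSet v, (vp x - vm x) * (rhoE ε (y - x) * ⟪ν x, b y⟫) ∂μH[1] =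
        ∫ x, deriv h (mol ε v y) * (rhoE ε (y - x) * ⟪ν x, b y⟫) ∂σ := by
      intro y
      rw [← hint, integral_const_mul]
    simp only [h1]
    have h2 := integral_integral_swap (f := fun (y : V) (x : V) =>
      deriv h (mol ε v y) * (rhoE ε (y - x) * ⟪ν x, b y⟫)) (hI ε hε)
    rw [h2]
    refine integral_congr_ae (Eventually.of_forall fun x => ?_)
    refine integral_congr_ae (Eventually.of_forall fun y => ?_)
    simp only
    ring
  -- the limit
  have hlim : ∫ x in jumpSet v, (h (vp x) - h (vm x)) * ⟪b x, ν x⟫ ∂μH[1] =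
      ∫ x, ((⟪ν x, b x⟫ : ℝ) *
        ∫ z, rho z * deriv h (vm x + (vp x - vm x) * Th (ν x) z)) ∂σ := by
    rw [hint]
    refine integral_congr_ae ?_
    filter_upwards [hJμ] with x hx
    have h1 := pit_deriv (hv.tr x hx).2.1 hh (vp x) (vm x)
    rw [← h1, real_inner_comm]
    ring
  rw [hlim]
  have hmain : Tendsto (fun ε : ℝ =>
      ∫ x, (∫ y, rhoE ε (y - x) * (deriv h (mol ε v y) * ⟪ν x, b y⟫)) ∂σ) (𝓝[>] 0)
      (𝓝 (∫ x, ((⟪ν x, b x⟫ : ℝ) *
        ∫ z, rho z * deriv h (vm x + (vp x - vm x) * Th (ν x) z)) ∂σ)) := by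
    refine tendsto_integral_filter_of_dominated_convergence (fun _ => M * B) ?_ ?_
      (integrable_const _) ?_
    · filter_upwards [self_mem_nhdsWithin] with ε hε
      have h1 := (hI ε hε).integral_prod_right.aestronglyMeasurable
      refine h1.congr (Eventually.of_forall fun x => ?_)
      refine integral_congr_ae (Eventually.of_forall fun y => ?_)
      simp only
      ring
    · filter_upwards [self_mem_nhdsWithin] with ε hε
      filter_upwards [hνσ] with x hx
      have h1 : ‖∫ y, rhoE ε (y - x) * (deriv h (mol ε v y) * ⟪ν x, b y⟫)‖ ≤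
          ∫ y, M * B * rhoE ε (y - x) := by
        refine norm_integral_le_of_norm_le ((Lim_rhoE_integrable hε x).const_mul _)
          (Eventually.of_forall fun y => ?_)
        rw [norm_mul, norm_mul, Real.norm_of_nonneg (rhoE_nonneg ε _), Real.norm_eq_abs]
        have h2 : ‖(⟪ν x, b y⟫ : ℝ)‖ ≤ B := by
          refine (norm_inner_le_norm _ _).trans ?_
          rw [hx, one_mul]
          exact hB _
        calc rhoE ε (y - x) * (|deriv h (mol ε v y)| * ‖(⟪ν x, b y⟫ : ℝ)‖)
            ≤ rhoE ε (y - x) * (M * B) := by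
              have := rhoE_nonneg ε (y - x)
              have := hM (mol ε v y)
              gcongr
          _ = M * B * rhoE ε (y - x) := by ring
      rwa [integral_const_mul, Lim_rhoE_int hε, mul_one] at h1
    · filter_upwards [hJσ] with x hx
      exact blow_lim hv.int (hv.tr x hx).2 hdh hM (continuous_const.inner hb)
  refine hmain.congr' ?_
  filter_upwards [self_mem_nhdsWithin] with ε hε
  exact (hfub ε hε).symm

end MP_614bef_an
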