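import Pool.Agent.Lib.MP_614bef_an.Moll

set_option autoImplicit false

namespace MP_614bef_an

open MeasureTheory Set Filter Metric
open scoped RealInnerProductSpace ENNReal NNReal Topology ContDiff

open scoped Convolution

private theorem mold_conv (ε : ℝ) (v : V → ℝ) :
    mol ε v = v ⋆[ContinuousLinearMap.lsmul ℝ ℝ, volume] rhoE ε := by
  funext y
  unfold mol
  rw [convolution_def]
  refine integral_congr_ae (Eventually.of_forall fun x => ?_)
  change rhoE ε (y - x) • v x = v x • rhoE ε (y - x)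
  rw [smul_eq_mul, smul_eq_mul, mul_comm]

/-- **MOLD (a).** `mol ε v` is `C¹` (indeed smooth) for integrable `v`
(`HasCompactSupport.contDiff_convolution_left`, or differentiation under the integral). -/
theorem mol_contDiff {ε : ℝ} (hε : 0 < ε) {v : V → ℝ} (hv : Integrable v) :
    ContDiff ℝ 1 (mol ε v) := by
  rw [mold_conv]
  exact (rhoE_compact hε).contDiff_convolution_right _ hv.locallyIntegrable
    ((rhoE_smooth ε).of_le (by exact_mod_cast le_top))

/-- **MOLD (b).** derivative of the mollification, for integrable `v`. -/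
theorem mol_fderiv_apply {ε : ℝ} (hε : 0 < ε) {v : V → ℝ} (hv : Integrable v) (y e : V) :
    fderiv ℝ (mol ε v) y e = ∫ x, v x * fderiv ℝ (rhoE ε) (y - x) e := by
  have hs : ContDiff ℝ 1 (rhoE ε) := (rhoE_smooth ε).of_le (by exact_mod_cast le_top)
  have h1 := (rhoE_compact hε).hasFDerivAt_convolution_right (μ := volume)
    (ContinuousLinearMap.lsmul ℝ ℝ) hv.locallyIntegrable hs y
  rw [mold_conv, h1.fderiv]
  rw [convolution_precompR_apply (ContinuousLinearMap.lsmul ℝ ℝ) hv.locallyIntegrable
    ((rhoE_compact hε).fderiv ℝ) (hs.continuous_fderiv one_ne_zero)]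
  rw [convolution_def]
  rfl

/-- **MOLD (c).** derivative of the mollification of an `SBV` function.  PROOF: (b), and `ibp` for
the test field `φ x = rhoE ε (y - x) • e`, whose divergence is `- fderiv ℝ (rhoE ε) (y - x) e`
(`φ` is smooth with compact support by `rhoE_smooth`, `rhoE_compact`). -/
theorem mol_fderiv {v : V → ℝ} {g : V → V} {vp vm : V → ℝ} {ν : V → V}
    (hv : IsSBV v g vp vm ν) {ε : ℝ} (hε : 0 < ε) (y e : V) :
    fderiv ℝ (mol ε v) y e = ⟪mol ε g y, e⟫ +
      ∫ x in jumpSet v, (vp x - vm x) * (rhoE ε (y - x) * ⟪ν x, e⟫) ∂μH[1] := by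
  have hs : ContDiff ℝ 1 (rhoE ε) := (rhoE_smooth ε).of_le (by exact_mod_cast le_top)
  have hφ1 : ContDiff ℝ ∞ fun x : V => rhoE ε (y - x) • e :=
    ((rhoE_smooth ε).comp (contDiff_const.sub contDiff_id)).smul contDiff_const
  have hφ2 : HasCompactSupport fun x : V => rhoE ε (y - x) • e := by
    have h1 : HasCompactSupport fun x : V => rhoE ε (y - x) :=
      (rhoE_compact hε).comp_homeomorph (Homeomorph.subLeft y)
    exact h1.smul_right
  have hdiv : ∀ x : V, divg (fun x : V => rhoE ε (y - x) • e) x =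
      -(fderiv ℝ (rhoE ε) (y - x) e) := by
    intro x
    have h1 : HasFDerivAt (rhoE ε) (fderiv ℝ (rhoE ε) (y - x)) (y - x) :=
      (hs.differentiable one_ne_zero).differentiableAt.hasFDerivAt
    have h2 : HasFDerivAt (fun x : V => y - x) (-(ContinuousLinearMap.id ℝ V)) x :=
      (hasFDerivAt_id x).const_sub y
    have h3 := (h1.comp x h2).smul_const e
    have h4 : fderiv ℝ (fun x : V => rhoE ε (y - x) • e) x = _ := h3.fderiv
    have h5 : ∀ i : Fin 2, (fderiv ℝ (fun x : V => rhoE ε (y - x) • e) x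
        (EuclideanSpace.single i 1)) i =
        -(fderiv ℝ (rhoE ε) (y - x) (EuclideanSpace.single i 1)) * e i := by
      intro i
      rw [h4]
      simp
    have h6 : e = ∑ i : Fin 2, e i • (EuclideanSpace.single i (1 : ℝ) : V) := by
      ext j
      fin_cases j <;> simp
    unfold divg
    rw [Finset.sum_congr rfl fun i _ => h5 i]
    conv_rhs => rw [h6]
    rw [map_sum, ← Finset.sum_neg_distrib]
    refine Finset.sum_congr rfl fun i _ => ?_
    rw [map_smul, smul_eq_mul]
    ring
  have hibp := hv.ibp _ hφ1 hφ2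
  rw [mol_fderiv_apply hε hv.int]
  have e1 : ∫ x, v x * divg (fun x : V => rhoE ε (y - x) • e) x =
      -∫ x, v x * fderiv ℝ (rhoE ε) (y - x) e := by
    rw [← integral_neg]
    refine integral_congr_ae (Eventually.of_forall fun x => ?_)
    change v x * divg (fun x : V => rhoE ε (y - x) • e) x =
      -(v x * fderiv ℝ (rhoE ε) (y - x) e)
    rw [hdiv, mul_neg]
  have hint : Integrable fun x => rhoE ε (y - x) • g x := by
    have h1 := (rhoE_compact hε).convolutionExists_right (μ := volume)
      (ContinuousLinearMap.lsmul ℝ ℝ (E := V)).flip hv.intg.locallyIntegrable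
      (rhoE_smooth ε).continuous y
    exact h1
  have e2 : ∫ x, ⟪g x, rhoE ε (y - x) • e⟫ = ⟪mol ε g y, e⟫ := by
    have h1 := integral_inner (𝕜 := ℝ) hint e
    unfold mol
    rw [real_inner_comm, ← h1]
    refine integral_congr_ae (Eventually.of_forall fun x => ?_)
    change ⟪g x, rhoE ε (y - x) • e⟫ = ⟪e, rhoE ε (y - x) • g x⟫
    rw [inner_smul_right, inner_smul_right, real_inner_comm]
  have e3 : ∫ x in jumpSet v, (vp x - vm x) * ⟪ν x, rhoE ε (y - x) • e⟫ ∂μH[1] =
      ∫ x in jumpSet v, (vp x - vm x) * (rhoE ε (y - x) * ⟪ν x, e⟫) ∂μH[1] := by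
    refine integral_congr_ae (Eventually.of_forall fun x => ?_)
    change (vp x - vm x) * ⟪ν x, rhoE ε (y - x) • e⟫ =
      (vp x - vm x) * (rhoE ε (y - x) * ⟪ν x, e⟫)
    rw [inner_smul_right]
  rw [e1, e2, e3] at hibp
  linarith

end MP_614bef_an
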