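import Pool.Agent.Lib.MP_614bef_an.Moll

set_option autoImplicit false

namespace MP_614bef_an

open MeasureTheory Set Filter Metric
open scoped RealInnerProductSpace ENNReal NNReal Topology ContDiff

variable {F : Type*} [NormedAddCommGroup F] [InnerProductSpace ℝ F] [FiniteDimensional ℝ F]

/-- the scalar multiplication with exchanged arguments -/
private noncomputable def mL1L (F : Type*) [NormedAddCommGroup F] [InnerProductSpace ℝ F] :
    F →L[ℝ] ℝ →L[ℝ] F := (ContinuousLinearMap.lsmul ℝ ℝ : ℝ →L[ℝ] F →L[ℝ] F).flip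

omit [FiniteDimensional ℝ F] in
private theorem mL1_apply (v : F) (t : ℝ) : mL1L F v t = t • v := rfl

omit [FiniteDimensional ℝ F] in
private theorem mL1_conv (ε : ℝ) (v : V → F) :
    mol ε v = MeasureTheory.convolution v (rhoE ε) (mL1L F) volume := rfl

private theorem mL1_rhoE_integrable {ε : ℝ} (hε : 0 < ε) : Integrable (rhoE ε) :=
  (rhoE_smooth ε).continuous.integrable_of_hasCompactSupport (rhoE_compact hε)

omit [FiniteDimensional ℝ F] in
private theorem mL1_int {ε : ℝ} (hε : 0 < ε) {v : V → F} (hv : Integrable v) (y : V) :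
    Integrable (fun x => rhoE ε (y - x) • v x) := by
  have := HasCompactSupport.convolutionExists_right (mL1L F) (rhoE_compact hε)
    hv.locallyIntegrable (rhoE_smooth ε).continuous y
  exact this

/-- **MOLL1 (a).** `mol ε v` is integrable and `‖mol ε v‖₁ ≤ ‖v‖₁` (Fubini, `rhoE_int`). -/
theorem mol_integrable {ε : ℝ} (hε : 0 < ε) {v : V → F} (hv : Integrable v) :
    Integrable (mol ε v) ∧ ∫ y, ‖mol ε v y‖ ≤ ∫ y, ‖v y‖ := by
  have hr := mL1_rhoE_integrable hε
  have h1 : Integrable (mol ε v) := by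
    rw [mL1_conv]
    exact hv.integrable_convolution (mL1L F) hr
  refine ⟨h1, ?_⟩
  have h2 : Integrable (MeasureTheory.convolution (fun x => ‖v x‖) (rhoE ε) (mL1L ℝ) volume) :=
    hv.norm.integrable_convolution (mL1L ℝ) hr
  have h3 : ∫ y, MeasureTheory.convolution (fun x => ‖v x‖) (rhoE ε) (mL1L ℝ) volume y =
      ∫ y, ‖v y‖ := by
    rw [MeasureTheory.integral_convolution (mL1L ℝ) hv.norm hr, mL1_apply, rhoE_int hε, one_smul]
  rw [← h3]
  refine integral_mono h1.norm h2 fun y => ?_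
  show ‖∫ x, rhoE ε (y - x) • v x‖ ≤ ∫ x, rhoE ε (y - x) • ‖v x‖
  refine (norm_integral_le_integral_norm _).trans (le_of_eq ?_)
  refine integral_congr_ae (Eventually.of_forall fun x => ?_)
  show ‖rhoE ε (y - x) • v x‖ = rhoE ε (y - x) • ‖v x‖
  rw [norm_smul, Real.norm_of_nonneg (rhoE_nonneg ε _), smul_eq_mul]

/-- **MOLL1 (b).** support. -/
theorem mol_support {ε : ℝ} (hε : 0 < ε) {v : V → F} {R : ℝ}
    (hR : ∀ᵐ x, x ∉ closedBall (0 : V) R → v x = 0) (y : V) (hy : R + 2 * ε < ‖y‖) :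
    mol ε v y = 0 := by
  unfold mol
  rw [integral_eq_zero_of_ae]
  filter_upwards [hR] with x hx
  show rhoE ε (y - x) • v x = 0
  by_cases hxR : x ∈ closedBall (0 : V) R
  · have h1 : ‖x‖ ≤ R := mem_closedBall_zero_iff.1 hxR
    have h2 : ‖y‖ - ‖x‖ ≤ ‖y - x‖ := norm_sub_norm_le y x
    rw [rhoE_zero hε (by linarith), zero_smul]
  · rw [hx hxR, smul_zero]

private theorem mL1_sub {ε : ℝ} (hε : 0 < ε) {v w : V → F} (hv : Integrable v)
    (hw : Integrable w) (y : V) : mol ε (fun x => v x - w x) y = mol ε v y - mol ε w y := by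
  unfold mol
  rw [← integral_sub (mL1_int hε hv y) (mL1_int hε hw y)]
  refine integral_congr_ae (Eventually.of_forall fun x => ?_)
  exact smul_sub _ _ _

private theorem mL1_rho_cs : HasCompactSupport rho :=
  HasCompactSupport.intro (isCompact_closedBall (0 : V) 2) fun x hx => by
    apply rho_zero
    rw [mem_closedBall_zero_iff] at hx
    linarith

private theorem mL1_rho_int : Integrable rho :=
  rho_smooth.continuous.integrable_of_hasCompactSupport mL1_rho_cs

private theorem mL1_unif {w : V → F} (hw : Continuous w) {η δ : ℝ}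
    (hδ : ∀ x y : V, dist x y < δ → dist (w x) (w y) ≤ η) {ε : ℝ} (hε : 0 < ε)
    (hεδ : 2 * ε < δ) (y : V) : ‖mol ε w y - w y‖ ≤ η := by
  rw [mol_eq hε]
  have hη : 0 ≤ η := by
    have := hδ y y (by rw [dist_self]; linarith)
    rwa [dist_self] at this
  have e1 : w y = ∫ u, rho u • w y := by
    rw [integral_smul_const, rho_int, one_smul]
  have i1 : Integrable (fun u => rho u • w (y - ε • u)) := by
    have hc : Continuous (fun u => rho u • w (y - ε • u)) :=
      rho_smooth.continuous.smul (hw.comp (by fun_prop))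
    exact hc.integrable_of_hasCompactSupport
      (HasCompactSupport.smul_right (f := rho) (f' := fun u => w (y - ε • u)) mL1_rho_cs)
  have i2 : Integrable (fun u => rho u • w y) := mL1_rho_int.smul_const _
  have e4 : (∫ u, rho u • w (y - ε • u)) - w y =
      ∫ u, (rho u • w (y - ε • u) - rho u • w y) := by
    rw [integral_sub i1 i2, ← e1]
  rw [e4]
  have key : ‖∫ u, (rho u • w (y - ε • u) - rho u • w y)‖ ≤ ∫ u, rho u * η := by
    refine norm_integral_le_of_norm_le (mL1_rho_int.mul_const η)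
      (Eventually.of_forall fun u => ?_)
    show ‖rho u • w (y - ε • u) - rho u • w y‖ ≤ rho u * η
    rw [← smul_sub, norm_smul, Real.norm_of_nonneg (rho_nonneg u)]
    by_cases hu : 2 ≤ ‖u‖
    · rw [rho_zero hu]; simp
    · refine mul_le_mul_of_nonneg_left ?_ (rho_nonneg u)
      rw [← dist_eq_norm]
      apply hδ
      rw [dist_eq_norm]
      have e2 : y - ε • u - y = -(ε • u) := by abel
      rw [e2, norm_neg, norm_smul, Real.norm_of_nonneg hε.le]
      have : ε * ‖u‖ ≤ ε * 2 := mul_le_mul_of_nonneg_left (by linarith) hε.le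
      linarith
  rw [integral_mul_const, rho_int, one_mul] at key
  exact key

/-- **MOLL1 (c).** convergence in `L¹`.  PROOF: approximate `v` in `L¹` by a continuous compactly
supported `w` (`MeasureTheory.Integrable.exists_hasCompactSupport_integral_sub_le`):
`‖mol ε v - v‖₁ ≤ ‖mol ε (v - w)‖₁ + ‖mol ε w - w‖₁ + ‖w - v‖₁ ≤ 2‖v-w‖₁ + ‖mol ε w - w‖₁`; `w` is
uniformly continuous, `|mol ε w - w| ≤ ω(2ε)` (`mol_eq`, `rho_int`) and vanishes outside a fixed ball
for `ε ≤ 1`. -/
theorem mol_L1 {v : V → F} (hv : Integrable v) :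
    Tendsto (fun ε : ℝ => ∫ y, ‖mol ε v y - v y‖) (𝓝[>] 0) (𝓝 0) := by
  rw [Metric.tendsto_nhds]
  intro δ hδ
  obtain ⟨w, hwc, hvw, hcont, hwi⟩ :=
    hv.exists_hasCompactSupport_integral_sub_le (ε := δ / 8) (by positivity)
  obtain ⟨R, hR⟩ : ∃ R : ℝ, tsupport w ⊆ closedBall (0 : V) R :=
    (hwc.isCompact.isBounded).subset_closedBall 0
  obtain ⟨c, hc⟩ : ∃ c, c = volume.real (closedBall (0 : V) (R + 2)) := ⟨_, rfl⟩
  have hc0 : 0 ≤ c := by rw [hc]; exact measureReal_nonneg
  have huc : UniformContinuous w := hwc.uniformContinuous_of_continuous hcont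
  obtain ⟨η, hη⟩ : ∃ η, η = δ / (4 * (c + 1)) := ⟨_, rfl⟩
  have hη0 : 0 < η := by rw [hη]; positivity
  obtain ⟨r, hr0, hr⟩ := Metric.uniformContinuous_iff.1 huc η hη0
  have hev : ∀ᶠ ε : ℝ in 𝓝[>] 0, 0 < ε ∧ ε < min 1 (r / 2) := by
    have h0 : (0 : ℝ) < min 1 (r / 2) := lt_min one_pos (by positivity)
    filter_upwards [Ioo_mem_nhdsGT h0] with ε hε using hε
  filter_upwards [hev] with ε hε
  obtain ⟨hε0, hε1⟩ := hε
  have hεa : ε < 1 := hε1.trans_le (min_le_left _ _)
  have hεb : ε < r / 2 := hε1.trans_le (min_le_right _ _)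
  have hpt : ∀ y, ‖mol ε w y - w y‖ ≤ η := fun y =>
    mL1_unif hcont (fun x y h => (hr h).le) hε0 (by linarith) y
  have hwz : ∀ x, x ∉ closedBall (0 : V) R → w x = 0 := fun x hx =>
    image_eq_zero_of_notMem_tsupport fun h => hx (hR h)
  have hz : ∀ y, y ∉ closedBall (0 : V) (R + 2) → ‖mol ε w y - w y‖ = 0 := by
    intro y hy
    rw [mem_closedBall_zero_iff, not_le] at hy
    rw [mol_support hε0 (Eventually.of_forall hwz) y (by linarith), hwz y, sub_zero, norm_zero]
    rw [mem_closedBall_zero_iff, not_le]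
    linarith
  have hI1 : ∫ y, ‖mol ε w y - w y‖ ≤ δ / 4 := by
    have e1 : ∫ y, ‖mol ε w y - w y‖ =
        ∫ y in closedBall (0 : V) (R + 2), ‖mol ε w y - w y‖ := by
      symm
      exact setIntegral_eq_integral_of_forall_compl_eq_zero hz
    rw [e1]
    have hmi : Integrable (fun y => ‖mol ε w y - w y‖) :=
      ((mol_integrable hε0 hwi).1.sub hwi).norm
    have e2 : ∫ y in closedBall (0 : V) (R + 2), ‖mol ε w y - w y‖ ≤
        ∫ y in closedBall (0 : V) (R + 2), η := by
      refine setIntegral_mono hmi.integrableOn ?_ hpt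
      exact integrableOn_const (by
        exact (isCompact_closedBall (0 : V) (R + 2)).measure_lt_top.ne)
    refine e2.trans ?_
    rw [setIntegral_const, smul_eq_mul, ← hc, hη]
    rw [mul_div_assoc', div_le_div_iff₀ (by positivity) (by norm_num)]
    nlinarith
  have hI2 := (mol_integrable hε0 (hv.sub hwi)).2
  have hI2' : ∫ y, ‖mol ε (fun x => v x - w x) y‖ ≤ δ / 8 := hI2.trans hvw
  have hmv := (mol_integrable hε0 hv).1
  have hmw := (mol_integrable hε0 hwi).1
  have hmd := (mol_integrable hε0 (hv.sub hwi)).1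
  have hfin : ∫ y, ‖mol ε v y - v y‖ ≤
      ∫ y, ((‖mol ε (fun x => v x - w x) y‖ + ‖mol ε w y - w y‖) + ‖v y - w y‖) := by
    refine integral_mono (hmv.sub hv).norm
      ((hmd.norm.add (hmw.sub hwi).norm).add (hv.sub hwi).norm) fun y => ?_
    show ‖mol ε v y - v y‖ ≤
      (‖mol ε (fun x => v x - w x) y‖ + ‖mol ε w y - w y‖) + ‖v y - w y‖
    rw [mL1_sub hε0 hv hwi]
    have e3 : mol ε v y - v y = ((mol ε v y - mol ε w y) + (mol ε w y - w y)) - (v y - w y) := by
      abel
    rw [e3]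
    refine (norm_sub_le _ _).trans ?_
    gcongr
    exact norm_add_le _ _
  have hsum : ∫ y, ((‖mol ε (fun x => v x - w x) y‖ + ‖mol ε w y - w y‖) + ‖v y - w y‖) =
      (∫ y, ‖mol ε (fun x => v x - w x) y‖) + (∫ y, ‖mol ε w y - w y‖) + ∫ y, ‖v y - w y‖ := by
    rw [integral_add, integral_add]
    · exact hmd.norm
    · exact (hmw.sub hwi).norm
    · exact hmd.norm.add (hmw.sub hwi).norm
    · exact (hv.sub hwi).norm
  rw [Real.dist_eq, sub_zero, abs_of_nonneg (integral_nonneg fun y => norm_nonneg _)]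
  linarith

end MP_614bef_an
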