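import Pool.Agent.Lib.MP_614bef_an.MolAe
import Pool.Agent.Lib.MP_614bef_an.MolL1
import Pool.Agent.Lib.MP_614bef_an.MolD
import Pool.Agent.Lib.MP_614bef_an.IbpL
import Pool.Agent.Lib.MP_614bef_an.Lim

set_option autoImplicit false

namespace MP_614bef_an

open MeasureTheory Set Filter Metric
open scoped RealInnerProductSpace ENNReal NNReal Topology ContDiff

private theorem Chain_lip {h : ℝ → ℝ} (hh : ContDiff ℝ 1 h) {M : ℝ} (hM : ∀ t, |deriv h t| ≤ M)
    (s t : ℝ) : |h s - h t| ≤ M * |s - t| := by
  have h1 := Convex.norm_image_sub_le_of_norm_deriv_le (f := h) (s := Set.univ) (x := t) (y := s)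
    (C := M) (fun x _ => (hh.differentiable one_ne_zero).differentiableAt)
    (fun x _ => hM x) convex_univ (mem_univ _) (mem_univ _)
  exact h1

/-- the identity for the mollified function -/
private theorem Chain_eps {v : V → ℝ} {g : V → V} {vp vm : V → ℝ} {ν : V → V}
    (hv : IsSBV v g vp vm ν) {R : ℝ} (hR : ∀ᵐ x, x ∉ closedBall (0 : V) R → v x = 0)
    {h : ℝ → ℝ} (hh : ContDiff ℝ 1 h) (h0 : h 0 = 0)
    {b : V → V} {K : ℝ≥0} (hb : LipschitzWith K b) {ε : ℝ} (hε : 0 < ε) :
    ∫ y, h (mol ε v y) * divg b y = -∫ y, deriv h (mol ε v y) * (⟪mol ε g y, b y⟫ +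
      ∫ x in jumpSet v, (vp x - vm x) * (rhoE ε (y - x) * ⟪ν x, b y⟫) ∂μH[1]) := by
  have hw : ContDiff ℝ 1 (fun y => h (mol ε v y)) := hh.comp (mol_contDiff hε hv.int)
  have hc : HasCompactSupport (fun y => h (mol ε v y)) := by
    apply HasCompactSupport.of_support_subset_isCompact (isCompact_closedBall (0 : V) (R + 2 * ε))
    intro y hy
    by_contra hcon
    rw [mem_closedBall, dist_zero_right, not_le] at hcon
    apply hy
    simp only [mol_support hε hR y hcon, h0]
  obtain ⟨C, hC⟩ := hw.lipschitzWith_of_hasCompactSupport hc one_ne_zero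
  rw [ibp_lip hC hc hb]
  congr 1
  apply integral_congr_ae
  filter_upwards with y
  have hd : HasFDerivAt (mol ε v) (fderiv ℝ (mol ε v) y) y :=
    ((mol_contDiff hε hv.int).differentiable one_ne_zero y).hasFDerivAt
  have hd2 : HasDerivAt h (deriv h (mol ε v y)) (mol ε v y) :=
    ((hh.differentiable one_ne_zero) _).hasDerivAt
  have hd3 := hd2.comp_hasFDerivAt y hd
  have e : fderiv ℝ (fun y => h (mol ε v y)) y = deriv h (mol ε v y) • fderiv ℝ (mol ε v) y :=
    hd3.fderiv
  rw [e]
  simp only [_root_.smul_apply, smul_eq_mul]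
  rw [mol_fderiv hv hε]

/-- **CHAIN.** chain rule in `SBV`, tested with a Lipschitz field. -/
theorem chain_ibp {v : V → ℝ} {g : V → V} {vp vm : V → ℝ} {ν : V → V}
    (hv : IsSBV v g vp vm ν) {R : ℝ} (hR : ∀ᵐ x, x ∉ closedBall (0 : V) R → v x = 0)
    {h : ℝ → ℝ} (hh : ContDiff ℝ 1 h) (h0 : h 0 = 0) {M : ℝ} (hM : ∀ t, |deriv h t| ≤ M)
    {b : V → V} {K : ℝ≥0} (hb : LipschitzWith K b) {B : ℝ} (hB : ∀ x, ‖b x‖ ≤ B) :
    (∫ x, h (v x) * divg b x) + (∫ x, deriv h (v x) * ⟪b x, g x⟫) +
      ∫ x in jumpSet v, (h (vp x) - h (vm x)) * ⟪b x, ν x⟫ ∂μH[1] = 0 := by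
  have hM0 : 0 ≤ M := (abs_nonneg _).trans (hM 0)
  have hB0 : 0 ≤ B := (norm_nonneg _).trans (hB 0)
  have hdm := divg_measurable hb.continuous
  have hhd : Continuous (deriv h) := hh.continuous_deriv le_rfl
  -- left side
  have L1 : Tendsto (fun ε : ℝ => ∫ y, h (mol ε v y) * divg b y) (𝓝[>] 0)
      (𝓝 (∫ x, h (v x) * divg b x)) := by
    rw [tendsto_iff_norm_sub_tendsto_zero]
    have h1 := (mol_L1 hv.int).const_mul (M * (2 * K))
    rw [mul_zero] at h1
    refine squeeze_zero' (Eventually.of_forall fun ε => norm_nonneg _) ?_ h1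
    filter_upwards [self_mem_nhdsWithin] with ε hε
    have hε : 0 < ε := hε
    have hi : ∀ w : V → ℝ, Integrable w → Integrable fun y => h (w y) * divg b y := by
      intro w hw
      have h2 : Integrable (fun x => h (w x)) := by
        refine (hw.norm.const_mul M).mono' (hh.continuous.comp_aestronglyMeasurable hw.1) ?_
        filter_upwards with x
        have := Chain_lip hh hM (w x) 0
        rw [h0, sub_zero, sub_zero] at this
        exact this
      exact h2.mul_bdd (c := 2 * K) hdm.aestronglyMeasurable
        (Eventually.of_forall fun x => divg_bound hb x)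
    rw [← integral_sub (hi _ (mol_integrable hε hv.int).1) (hi _ hv.int), ← integral_const_mul]
    refine (norm_integral_le_integral_norm _).trans ?_
    apply integral_mono_of_nonneg (Eventually.of_forall fun y => norm_nonneg _)
    · exact (((mol_integrable hε hv.int).1.sub hv.int).norm).const_mul _
    · filter_upwards with y
      rw [← sub_mul, norm_mul]
      calc ‖h (mol ε v y) - h (v y)‖ * ‖divg b y‖ ≤ (M * ‖mol ε v y - v y‖) * (2 * K) := by
            apply mul_le_mul (Chain_lip hh hM _ _) (divg_bound hb y) (abs_nonneg _) (by positivity)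
        _ = M * (2 * K) * ‖mol ε v y - v y‖ := by ring
  -- absolutely continuous part
  have L2 : Tendsto (fun ε : ℝ => ∫ y, deriv h (mol ε v y) * ⟪mol ε g y, b y⟫) (𝓝[>] 0)
      (𝓝 (∫ x, deriv h (v x) * ⟪b x, g x⟫)) := by
    have L3 : Tendsto (fun ε : ℝ => ∫ y, deriv h (mol ε v y) * ⟪g y, b y⟫) (𝓝[>] 0)
        (𝓝 (∫ x, deriv h (v x) * ⟪b x, g x⟫)) := by
      apply tendsto_integral_filter_of_dominated_convergence (fun y => M * (‖g y‖ * B))
      · filter_upwards [self_mem_nhdsWithin] with ε hε
        exact (hhd.comp_aestronglyMeasurable (mol_integrable hε hv.int).1.1).mul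
          (hv.intg.1.inner hb.continuous.aestronglyMeasurable)
      · filter_upwards with ε
        filter_upwards with y
        rw [norm_mul]
        apply mul_le_mul (hM _) _ (norm_nonneg _) hM0
        refine (norm_inner_le_norm _ _).trans ?_
        gcongr
        exact hB y
      · exact (hv.intg.norm.mul_const B).const_mul M
      · filter_upwards [mol_ae hv.int] with y hy
        rw [real_inner_comm]
        exact ((hhd.tendsto _).comp hy).mul_const _
    have L4 : Tendsto (fun ε : ℝ => ∫ y, deriv h (mol ε v y) * ⟪mol ε g y - g y, b y⟫) (𝓝[>] 0)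
        (𝓝 0) := by
      have h1 := (mol_L1 hv.intg).const_mul (M * B)
      rw [mul_zero] at h1
      refine squeeze_zero_norm' ?_ h1
      filter_upwards [self_mem_nhdsWithin] with ε hε
      rw [← integral_const_mul]
      refine (norm_integral_le_integral_norm _).trans ?_
      apply integral_mono_of_nonneg (Eventually.of_forall fun y => norm_nonneg _)
      · exact (((mol_integrable hε hv.intg).1.sub hv.intg).norm).const_mul _
      · filter_upwards with y
        rw [norm_mul]
        calc ‖deriv h (mol ε v y)‖ * ‖⟪mol ε g y - g y, b y⟫‖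
            ≤ M * (‖mol ε g y - g y‖ * B) := by
              apply mul_le_mul (hM _) _ (norm_nonneg _) hM0
              refine (norm_inner_le_norm _ _).trans ?_
              gcongr
              exact hB y
          _ = M * B * ‖mol ε g y - g y‖ := by ring
    have h5 := L3.add L4
    rw [add_zero] at h5
    refine h5.congr' ?_
    filter_upwards [self_mem_nhdsWithin] with ε hε
    have i1 : Integrable (fun y => deriv h (mol ε v y) * ⟪g y, b y⟫) := by
      have : Integrable (fun y => ⟪g y, b y⟫) := by
        refine (hv.intg.norm.mul_const B).mono' (hv.intg.1.inner hb.continuous.aestronglyMeasurable)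
          ?_
        filter_upwards with y
        refine (norm_inner_le_norm _ _).trans ?_
        gcongr
        exact hB y
      exact this.bdd_mul (c := M) (hhd.comp_aestronglyMeasurable (mol_integrable hε hv.int).1.1)
        (Eventually.of_forall fun y => hM _)
    have i2 : Integrable (fun y => deriv h (mol ε v y) * ⟪mol ε g y - g y, b y⟫) := by
      have hi := (mol_integrable hε hv.intg).1.sub hv.intg
      have : Integrable (fun y => ⟪mol ε g y - g y, b y⟫) := by
        refine (hi.norm.mul_const B).mono' (hi.1.inner hb.continuous.aestronglyMeasurable) ?_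
        filter_upwards with y
        refine (norm_inner_le_norm _ _).trans ?_
        gcongr
        · exact le_rfl
        · exact hB y
      exact this.bdd_mul (c := M) (hhd.comp_aestronglyMeasurable (mol_integrable hε hv.int).1.1)
        (Eventually.of_forall fun y => hM _)
    rw [← integral_add i1 i2]
    apply integral_congr_ae
    filter_upwards with y
    rw [← mul_add, ← inner_add_left, add_sub_cancel]
  have L5 := lim_jump hv hh hM hb.continuous hB
  -- the identity in the limit
  have L6 := (L2.add L5).neg
  have L7 : Tendsto (fun ε : ℝ => ∫ y, h (mol ε v y) * divg b y) (𝓝[>] 0)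
      (𝓝 (-((∫ x, deriv h (v x) * ⟪b x, g x⟫) +
        ∫ x in jumpSet v, (h (vp x) - h (vm x)) * ⟪b x, ν x⟫ ∂μH[1]))) := by
    refine L6.congr' ?_
    filter_upwards [self_mem_nhdsWithin] with ε hε
    have hε : 0 < ε := hε
    rw [Chain_eps hv hR hh h0 hb hε]
    congr 1
    have hcd := mol_contDiff hε hv.int
    have hcf : Continuous (fderiv ℝ (mol ε v)) := hcd.continuous_fderiv one_ne_zero
    have hsup : HasCompactSupport (mol ε v) := by
      apply HasCompactSupport.of_support_subset_isCompact (isCompact_closedBall (0 : V) (R + 2 * ε))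
      intro y hy
      by_contra hcon
      rw [mem_closedBall, dist_zero_right, not_le] at hcon
      exact hy (mol_support hε hR y hcon)
    have i3 : Integrable (fun y => deriv h (mol ε v y) * fderiv ℝ (mol ε v) y (b y)) := by
      apply Continuous.integrable_of_hasCompactSupport
      · exact (hhd.comp hcd.continuous).mul (hcf.clm_apply hb.continuous)
      · apply HasCompactSupport.mul_left
        have h7 := hsup.fderiv (𝕜 := ℝ)
        refine h7.mono ?_
        intro y hy hy2
        apply hy
        simp only
        rw [hy2]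
        rfl
    have i4 : Integrable (fun y => deriv h (mol ε v y) * ⟪mol ε g y, b y⟫) := by
      have hi := (mol_integrable hε hv.intg).1
      have : Integrable (fun y => ⟪mol ε g y, b y⟫) := by
        refine (hi.norm.mul_const B).mono' (hi.1.inner hb.continuous.aestronglyMeasurable) ?_
        filter_upwards with y
        refine (norm_inner_le_norm _ _).trans ?_
        gcongr
        exact hB y
      exact this.bdd_mul (c := M) (hhd.comp_aestronglyMeasurable (mol_integrable hε hv.int).1.1)
        (Eventually.of_forall fun y => hM _)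
    have i5 : Integrable (fun y => deriv h (mol ε v y) *
        ∫ x in jumpSet v, (vp x - vm x) * (rhoE ε (y - x) * ⟪ν x, b y⟫) ∂μH[1]) := by
      refine (i3.sub i4).congr ?_
      filter_upwards with y
      simp only [Pi.sub_apply]
      rw [mol_fderiv hv hε]
      ring
    rw [← integral_add i4 i5]
    apply integral_congr_ae
    filter_upwards with y
    ring
  have L8 := tendsto_nhds_unique L1 L7
  linarith

end MP_614bef_an
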