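import Pool.Agent.Lib.MP_614bef_an.Prj

set_option autoImplicit false

/-!
The constants, the convex body, the fields and the functions of the example.
-/

namespace MP_614bef_an

open MeasureTheory Set Filter Metric
open scoped RealInnerProductSpace ENNReal NNReal Topology ContDiff

/-- boundary value of the cold phase -/
noncomputable def aa : ℝ := 1 / 10 ^ 4
/-- `aa ^ 2` -/
noncomputable def mm : ℝ := 1 / 10 ^ 8
/-- inradius of the convex body -/
noncomputable def e0 : ℝ := mm / 10
/-- distance of the cold phase to the convex body -/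
noncomputable def ee : ℝ := 16 * mm
/-- radius of the hot disc -/
noncomputable def R1 : ℝ := ee + e0
/-- width of the cold ring -/
noncomputable def LL : ℝ := 5 / 3 * mm
/-- inner cut-off radius of the field `b2` -/
noncomputable def c0 : ℝ := ee - e0
/-- boundary value of the hot phase -/
noncomputable def a1 : ℝ := Real.exp (-R1 / 2)

/-- unit vector with angle `φ` -/
noncomputable def ev (φ : ℝ) : V := !₂[Real.cos φ, Real.sin φ]

/-- the convex body attached to a set of angles -/
def EE (C : Set ℝ) : Set V := closedBall (0 : V) (2 * e0) ∩ {x | ∀ φ ∈ C, ⟪x, ev φ⟫ ≤ e0}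

/-- truncated unit field: `z / max ‖z‖ c` -/
noncomputable def sat (c : ℝ) (z : V) : V := (max ‖z‖ c)⁻¹ • z

/-- `max (-1) (min 1 (1 - 2 (δ - ε)/L))` -/
noncomputable def etp (d : ℝ) : ℝ := max (-1) (min 1 (1 - 2 * (d - ee) / LL))

/-- the field of the hot phase -/
noncomputable def b1 (x : V) : V := -sat R1 x

/-- the field of the cold phase -/
noncomputable def b2 (E : Set V) (x : V) : V := etp (infDist x E) • sat c0 (rs E x)

/-- curvature of the level line of the distance, between `0` and `1/δ` -/
noncomputable def kap (E : Set V) (x : V) : ℝ :=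
  (max 1 (min 2 (divg (rs E) x)) - 1) / infDist x E

/-- the hot disc -/
def Hot (x : V) : Prop := ‖x‖ < R1

/-- the cold ring -/
def Cold (E : Set V) (x : V) : Prop := ee < infDist x E ∧ infDist x E < ee + LL

/-- value of the cold phase at distance `d` -/
noncomputable def u2v (d : ℝ) : ℝ := aa * Real.exp ((d - ee) - (d - ee) ^ 2 / LL)

open Classical in
/-- the minimizer -/
noncomputable def uu (E : Set V) (x : V) : ℝ :=
  if Hot x then Real.exp (-‖x‖ ^ 2 / (2 * R1)) else if Cold E x then u2v (infDist x E) else 0

open Classical in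
/-- its gradient -/
noncomputable def gg (E : Set V) (x : V) : V :=
  if Hot x then uu E x • b1 x else if Cold E x then uu E x • b2 E x else 0

open Classical in
/-- `q = -div b - |b|²` -/
noncomputable def qq (E : Set V) (x : V) : ℝ :=
  if Hot x then 2 / R1 - ‖x‖ ^ 2 / R1 ^ 2 else if Cold E x then
    2 / LL - etp (infDist x E) * kap E x - etp (infDist x E) ^ 2 else 0

/-- the source `f = 2 q u` -/
noncomputable def ff (E : Set V) (x : V) : ℝ := 2 * qq E x * uu E x

open Classical in
/-- `c = q u² - 1` in the phases and `0` outside -/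
noncomputable def cc (E : Set V) (x : V) : ℝ :=
  if Hot x ∨ Cold E x then qq E x * uu E x ^ 2 - 1 else 0

/-- square of the positive part -/
noncomputable def pp (x : ℝ) : ℝ := max x 0 ^ 2

/-- the second profile -/
noncomputable def h2 (t : ℝ) : ℝ := |t| ^ 2 - pp (|t| - 2 * aa) - 7 / 50 * pp (|t| - 101 * aa) +
  6 / 25 * pp (|t| - 151 * aa) - 1 / 10 * pp (|t| - 201 * aa)

/-- the first profile -/
noncomputable def h1 (t : ℝ) : ℝ := pp (|t| - 2 * aa) + 7 / 50 * pp (|t| - 101 * aa) -
  6 / 25 * pp (|t| - 151 * aa) + 1 / 10 * pp (|t| - 201 * aa) - pp (|t| - 1)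

/-- the three curves -/
def S1 : Set V := {x | ‖x‖ = R1}
def S2 (E : Set V) : Set V := {x | infDist x E = ee}
def S3 (E : Set V) : Set V := {x | infDist x E = ee + LL}

/-- the free boundary -/
def GA (E : Set V) : Set V := S1 ∪ S2 E ∪ S3 E

open Classical in
/-- larger trace -/
noncomputable def upp (x : V) : ℝ := if x ∈ S1 then a1 else aa

open Classical in
/-- smaller trace -/
noncomputable def umm (E : Set V) (x : V) : ℝ := if x ∈ S1 ∧ x ∈ S2 E then aa else 0

open Classical in
/-- jump direction -/
noncomputable def nuu (E : Set V) (x : V) : V :=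
  if x ∈ S1 then -(R1⁻¹ • x) else if x ∈ S2 E then ee⁻¹ • rs E x else -((ee + LL)⁻¹ • rs E x)

/-- standing hypotheses on the convex body -/
structure Body (E : Set V) : Prop where
  cl : IsClosed E
  cv : Convex ℝ E
  inn : closedBall (0 : V) e0 ⊆ E
  out : E ⊆ closedBall (0 : V) (2 * e0)

theorem Body.ne {E : Set V} (h : Body E) : E.Nonempty := by
  refine ⟨0, h.inn ?_⟩
  simp only [mem_closedBall, dist_self]
  unfold e0 mm
  norm_num

end MP_614bef_an
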