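import Pool.Agent.Lib.MP_614bef_an.Prj
import Pool.Agent.Lib.MP_614bef_an.IbpL

set_option autoImplicit false

namespace MP_614bef_an

open MeasureTheory Set Filter Metric
open scoped RealInnerProductSpace ENNReal NNReal Topology ContDiff

variable {E : Set V}

/-- **PRJD (a).** from `sq_expand` -/
theorem hasFDerivAt_sq (hE : IsClosed E) (hc : Convex ℝ E) (hn : E.Nonempty) (x : V) :
    HasFDerivAt (fun y => infDist y E ^ 2) (innerSL ℝ ((2 : ℝ) • rs E x)) x := by
  rw [hasFDerivAt_iff_tendsto]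
  have h1 : Tendsto (fun y : V => ‖y - x‖) (𝓝 x) (𝓝 0) := by
    have : Tendsto (fun y : V => ‖y - x‖) (𝓝 x) (𝓝 ‖x - x‖) :=
      ((continuous_id.sub continuous_const).norm).tendsto x
    rwa [sub_self, norm_zero] at this
  refine squeeze_zero (fun y => by positivity) (fun y => ?_) h1
  have h2 := sq_expand hE hc hn x y
  have h3 : (innerSL ℝ ((2 : ℝ) • rs E x)) (y - x) = 2 * ⟪rs E x, y - x⟫ := by
    rw [innerSL_apply_apply, inner_smul_left]
    rfl
  rw [h3, Real.norm_eq_abs]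
  rcases eq_or_ne ‖y - x‖ 0 with h0 | h0
  · rw [h0, inv_zero, zero_mul]
  · have hpos : 0 < ‖y - x‖ := lt_of_le_of_ne (norm_nonneg _) h0.symm
    calc ‖y - x‖⁻¹ * |infDist y E ^ 2 - infDist x E ^ 2 - 2 * ⟪rs E x, y - x⟫|
        ≤ ‖y - x‖⁻¹ * ‖y - x‖ ^ 2 := by
          exact mul_le_mul_of_nonneg_left h2 (inv_nonneg.2 hpos.le)
      _ = ‖y - x‖ := by field_simp

private theorem PrjD_pos (hE : IsClosed E) (hn : E.Nonempty) {x : V} (hx : x ∉ E) :
    0 < infDist x E := (hE.notMem_iff_infDist_pos hn).1 hx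

/-- **PRJD (b).** square root of (a), outside `E` -/
theorem hasFDerivAt_dist (hE : IsClosed E) (hc : Convex ℝ E) (hn : E.Nonempty) {x : V}
    (hx : x ∉ E) :
    HasFDerivAt (fun y => infDist y E) (innerSL ℝ ((infDist x E)⁻¹ • rs E x)) x := by
  have hpos := PrjD_pos hE hn hx
  have h1 := (hasFDerivAt_sq hE hc hn x).sqrt (pow_ne_zero 2 hpos.ne')
  have h2 : (fun y => √(infDist y E ^ 2)) = fun y => infDist y E := by
    funext y
    exact Real.sqrt_sq infDist_nonneg
  rw [h2, Real.sqrt_sq infDist_nonneg, ← map_smul, smul_smul] at h1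
  have h3 : 1 / (2 * infDist x E) * 2 = (infDist x E)⁻¹ := by
    field_simp
  rwa [h3] at h1

/-- moving outwards along the normal does not change the projection -/
private theorem PrjD_ray (hE : IsClosed E) (hc : Convex ℝ E) (hn : E.Nonempty) (x : V) {s : ℝ}
    (hs : -1 ≤ s) : prj E (x + s • rs E x) = prj E x := by
  apply prj_unique hE hc hn _ (prj_mem hE hn x)
  rw [le_infDist hn]
  intro y hy
  have h1 : x + s • rs E x - prj E x = (1 + s) • rs E x := by
    rw [add_smul, one_smul]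
    nth_rewrite 2 [rs]
    abel
  have h2 := prj_le hE hc hn x hy
  rw [dist_eq_norm, dist_eq_norm, h1]
  have h3 : x + s • rs E x - y = (1 + s) • rs E x - (y - prj E x) := by
    rw [← h1]; abel
  rw [h3]
  apply le_of_sq_le_sq _ (norm_nonneg _)
  rw [norm_sub_sq_real, inner_smul_left]
  have h4 : 0 ≤ (1 + s) * -⟪rs E x, y - prj E x⟫ := mul_nonneg (by linarith) (by linarith)
  have h5 : 0 ≤ ‖y - prj E x‖ ^ 2 := by positivity
  have h6 : (starRingEnd ℝ) (1 + s) = 1 + s := rfl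
  rw [h6]
  linarith

private theorem PrjD_rs_ray (hE : IsClosed E) (hc : Convex ℝ E) (hn : E.Nonempty) (x : V) {s : ℝ}
    (hs : -1 ≤ s) : infDist (x + s • rs E x) E = (1 + s) * infDist x E := by
  rw [← rs_norm hE hn, ← rs_norm hE hn x]
  have h1 : rs E (x + s • rs E x) = (1 + s) • rs E x := by
    conv_lhs => rw [rs, PrjD_ray hE hc hn x hs]
    rw [add_smul, one_smul]
    nth_rewrite 2 [rs]
    abel
  rw [h1, norm_smul, Real.norm_of_nonneg (by linarith)]

private theorem PrjD_line {f : V → V} {L : V →L[ℝ] V} {x : V} (h : HasFDerivAt f L x) (v : V) :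
    HasDerivAt (fun s : ℝ => f (x + s • v)) (L v) 0 := by
  have h1 : HasDerivAt (fun s : ℝ => x + s • v) v 0 := by
    have h2 := ((hasDerivAt_id (0 : ℝ)).smul_const v).const_add x
    simpa using h2
  have h3 : HasFDerivAt f L (x + (0 : ℝ) • v) := by
    rwa [zero_smul, add_zero]
  exact h3.comp_hasDerivAt (0 : ℝ) h1

private theorem PrjD_mono (hE : IsClosed E) (hc : Convex ℝ E) (hn : E.Nonempty) (x y : V) :
    0 ≤ ⟪prj E x - prj E y, x - y⟫ := by
  have h1 := rs_firm hE hc hn x y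
  have h2 : rs E x - rs E y = (x - y) - (prj E x - prj E y) := by unfold rs; abel
  have h3 := prj_le hE hc hn x (prj_mem hE hn y)
  have h4 := prj_le hE hc hn y (prj_mem hE hn x)
  have h5 : prj E y - prj E x = -(prj E x - prj E y) := by abel
  rw [h5, inner_neg_right] at h3
  have h6 : 0 ≤ ⟪rs E x - rs E y, prj E x - prj E y⟫ := by
    rw [inner_sub_left]
    linarith
  rw [h2, inner_sub_left, real_inner_self_eq_norm_sq] at h6
  have h7 : 0 ≤ ‖prj E x - prj E y‖ ^ 2 := by positivity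
  rw [real_inner_comm]
  linarith

/-- the trace of the derivative of the projection -/
private theorem PrjD_trace (hE : IsClosed E) (hc : Convex ℝ E) (hn : E.Nonempty) {x : V}
    (hx : x ∉ E) {L : V →L[ℝ] V} (hL : HasFDerivAt (prj E) L x) :
    0 ≤ (L (EuclideanSpace.single 0 1)) 0 + (L (EuclideanSpace.single 1 1)) 1 ∧
      (L (EuclideanSpace.single 0 1)) 0 + (L (EuclideanSpace.single 1 1)) 1 ≤ 1 := by
  have hpos := PrjD_pos hE hn hx
  obtain ⟨n, hnn⟩ : ∃ n, n = rs E x := ⟨_, rfl⟩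
  have hn2 : 0 < ‖n‖ ^ 2 := by
    rw [hnn, rs_norm hE hn]
    positivity
  -- `L n = 0`
  have hLn : L n = 0 := by
    have h1 := PrjD_line hL n
    have h2 : (fun s : ℝ => prj E (x + s • n)) =ᶠ[𝓝 0] fun _ => prj E x := by
      have h3 : Ioi (-1 : ℝ) ∈ 𝓝 (0 : ℝ) := Ioi_mem_nhds (by norm_num)
      filter_upwards [h3] with s hs
      rw [hnn]
      exact PrjD_ray hE hc hn x (le_of_lt hs)
    exact (h1.congr_of_eventuallyEq h2.symm).unique (hasDerivAt_const (0 : ℝ) (prj E x))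
  -- monotonicity
  have hmon : ∀ v : V, 0 ≤ ⟪L v, v⟫ := by
    intro v
    have h1 : HasDerivAt (fun s : ℝ => ⟪prj E (x + s • v), v⟫) ⟪L v, v⟫ 0 := by
      have h2 := (PrjD_line hL v).inner ℝ (hasDerivAt_const (0 : ℝ) v)
      simpa using h2
    refine h1.nonneg_of_monotone ?_
    intro s t hst
    rcases eq_or_lt_of_le hst with h3 | h3
    · rw [h3]
    · have h4 := PrjD_mono hE hc hn (x + t • v) (x + s • v)
      have h5 : x + t • v - (x + s • v) = (t - s) • v := by
        rw [sub_smul]; abel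
      rw [h5, inner_smul_right, inner_sub_left] at h4
      have h6 := nonneg_of_mul_nonneg_right h4 (sub_pos.2 h3)
      show ⟪prj E (x + s • v), v⟫ ≤ ⟪prj E (x + t • v), v⟫
      linarith
  have hle : ∀ v : V, ⟪L v, v⟫ ≤ ‖v‖ ^ 2 := by
    intro v
    have h1 : ‖L‖ ≤ 1 := by
      have h2 := hL.le_of_lipschitz (prj_lip hE hc hn)
      simpa using h2
    calc ⟪L v, v⟫ ≤ ‖L v‖ * ‖v‖ := real_inner_le_norm _ _
      _ ≤ (1 * ‖v‖) * ‖v‖ := by
        refine mul_le_mul_of_nonneg_right ?_ (norm_nonneg _)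
        exact (L.le_opNorm v).trans (mul_le_mul_of_nonneg_right h1 (norm_nonneg _))
      _ = ‖v‖ ^ 2 := by ring
  -- coordinates
  obtain ⟨τ, hτ⟩ : ∃ τ : V, τ = EuclideanSpace.single 0 (-(n 1)) + EuclideanSpace.single 1 (n 0) :=
    ⟨_, rfl⟩
  have hexp : ∀ v : V, L v = v 0 • L (EuclideanSpace.single 0 1) +
      v 1 • L (EuclideanSpace.single 1 1) := by
    intro v
    rw [← map_smul, ← map_smul, ← map_add]
    congr 1
    ext i
    fin_cases i <;> simp
  have hτ0 : τ 0 = -(n 1) := by rw [hτ]; simp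
  have hτ1 : τ 1 = n 0 := by rw [hτ]; simp
  obtain ⟨a, ha⟩ : ∃ a, a = (L (EuclideanSpace.single 0 1)) 0 := ⟨_, rfl⟩
  obtain ⟨c, hcc⟩ : ∃ c, c = (L (EuclideanSpace.single 0 1)) 1 := ⟨_, rfl⟩
  obtain ⟨b, hb⟩ : ∃ b, b = (L (EuclideanSpace.single 1 1)) 0 := ⟨_, rfl⟩
  obtain ⟨d, hd⟩ : ∃ d, d = (L (EuclideanSpace.single 1 1)) 1 := ⟨_, rfl⟩
  have e0 : ∀ v : V, (L v) 0 = v 0 * a + v 1 * b := by
    intro v
    rw [hexp v, ha, hb]
    simp
  have e1 : ∀ v : V, (L v) 1 = v 0 * c + v 1 * d := by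
    intro v
    rw [hexp v, hcc, hd]
    simp
  have hin : ∀ v : V, ⟪L v, v⟫ = (L v) 0 * v 0 + (L v) 1 * v 1 := by
    intro v
    rw [PiLp.inner_apply, Fin.sum_univ_two]
    simp [mul_comm]
  have hns : ‖n‖ ^ 2 = n 0 ^ 2 + n 1 ^ 2 := by
    rw [EuclideanSpace.norm_sq_eq, Fin.sum_univ_two]
    simp
  have hτs : ‖τ‖ ^ 2 = ‖n‖ ^ 2 := by
    rw [hns, EuclideanSpace.norm_sq_eq, Fin.sum_univ_two, hτ0, hτ1]
    simp
    ring
  have k0 : n 0 * a + n 1 * b = 0 := by
    rw [← e0, hLn]; rfl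
  have k1 : n 0 * c + n 1 * d = 0 := by
    rw [← e1, hLn]; rfl
  have hmain : ⟪L τ, τ⟫ = (a + d) * ‖n‖ ^ 2 := by
    rw [hin, e0, e1, hτ0, hτ1, hns]
    linear_combination (-(n 0)) * k0 - (n 1) * k1
  rw [← ha, ← hd]
  have m1 := hmon τ
  have m2 := hle τ
  rw [hτs] at m2
  rw [hmain] at m1 m2
  constructor
  · exact nonneg_of_mul_nonneg_left m1 hn2
  · by_contra hcon
    push Not at hcon
    nlinarith

private theorem PrjD_divg {x : V} {L : V →L[ℝ] V}
    (hL : HasFDerivAt (prj E) L x) :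
    divg (rs E) x = 2 -
      ((L (EuclideanSpace.single 0 1)) 0 + (L (EuclideanSpace.single 1 1)) 1) := by
  have h1 : HasFDerivAt (rs E) (ContinuousLinearMap.id ℝ V - L) x := (hasFDerivAt_id x).sub hL
  unfold divg
  rw [h1.fderiv, Fin.sum_univ_two]
  simp
  ring

/-- **PRJD (c).** divergence of `x - P x` outside `E` at points of differentiability.
PROOF: let `L` be the derivative of `P = prj E` at `x`, `n = rs E x / δ`, `τ ⊥ n` a unit vector.
`divg (rs E) x = 2 - tr L` and `tr L = ⟪L n, n⟫ + ⟪L τ, τ⟫` (trace in the orthonormal basis `n, τ`;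
or compute with coordinates).  `L n = 0` since `P (x + s n) = P x` for small `s`
(`x + s n - P x` is a positive multiple of `rs E x`: variational inequality and `prj_unique`).
`⟪L τ, τ⟫ ≥ ‖L τ‖² ≥ 0` and `≤ 1` from `‖P x - P y‖² ≤ ⟪P x - P y, x - y⟫` (which follows from
`rs_firm`/`prj_le`) resp. `prj_lip`. -/
theorem rs_div (hE : IsClosed E) (hc : Convex ℝ E) (hn : E.Nonempty) {x : V} (hx : x ∉ E)
    (hd : DifferentiableAt ℝ (prj E) x) : 1 ≤ divg (rs E) x ∧ divg (rs E) x ≤ 2 := by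
  have h1 := PrjD_trace hE hc hn hx hd.hasFDerivAt
  rw [PrjD_divg hd.hasFDerivAt]
  constructor <;> linarith [h1.1, h1.2]

/-- **PRJD (d).** level sets are null: `{infDist · E = s}` is contained in the frontier of the convex
set `{infDist · E ≤ s}` (`Convex.addHaar_frontier`; convexity of `infDist` for convex `E`); for
`s = 0` take the frontier of `E`. -/
theorem null_level (hE : IsClosed E) (hc : Convex ℝ E) (hn : E.Nonempty) {s : ℝ} (hs : 0 < s) :
    volume {x : V | infDist x E = s} = 0 := by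
  have hA : cthickening s E = {x : V | infDist x E ≤ s} := by
    ext x
    rw [mem_cthickening_iff, mem_ofPred_eq, infDist,
      ENNReal.le_ofReal_iff_toReal_le (infEDist_ne_top hn) hs.le]
  have h1 := (hc.cthickening s).addHaar_frontier volume
  refine measure_mono_null ?_ h1
  intro x hx
  rw [mem_ofPred_eq] at hx
  rw [hA]
  have hxA : x ∈ {x : V | infDist x E ≤ s} := hx.le
  refine ⟨subset_closure hxA, ?_⟩
  intro hint
  rw [mem_interior_iff_mem_nhds] at hint
  have h2 : Tendsto (fun ε : ℝ => x + ε • rs E x) (𝓝 0) (𝓝 x) := by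
    have h3 : Tendsto (fun ε : ℝ => x + ε • rs E x) (𝓝 0) (𝓝 (x + (0 : ℝ) • rs E x)) :=
      (continuous_const.add (continuous_id.smul continuous_const)).tendsto 0
    rwa [zero_smul, add_zero] at h3
  have h4 := (h2.mono_left (nhdsWithin_le_nhds (s := Ioi 0))).eventually hint
  obtain ⟨ε, hε, hε0⟩ := (h4.and self_mem_nhdsWithin).exists
  have hε1 : (0 : ℝ) < ε := hε0
  have h5 : infDist (x + ε • rs E x) E ≤ s := hε
  rw [PrjD_rs_ray hE hc hn x (by linarith), hx] at h5
  nlinarith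

theorem null_frontier (hc : Convex ℝ E) : volume (frontier E) = 0 :=
  hc.addHaar_frontier volume

/-- **PRJD (e).** divergence of `ψ(δ) (x - P x)`:
`divg = ψ'(δ) ⟪∇δ, rs⟫ + ψ(δ) divg (rs E) = ψ' δ + ψ(δ) divg (rs E)`. -/
theorem divg_radial (hE : IsClosed E) (hc : Convex ℝ E) (hn : E.Nonempty) {x : V} (hx : x ∉ E)
    (hd : DifferentiableAt ℝ (prj E) x) {ψ : ℝ → ℝ} {ψ' : ℝ} (hψ : HasDerivAt ψ ψ' (infDist x E)) :
    divg (fun y => ψ (infDist y E) • rs E y) x =
      ψ' * infDist x E + ψ (infDist x E) * divg (rs E) x := by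
  have hpos := PrjD_pos hE hn hx
  have h1 : HasFDerivAt (fun y => ψ (infDist y E))
      (ψ' • innerSL ℝ ((infDist x E)⁻¹ • rs E x)) x :=
    hψ.comp_hasFDerivAt x (hasFDerivAt_dist hE hc hn hx)
  have h2 : HasFDerivAt (rs E) (fderiv ℝ (rs E) x) x := by
    have h3 : HasFDerivAt (rs E) (ContinuousLinearMap.id ℝ V - fderiv ℝ (prj E) x) x :=
      (hasFDerivAt_id x).sub hd.hasFDerivAt
    exact h3.differentiableAt.hasFDerivAt
  have h4 : HasFDerivAt (fun y => ψ (infDist y E) • rs E y)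
      (ψ (infDist x E) • fderiv ℝ (rs E) x +
        (ψ' • innerSL ℝ ((infDist x E)⁻¹ • rs E x)).smulRight (rs E x)) x := h1.smul h2
  have h5 : rs E x 0 ^ 2 + rs E x 1 ^ 2 = infDist x E ^ 2 := by
    rw [← rs_norm hE hn, EuclideanSpace.norm_sq_eq, Fin.sum_univ_two]
    simp
  have h6 : ∀ i : Fin 2, ⟪rs E x, EuclideanSpace.single i (1 : ℝ)⟫ = rs E x i := by
    intro i
    rw [EuclideanSpace.inner_single_right]
    simp
  unfold divg
  rw [h4.fderiv, Fin.sum_univ_two, Fin.sum_univ_two]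
  simp only [ContinuousLinearMap.add_apply, ContinuousLinearMap.smul_apply,
    ContinuousLinearMap.smulRight_apply, innerSL_apply_apply, inner_smul_left, h6,
    PiLp.add_apply, PiLp.smul_apply, smul_eq_mul]
  have h7 : (starRingEnd ℝ) (infDist x E)⁻¹ = (infDist x E)⁻¹ := rfl
  rw [h7]
  have h8 : (infDist x E)⁻¹ * (rs E x 0 ^ 2 + rs E x 1 ^ 2) = infDist x E := by
    rw [h5]
    field_simp
  linear_combination ψ' * h8

end MP_614bef_an
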