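import Pool.Agent.Lib.MP_614bef_an.Cst
import Pool.Agent.Lib.MP_614bef_an.PrjD

set_option autoImplicit false

namespace MP_614bef_an

open MeasureTheory Set Filter Metric
open scoped RealInnerProductSpace ENNReal NNReal Topology ContDiff

private theorem e0_pos : 0 < e0 := by
  unfold e0 mm
  norm_num

private theorem ee_pos : 0 < ee := by
  unfold ee mm
  norm_num

private theorem c0_pos : 0 < c0 := by
  unfold c0 ee e0 mm
  norm_num

private theorem c0_lt : c0 < ee := by
  unfold c0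
  linarith [e0_pos]

private theorem LL_pos : 0 < LL := by
  unfold LL mm
  norm_num

private theorem R1_pos : 0 < R1 := by
  unfold R1
  linarith [e0_pos, ee_pos]

/-- **CST (a).** -/
theorem infDist_le {E : Set V} (h : Body E) (x : V) : infDist x E ≤ max 0 (‖x‖ - e0) := by
  by_cases hx : ‖x‖ ≤ e0
  · have hxE : x ∈ E := h.inn (by simpa using hx)
    rw [infDist_zero_of_mem hxE]
    exact le_max_left _ _
  · push Not at hx
    have hx0 : 0 < ‖x‖ := e0_pos.trans hx
    have hp : (e0 / ‖x‖) • x ∈ E := by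
      apply h.inn
      rw [mem_closedBall, dist_zero_right, norm_smul, Real.norm_eq_abs, abs_of_pos (by
        exact div_pos e0_pos hx0), div_mul_cancel₀ _ hx0.ne']
    have h1 : infDist x E ≤ dist x ((e0 / ‖x‖) • x) := infDist_le_dist_of_mem hp
    have h2 : dist x ((e0 / ‖x‖) • x) = ‖x‖ - e0 := by
      rw [dist_eq_norm]
      have : x - (e0 / ‖x‖) • x = ((‖x‖ - e0) / ‖x‖) • x := by
        rw [sub_div, div_self hx0.ne', sub_smul, one_smul]
      rw [this, norm_smul, Real.norm_eq_abs, abs_of_nonneg (div_nonneg (by linarith) hx0.le),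
        div_mul_cancel₀ _ hx0.ne']
    rw [h2] at h1
    exact h1.trans (le_max_right _ _)

theorem le_infDist {E : Set V} (h : Body E) (x : V) : ‖x‖ - 2 * e0 ≤ infDist x E := by
  rw [Metric.le_infDist h.ne]
  intro y hy
  have h1 : ‖y‖ ≤ 2 * e0 := by simpa using h.out hy
  have h2 : ‖x‖ ≤ ‖x - y‖ + ‖y‖ := by
    have := norm_add_le (x - y) y
    simpa using this
  rw [dist_eq_norm]
  linarith

/-- in the hot disc the distance is less than `ee` -/
theorem hot_lt {E : Set V} (h : Body E) {x : V} (hx : Hot x) : infDist x E < ee := by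
  refine (infDist_le h x).trans_lt ?_
  rw [max_lt_iff]
  refine ⟨ee_pos, ?_⟩
  unfold Hot R1 at hx
  linarith

theorem S1_le {E : Set V} (h : Body E) {x : V} (hx : x ∈ S1) : infDist x E ≤ ee := by
  refine (infDist_le h x).trans ?_
  rw [max_le_iff]
  refine ⟨ee_pos.le, ?_⟩
  have : ‖x‖ = R1 := hx
  unfold R1 at this
  linarith

private theorem max_pos' {c : ℝ} (hc : 0 < c) (z : V) : 0 < max ‖z‖ c :=
  lt_of_lt_of_le hc (le_max_right _ _)

/-- **CST (b).** Lipschitz: `sat c z` is the projection of `z / c` on the unit ball -/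
theorem sat_lip {c : ℝ} (hc : 0 < c) : ∃ K : ℝ≥0, LipschitzWith K (sat c) := by
  refine ⟨⟨2 / c, by positivity⟩, LipschitzWith.of_dist_le_mul fun z w => ?_⟩
  rw [dist_eq_norm, dist_eq_norm]
  change ‖sat c z - sat c w‖ ≤ 2 / c * ‖z - w‖
  set A := max ‖z‖ c with hA
  set B := max ‖w‖ c with hB
  have hA0 : 0 < A := max_pos' hc z
  have hB0 : 0 < B := max_pos' hc w
  have hAc : c ≤ A := le_max_right _ _
  have hBw : ‖w‖ ≤ B := le_max_left _ _
  have hAB : |B - A| ≤ ‖z - w‖ := by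
    have h1 : |max ‖w‖ c - max ‖z‖ c| ≤ |‖w‖ - ‖z‖| := abs_max_sub_max_le_abs _ _ _
    have h2 : |‖w‖ - ‖z‖| ≤ ‖w - z‖ := abs_norm_sub_norm_le _ _
    rw [norm_sub_rev] at h2
    exact h1.trans h2
  have e1 : sat c z - sat c w = A⁻¹ • (z - w) + (A⁻¹ - B⁻¹) • w := by
    unfold sat
    rw [← hA, ← hB, smul_sub, sub_smul]
    abel
  have h3 : ‖A⁻¹ • (z - w)‖ ≤ 1 / c * ‖z - w‖ := by
    rw [norm_smul, Real.norm_eq_abs, abs_of_pos (inv_pos.2 hA0), ← one_div]
    exact mul_le_mul_of_nonneg_right (one_div_le_one_div_of_le hc hAc) (norm_nonneg _)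
  have h4 : ‖(A⁻¹ - B⁻¹) • w‖ ≤ 1 / c * ‖z - w‖ := by
    rw [norm_smul, Real.norm_eq_abs]
    have e2 : A⁻¹ - B⁻¹ = (B - A) * (A⁻¹ * B⁻¹) := by
      field_simp
    rw [e2, abs_mul, abs_of_pos (mul_pos (inv_pos.2 hA0) (inv_pos.2 hB0))]
    calc |B - A| * (A⁻¹ * B⁻¹) * ‖w‖ = |B - A| * A⁻¹ * (B⁻¹ * ‖w‖) := by ring
      _ ≤ |B - A| * A⁻¹ * 1 := by
          apply mul_le_mul_of_nonneg_left _ (by positivity)
          rw [inv_mul_le_iff₀ hB0, mul_one]
          exact hBw
      _ = A⁻¹ * |B - A| := by ring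
      _ ≤ 1 / c * ‖z - w‖ := by
          apply mul_le_mul _ hAB (abs_nonneg _) (by positivity)
          rw [← one_div]
          exact one_div_le_one_div_of_le hc hAc
  rw [e1]
  calc _ ≤ ‖A⁻¹ • (z - w)‖ + ‖(A⁻¹ - B⁻¹) • w‖ := norm_add_le _ _
    _ ≤ 1 / c * ‖z - w‖ + 1 / c * ‖z - w‖ := add_le_add h3 h4
    _ = 2 / c * ‖z - w‖ := by ring

theorem sat_norm {c : ℝ} (hc : 0 < c) (z : V) : ‖sat c z‖ ≤ 1 := by
  unfold sat
  rw [norm_smul, Real.norm_eq_abs, abs_of_pos (inv_pos.2 (max_pos' hc z)),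
    inv_mul_le_iff₀ (max_pos' hc z), mul_one]
  exact le_max_left _ _

theorem b1_lip : ∃ K : ℝ≥0, LipschitzWith K b1 := by
  obtain ⟨K, hK⟩ := sat_lip R1_pos
  exact ⟨K, hK.neg⟩

theorem b1_norm (x : V) : ‖b1 x‖ ≤ 1 := by
  unfold b1
  rw [norm_neg]
  exact sat_norm R1_pos x

private theorem etp_abs (d : ℝ) : |etp d| ≤ 1 := by
  unfold etp
  rw [abs_le]
  exact ⟨le_max_left _ _, max_le (by norm_num) (min_le_left _ _)⟩

private theorem etp_lip (d d' : ℝ) : |etp d - etp d'| ≤ 2 / LL * |d - d'| := by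
  unfold etp
  have h1 := abs_max_sub_max_le_abs (min 1 (1 - 2 * (d - ee) / LL)) (min 1 (1 - 2 * (d' - ee) / LL))
    (-1)
  have h2 := abs_min_sub_min_le_max 1 (1 - 2 * (d - ee) / LL) 1 (1 - 2 * (d' - ee) / LL)
  rw [sub_self, abs_zero, max_eq_right (abs_nonneg _)] at h2
  have h3 : |(1 - 2 * (d - ee) / LL) - (1 - 2 * (d' - ee) / LL)| = 2 / LL * |d - d'| := by
    have : (1 - 2 * (d - ee) / LL) - (1 - 2 * (d' - ee) / LL) = -(2 / LL * (d - d')) := by
      field_simp
      ring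
    rw [this, abs_neg, abs_mul, abs_of_pos (div_pos two_pos LL_pos)]
  rw [max_comm (-1) (min 1 (1 - 2 * (d - ee) / LL)), max_comm (-1) (min 1 (1 - 2 * (d' - ee) / LL))]
  rw [h3] at h2
  exact h1.trans h2

/-- product of bounded Lipschitz functions -/
theorem b2_lip {E : Set V} (h : Body E) : ∃ K : ℝ≥0, LipschitzWith K (b2 E) := by
  obtain ⟨K, hK⟩ := sat_lip c0_pos
  have hr : LipschitzWith 1 (rs E) := rs_lip h.cl h.cv h.ne
  refine ⟨⟨2 / LL + K, by have := LL_pos; positivity⟩, LipschitzWith.of_dist_le_mul fun x y => ?_⟩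
  change dist (b2 E x) (b2 E y) ≤ (2 / LL + K) * dist x y
  have h1 : |etp (infDist x E) - etp (infDist y E)| ≤ 2 / LL * dist x y := by
    refine (etp_lip _ _).trans ?_
    apply mul_le_mul_of_nonneg_left _ (div_pos two_pos LL_pos).le
    have := (lipschitz_infDist_pt E).dist_le_mul x y
    rw [Real.dist_eq, NNReal.coe_one, one_mul] at this
    exact this
  have h2 : ‖sat c0 (rs E x) - sat c0 (rs E y)‖ ≤ K * dist x y := by
    rw [← dist_eq_norm]
    refine (hK.dist_le_mul _ _).trans ?_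
    apply mul_le_mul_of_nonneg_left _ K.2
    have := hr.dist_le_mul x y
    rwa [NNReal.coe_one, one_mul] at this
  have e1 : b2 E x - b2 E y = (etp (infDist x E) - etp (infDist y E)) • sat c0 (rs E x) +
      etp (infDist y E) • (sat c0 (rs E x) - sat c0 (rs E y)) := by
    unfold b2
    rw [sub_smul, smul_sub]
    abel
  rw [dist_eq_norm, e1]
  calc _ ≤ ‖(etp (infDist x E) - etp (infDist y E)) • sat c0 (rs E x)‖ +
        ‖etp (infDist y E) • (sat c0 (rs E x) - sat c0 (rs E y))‖ := norm_add_le _ _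
    _ ≤ 2 / LL * dist x y * 1 + 1 * (K * dist x y) := by
        rw [norm_smul, norm_smul, Real.norm_eq_abs, Real.norm_eq_abs]
        apply add_le_add
        · exact mul_le_mul h1 (sat_norm c0_pos _) (norm_nonneg _)
            (mul_nonneg (div_pos two_pos LL_pos).le dist_nonneg)
        · exact mul_le_mul (etp_abs _) h2 (norm_nonneg _) zero_le_one
    _ = (2 / LL + K) * dist x y := by ring

theorem b2_norm {E : Set V} (x : V) : ‖b2 E x‖ ≤ 1 := by
  unfold b2
  rw [norm_smul, Real.norm_eq_abs]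
  calc _ ≤ 1 * 1 := mul_le_mul (etp_abs _) (sat_norm c0_pos _) (norm_nonneg _) zero_le_one
    _ = 1 := one_mul 1

/-- **CST (c).** values of the fields -/
theorem b1_hot {x : V} (hx : ‖x‖ ≤ R1) : b1 x = -(R1⁻¹ • x) := by
  unfold b1 sat
  rw [max_eq_right hx]

theorem b1_out {x : V} (hx : R1 ≤ ‖x‖) : b1 x = -(‖x‖⁻¹ • x) := by
  unfold b1 sat
  rw [max_eq_left hx]

private theorem etp_one {d : ℝ} (hd : d ≤ ee) : etp d = 1 := by
  unfold etp
  have h1 : 2 * (d - ee) / LL ≤ 0 := div_nonpos_of_nonpos_of_nonneg (by linarith) LL_pos.le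
  rw [min_eq_left (by linarith)]
  exact max_eq_right (by norm_num)

theorem b2_in {E : Set V} (h : Body E) {x : V} (hx : infDist x E ≤ c0) :
    b2 E x = c0⁻¹ • rs E x := by
  unfold b2 sat
  rw [etp_one (hx.trans c0_lt.le), rs_norm h.cl h.ne, max_eq_right hx, one_smul]

theorem b2_mid {E : Set V} (h : Body E) {x : V} (h1 : c0 ≤ infDist x E) (h2 : infDist x E ≤ ee) :
    b2 E x = (infDist x E)⁻¹ • rs E x := by
  unfold b2 sat
  rw [etp_one h2, rs_norm h.cl h.ne, max_eq_left h1, one_smul]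

theorem b2_cold {E : Set V} (h : Body E) {x : V} (h1 : ee ≤ infDist x E)
    (h2 : infDist x E ≤ ee + LL) :
    b2 E x = ((1 - 2 * (infDist x E - ee) / LL) / infDist x E) • rs E x := by
  unfold b2 sat
  have h3 : 0 ≤ 2 * (infDist x E - ee) / LL := div_nonneg (by linarith) LL_pos.le
  have h4 : 2 * (infDist x E - ee) / LL ≤ 2 := by
    rw [div_le_iff₀ LL_pos]
    linarith
  have h5 : etp (infDist x E) = 1 - 2 * (infDist x E - ee) / LL := by
    unfold etp
    rw [min_eq_right (by linarith), max_eq_right (by linarith)]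
  rw [h5, rs_norm h.cl h.ne, max_eq_left (c0_lt.le.trans h1), smul_smul]
  rfl

theorem b2_out {E : Set V} (h : Body E) {x : V} (h1 : ee + LL ≤ infDist x E) :
    b2 E x = -((infDist x E)⁻¹ • rs E x) := by
  unfold b2 sat
  have h4 : 2 ≤ 2 * (infDist x E - ee) / LL := by
    rw [le_div_iff₀ LL_pos]
    linarith
  have h5 : etp (infDist x E) = -1 := by
    unfold etp
    rw [min_eq_right (by linarith), max_eq_left (by linarith)]
  have h6 : c0 ≤ infDist x E := by
    have := c0_lt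
    have := LL_pos
    linarith
  rw [h5, rs_norm h.cl h.ne, max_eq_left h6, neg_smul, one_smul]

end MP_614bef_an
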