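import Mathlib

set_option autoImplicit false

/-!
# MP_614bef_an : the Robin free discontinuity functional in the plane, `p = 2`

Definitions used in the statement of the result: divergence, one-sided approximate limits, jump set,
`SBV` functions, admissible functions, the energy, the free boundary and `C^{1,α}` points.
-/

namespace MP_614bef_an

open MeasureTheory Set Filter Metric
open scoped RealInnerProductSpace ENNReal NNReal Topology ContDiff

/-- the Euclidean plane -/
abbrev V := EuclideanSpace ℝ (Fin 2)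

/-- divergence of a vector field of the plane -/
noncomputable def divg (φ : V → V) (x : V) : ℝ :=
  ∑ i : Fin 2, (fderiv ℝ φ x (EuclideanSpace.single i 1)) i

/-- `a` and `b` are the one-sided approximate limits of `v` at `x`, on the side of `ν` and on the
side of `-ν`: the averages of `|v - a|` over the half disc `{y ∈ B_r(x) : ⟪y - x, ν⟫ > 0}` and of
`|v - b|` over the opposite half disc tend to `0` as `r → 0`. -/
def HasTraces (v : V → ℝ) (x : V) (a b : ℝ) (ν : V) : Prop :=
  ‖ν‖ = 1 ∧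
  Tendsto (fun r : ℝ => (∫ y in ball x r ∩ {y | 0 < ⟪y - x, ν⟫}, |v y - a|) / r ^ 2)
    (𝓝[>] 0) (𝓝 0) ∧
  Tendsto (fun r : ℝ => (∫ y in ball x r ∩ {y | ⟪y - x, ν⟫ < 0}, |v y - b|) / r ^ 2)
    (𝓝[>] 0) (𝓝 0)

/-- the approximate jump set: the points with two different one-sided approximate limits.  We choose
the orientation such that the limit on the side of `ν` is the larger one. -/
def jumpSet (v : V → ℝ) : Set V := {x | ∃ (a b : ℝ) (ν : V), b < a ∧ HasTraces v x a b ν}

/-- `v ∈ SBV(ℝ²)` with approximate gradient `g`, larger and smaller one-sided limits `vp`, `vm` on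
the jump set, and jump direction `ν` (pointing to the side of `vp`): the distributional derivative of
`v` is `g dx + (vp - vm) ν dℋ¹⌞J_v`, a finite vector measure. -/
structure IsSBV (v : V → ℝ) (g : V → V) (vp vm : V → ℝ) (ν : V → V) : Prop where
  int : Integrable v
  intg : Integrable g
  mJ : MeasurableSet (jumpSet v)
  mp : Measurable vp
  mm : Measurable vm
  mν : Measurable ν
  tr : ∀ x ∈ jumpSet v, vm x < vp x ∧ HasTraces v x (vp x) (vm x) (ν x)
  intJ : Integrable (fun x => vp x - vm x) (μH[1].restrict (jumpSet v))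
  ibp : ∀ φ : V → V, ContDiff ℝ ∞ φ → HasCompactSupport φ →
    ∫ x, v x * divg φ x =
      -(∫ x, ⟪g x, φ x⟫) - ∫ x in jumpSet v, (vp x - vm x) * ⟪ν x, φ x⟫ ∂μH[1]

/-- the admissible functions: `v ∈ SBV(ℝ²)`, `v = 0` a.e. outside `D`, gradient in `L²` -/
structure Adm (D : Set V) (v : V → ℝ) (g : V → V) (vp vm : V → ℝ) (ν : V → V) : Prop where
  sbv : IsSBV v g vp vm ν
  out : ∀ᵐ x, x ∉ D → v x = 0
  sq : MemLp g 2

/-- `∫_D (|∇v|² - f v) dx + |{v ≠ 0}|` -/
noncomputable def bulkE (D : Set V) (f v : V → ℝ) (g : V → V) : ℝ :=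
  (∫ x in D, (‖g x‖ ^ 2 - f x * v x)) + volume.real {x | v x ≠ 0}

/-- `∫_{J_v} (|v⁺|² + |v⁻|²) dℋ¹` -/
noncomputable def jumpE (v vp vm : V → ℝ) : ℝ≥0∞ :=
  ∫⁻ x in jumpSet v, ENNReal.ofReal (vp x ^ 2 + vm x ^ 2) ∂μH[1]

/-- the energy `F(v)` for `p = 2` -/
noncomputable def energy (D : Set V) (f v : V → ℝ) (g : V → V) (vp vm : V → ℝ) : EReal :=
  (bulkE D f v g : EReal) + (jumpE v vp vm : EReal)

/-- the free boundary `closure J_u ∩ D` -/
def freeBdry (D : Set V) (u : V → ℝ) : Set V := closure (jumpSet u) ∩ D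

/-- `x` is a `C^{1,α}` point of `Γ`: for some `r > 0` the set `Γ ∩ B_r(x)` is, in a suitable
orthonormal frame `(τ, n)`, the graph of a `C^{1,α}` function (defined on some set of reals). -/
def IsC1Point (α : ℝ) (Γ : Set V) (x : V) : Prop :=
  ∃ r > 0, ∃ τ n : V, ‖τ‖ = 1 ∧ ‖n‖ = 1 ∧ ⟪τ, n⟫ = 0 ∧ ∃ (U : Set ℝ) (w w' : ℝ → ℝ) (K : ℝ),
    (∀ t ∈ U, HasDerivWithinAt w (w' t) U t) ∧
    (∀ s ∈ U, ∀ t ∈ U, |w' s - w' t| ≤ K * |s - t| ^ α) ∧
    Γ ∩ ball x r = {y | ∃ t ∈ U, y = t • τ + w t • n}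

end MP_614bef_an
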