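import Mathlib
import Pool.Agent.Lib.MP_614bef_an.Cst2

set_option autoImplicit false

namespace MP_614bef_an

open MeasureTheory Set Filter Metric
open scoped RealInnerProductSpace ENNReal NNReal Topology ContDiff

theorem DivB_congr {f g : V → V} {x : V} (h : f =ᶠ[𝓝 x] g) : divg f x = divg g x := by
  unfold divg
  rw [h.fderiv_eq]

theorem DivB_mm : 0 < mm := by unfold mm; norm_num
theorem DivB_e0 : 0 < e0 := by have := DivB_mm; unfold e0; linarith
theorem DivB_ee : 0 < ee := by have := DivB_mm; unfold ee; linarith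
theorem DivB_LL : 0 < LL := by have := DivB_mm; unfold LL; linarith
theorem DivB_R1 : 0 < R1 := by have := DivB_e0; have := DivB_ee; unfold R1; linarith
theorem DivB_c0 : 0 < c0 := by have := DivB_mm; unfold c0 ee e0; linarith
theorem DivB_c0_lt : c0 < ee := by have := DivB_e0; unfold c0; linarith

/-- **DIVB (a).** `b1 = -x/R1` inside, `-x/‖x‖` outside. -/
theorem divg_b1_hot {x : V} (hx : ‖x‖ < R1) : divg b1 x = -(2 / R1) := by
  have h1 : b1 =ᶠ[𝓝 x] fun y => -(R1⁻¹ • y) := by
    have h2 : ∀ᶠ y in 𝓝 x, ‖y‖ < R1 := continuous_norm.continuousAt.eventually_lt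
      continuousAt_const hx
    filter_upwards [h2] with y hy
    exact b1_hot hy.le
  rw [DivB_congr h1]
  unfold divg
  have h3 : HasFDerivAt (fun y : V => -(R1⁻¹ • y)) (-(R1⁻¹ • ContinuousLinearMap.id ℝ V)) x :=
    ((hasFDerivAt_id x).const_smul R1⁻¹).neg
  rw [h3.fderiv, Fin.sum_univ_two]
  simp
  ring

theorem divg_b1_out {x : V} (hx : R1 < ‖x‖) : divg b1 x = -(1 / ‖x‖) := by
  have hR := DivB_R1
  have hE : IsClosed ({0} : Set V) := isClosed_singleton
  have hc : Convex ℝ ({0} : Set V) := convex_singleton 0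
  have hn : ({0} : Set V).Nonempty := singleton_nonempty 0
  have hinf : ∀ y : V, infDist y ({0} : Set V) = ‖y‖ := fun y => by
    rw [infDist_singleton, dist_zero_right]
  have hprj : prj ({0} : Set V) = fun _ => 0 := by
    funext y
    exact prj_mem hE hn y
  have hrs : rs ({0} : Set V) = fun y => y := by
    funext y
    simp [rs, hprj]
  have hx0 : x ∉ ({0} : Set V) := by
    intro h
    rw [mem_singleton_iff] at h
    rw [h, norm_zero] at hx
    linarith
  have hd : DifferentiableAt ℝ (prj ({0} : Set V)) x := by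
    rw [hprj]
    exact differentiableAt_const _
  have hxn : 0 < ‖x‖ := hR.trans hx
  have hψ : HasDerivAt (fun d : ℝ => -(d⁻¹)) (-(-(infDist x ({0} : Set V) ^ 2)⁻¹))
      (infDist x ({0} : Set V)) := by
    rw [hinf]
    exact (hasDerivAt_inv hxn.ne').neg
  have h1 := divg_radial hE hc hn hx0 hd hψ
  have h2 : divg (rs ({0} : Set V)) x = 2 := by
    rw [hrs]
    unfold divg
    rw [fderiv_fun_id, Fin.sum_univ_two]
    simp
    norm_num
  have h3 : b1 =ᶠ[𝓝 x] fun y => (fun d : ℝ => -(d⁻¹)) (infDist y ({0} : Set V)) •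
      rs ({0} : Set V) y := by
    have h4 : ∀ᶠ y in 𝓝 x, R1 < ‖y‖ := continuousAt_const.eventually_lt
      continuous_norm.continuousAt hx
    filter_upwards [h4] with y hy
    rw [b1_out hy.le, hrs, hinf, neg_smul]
  rw [DivB_congr h3, h1, h2, hinf]
  field_simp
  ring

theorem kap_nonneg (E : Set V) (x : V) : 0 ≤ kap E x := by
  unfold kap
  apply div_nonneg _ infDist_nonneg
  linarith [le_max_left (1 : ℝ) (min 2 (divg (rs E) x))]

theorem kap_le (E : Set V) (x : V) : kap E x ≤ 1 / infDist x E := by
  unfold kap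
  apply div_le_div_of_nonneg_right _ infDist_nonneg
  have h1 : max (1 : ℝ) (min 2 (divg (rs E) x)) ≤ 2 := max_le (by norm_num) (min_le_left _ _)
  linarith

theorem kap_measurable {E : Set V} (h : Body E) : Measurable (kap E) := by
  have h1 : Measurable (divg (rs E)) := by
    unfold divg
    refine Finset.measurable_sum _ fun i _ => ?_
    have h2 : Measurable (fun x => fderiv ℝ (rs E) x (EuclideanSpace.single i 1)) :=
      measurable_fderiv_apply_const ℝ (rs E) _
    have h3 : Continuous (fun z : V => z i) := by fun_prop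
    exact h3.measurable.comp h2
  have h2 : Measurable (fun x => infDist x E) := (continuous_infDist_pt E).measurable
  unfold kap
  exact ((measurable_const.max (measurable_const.min h1)).sub measurable_const).div h2

/-- **DIVB (b).** divergence of `b2` for a.e. point, in the four regions.  PROOF: `prj E` is
differentiable a.e. (`prj_lip`, Rademacher); the level sets `δ = c0, ee, ee + LL` and the frontier of
`E` are null (`null_level`, `null_frontier`).  In the open regions `b2` coincides locally with
`ψ(δ) rs` (`b2_in`, ...), `ψ = 1/c0`, `1/δ`, `(1 - 2(δ-ee)/LL)/δ`, `-1/δ`; use `divg_radial`,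
`rs_div` (so that `divg (rs E) x = 1 + kap E x * δ`).  In the interior of `E` the field vanishes. -/
theorem divg_b2 {E : Set V} (h : Body E) : ∀ᵐ x : V,
    (infDist x E < c0 → 0 ≤ divg (b2 E) x ∧ divg (b2 E) x ≤ 2 / c0) ∧
    (c0 < infDist x E → infDist x E < ee → divg (b2 E) x = kap E x) ∧
    (Cold E x → divg (b2 E) x =
      -(2 / LL) + etp (infDist x E) * kap E x) ∧
    (ee + LL < infDist x E → divg (b2 E) x = -kap E x) ∧
    infDist x E ≠ c0 ∧ infDist x E ≠ ee ∧ infDist x E ≠ ee + LL ∧ ‖x‖ ≠ R1 := by
  have hc0 := DivB_c0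
  have hee := DivB_ee
  have hLL := DivB_LL
  have hcl := h.cl
  have hcv := h.cv
  have hne := h.ne
  have hcont : Continuous (fun y : V => infDist y E) := continuous_infDist_pt E
  have hae1 : ∀ᵐ x : V, DifferentiableAt ℝ (prj E) x :=
    (prj_lip hcl hcv hne).ae_differentiableAt
  have hlev : ∀ s : ℝ, 0 < s → ∀ᵐ x : V, infDist x E ≠ s := fun s hs =>
    (measure_eq_zero_iff_ae_notMem).1 (null_level hcl hcv hne hs)
  have hfr : ∀ᵐ x : V, x ∉ frontier E := (measure_eq_zero_iff_ae_notMem).1 (null_frontier hcv)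
  have hsp : ∀ᵐ x : V, ‖x‖ ≠ R1 := by
    have h1 := Measure.addHaar_sphere (volume : Measure V) 0 R1
    filter_upwards [(measure_eq_zero_iff_ae_notMem).1 h1] with x hx hx'
    exact hx (by simpa using hx')
  filter_upwards [hae1, hlev c0 hc0, hlev ee hee, hlev (ee + LL) (by linarith), hfr, hsp]
    with x hd h1 h2 h3 h4 h5
  -- outside `E`
  have hkap : x ∉ E → kap E x = (divg (rs E) x - 1) / infDist x E := by
    intro hx
    have := rs_div hcl hcv hne hx hd
    unfold kap
    rw [min_eq_right this.2, max_eq_right this.1]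
  have hpos : x ∉ E → 0 < infDist x E := fun hx =>
    (hcl.notMem_iff_infDist_pos hne).1 hx
  have hnot : 0 < infDist x E → x ∉ E := fun hx =>
    (hcl.notMem_iff_infDist_pos hne).2 hx
  refine ⟨fun hx => ?_, fun hx1 hx2 => ?_, fun hx => ?_, fun hx => ?_, h1, h2, h3, h5⟩
  · have hlt : ∀ᶠ y in 𝓝 x, infDist y E < c0 := hcont.continuousAt.eventually_lt
      continuousAt_const hx
    by_cases hxE : x ∈ E
    · have hint : x ∈ interior E := by
        by_contra hcon
        exact h4 ⟨subset_closure hxE, hcon⟩
      have h6 : b2 E =ᶠ[𝓝 x] fun _ => 0 := by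
        filter_upwards [hlt, mem_interior_iff_mem_nhds.1 hint] with y hy hyE
        rw [b2_in h hy.le, prj_of_mem hcl hne hyE, smul_zero]
      rw [DivB_congr h6]
      unfold divg
      simp
      positivity
    · have h6 : b2 E =ᶠ[𝓝 x] fun y => (fun _ : ℝ => c0⁻¹) (infDist y E) • rs E y := by
        filter_upwards [hlt] with y hy
        rw [b2_in h hy.le]
      rw [DivB_congr h6, divg_radial hcl hcv hne hxE hd (hasDerivAt_const _ c0⁻¹)]
      have h7 := rs_div hcl hcv hne hxE hd
      have h8 : 0 < c0⁻¹ := inv_pos.2 hc0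
      rw [zero_mul, zero_add, div_eq_mul_inv, mul_comm (2 : ℝ)]
      constructor
      · have := h7.1
        nlinarith
      · exact mul_le_mul_of_nonneg_left h7.2 h8.le
  · have hd0 : 0 < infDist x E := hc0.trans hx1
    have hxE := hnot hd0
    have hψ : HasDerivAt (fun d : ℝ => d⁻¹) (-(infDist x E ^ 2)⁻¹) (infDist x E) :=
      hasDerivAt_inv hd0.ne'
    have h6 : b2 E =ᶠ[𝓝 x] fun y => (fun d : ℝ => d⁻¹) (infDist y E) • rs E y := by
      filter_upwards [hcont.continuousAt.eventually_lt continuousAt_const hx2,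
        continuousAt_const.eventually_lt hcont.continuousAt hx1] with y hy1 hy2
      exact b2_mid h hy2.le hy1.le
    rw [DivB_congr h6, divg_radial hcl hcv hne hxE hd hψ, hkap hxE]
    field_simp
    ring
  · obtain ⟨hx1, hx2⟩ := hx
    have hd0 : 0 < infDist x E := hee.trans hx1
    have hxE := hnot hd0
    have hψ : HasDerivAt (fun d : ℝ => (1 - 2 * (d - ee) / LL) / d)
        ((-(2 / LL) * infDist x E - (1 - 2 * (infDist x E - ee) / LL) * 1) / infDist x E ^ 2)
        (infDist x E) := by
      have h7 : HasDerivAt (fun d : ℝ => 1 - 2 * (d - ee) / LL) (-(2 / LL)) (infDist x E) := by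
        have h8 := ((((hasDerivAt_id (infDist x E)).sub_const ee).const_mul 2).div_const
          LL).const_sub 1
        simpa using h8
      exact h7.div (hasDerivAt_id _) hd0.ne'
    have h6 : b2 E =ᶠ[𝓝 x] fun y => (fun d : ℝ => (1 - 2 * (d - ee) / LL) / d) (infDist y E) •
        rs E y := by
      filter_upwards [hcont.continuousAt.eventually_lt continuousAt_const hx2,
        continuousAt_const.eventually_lt hcont.continuousAt hx1] with y hy1 hy2
      exact b2_cold h hy2.le hy1.le
    have hetp : etp (infDist x E) = 1 - 2 * (infDist x E - ee) / LL := by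
      unfold etp
      have h9 : 0 ≤ 2 * (infDist x E - ee) / LL := by
        apply div_nonneg _ hLL.le
        linarith
      have h10 : 2 * (infDist x E - ee) / LL ≤ 2 := by
        rw [div_le_iff₀ hLL]
        linarith
      rw [min_eq_right (by linarith), max_eq_right (by linarith)]
    rw [DivB_congr h6, divg_radial hcl hcv hne hxE hd hψ, hkap hxE, hetp]
    field_simp
    ring
  · have hd0 : 0 < infDist x E := by linarith
    have hxE := hnot hd0
    have hψ : HasDerivAt (fun d : ℝ => -(d⁻¹)) (-(-(infDist x E ^ 2)⁻¹)) (infDist x E) :=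
      (hasDerivAt_inv hd0.ne').neg
    have h6 : b2 E =ᶠ[𝓝 x] fun y => (fun d : ℝ => -(d⁻¹)) (infDist y E) • rs E y := by
      filter_upwards [continuousAt_const.eventually_lt hcont.continuousAt hx] with y hy
      rw [b2_out h hy.le, neg_smul]
    rw [DivB_congr h6, divg_radial hcl hcv hne hxE hd hψ, hkap hxE]
    field_simp
    ring

end MP_614bef_an
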