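import Pool.Agent.Lib.MP_614bef_an.Cst

set_option autoImplicit false

namespace MP_614bef_an

open MeasureTheory Set Filter Metric
open scoped RealInnerProductSpace ENNReal NNReal Topology ContDiff

/-- derivative of `ev` -/
noncomputable def ev' (φ : ℝ) : V := !₂[-Real.sin φ, Real.cos φ]

private theorem ev_eq : ev = fun φ : ℝ => Real.cos φ • (EuclideanSpace.single 0 1 : V) +
    Real.sin φ • (EuclideanSpace.single 1 1 : V) := by
  funext φ
  ext i
  fin_cases i <;> simp [ev]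

private theorem ev'_eq : ev' = fun φ : ℝ => (-Real.sin φ) • (EuclideanSpace.single 0 1 : V) +
    Real.cos φ • (EuclideanSpace.single 1 1 : V) := by
  funext φ
  ext i
  fin_cases i <;> simp [ev']

theorem ev_hasDerivAt (φ : ℝ) : HasDerivAt ev (ev' φ) φ := by
  rw [ev_eq, ev'_eq]
  exact ((Real.hasDerivAt_cos φ).smul_const _).add ((Real.hasDerivAt_sin φ).smul_const _)

theorem ev'_hasDerivAt (φ : ℝ) : HasDerivAt ev' (-ev φ) φ := by
  have h : -ev φ = (-Real.cos φ) • (EuclideanSpace.single 0 1 : V) +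
      (-Real.sin φ) • (EuclideanSpace.single 1 1 : V) := by
    rw [ev_eq]
    simp only [neg_smul, neg_add]
  rw [h, ev'_eq]
  exact ((Real.hasDerivAt_sin φ).neg.smul_const _).add ((Real.hasDerivAt_cos φ).smul_const _)

theorem ev_norm (φ : ℝ) : ‖ev φ‖ = 1 ∧ ‖ev' φ‖ = 1 ∧ ⟪ev φ, ev' φ⟫ = 0 := by
  refine ⟨?_, ?_, ?_⟩
  · rw [EuclideanSpace.norm_eq]
    simp [ev, Fin.sum_univ_two, Real.cos_sq_add_sin_sq]
  · rw [EuclideanSpace.norm_eq]
    simp [ev', Fin.sum_univ_two, Real.sin_sq_add_cos_sq]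
  · simp [ev, ev', PiLp.inner_apply, Fin.sum_univ_two]
    ring

/-- every vector is `‖x‖ ev φ` with `φ ∈ (-π, π]` -/
theorem exists_angle (x : V) : ∃ φ ∈ Ioc (-Real.pi) Real.pi, x = ‖x‖ • ev φ := by
  set z : ℂ := ⟨x 0, x 1⟩ with hz
  have hn : ‖z‖ = ‖x‖ := by
    rw [Complex.norm_def, EuclideanSpace.norm_eq, Complex.normSq_apply]
    simp [Fin.sum_univ_two, hz, sq]
  refine ⟨z.arg, Complex.arg_mem_Ioc z, ?_⟩
  by_cases hx : x = 0
  · rw [hx]
    simp
  · have hx' : ‖x‖ ≠ 0 := norm_ne_zero_iff.2 hx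
    have hz0 : z ≠ 0 := by
      intro h
      rw [h, norm_zero] at hn
      exact hx' hn.symm
    have h1 : Real.cos z.arg = x 0 / ‖x‖ := by
      rw [Complex.cos_arg hz0, hn]
    have h2 : Real.sin z.arg = x 1 / ‖x‖ := by
      rw [Complex.sin_arg, hn]
    ext i
    fin_cases i
    · simp [ev, h1]
      field_simp
    · simp [ev, h2]
      field_simp

theorem ev_inj {φ ψ : ℝ} (h1 : φ ∈ Ioc (-Real.pi) Real.pi) (h2 : ψ ∈ Ioc (-Real.pi) Real.pi)
    (h : ev φ = ev ψ) : φ = ψ := by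
  have hc : Real.cos φ = Real.cos ψ := by
    have := congrArg (fun v : V => v 0) h
    simpa [ev] using this
  have hs : Real.sin φ = Real.sin ψ := by
    have := congrArg (fun v : V => v 1) h
    simpa [ev] using this
  have e1 := Complex.arg_cos_add_sin_mul_I h1
  have e2 := Complex.arg_cos_add_sin_mul_I h2
  rw [← e1, ← e2, ← Complex.ofReal_cos, ← Complex.ofReal_sin, ← Complex.ofReal_cos,
    ← Complex.ofReal_sin, hc, hs]

end MP_614bef_an
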