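import Pool.Agent.Lib.MP_614bef_an.NGA

set_option autoImplicit false

namespace MP_614bef_an

open MeasureTheory Set Filter Metric
open scoped RealInnerProductSpace ENNReal NNReal Topology ContDiff

/-- **NG (d).** no accumulation point of `C` gives a graph point.  PROOF: let `R` be the radial
function of the level line `ee` of `EE C` (`exists_radial`); `R φ = R1` for `φ ∈ C`, `R φ > R1` for
`φ ∈ [0,1] \ C`.  Suppose `Γ ∩ B_r(x) = {t τ + w(t) n : t ∈ U}`.  Then two points of `Γ ∩ B_r(x)` with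
the same `⟪·,τ⟫` are equal.  Since `φ0` is an accumulation point and `C` has empty interior there
are `α < β` in `C`, arbitrarily close to `φ0`, with `(α, β) ∩ C = ∅` (take `ψ ∈ C` near `φ0`, a point
`θ ∉ C` between them, `α = sup (C ∩ (-∞,θ])`, `β = inf (C ∩ [θ,∞))`), such that the two arcs
`{R1 ev φ : φ ∈ [α,β]}` and `{R φ ev φ : φ ∈ [α,β]}` lie in `B_r(x)` (continuity).  Both join
`p = R1 ev α` to `q = R1 ev β`; `⟪p,τ⟫ ≠ ⟪q,τ⟫` as `p ≠ q`.  For a value `t` strictly between, the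
intermediate value theorem gives a point of each arc with `⟪·,τ⟫ = t`; they are not end points, the
first has norm `R1` and the second has norm `> R1`: contradiction. -/
theorem not_graph {C : Set ℝ} (hC : IsClosed C) (hC1 : C ⊆ Icc 0 1) (hi : interior C = ∅)
    {φ : ℝ} (hφ : φ ∈ Acc C) (α : ℝ) : ¬ IsC1Point α (GA (EE C)) (R1 • ev φ) := by
  rintro ⟨r, hr, τ, n, hτ, hn, hτn, U, w, w', K, hder, hhol, hset⟩
  obtain ⟨R, R', hR⟩ := exists_radial (body_EE C) (s := ee) (by unfold ee mm; norm_num)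
  have hR1 : 0 < R1 := by unfold R1 ee e0 mm; norm_num
  have hRc : Continuous R := continuous_iff_continuousAt.2 fun φ => (hR.der φ).continuousAt
  have hevc : Continuous ev := continuous_iff_continuousAt.2 fun φ => (ev_hasDerivAt φ).continuousAt
  have hRC : ∀ φ ∈ C, R φ = R1 := fun φ h =>
    ((hR.eq φ R1 hR1.le).1 (touch_mem h)).symm
  have hRnC : ∀ φ ∈ Icc (0 : ℝ) 1, φ ∉ C → R1 < R φ := fun φ h0 h =>
    (hR.lt φ R1 hR1.le).1 (touch_not hC hC1 h0 h)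
  -- injectivity of the projection
  have hinj : ∀ y ∈ GA (EE C) ∩ ball (R1 • ev φ) r, ∀ z ∈ GA (EE C) ∩ ball (R1 • ev φ) r,
      ⟪y, τ⟫ = ⟪z, τ⟫ → y = z := by
    intro y hy z hz hyz
    rw [hset] at hy hz
    obtain ⟨t, ht, rfl⟩ := hy
    obtain ⟨s, hs, rfl⟩ := hz
    have h1 : ∀ t : ℝ, ⟪t • τ + w t • n, τ⟫ = t := by
      intro t
      rw [inner_add_left, inner_smul_left, inner_smul_left, real_inner_self_eq_norm_sq, hτ,
        real_inner_comm, hτn]
      simp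
    rw [h1, h1] at hyz
    rw [hyz]
  -- the two arcs
  have hS1 : ∀ ψ, R1 • ev ψ ∈ GA (EE C) := fun ψ => Or.inl (Or.inl (by
    show ‖R1 • ev ψ‖ = R1
    rw [norm_smul, (ev_norm ψ).1, mul_one, Real.norm_eq_abs, abs_of_pos hR1]))
  have hS2 : ∀ ψ, R ψ • ev ψ ∈ GA (EE C) := fun ψ => Or.inl (Or.inr
    ((hR.eq ψ (R ψ) (hR.pos ψ).le).2 rfl))
  have hc1 : Continuous fun ψ => R1 • ev ψ := hevc.const_smul R1
  have hc2 : Continuous fun ψ => R ψ • ev ψ := hRc.smul hevc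
  have hφC : φ ∈ C := hφ.1
  have hx1 : (fun ψ => R1 • ev ψ) ⁻¹' ball (R1 • ev φ) r ∈ 𝓝 φ :=
    hc1.continuousAt (ball_mem_nhds _ hr)
  have hx2 : (fun ψ => R ψ • ev ψ) ⁻¹' ball (R1 • ev φ) r ∈ 𝓝 φ := by
    have h1 := hc2.continuousAt (x := φ) (ball_mem_nhds _ hr)
    have h2 : R φ • ev φ = R1 • ev φ := by rw [hRC φ hφC]
    simp only [h2] at h1
    exact h1
  obtain ⟨δ, hδ, hball⟩ := Metric.mem_nhds_iff.1 (inter_mem hx1 hx2)
  obtain ⟨ψ, hψC, hψ, hψd⟩ := hφ.2 δ hδ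
  -- ordered pair
  obtain ⟨a, b, hab, haC, hbC, hsub⟩ : ∃ a b : ℝ, a < b ∧ a ∈ C ∧ b ∈ C ∧ Icc a b ⊆ ball φ δ := by
    rcases lt_or_gt_of_ne hψ with h | h
    · refine ⟨ψ, φ, h, hψC, hφC, fun t ht => ?_⟩
      rw [mem_ball, Real.dist_eq, abs_lt]
      rw [abs_lt] at hψd
      constructor <;> linarith [ht.1, ht.2, hψd.1, hψd.2]
    · refine ⟨φ, ψ, h, hφC, hψC, fun t ht => ?_⟩
      rw [mem_ball, Real.dist_eq, abs_lt]
      rw [abs_lt] at hψd
      constructor <;> linarith [ht.1, ht.2, hψd.1, hψd.2]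
  have hab01 : Icc a b ⊆ Icc 0 1 := Icc_subset_Icc (hC1 haC).1 (hC1 hbC).2
  obtain ⟨θ, hθ, hθC⟩ : ∃ θ ∈ Ioo a b, θ ∉ C := by
    by_contra hcon
    push Not at hcon
    have h1 : Ioo a b ⊆ interior C := interior_maximal hcon isOpen_Ioo
    rw [hi] at h1
    obtain ⟨θ, hθ⟩ := nonempty_Ioo.2 hab
    exact h1 hθ
  have hmem1 : ∀ t ∈ Icc a b, R1 • ev t ∈ GA (EE C) ∩ ball (R1 • ev φ) r := fun t ht =>
    ⟨hS1 t, (hball (hsub ht)).1⟩
  have hmem2 : ∀ t ∈ Icc a b, R t • ev t ∈ GA (EE C) ∩ ball (R1 • ev φ) r := fun t ht =>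
    ⟨hS2 t, (hball (hsub ht)).2⟩
  set g : ℝ → ℝ := fun t => ⟪R t • ev t, τ⟫ with hg
  set f : ℝ → ℝ := fun t => ⟪R1 • ev t, τ⟫ with hf
  have hgc : Continuous g := hc2.inner continuous_const
  have hfc : Continuous f := hc1.inner continuous_const
  have hnorm2 : ∀ t, ‖R t • ev t‖ = R t := fun t => by
    rw [norm_smul, (ev_norm t).1, mul_one, Real.norm_eq_abs, abs_of_pos (hR.pos t)]
  have hginj : InjOn g (Icc a b) := by
    intro s hs t ht hst
    have h1 : R s • ev s = R t • ev t := hinj _ (hmem2 s hs) _ (hmem2 t ht) hst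
    have h2 : R s = R t := by rw [← hnorm2 s, ← hnorm2 t, h1]
    rw [h2] at h1
    have h3 : ev s = ev t := smul_right_injective V (hR.pos t).ne' h1
    have hpi := Real.pi_gt_three
    refine ev_inj ⟨?_, ?_⟩ ⟨?_, ?_⟩ h3
    · linarith [(hab01 hs).1]
    · linarith [(hab01 hs).2]
    · linarith [(hab01 ht).1]
    · linarith [(hab01 ht).2]
  have hga : g a = f a := by simp only [hg, hf, hRC a haC]
  have hgb : g b = f b := by simp only [hg, hf, hRC b hbC]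
  have hbetween : g θ ∈ uIcc (f a) (f b) := by
    rw [← hga, ← hgb]
    have hθ' : θ ∈ Icc a b := Ioo_subset_Icc_self hθ
    have ha' : a ∈ Icc a b := left_mem_Icc.2 hab.le
    have hb' : b ∈ Icc a b := right_mem_Icc.2 hab.le
    rcases hgc.continuousOn.strictMonoOn_of_injOn_Icc' hab.le hginj with h | h
    · exact Icc_subset_uIcc ⟨(h ha' hθ' hθ.1).le, (h hθ' hb' hθ.2).le⟩
    · exact Icc_subset_uIcc' ⟨(h hθ' hb' hθ.2).le, (h ha' hθ' hθ.1).le⟩
  obtain ⟨s, hs, hsθ⟩ := intermediate_value_uIcc (hfc.continuousOn (s := uIcc a b)) hbetween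
  rw [uIcc_of_le hab.le] at hs
  have hθI : θ ∈ Icc a b := Ioo_subset_Icc_self hθ
  have h1 : R1 • ev s = R θ • ev θ := hinj _ (hmem1 s hs) _ (hmem2 θ hθI) hsθ
  have h2 : R1 = R θ := by
    rw [← hnorm2 θ, ← h1, norm_smul, (ev_norm s).1, mul_one, Real.norm_eq_abs, abs_of_pos hR1]
  exact absurd h2 (hRnC θ (hab01 hθI) hθC).ne

end MP_614bef_an
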