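import Pool.Agent.Lib.MP_614bef_an.NGA

set_option autoImplicit false

namespace MP_614bef_an

open MeasureTheory Set Filter Metric
open scoped RealInnerProductSpace ENNReal NNReal Topology ContDiff

/-- **NG (e).** a closed subset of `[0,1]` with empty interior and positive measure: the complement
in `[0,1]` of an open set of measure `< 1` containing the rationals. -/
theorem exists_cantor : ∃ C : Set ℝ, IsClosed C ∧ C ⊆ Icc 0 1 ∧ interior C = ∅ ∧ 0 < volume C := by
  have h0 : volume (range ((↑) : ℚ → ℝ)) < 1 := by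
    rw [(countable_range _).measure_zero]
    exact one_pos
  obtain ⟨U, hQU, hU, hlt⟩ := Set.exists_isOpen_lt_of_lt _ _ h0
  refine ⟨Icc 0 1 \ U, isClosed_Icc.sdiff hU, sdiff_subset, ?_, ?_⟩
  · rw [Set.eq_empty_iff_forall_notMem]
    intro x hx
    obtain ⟨y, hy, q, rfl⟩ := (Rat.denseRange_cast (𝕜 := ℝ)).inter_open_nonempty _
      isOpen_interior ⟨x, hx⟩
    exact (interior_subset hy).2 (hQU ⟨q, rfl⟩)
  · by_contra hcon
    have h1 : volume (Icc (0 : ℝ) 1 \ U) = 0 := by simpa using hcon
    have h2 : volume (Icc (0 : ℝ) 1) ≤ volume (Icc (0 : ℝ) 1 \ U) + volume U := by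
      refine (measure_mono ?_).trans (measure_union_le _ _)
      intro x hx
      by_cases hxU : x ∈ U
      · exact Or.inr hxU
      · exact Or.inl ⟨hx, hxU⟩
    rw [h1, zero_add, Real.volume_Icc] at h2
    simp only [sub_zero, ENNReal.ofReal_one] at h2
    exact absurd hlt (not_lt.mpr h2)

private theorem ngc_R1_pos : 0 < R1 := by
  unfold R1 ee e0 mm
  norm_num

/-- **NG (f).** PROOF: `T = {φ ∈ C : R1 • ev φ ∈ Σ}` is Lebesgue null: the map
`y ↦ y 1` is `1`-Lipschitz, so `{R1 sin φ : φ ∈ T}` is null (`μH[1] = volume` on `ℝ`), and `arcsin`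
is Lipschitz on `[0, sin 1]`.  `C \ Acc C` is countable.  So `Acc C \ T` has positive measure. -/
theorem exists_good {C : Set ℝ} (hC : IsClosed C) (hC1 : C ⊆ Icc 0 1) (hpos : 0 < volume C)
    {S : Set V} (hS : μH[1] S = 0) : ∃ φ ∈ Acc C, R1 • ev φ ∉ S := by
  obtain ⟨W, D, hW, hD, hCWD⟩ := exists_countable_union_perfect_of_isClosed hC
  have hDC : D ⊆ C := by rw [hCWD]; exact subset_union_right
  have hDacc : D ⊆ Acc C := by
    intro φ hφ
    refine ⟨hDC hφ, fun r hr => ?_⟩
    obtain ⟨y, ⟨hy1, hy2⟩, hne⟩ := accPt_iff_nhds.mp (hD.acc φ hφ) (ball φ r) (ball_mem_nhds φ hr)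
    exact ⟨y, hDC hy2, hne, by simpa [Real.dist_eq] using hy1⟩
  have hDpos : 0 < volume D := by
    have h1 : volume C ≤ volume W + volume D := by
      rw [hCWD]; exact measure_union_le _ _
    rw [hW.measure_zero, zero_add] at h1
    exact hpos.trans_le h1
  -- the projection of `S` is null
  have hN : volume ((fun y : V => y 1) '' S) = 0 := by
    have hlip : LipschitzOnWith 1 (fun y : V => y 1) S := by
      apply LipschitzWith.lipschitzOnWith
      refine LipschitzWith.of_dist_le_mul fun x y => ?_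
      rw [NNReal.coe_one, one_mul, Real.dist_eq, dist_eq_norm]
      have := PiLp.norm_apply_le (x - y) 1
      simpa using this
    have h1 := hlip.hausdorffMeasure_image_le (d := 1) zero_le_one
    rw [hS, mul_zero] at h1
    rw [← hausdorffMeasure_real]
    exact le_antisymm h1 zero_le
  set N : Set ℝ := ((fun y : V => y 1) '' S) ∩ Icc 0 (R1 * Real.sin 1) with hNdef
  have hN0 : volume N = 0 := measure_mono_null inter_subset_left hN
  have hsin1 : Real.sin 1 < 1 := by
    have := Real.sin_lt_sin_of_lt_of_le_pi_div_two (x := 1) (y := Real.pi / 2)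
      (by linarith [Real.pi_gt_three]) le_rfl (by linarith [Real.pi_gt_three])
    rwa [Real.sin_pi_div_two] at this
  have hdiff : DifferentiableOn ℝ (fun t : ℝ => Real.arcsin (t / R1)) N := by
    intro t ht
    have ht1 : t / R1 < 1 := by
      rw [div_lt_one ngc_R1_pos]
      exact lt_of_le_of_lt ht.2.2 (by nlinarith [ngc_R1_pos])
    have ht0 : 0 ≤ t / R1 := div_nonneg ht.2.1 ngc_R1_pos.le
    have h1 : DifferentiableAt ℝ Real.arcsin (t / R1) :=
      Real.differentiableAt_arcsin.mpr ⟨by linarith, by linarith⟩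
    exact (h1.comp t (differentiableAt_id.div_const R1)).differentiableWithinAt
  have himg : volume ((fun t : ℝ => Real.arcsin (t / R1)) '' N) = 0 :=
    addHaar_image_eq_zero_of_differentiableOn_of_addHaar_eq_zero volume hdiff hN0
  have hex : ∃ φ ∈ D, φ ∉ (fun t : ℝ => Real.arcsin (t / R1)) '' N := by
    by_contra hcon
    have hsub : D ⊆ (fun t : ℝ => Real.arcsin (t / R1)) '' N := by
      intro x hx
      by_contra h
      exact hcon ⟨x, hx, h⟩
    exact absurd (measure_mono_null hsub himg) hDpos.ne'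
  obtain ⟨φ, hφD, hφN⟩ := hex
  refine ⟨φ, hDacc hφD, fun hS' => hφN ?_⟩
  have hφ01 := hC1 (hDC hφD)
  refine ⟨R1 * Real.sin φ, ⟨⟨R1 • ev φ, hS', ?_⟩, ?_, ?_⟩, ?_⟩
  · simp [ev]
  · exact mul_nonneg ngc_R1_pos.le (Real.sin_nonneg_of_nonneg_of_le_pi hφ01.1
      (by linarith [Real.pi_gt_three, hφ01.2]))
  · refine mul_le_mul_of_nonneg_left ?_ ngc_R1_pos.le
    exact Real.sin_le_sin_of_le_of_le_pi_div_two (by linarith [Real.pi_gt_three, hφ01.1])
      (by linarith [Real.pi_gt_three]) hφ01.2
  · show Real.arcsin (R1 * Real.sin φ / R1) = φ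
    rw [mul_div_cancel_left₀ _ ngc_R1_pos.ne']
    exact Real.arcsin_sin (by linarith [Real.pi_gt_three, hφ01.1])
      (by linarith [Real.pi_gt_three, hφ01.2])

end MP_614bef_an
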