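import Pool.Agent.Lib.MP_614bef_an.UAdm
import Pool.Agent.Lib.MP_614bef_an.NGB
import Pool.Agent.Lib.MP_614bef_an.NGC

set_option autoImplicit false

namespace MP_614bef_an

open MeasureTheory Set Filter Metric
open scoped RealInnerProductSpace ENNReal NNReal Topology ContDiff

theorem GA_ball {E : Set V} (h : Body E) : GA E ⊆ closedBall (0 : V) (18 * mm) := by
  intro x hx
  have h1 := le_infDist h x
  have h2 : infDist x E ≤ ee + LL := by
    have hL : (0 : ℝ) ≤ LL := by unfold LL mm; norm_num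
    rcases hx with (hx | hx) | hx
    · have := S1_le h hx
      linarith
    · rw [S2, Set.mem_ofPred_eq] at hx
      linarith
    · rw [S3, Set.mem_ofPred_eq] at hx
      linarith
  rw [mem_closedBall, dist_zero_right]
  have h3 : ee + LL + 2 * e0 ≤ 18 * mm := by
    unfold ee LL e0 mm
    norm_num
  linarith

/-- The free boundary of an optimal domain of the Robin shape optimization problem need not be
`C^{1,α}` outside a closed set of `H¹` measure zero. -/
theorem main : ∃ ρ : ℝ, 0 < ρ ∧ ρ < 1 ∧ ∀ D : Set V, IsOpen D → Bornology.IsBounded D →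
    closedBall (0 : V) ρ ⊆ D →
    ∃ f : V → ℝ, Measurable f ∧ (∀ x, 0 ≤ f x) ∧ (∃ M : ℝ, ∀ x, f x ≤ M) ∧
    ∃ (u : V → ℝ) (g : V → V) (up um : V → ℝ) (ν : V → V), Adm D u g up um ν ∧
      (∀ (v : V → ℝ) (g' : V → V) (vp vm : V → ℝ) (ν' : V → V), Adm D v g' vp vm ν' →
        energy D f u g up um ≤ energy D f v g' vp vm) ∧
      ∀ α ∈ Ioo (0 : ℝ) 1, ∀ S : Set V, μH[1] S = 0 →
        ∃ x ∈ freeBdry D u \ S, ¬ IsC1Point α (freeBdry D u) x := by
  obtain ⟨C, hC, hC1, hi, hpos⟩ := exists_cantor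
  have hB := body_EE C
  refine ⟨18 * mm, by unfold mm; norm_num, by unfold mm; norm_num, fun D hD hb hDs => ?_⟩
  have H := calib_main hB hD.measurableSet hb
  have hfree : freeBdry D (uu (EE C)) = GA (EE C) := by
    unfold freeBdry
    rw [jumpSet_uu hB, (GA_closed _).closure_eq]
    exact inter_eq_left.2 ((GA_ball hB).trans hDs)
  refine ⟨ff (EE C), H.fm, fun x => ?_, ?_, uu (EE C), gg (EE C), upp, umm (EE C), nuu (EE C),
    uu_adm hB hDs, fun v g' vp vm ν' hv => uu_min hB hD.measurableSet hb hDs hv, ?_⟩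
  · unfold ff
    have h1 := qq_nonneg hB x
    have h2 := (uu_bounds hB x).1
    positivity
  · obtain ⟨M, hM⟩ := H.fb
    exact ⟨M, fun x => (le_abs_self _).trans (hM x)⟩
  · intro α _ S hS0
    rw [hfree]
    obtain ⟨φ, hφ, hφS⟩ := exists_good hC hC1 hpos hS0
    refine ⟨R1 • ev φ, ⟨Or.inl (Or.inl ?_), hφS⟩, not_graph hC hC1 hi hφ α⟩
    rw [S1, Set.mem_ofPred_eq, norm_smul, (ev_norm φ).1, mul_one, Real.norm_eq_abs, abs_of_pos]
    unfold R1 ee e0 mm
    norm_num

end MP_614bef_an
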