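import Pool.Agent.Lib.MP_614bef_an.Cst2
import Pool.Agent.Lib.MP_614bef_an.Ev

set_option autoImplicit false

namespace MP_614bef_an

open MeasureTheory Set Filter Metric
open scoped RealInnerProductSpace ENNReal NNReal Topology ContDiff

/-- data of the radial function of the level line `infDist = s` -/
structure Radial (E : Set V) (s : ℝ) (R R' : ℝ → ℝ) : Prop where
  pos : ∀ φ, 0 < R φ
  per : ∀ φ, R (φ + 2 * Real.pi) = R φ
  der : ∀ φ, HasDerivAt R (R' φ) φ
  cont : Continuous R'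
  lt : ∀ φ t : ℝ, 0 ≤ t → (infDist (t • ev φ) E < s ↔ t < R φ)
  eq : ∀ φ t : ℝ, 0 ≤ t → (infDist (t • ev φ) E = s ↔ t = R φ)
  rel : ∀ φ, R' φ * ⟪rs E (R φ • ev φ), ev φ⟫ = -(R φ * ⟪rs E (R φ • ev φ), ev' φ⟫)
  inn : ∀ φ, 0 < ⟪rs E (R φ • ev φ), ev φ⟫

private theorem rad_e0_pos : 0 < e0 := by
  unfold e0 mm; norm_num

private theorem rad_zero_mem {E : Set V} (h : Body E) : (0 : V) ∈ E :=
  h.inn (by simp [rad_e0_pos.le])

/-- `δ(λ x) ≤ λ δ(x)` for `0 ≤ λ ≤ 1` -/
private theorem rad_scale {E : Set V} (h : Body E) {l : ℝ} (h0 : 0 ≤ l) (h1 : l ≤ 1) (x : V) :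
    infDist (l • x) E ≤ l * infDist x E := by
  have hp := prj_mem h.cl h.ne x
  have hlp : l • prj E x ∈ E := by
    have := h.cv.smul_mem_of_zero_mem (rad_zero_mem h) hp ⟨h0, h1⟩
    exact this
  calc infDist (l • x) E ≤ dist (l • x) (l • prj E x) := infDist_le_dist_of_mem hlp
    _ = l * ‖rs E x‖ := by
        rw [dist_eq_norm, ← smul_sub, norm_smul, Real.norm_eq_abs, abs_of_nonneg h0]; rfl
    _ = l * infDist x E := by rw [rs_norm h.cl h.ne]

private theorem rad_ratio {E : Set V} (h : Body E) {t1 t2 : ℝ} (h0 : 0 ≤ t1) (h1 : t1 ≤ t2)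
    (h2 : 0 < t2) (φ : ℝ) :
    infDist (t1 • ev φ) E ≤ t1 / t2 * infDist (t2 • ev φ) E := by
  have := rad_scale h (l := t1 / t2) (by positivity) ((div_le_one h2).2 h1) (t2 • ev φ)
  rwa [smul_smul, div_mul_cancel₀ _ h2.ne'] at this

private theorem rad_exists {E : Set V} (h : Body E) {s : ℝ} (hs : 0 < s) (φ : ℝ) :
    ∃ t : ℝ, 0 < t ∧ infDist (t • ev φ) E = s := by
  have hevc : Continuous fun t : ℝ => infDist (t • ev φ) E :=
    (continuous_infDist_pt E).comp (continuous_id.smul continuous_const)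
  have hb : (0 : ℝ) ≤ s + 2 * e0 := by have := rad_e0_pos; positivity
  have h0 : infDist ((0 : ℝ) • ev φ) E ≤ s := by
    rw [zero_smul, infDist_zero_of_mem (rad_zero_mem h)]
    exact hs.le
  have h1 : s ≤ infDist ((s + 2 * e0) • ev φ) E := by
    have := le_infDist h ((s + 2 * e0) • ev φ)
    rw [norm_smul, (ev_norm φ).1, Real.norm_eq_abs, abs_of_nonneg hb] at this
    linarith
  obtain ⟨t, ht, hts⟩ := intermediate_value_Icc hb hevc.continuousOn ⟨h0, h1⟩
  refine ⟨t, lt_of_le_of_ne ht.1 ?_, hts⟩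
  rintro rfl
  simp only [zero_smul] at hts
  rw [infDist_zero_of_mem (rad_zero_mem h)] at hts
  exact hs.ne hts

/-- **RAD.** PROOF.  For fixed `φ` the function `t ↦ infDist (t • ev φ) E` (`t ≥ 0`) is convex,
`0` at `t = 0`, tends to infinity (`E` is bounded) and is strictly increasing as soon as it is
positive (convex, zero at `0`); or: `t ↦ infDist²` has derivative `2 ⟪rs, ev φ⟫ > 0` when positive
(`sq_expand`, `rs_inner_ge`).  So `R φ` exists.  `inn`: `rs_inner_ge` with `x = R φ • ev φ`.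
Continuity and differentiability of `R`: put `x = R(φ) ev φ`, `y = R(ψ) ev ψ`; `sq_expand` gives
`|2 ⟪rs E x, y - x⟫| ≤ ‖y - x‖²`, and
`y - x = (R ψ - R φ) ev ψ + R φ (ev ψ - ev φ)`.  (Continuity of `R`: first show that `R` is locally
bounded between positive constants and use the strict monotonicity; or the Lipschitz estimate from
`⟪rs, ev φ⟫ ≥ e0 s/R`.)  Then `R'(φ) = -R ⟪rs,ev'⟫/⟪rs,ev⟫`, which is continuous. -/
theorem exists_radial {E : Set V} (h : Body E) {s : ℝ} (hs : 0 < s) :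
    ∃ R R' : ℝ → ℝ, Radial E s R R' := by
  choose R hRpos hRs using fun φ => rad_exists h hs φ
  -- comparison
  have hlt : ∀ φ t : ℝ, 0 ≤ t → t < R φ → infDist (t • ev φ) E < s := by
    intro φ t ht htR
    have h1 := rad_ratio h ht htR.le (hRpos φ) φ
    rw [hRs] at h1
    refine h1.trans_lt ?_
    have : t / R φ < 1 := (div_lt_one (hRpos φ)).2 htR
    nlinarith
  have hgt : ∀ φ t : ℝ, R φ < t → s < infDist (t • ev φ) E := by
    intro φ t htR
    have ht : 0 < t := (hRpos φ).trans htR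
    have h1 := rad_ratio h (hRpos φ).le htR.le ht φ
    rw [hRs] at h1
    have h2 : R φ / t < 1 := (div_lt_one ht).2 htR
    have h3 : 0 < R φ / t := div_pos (hRpos φ) ht
    by_contra hcon
    push Not at hcon
    have : R φ / t * infDist (t • ev φ) E ≤ R φ / t * s := mul_le_mul_of_nonneg_left hcon h3.le
    nlinarith
  have hLT : ∀ φ t : ℝ, 0 ≤ t → (infDist (t • ev φ) E < s ↔ t < R φ) := by
    intro φ t ht
    constructor
    · intro hh
      by_contra hcon
      push Not at hcon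
      rcases hcon.lt_or_eq with h1 | h1
      · exact absurd hh (hgt φ t h1).le.not_gt
      · rw [← h1, hRs] at hh; exact lt_irrefl _ hh
    · exact hlt φ t ht
  have hEQ : ∀ φ t : ℝ, 0 ≤ t → (infDist (t • ev φ) E = s ↔ t = R φ) := by
    intro φ t ht
    constructor
    · intro hh
      rcases lt_trichotomy t (R φ) with h1 | h1 | h1
      · exact absurd hh (hlt φ t ht h1).ne
      · exact h1
      · exact absurd hh (hgt φ t h1).ne'
    · rintro rfl; exact hRs φ
  have hper : ∀ φ, R (φ + 2 * Real.pi) = R φ := by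
    intro φ
    have hev : ev (φ + 2 * Real.pi) = ev φ := by
      unfold ev; simp
    refine ((hEQ φ _ (hRpos _).le).1 ?_)
    rw [← hev]
    exact hRs _
  have hinn : ∀ φ, 0 < ⟪rs E (R φ • ev φ), ev φ⟫ := by
    intro φ
    have h1 := rs_inner_ge h.cl h.cv rad_e0_pos.le h.inn (R φ • ev φ)
    rw [hRs, real_inner_smul_right] at h1
    have h2 : 0 < e0 * s + s ^ 2 := by
      have := rad_e0_pos
      positivity
    exact pos_of_mul_pos_right (h2.trans_le h1) (hRpos φ).le
  have hevc : Continuous ev := by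
    rw [continuous_iff_continuousAt]
    exact fun φ => (ev_hasDerivAt φ).continuousAt
  have hev'c : Continuous ev' := by
    rw [continuous_iff_continuousAt]
    exact fun φ => (ev'_hasDerivAt φ).continuousAt
  have hcont : ∀ a : ℝ, Continuous (fun ψ : ℝ => infDist (a • ev ψ) E) := fun a =>
    (continuous_infDist_pt E).comp (hevc.const_smul a)
  -- continuity of `R`
  have hRc : Continuous R := by
    rw [continuous_iff_continuousAt]
    intro φ
    refine tendsto_order.2 ⟨fun a ha => ?_, fun a ha => ?_⟩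
    · have hc : ContinuousAt (fun ψ : ℝ => infDist (max a 0 • ev ψ) E) φ :=
        (hcont (max a 0)).continuousAt
      have hm : max a 0 < R φ := max_lt ha (hRpos φ)
      have h1 : infDist (max a 0 • ev φ) E < s := hlt φ _ (le_max_right _ _) hm
      filter_upwards [hc.eventually (gt_mem_nhds h1)] with ψ hψ
      exact (le_max_left _ _).trans_lt ((hLT ψ _ (le_max_right _ _)).1 hψ)
    · have ha0 : 0 < a := (hRpos φ).trans ha
      have hc : ContinuousAt (fun ψ : ℝ => infDist (a • ev ψ) E) φ :=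
        (hcont a).continuousAt
      have h1 : s < infDist (a • ev φ) E := hgt φ _ ha
      filter_upwards [hc.eventually (lt_mem_nhds h1)] with ψ hψ
      by_contra hcon
      push Not at hcon
      rcases hcon.lt_or_eq with h2 | h2
      · exact absurd hψ (hlt ψ a ha0.le h2).le.not_gt
      · rw [h2, hRs] at hψ; exact lt_irrefl _ hψ
  set R' : ℝ → ℝ := fun φ =>
    -(R φ * ⟪rs E (R φ • ev φ), ev' φ⟫) / ⟪rs E (R φ • ev φ), ev φ⟫ with hR'
  have hrel : ∀ φ, R' φ * ⟪rs E (R φ • ev φ), ev φ⟫ = -(R φ * ⟪rs E (R φ • ev φ), ev' φ⟫) :=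
    fun φ => div_mul_cancel₀ _ (hinn φ).ne'
  have hrsc : Continuous fun φ => rs E (R φ • ev φ) :=
    (rs_lip h.cl h.cv h.ne).continuous.comp (hRc.smul hevc)
  refine ⟨R, R', hRpos, hper, ?_, ?_, hLT, hEQ, hrel, hinn⟩
  · intro φ
    set n : V := rs E (R φ • ev φ) with hn
    set c : ℝ := ⟪n, ev φ⟫ with hc
    have hcpos : 0 < c := hinn φ
    -- the increments
    have hevO : (fun ψ => ev ψ - ev φ) =O[𝓝 φ] fun ψ => ψ - φ := (ev_hasDerivAt φ).isBigO_sub
    have hevo : (fun ψ => ev ψ - ev φ - (ψ - φ) • ev' φ) =o[𝓝 φ] fun ψ => ψ - φ :=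
      (hasDerivAt_iff_isLittleO.1 (ev_hasDerivAt φ))
    -- main inequality
    have hmain : ∀ ψ, |(R ψ - R φ) * ⟪n, ev ψ⟫ + R φ * ⟪n, ev ψ - ev φ⟫| ≤
        (|R ψ - R φ| + R φ * ‖ev ψ - ev φ‖) ^ 2 / 2 := by
      intro ψ
      have h1 := sq_expand h.cl h.cv h.ne (R φ • ev φ) (R ψ • ev ψ)
      rw [hRs, hRs, sub_self, zero_sub, abs_neg, abs_mul, abs_two] at h1
      have h2 : R ψ • ev ψ - R φ • ev φ = (R ψ - R φ) • ev ψ + R φ • (ev ψ - ev φ) := by
        rw [sub_smul, smul_sub]; abel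
      have h3 : ‖R ψ • ev ψ - R φ • ev φ‖ ≤ |R ψ - R φ| + R φ * ‖ev ψ - ev φ‖ := by
        rw [h2]
        refine (norm_add_le _ _).trans ?_
        rw [norm_smul, norm_smul, (ev_norm ψ).1, mul_one, Real.norm_eq_abs, Real.norm_eq_abs,
          abs_of_pos (hRpos φ)]
      have h4 : ⟪n, R ψ • ev ψ - R φ • ev φ⟫ =
          (R ψ - R φ) * ⟪n, ev ψ⟫ + R φ * ⟪n, ev ψ - ev φ⟫ := by
        rw [h2, inner_add_right, real_inner_smul_right, real_inner_smul_right]
      rw [h4] at h1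
      have h5 : ‖R ψ • ev ψ - R φ • ev φ‖ ^ 2 ≤ (|R ψ - R φ| + R φ * ‖ev ψ - ev φ‖) ^ 2 :=
        pow_le_pow_left₀ (norm_nonneg _) h3 2
      linarith
    -- step 1: `R ψ - R φ = O(ψ - φ)`
    have hO : (fun ψ => R ψ - R φ) =O[𝓝 φ] fun ψ => ψ - φ := by
      have h1 : (fun ψ => R ψ - R φ) =O[𝓝 φ] fun ψ => ‖ev ψ - ev φ‖ := by
        have hev1 : ∀ᶠ ψ in 𝓝 φ, c / 2 < ⟪n, ev ψ⟫ := by
          have : ContinuousAt (fun ψ => ⟪n, ev ψ⟫) φ := (continuous_const.inner hevc).continuousAt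
          exact this.eventually (lt_mem_nhds (show c / 2 < c by linarith))
        have hev2 : ∀ᶠ ψ in 𝓝 φ, |R ψ - R φ| + R φ * ‖ev ψ - ev φ‖ < c / 2 := by
          have : ContinuousAt (fun ψ => |R ψ - R φ| + R φ * ‖ev ψ - ev φ‖) φ := by
            refine Continuous.continuousAt ?_
            exact ((hRc.sub continuous_const).abs).add
              (continuous_const.mul (hevc.sub continuous_const).norm)
          refine this.eventually (gt_mem_nhds ?_)
          simp only [sub_self, abs_zero, norm_zero, mul_zero, add_zero]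
          linarith
        refine Asymptotics.IsBigO.of_bound (4 / c * (R φ * ‖n‖ + c / 4 * R φ)) ?_
        filter_upwards [hev1, hev2] with ψ h1 h2
        rw [Real.norm_eq_abs, norm_norm]
        set D := |R ψ - R φ| with hD
        set e := ‖ev ψ - ev φ‖ with he
        have hD0 : 0 ≤ D := abs_nonneg _
        have he0 : 0 ≤ e := norm_nonneg _
        have h3 := hmain ψ
        have h4 : |R φ * ⟪n, ev ψ - ev φ⟫| ≤ R φ * (‖n‖ * e) := by
          rw [abs_mul, abs_of_pos (hRpos φ)]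
          exact mul_le_mul_of_nonneg_left (abs_real_inner_le_norm _ _) (hRpos φ).le
        have h5 : D * (c / 2) ≤ |(R ψ - R φ) * ⟪n, ev ψ⟫| := by
          rw [abs_mul]
          exact mul_le_mul_of_nonneg_left (h1.le.trans (le_abs_self _)) hD0
        have h6 : |(R ψ - R φ) * ⟪n, ev ψ⟫| ≤
            |(R ψ - R φ) * ⟪n, ev ψ⟫ + R φ * ⟪n, ev ψ - ev φ⟫| + |R φ * ⟪n, ev ψ - ev φ⟫| := by
          have := abs_sub ((R ψ - R φ) * ⟪n, ev ψ⟫ + R φ * ⟪n, ev ψ - ev φ⟫)
            (R φ * ⟪n, ev ψ - ev φ⟫)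
          simpa using this
        have h7 : (D + R φ * e) ^ 2 / 2 ≤ c / 4 * (D + R φ * e) := by
          have : 0 ≤ D + R φ * e := by have := hRpos φ; positivity
          nlinarith
        have h8 : D * (c / 4) ≤ (R φ * ‖n‖ + c / 4 * R φ) * e := by
          nlinarith
        rw [div_mul_eq_mul_div, div_mul_eq_mul_div, le_div_iff₀ hcpos]
        nlinarith
      exact h1.trans hevO.norm_left
    -- step 2
    have hO2 : (fun ψ => (|R ψ - R φ| + R φ * ‖ev ψ - ev φ‖) ^ 2 / 2) =o[𝓝 φ]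
        fun ψ => ψ - φ := by
      have h1 : (fun ψ => |R ψ - R φ| + R φ * ‖ev ψ - ev φ‖) =O[𝓝 φ] fun ψ => ψ - φ :=
        hO.abs_left.add (hevO.norm_left.const_mul_left _)
      have h2 : (fun ψ => (|R ψ - R φ| + R φ * ‖ev ψ - ev φ‖) ^ 2 / 2) =O[𝓝 φ]
          fun ψ => (ψ - φ) ^ 2 := by
        have := (h1.pow 2).const_mul_left (1 / 2)
        refine this.congr_left fun ψ => ?_
        ring
      refine h2.trans_isLittleO ?_
      have h3 : (fun ψ : ℝ => ψ - φ) =o[𝓝 φ] fun _ => (1 : ℝ) := by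
        rw [Asymptotics.isLittleO_one_iff]
        have : ContinuousAt (fun ψ : ℝ => ψ - φ) φ := by fun_prop
        simpa [ContinuousAt] using this
      have h4 := (Asymptotics.isBigO_refl (fun ψ : ℝ => ψ - φ) (𝓝 φ)).mul_isLittleO h3
      simpa [pow_two] using h4
    have hT : (fun ψ => (R ψ - R φ) * ⟪n, ev ψ⟫ + R φ * ⟪n, ev ψ - ev φ⟫) =o[𝓝 φ]
        fun ψ => ψ - φ :=
      (Asymptotics.IsBigO.of_norm_le (fun ψ => by
        rw [Real.norm_eq_abs]; exact hmain ψ)).trans_isLittleO hO2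
    have hone : (fun ψ => ⟪n, ev ψ - ev φ⟫) =o[𝓝 φ] fun _ => (1 : ℝ) := by
      rw [Asymptotics.isLittleO_one_iff]
      have : ContinuousAt (fun ψ => ⟪n, ev ψ - ev φ⟫) φ :=
        (continuous_const.inner (hevc.sub continuous_const)).continuousAt
      simpa [ContinuousAt] using this
    have hA : (fun ψ => (R ψ - R φ) * ⟪n, ev ψ - ev φ⟫) =o[𝓝 φ] fun ψ => ψ - φ := by
      simpa using hO.mul_isLittleO hone
    have hB : (fun ψ => ⟪n, ev ψ - ev φ - (ψ - φ) • ev' φ⟫) =o[𝓝 φ] fun ψ => ψ - φ := by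
      refine Asymptotics.IsBigO.trans_isLittleO ?_ hevo
      refine Asymptotics.IsBigO.of_bound ‖n‖ (Eventually.of_forall fun ψ => ?_)
      rw [Real.norm_eq_abs]
      exact abs_real_inner_le_norm _ _
    rw [hasDerivAt_iff_isLittleO]
    have hsum := ((hT.sub hA).sub (hB.const_mul_left (R φ))).const_mul_left c⁻¹
    refine hsum.congr_left fun ψ => ?_
    have hrelφ := hrel φ
    rw [← hn, ← hc] at hrelφ
    have e1 : ⟪n, ev ψ - ev φ - (ψ - φ) • ev' φ⟫ = ⟪n, ev ψ - ev φ⟫ - (ψ - φ) * ⟪n, ev' φ⟫ := by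
      rw [inner_sub_right (𝕜 := ℝ) n (ev ψ - ev φ), real_inner_smul_right]
    have e2 : ⟪n, ev ψ⟫ = ⟪n, ev ψ - ev φ⟫ + c := by
      rw [inner_sub_right, hc]; ring
    rw [e1, e2, smul_eq_mul]
    have e3 : c⁻¹ * c = 1 := inv_mul_cancel₀ hcpos.ne'
    linear_combination (R ψ - R φ - (ψ - φ) * R' φ) * e3 + c⁻¹ * (ψ - φ) * hrelφ
  · exact ((hRc.mul (hrsc.inner hev'c)).neg).div (hrsc.inner hevc) fun φ => (hinn φ).ne'

end MP_614bef_an
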