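import Pool.Agent.Lib.MP_614bef_an.PiolaB
import Pool.Agent.Lib.MP_614bef_an.Rad
import Pool.Agent.Lib.MP_614bef_an.Area

set_option autoImplicit false

namespace MP_614bef_an

open MeasureTheory Set Filter Metric
open scoped RealInnerProductSpace ENNReal NNReal Topology ContDiff

/-- the parametrization of the level line -/
private noncomputable def ggc (R : ℝ → ℝ) (φ : ℝ) : V := R φ • ev φ

/-- its derivative -/
private noncomputable def ggd (R R' : ℝ → ℝ) (φ : ℝ) : V := R' φ • ev φ + R φ • ev' φ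

private theorem ggc_der {E : Set V} {s : ℝ} {R R' : ℝ → ℝ} (h : Radial E s R R') (φ : ℝ) :
    HasDerivAt (ggc R) (ggd R R' φ) φ := by
  have := (h.der φ).smul (ev_hasDerivAt φ)
  unfold ggc ggd
  rw [add_comm]
  exact this

private theorem ggd_cont {E : Set V} {s : ℝ} {R R' : ℝ → ℝ} (h : Radial E s R R') :
    Continuous (ggd R R') := by
  have hR : Continuous R := continuous_iff_continuousAt.mpr fun φ => (h.der φ).continuousAt
  have h1 : Continuous ev := continuous_iff_continuousAt.mpr fun φ => (ev_hasDerivAt φ).continuousAt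
  have h2 : Continuous ev' :=
    continuous_iff_continuousAt.mpr fun φ => (ev'_hasDerivAt φ).continuousAt
  unfold ggd
  exact (h.cont.smul h1).add (hR.smul h2)

private theorem gg_image {E : Set V} {s : ℝ} (_hs : 0 < s) {R R' : ℝ → ℝ} (h : Radial E s R R') :
    {x : V | infDist x E = s} = ggc R '' (Ioc (-Real.pi) Real.pi) := by
  ext x
  simp only [mem_setOf_eq, mem_image]
  constructor
  · intro hx
    obtain ⟨φ, hφ, hx2⟩ := exists_angle x
    refine ⟨φ, hφ, ?_⟩
    have h1 : infDist (‖x‖ • ev φ) E = s := by rw [← hx2]; exact hx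
    have h2 := (h.eq φ ‖x‖ (norm_nonneg x)).mp h1
    unfold ggc
    rw [← h2]
    exact hx2.symm
  · rintro ⟨φ, _, rfl⟩
    exact (h.eq φ (R φ) (h.pos φ).le).mpr rfl

private theorem gg_inj {E : Set V} {s : ℝ} {R R' : ℝ → ℝ} (h : Radial E s R R') :
    InjOn (ggc R) (Ioc (-Real.pi) Real.pi) := by
  intro φ hφ ψ hψ hxy
  have hn : ∀ θ, ‖ggc R θ‖ = R θ := by
    intro θ
    unfold ggc
    rw [norm_smul, (ev_norm θ).1, mul_one, Real.norm_eq_abs, abs_of_pos (h.pos θ)]
  have h1 : R φ = R ψ := by rw [← hn φ, ← hn ψ, hxy]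
  have h2 : R φ • ev φ = R φ • ev ψ := by
    have : ggc R φ = ggc R ψ := hxy
    unfold ggc at this
    rw [this, h1]
  have h3 : ev φ = ev ψ := smul_right_injective V (h.pos φ).ne' h2
  exact ev_inj hφ hψ h3

private theorem gg_norm_sq (R R' : ℝ → ℝ) (φ : ℝ) :
    ‖ggd R R' φ‖ ^ 2 = R' φ ^ 2 + R φ ^ 2 := by
  unfold ggd
  rw [EuclideanSpace.norm_sq_eq]
  simp only [Fin.sum_univ_two, ev, ev', PiLp.add_apply, PiLp.smul_apply, smul_eq_mul,
    Real.norm_eq_abs, sq_abs, Matrix.cons_val_zero, Matrix.cons_val_one]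
  have := Real.sin_sq_add_cos_sq φ
  nlinarith [this]

private theorem gg_dt (x : V) (R R' : ℝ → ℝ) (φ : ℝ) :
    dt x (R' φ • ev φ + R φ • ev' φ) = R φ * ⟪x, ev φ⟫ - R' φ * ⟪x, ev' φ⟫ := by
  unfold dt
  simp only [ev, ev', PiLp.inner_apply, Fin.sum_univ_two, PiLp.add_apply, PiLp.smul_apply,
    smul_eq_mul, Matrix.cons_val_zero, Matrix.cons_val_one, RCLike.inner_apply, conj_trivial]
  ring

private theorem gg_frame (x y : V) (φ : ℝ) :
    ⟪x, y⟫ = ⟪x, ev φ⟫ * ⟪y, ev φ⟫ + ⟪x, ev' φ⟫ * ⟪y, ev' φ⟫ := by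
  simp only [ev, ev', PiLp.inner_apply, Fin.sum_univ_two,
    Matrix.cons_val_zero, Matrix.cons_val_one, RCLike.inner_apply, conj_trivial]
  have := Real.sin_sq_add_cos_sq φ
  linear_combination (-(x 0 * y 0) - x 1 * y 1) * this

private theorem gg_key {E : Set V} (hE : Body E) {s : ℝ} (hs : 0 < s) {R R' : ℝ → ℝ}
    (h : Radial E s R R') (x : V) (φ : ℝ) :
    dt x (R' φ • ev φ + R φ • ev' φ) =
      ‖ggd R R' φ‖ * ⟪x, s⁻¹ • rs E (ggc R φ)⟫ := by
  rw [gg_dt, inner_smul_right, gg_frame x (rs E (ggc R φ)) φ]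
  have hi := h.inn φ
  have hr := h.rel φ
  have hR := h.pos φ
  have hns := gg_norm_sq R R' φ
  have hn0 : 0 ≤ ‖ggd R R' φ‖ := norm_nonneg _
  have hrs : ‖rs E (ggc R φ)‖ = s := by
    rw [rs_norm hE.cl hE.ne]
    exact (h.eq φ (R φ) hR.le).mpr rfl
  have hfr : ⟪rs E (ggc R φ), ev φ⟫ ^ 2 + ⟪rs E (ggc R φ), ev' φ⟫ ^ 2 = s ^ 2 := by
    have := gg_frame (rs E (ggc R φ)) (rs E (ggc R φ)) φ
    rw [real_inner_self_eq_norm_sq, hrs] at this
    rw [this]; ring
  change 0 < ⟪rs E (ggc R φ), ev φ⟫ at hi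
  change R' φ * ⟪rs E (ggc R φ), ev φ⟫ = -(R φ * ⟪rs E (ggc R φ), ev' φ⟫) at hr
  set α := ⟪rs E (ggc R φ), ev φ⟫ with hα
  set β := ⟪rs E (ggc R φ), ev' φ⟫ with hβ
  set N := ‖ggd R R' φ‖ with hN
  have h1 : (N * α) ^ 2 = (s * R φ) ^ 2 := by
    have e1 : (R' φ * α) ^ 2 = (R φ * β) ^ 2 := by rw [hr]; ring
    calc (N * α) ^ 2 = N ^ 2 * α ^ 2 := by ring
      _ = (R' φ ^ 2 + R φ ^ 2) * α ^ 2 := by rw [hns]
      _ = (R' φ * α) ^ 2 + R φ ^ 2 * α ^ 2 := by ring
      _ = R φ ^ 2 * (α ^ 2 + β ^ 2) := by rw [e1]; ring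
      _ = (s * R φ) ^ 2 := by rw [hfr]; ring
  have h2 : N * α = s * R φ := by
    have a1 : 0 ≤ N * α := mul_nonneg hn0 hi.le
    have a2 : 0 ≤ s * R φ := mul_nonneg hs.le hR.le
    exact (sq_eq_sq₀ a1 a2).mp h1
  have h3 : N * β = -(s * R' φ) := by
    have : R φ * (N * β) = R φ * (-(s * R' φ)) := by
      calc R φ * (N * β) = N * (R φ * β) := by ring
        _ = N * (-(R' φ * α)) := by rw [hr]; ring
        _ = -(R' φ) * (N * α) := by ring
        _ = R φ * (-(s * R' φ)) := by rw [h2]; ring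
    exact mul_left_cancel₀ hR.ne' this
  have hs' : s ≠ 0 := hs.ne'
  have e2 : N * (s⁻¹ * (⟪x, ev φ⟫ * α + ⟪x, ev' φ⟫ * β)) =
      s⁻¹ * (⟪x, ev φ⟫ * (N * α) + ⟪x, ev' φ⟫ * (N * β)) := by ring
  rw [e2, h2, h3]
  field_simp
  ring

/-- **GG.** Gauss-Green for parallel bodies.  PROOF: `exists_radial`, `γ φ = R φ • ev φ` with
`γ' = R' ev + R ev'`; `{infDist = s} = γ '' Ioc (-π) π` (`exists_angle`), `γ` injective there
(`ev_inj`); `area_finite`; `div_star`, `area_curve`, and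
`dt(X, γ') = ⟪X, n⟫ ‖γ'‖` with `n = s⁻¹ rs`: in the frame `(ev, ev')`, `‖γ'‖ n = R ev - R' ev'`
because of `rel`, `inn` and `‖n‖ = 1`. -/
theorem level_finite {E : Set V} (h : Body E) {s : ℝ} (hs : 0 < s) :
    μH[1] {x : V | infDist x E = s} < ⊤ := by
  obtain ⟨R, R', hR⟩ := exists_radial h hs
  rw [gg_image hs hR]
  exact area_finite (ggc_der hR) (ggd_cont hR)

theorem gauss_green {E : Set V} (h : Body E) {s : ℝ} (hs : 0 < s) {X : V → V}
    (hX : ContDiff ℝ 1 X) :
    ∫ x in {x : V | infDist x E < s}, divg X x =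
      ∫ x in {x : V | infDist x E = s}, ⟪X x, s⁻¹ • rs E x⟫ ∂μH[1] := by
  obtain ⟨R, R', hR⟩ := exists_radial h hs
  have hF : Continuous fun y : V => ⟪X y, s⁻¹ • rs E y⟫ := by
    have c1 : Continuous (rs E) := (rs_lip h.cl h.cv h.ne).continuous
    exact hX.continuous.inner (c1.const_smul s⁻¹)
  rw [gg_image hs hR, area_curve (ggc_der hR) (ggd_cont hR) (gg_inj hR) hF,
    div_star hR.pos hR.der hR.cont hR.per (fun φ t ht => hR.lt φ t ht) hX,
    intervalIntegral.integral_of_le (by linarith [Real.pi_pos])]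
  refine integral_congr_ae (Eventually.of_forall fun φ => ?_)
  exact gg_key h hs hR (X (ggc R φ)) φ

private theorem gg_e0 : 0 < e0 := by
  unfold e0 mm
  norm_num

private theorem gg_ee : 0 < ee := by
  unfold ee mm
  norm_num

/-- the disc: apply this with `E = closedBall 0 e0`, `s = ee` -/
theorem body_ball : Body (closedBall (0 : V) e0) := by
  refine ⟨isClosed_closedBall, convex_closedBall 0 e0, subset_rfl, ?_⟩
  exact closedBall_subset_closedBall (by linarith [gg_e0])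

theorem infDist_ball {x : V} (hx : e0 ≤ ‖x‖) : infDist x (closedBall (0 : V) e0) = ‖x‖ - e0 ∧
    rs (closedBall (0 : V) e0) x = (1 - e0 / ‖x‖) • x := by
  have he := gg_e0
  have hx0 : 0 < ‖x‖ := he.trans_le hx
  have hp : (e0 / ‖x‖) • x ∈ closedBall (0 : V) e0 := by
    rw [mem_closedBall_zero_iff, norm_smul, Real.norm_eq_abs, abs_of_pos (div_pos he hx0)]
    exact le_of_eq (by field_simp)
  have hd : dist x ((e0 / ‖x‖) • x) = ‖x‖ - e0 := by
    rw [dist_eq_norm]
    have : x - (e0 / ‖x‖) • x = (1 - e0 / ‖x‖) • x := by rw [sub_smul, one_smul]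
    rw [this, norm_smul, Real.norm_eq_abs, abs_of_nonneg]
    · field_simp
    · rw [sub_nonneg, div_le_one hx0]; exact hx
  have hle : ‖x‖ - e0 ≤ infDist x (closedBall (0 : V) e0) := by
    rw [Metric.le_infDist body_ball.ne]
    intro y hy
    rw [mem_closedBall_zero_iff] at hy
    rw [dist_eq_norm]
    have := norm_sub_norm_le x y
    linarith
  have hge : infDist x (closedBall (0 : V) e0) ≤ ‖x‖ - e0 := by
    rw [← hd]
    exact infDist_le_dist_of_mem hp
  refine ⟨le_antisymm hge hle, ?_⟩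
  have := prj_unique isClosed_closedBall (convex_closedBall 0 e0) body_ball.ne x hp
    (by rw [hd]; exact hle)
  unfold rs
  rw [this, sub_smul, one_smul]

theorem infDist_ball_in {x : V} (hx : ‖x‖ ≤ e0) : infDist x (closedBall (0 : V) e0) = 0 := by
  exact infDist_zero_of_mem (mem_closedBall_zero_iff.mpr hx)

private theorem gg_S1 : S1 = {x : V | infDist x (closedBall (0 : V) e0) = ee} := by
  ext x
  simp only [S1, mem_setOf_eq]
  rcases le_or_gt e0 ‖x‖ with h | h
  · rw [(infDist_ball h).1]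
    unfold R1
    constructor <;> intro h <;> linarith
  · rw [infDist_ball_in h.le]
    have := gg_ee
    constructor
    · intro h2
      unfold R1 at h2
      linarith
    · intro h2
      linarith

theorem S1_finite : μH[1] S1 < ⊤ := by
  rw [gg_S1]
  exact level_finite body_ball gg_ee

theorem gauss_green_disc {X : V → V} (hX : ContDiff ℝ 1 X) :
    ∫ x in {x : V | ‖x‖ < R1}, divg X x = ∫ x in S1, ⟪X x, R1⁻¹ • x⟫ ∂μH[1] := by
  have he := gg_e0
  have hee := gg_ee
  have h1 : {x : V | ‖x‖ < R1} = {x : V | infDist x (closedBall (0 : V) e0) < ee} := by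
    ext x
    simp only [mem_setOf_eq]
    rcases le_or_gt e0 ‖x‖ with h | h
    · rw [(infDist_ball h).1]
      unfold R1
      constructor <;> intro h <;> linarith
    · rw [infDist_ball_in h.le]
      unfold R1
      constructor
      · intro _
        exact hee
      · intro _
        linarith
  rw [h1, gauss_green body_ball hee hX, ← gg_S1]
  refine setIntegral_congr_fun ?_ ?_
  · have : S1 = (fun x : V => ‖x‖) ⁻¹' {R1} := by ext x; simp [S1]
    rw [this]
    exact (measurable_norm (measurableSet_singleton R1))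
  · intro x hx
    have hx1 : ‖x‖ = R1 := hx
    have hR1 : R1 = ee + e0 := rfl
    have hle : e0 ≤ ‖x‖ := by rw [hx1, hR1]; linarith
    have hR0 : R1 ≠ 0 := by rw [hR1]; linarith
    show ⟪X x, ee⁻¹ • rs (closedBall (0 : V) e0) x⟫ = ⟪X x, R1⁻¹ • x⟫
    rw [(infDist_ball hle).2, smul_smul, hx1]
    congr 2
    have : 1 - e0 / R1 = ee / R1 := by
      field_simp
      rw [hR1]; ring
    rw [this]
    field_simp

end MP_614bef_an
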