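import Pool.Agent.Lib.MP_614bef_an.Cst

set_option autoImplicit false

namespace MP_614bef_an

open MeasureTheory Set Filter Metric
open scoped RealInnerProductSpace ENNReal NNReal Topology ContDiff

/-- `pp` has derivative `2 max x 0` -/
private lemma hasDerivAt_pp (x : ℝ) : HasDerivAt pp (2 * max x 0) x := by
  rcases lt_trichotomy x 0 with hx | hx | hx
  · have h1 : pp =ᶠ[𝓝 x] fun _ => 0 := by
      filter_upwards [Iio_mem_nhds hx] with y hy
      simp [pp, max_eq_right (le_of_lt (mem_Iio.1 hy))]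
    rw [max_eq_right hx.le, mul_zero]
    exact (hasDerivAt_const x (0 : ℝ)).congr_of_eventuallyEq h1
  · subst hx
    simp only [max_self, mul_zero]
    rw [hasDerivAt_iff_isLittleO_nhds_zero]
    simp only [zero_add, smul_zero, sub_zero]
    have hb : (fun h : ℝ => pp h - pp 0) =O[𝓝 0] fun h : ℝ => h ^ 2 := by
      apply Asymptotics.IsBigO.of_bound 1
      refine Filter.Eventually.of_forall fun h => ?_
      have h0 : pp 0 = 0 := by simp [pp]
      rw [h0, sub_zero, Real.norm_eq_abs, Real.norm_eq_abs, one_mul]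
      unfold pp
      rw [abs_of_nonneg (sq_nonneg _), abs_of_nonneg (sq_nonneg _)]
      rcases le_total h 0 with h' | h'
      · rw [max_eq_right h']; simpa using sq_nonneg h
      · rw [max_eq_left h']
    refine hb.trans_isLittleO ?_
    have := Asymptotics.isLittleO_pow_id (𝕜 := ℝ) (n := 2) (by norm_num)
    simpa using this
  · have h1 : pp =ᶠ[𝓝 x] fun y => y ^ 2 := by
      filter_upwards [Ioi_mem_nhds hx] with y hy
      simp [pp, max_eq_left (le_of_lt (mem_Ioi.1 hy))]
    rw [max_eq_left hx.le]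
    have := (hasDerivAt_pow 2 x).congr_of_eventuallyEq h1
    simpa using this

private lemma pp_abs {c : ℝ} (hc : 0 ≤ c) (t : ℝ) :
    pp (|t| - c) = pp (t - c) + pp (-t - c) := by
  unfold pp
  rcases le_total t 0 with h | h
  · rw [abs_of_nonpos h, max_eq_right (by linarith : t - c ≤ 0)]
    simp
  · rw [abs_of_nonneg h, max_eq_right (by linarith : -t - c ≤ 0)]
    simp

/-- derivative of `pp (|t| - c)` -/
private noncomputable def dd (c t : ℝ) : ℝ := 2 * max (t - c) 0 - 2 * max (-t - c) 0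

private lemma hasDerivAt_ppabs {c : ℝ} (hc : 0 ≤ c) (t : ℝ) :
    HasDerivAt (fun s : ℝ => pp (|s| - c)) (dd c t) t := by
  have h1 : (fun s : ℝ => pp (|s| - c)) = fun s : ℝ => pp (s - c) + pp (-s - c) := by
    funext s; exact pp_abs hc s
  rw [h1]
  have ha : HasDerivAt (fun s : ℝ => pp (s - c)) (2 * max (t - c) 0) t := by
    have h := (hasDerivAt_pp (t - c)).comp t ((hasDerivAt_id t).sub_const c)
    simpa [Function.comp_def] using h
  have hb : HasDerivAt (fun s : ℝ => pp (-s - c)) (2 * max (-t - c) 0 * (-1)) t := by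
    have h := (hasDerivAt_pp (-t - c)).comp t ((hasDerivAt_id t).neg.sub_const c)
    simpa [Function.comp_def] using h
  have := ha.add hb
  refine this.congr_deriv ?_
  unfold dd; ring

private lemma continuous_dd (c : ℝ) : Continuous (dd c) := by
  unfold dd; fun_prop

private lemma aa_pos : 0 < aa := by unfold aa; norm_num

private noncomputable def dh1 (t : ℝ) : ℝ := dd (2 * aa) t + 7 / 50 * dd (101 * aa) t -
  6 / 25 * dd (151 * aa) t + 1 / 10 * dd (201 * aa) t - dd 1 t

private noncomputable def dh2 (t : ℝ) : ℝ := 2 * t - dd (2 * aa) t - 7 / 50 * dd (101 * aa) t +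
  6 / 25 * dd (151 * aa) t - 1 / 10 * dd (201 * aa) t

private lemma hasDerivAt_h1 (t : ℝ) : HasDerivAt h1 (dh1 t) t := by
  have ha := aa_pos
  have e1 := hasDerivAt_ppabs (c := 2 * aa) (by linarith) t
  have e2 := (hasDerivAt_ppabs (c := 101 * aa) (by linarith) t).const_mul (7 / 50 : ℝ)
  have e3 := (hasDerivAt_ppabs (c := 151 * aa) (by linarith) t).const_mul (6 / 25 : ℝ)
  have e4 := (hasDerivAt_ppabs (c := 201 * aa) (by linarith) t).const_mul (1 / 10 : ℝ)
  have e5 := hasDerivAt_ppabs (c := 1) (by norm_num) t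
  exact (((e1.add e2).sub e3).add e4).sub e5

private lemma hasDerivAt_h2 (t : ℝ) : HasDerivAt h2 (dh2 t) t := by
  have ha := aa_pos
  have e0 : HasDerivAt (fun s : ℝ => |s| ^ 2) (2 * t) t := by
    have : (fun s : ℝ => |s| ^ 2) = fun s => s ^ 2 := by funext s; exact sq_abs s
    rw [this]
    simpa using hasDerivAt_pow 2 t
  have e1 := hasDerivAt_ppabs (c := 2 * aa) (by linarith) t
  have e2 := (hasDerivAt_ppabs (c := 101 * aa) (by linarith) t).const_mul (7 / 50 : ℝ)
  have e3 := (hasDerivAt_ppabs (c := 151 * aa) (by linarith) t).const_mul (6 / 25 : ℝ)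
  have e4 := (hasDerivAt_ppabs (c := 201 * aa) (by linarith) t).const_mul (1 / 10 : ℝ)
  exact (((e0.sub e1).sub e2).add e3).sub e4

private lemma deriv_h1 : deriv h1 = dh1 := funext fun t => (hasDerivAt_h1 t).deriv
private lemma deriv_h2 : deriv h2 = dh2 := funext fun t => (hasDerivAt_h2 t).deriv

/-- **HFUN (a).** `x ↦ (max x 0)²` is `C¹` with derivative `2 max x 0`, hence for `c ≥ 0` the function
`t ↦ pp (|t| - c) = pp (t - c) + pp (-t - c)` is `C¹`. -/
theorem h1_contDiff : ContDiff ℝ 1 h1 := by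
  rw [contDiff_one_iff_deriv]
  refine ⟨fun t => (hasDerivAt_h1 t).differentiableAt, ?_⟩
  rw [deriv_h1]
  unfold dh1
  have e1 := continuous_dd (2 * aa)
  have e2 := continuous_dd (101 * aa)
  have e3 := continuous_dd (151 * aa)
  have e4 := continuous_dd (201 * aa)
  have e5 := continuous_dd 1
  fun_prop

theorem h2_contDiff : ContDiff ℝ 1 h2 := by
  rw [contDiff_one_iff_deriv]
  refine ⟨fun t => (hasDerivAt_h2 t).differentiableAt, ?_⟩
  rw [deriv_h2]
  unfold dh2
  have e1 := continuous_dd (2 * aa)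
  have e2 := continuous_dd (101 * aa)
  have e3 := continuous_dd (151 * aa)
  have e4 := continuous_dd (201 * aa)
  fun_prop

private lemma dd_of_lt {c t : ℝ} (h0 : 0 ≤ t) (hc : 0 ≤ c) (h : t ≤ c) : dd c t = 0 := by
  unfold dd
  rw [max_eq_right (by linarith), max_eq_right (by linarith)]
  ring

private lemma dd_of_gt {c t : ℝ} (h0 : 0 ≤ t) (hc : 0 ≤ c) (h : c ≤ t) : dd c t = 2 * (t - c) := by
  unfold dd
  rw [max_eq_left (by linarith), max_eq_right (by linarith)]
  ring

private lemma pp_of_lt {c t : ℝ} (h : t ≤ c) : pp (t - c) = 0 := by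
  unfold pp
  rw [max_eq_right (by linarith)]
  ring

private lemma pp_of_gt {c t : ℝ} (h : c ≤ t) : pp (t - c) = (t - c) ^ 2 := by
  unfold pp
  rw [max_eq_left (by linarith)]

theorem h1_zero : h1 0 = 0 ∧ deriv h1 0 = 0 := by
  have ha := aa_pos
  rw [deriv_h1]
  unfold h1 dh1
  rw [abs_zero, pp_of_lt (by linarith), pp_of_lt (by linarith), pp_of_lt (by linarith),
    pp_of_lt (by linarith), pp_of_lt (by norm_num),
    dd_of_lt le_rfl (by linarith) (by linarith), dd_of_lt le_rfl (by linarith) (by linarith),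
    dd_of_lt le_rfl (by linarith) (by linarith), dd_of_lt le_rfl (by linarith) (by linarith),
    dd_of_lt le_rfl (by norm_num) (by norm_num)]
  norm_num

theorem h2_zero : h2 0 = 0 ∧ deriv h2 0 = 0 := by
  have ha := aa_pos
  rw [deriv_h2]
  unfold h2 dh2
  rw [abs_zero, pp_of_lt (by linarith), pp_of_lt (by linarith), pp_of_lt (by linarith),
    pp_of_lt (by linarith),
    dd_of_lt le_rfl (by linarith) (by linarith), dd_of_lt le_rfl (by linarith) (by linarith),
    dd_of_lt le_rfl (by linarith) (by linarith), dd_of_lt le_rfl (by linarith) (by linarith)]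
  norm_num

theorem h_even (t : ℝ) : h1 (-t) = h1 t ∧ h2 (-t) = h2 t ∧ deriv h1 (-t) = -deriv h1 t ∧
    deriv h2 (-t) = -deriv h2 t := by
  have hd : ∀ c, dd c (-t) = -dd c t := by
    intro c; unfold dd; rw [neg_neg]; ring
  rw [deriv_h1, deriv_h2]
  refine ⟨?_, ?_, ?_, ?_⟩
  · unfold h1; rw [abs_neg]
  · unfold h2; rw [abs_neg]
  · unfold dh1; simp only [hd]; ring
  · unfold dh2; simp only [hd]; ring

/-- **HFUN (b).** values for `0 ≤ t ≤ 2a` -/
theorem h_piece1 {t : ℝ} (h0 : 0 ≤ t) (h1' : t ≤ 2 * aa) :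
    h1 t = 0 ∧ h2 t = t ^ 2 ∧ deriv h1 t = 0 ∧ deriv h2 t = 2 * t := by
  have ha := aa_pos
  have ha1 : 2 * aa ≤ 1 := by unfold aa; norm_num
  rw [deriv_h1, deriv_h2]
  unfold h1 dh1 h2 dh2
  rw [abs_of_nonneg h0, pp_of_lt (by linarith), pp_of_lt (by linarith), pp_of_lt (by linarith),
    pp_of_lt (by linarith), pp_of_lt (by linarith),
    dd_of_lt h0 (by linarith) (by linarith), dd_of_lt h0 (by linarith) (by linarith),
    dd_of_lt h0 (by linarith) (by linarith), dd_of_lt h0 (by linarith) (by linarith),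
    dd_of_lt h0 (by norm_num) (by linarith)]
  refine ⟨by ring, by ring, by ring, by ring⟩

theorem h_piece2 {t : ℝ} (h0 : 2 * aa ≤ t) (h1' : t ≤ 101 * aa) :
    h1 t = (t - 2 * aa) ^ 2 ∧ h2 t = 4 * aa * (t - aa) ∧ deriv h1 t = 2 * t - 4 * aa ∧
      deriv h2 t = 4 * aa := by
  have ha := aa_pos
  have ha1 : 201 * aa ≤ 1 := by unfold aa; norm_num
  have ht : 0 ≤ t := by linarith
  rw [deriv_h1, deriv_h2]
  unfold h1 dh1 h2 dh2
  rw [abs_of_nonneg ht, pp_of_gt h0, pp_of_lt (c := 101 * aa) (by linarith),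
    pp_of_lt (c := 151 * aa) (by linarith),
    pp_of_lt (c := 201 * aa) (by linarith), pp_of_lt (c := 1) (by linarith),
    dd_of_gt ht (by linarith) h0, dd_of_lt (c := 101 * aa) ht (by linarith) (by linarith),
    dd_of_lt (c := 151 * aa) ht (by linarith) (by linarith),
    dd_of_lt (c := 201 * aa) ht (by linarith) (by linarith),
    dd_of_lt (c := 1) ht (by norm_num) (by linarith)]
  refine ⟨by ring, by ring, by ring, by ring⟩

private lemma h1_add_h2 (t : ℝ) : h1 t + h2 t = t ^ 2 - pp (|t| - 1) := by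
  unfold h1 h2
  rw [sq_abs]; ring

private lemma dh1_add_dh2 (t : ℝ) : dh1 t + dh2 t = 2 * t - dd 1 t := by
  unfold dh1 dh2
  ring

theorem h_piece3 {t : ℝ} (h0 : 101 * aa ≤ t) (h1' : t ≤ 201 * aa) :
    h1 t = t ^ 2 - h2 t ∧ 0 ≤ h2 t ∧ h2 t ≤ 4 * aa * (t - aa) ∧
      deriv h1 t = 2 * t - deriv h2 t ∧ |deriv h2 t| ≤ 10 * aa := by
  have ha := aa_pos
  have ha1 : 201 * aa ≤ 1 := by unfold aa; norm_num
  have ht : 0 ≤ t := by linarith
  have hs1 := h1_add_h2 t
  rw [abs_of_nonneg ht, pp_of_lt (c := 1) (by linarith)] at hs1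
  have hs2 := dh1_add_dh2 t
  rw [dd_of_lt (c := 1) ht (by norm_num) (by linarith)] at hs2
  rw [deriv_h1, deriv_h2]
  refine ⟨by linarith, ?_, ?_, by linarith, ?_⟩
  · unfold h2
    rw [abs_of_nonneg ht, pp_of_gt (c := 2 * aa) (by linarith), pp_of_gt (c := 101 * aa) h0,
      pp_of_lt (c := 201 * aa) h1']
    rcases le_total t (151 * aa) with h | h
    · rw [pp_of_lt h]
      nlinarith [mul_nonneg (sub_nonneg.2 h0) (sub_nonneg.2 h), mul_pos ha ha,
        mul_nonneg ha.le (sub_nonneg.2 h0), mul_nonneg ha.le (sub_nonneg.2 h)]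
    · rw [pp_of_gt h]
      have : t ^ 2 - (t - 2 * aa) ^ 2 - 7 / 50 * (t - 101 * aa) ^ 2 +
        6 / 25 * (t - 151 * aa) ^ 2 - 1 / 10 * 0 = 1 / 10 * (t - 201 * aa) ^ 2 := by ring
      rw [this]
      positivity
  · unfold h2
    rw [abs_of_nonneg ht, pp_of_gt (c := 2 * aa) (by linarith), pp_of_gt (c := 101 * aa) h0,
      pp_of_lt (c := 201 * aa) h1']
    rcases le_total t (151 * aa) with h | h
    · rw [pp_of_lt h]
      nlinarith [sq_nonneg (t - 101 * aa)]
    · rw [pp_of_gt h]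
      nlinarith [mul_nonneg (sub_nonneg.2 h1') (sub_nonneg.2 h), mul_pos ha ha,
        mul_nonneg ha.le (sub_nonneg.2 h1'), mul_nonneg ha.le (sub_nonneg.2 h)]
  · unfold dh2
    rw [dd_of_gt (c := 2 * aa) ht (by linarith) (by linarith),
      dd_of_gt (c := 101 * aa) ht (by linarith) h0,
      dd_of_lt (c := 201 * aa) ht (by linarith) h1', abs_le]
    rcases le_total t (151 * aa) with h | h
    · rw [dd_of_lt ht (by linarith) h]
      constructor <;> linarith
    · rw [dd_of_gt ht (by linarith) h]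
      constructor <;> linarith

theorem h_piece4 {t : ℝ} (h0 : 201 * aa ≤ t) (h1' : t ≤ 1) :
    h1 t = t ^ 2 ∧ h2 t = 0 ∧ deriv h1 t = 2 * t ∧ deriv h2 t = 0 := by
  have ha := aa_pos
  have ht : 0 ≤ t := by linarith
  rw [deriv_h1, deriv_h2]
  unfold h1 dh1 h2 dh2
  rw [abs_of_nonneg ht, pp_of_gt (c := 2 * aa) (by linarith), pp_of_gt (c := 101 * aa) (by linarith),
    pp_of_gt (c := 151 * aa) (by linarith),
    pp_of_gt (c := 201 * aa) (by linarith), pp_of_lt (c := 1) (by linarith),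
    dd_of_gt (c := 2 * aa) ht (by linarith) (by linarith),
    dd_of_gt (c := 101 * aa) ht (by linarith) (by linarith),
    dd_of_gt (c := 151 * aa) ht (by linarith) (by linarith),
    dd_of_gt (c := 201 * aa) ht (by linarith) (by linarith),
    dd_of_lt (c := 1) ht (by norm_num) (by linarith)]
  refine ⟨by ring, by ring, by ring, by ring⟩

theorem h_piece5 {t : ℝ} (h0 : 1 ≤ t) :
    h1 t = 2 * t - 1 ∧ h2 t = 0 ∧ deriv h1 t = 2 ∧ deriv h2 t = 0 := by
  have ha := aa_pos
  have ha1 : 201 * aa ≤ 1 := by unfold aa; norm_num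
  have ht : 0 ≤ t := by linarith
  rw [deriv_h1, deriv_h2]
  unfold h1 dh1 h2 dh2
  rw [abs_of_nonneg ht, pp_of_gt (c := 2 * aa) (by linarith), pp_of_gt (c := 101 * aa) (by linarith),
    pp_of_gt (c := 151 * aa) (by linarith),
    pp_of_gt (c := 201 * aa) (by linarith), pp_of_gt (c := 1) (by linarith),
    dd_of_gt (c := 2 * aa) ht (by linarith) (by linarith),
    dd_of_gt (c := 101 * aa) ht (by linarith) (by linarith),
    dd_of_gt (c := 151 * aa) ht (by linarith) (by linarith),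
    dd_of_gt (c := 201 * aa) ht (by linarith) (by linarith),
    dd_of_gt (c := 1) ht (by norm_num) (by linarith)]
  refine ⟨by ring, by ring, by ring, by ring⟩

private lemma cases_nonneg {t : ℝ} (ht : 0 ≤ t) :
    (|dh1 t| ≤ 2 ∧ |dh2 t| ≤ 2) ∧ (0 ≤ h1 t ∧ 0 ≤ h2 t) := by
  have ha := aa_pos
  have ha1 : 201 * aa ≤ 1 := by unfold aa; norm_num
  rcases le_total t (2 * aa) with c1 | c1
  · obtain ⟨p1, p2, p3, p4⟩ := h_piece1 ht c1
    rw [deriv_h1] at p3; rw [deriv_h2] at p4
    rw [p1, p2, p3, p4]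
    refine ⟨⟨by norm_num, ?_⟩, le_rfl, sq_nonneg _⟩
    rw [abs_of_nonneg (by linarith)]; linarith
  rcases le_total t (101 * aa) with c2 | c2
  · obtain ⟨p1, p2, p3, p4⟩ := h_piece2 c1 c2
    rw [deriv_h1] at p3; rw [deriv_h2] at p4
    rw [p1, p2, p3, p4]
    refine ⟨⟨?_, ?_⟩, sq_nonneg _, ?_⟩
    · rw [abs_of_nonneg (by linarith)]; linarith
    · rw [abs_of_nonneg (by linarith)]; linarith
    · exact mul_nonneg (by linarith) (by linarith)
  rcases le_total t (201 * aa) with c3 | c3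
  · obtain ⟨p1, p2, p3, p4, p5⟩ := h_piece3 c2 c3
    rw [deriv_h1, deriv_h2] at p4; rw [deriv_h2] at p5
    have ha2 : 101 * aa ≥ 0 := by linarith
    have ha3 : 412 * aa ≤ 2 := by unfold aa; norm_num
    refine ⟨⟨?_, by linarith⟩, ?_, p2⟩
    · rw [p4]
      rw [abs_le] at p5 ⊢
      constructor <;> linarith [p5.1, p5.2]
    · rw [p1]
      nlinarith [sq_nonneg (t - 2 * aa)]
  rcases le_total t 1 with c4 | c4
  · obtain ⟨p1, p2, p3, p4⟩ := h_piece4 c3 c4
    rw [deriv_h1] at p3; rw [deriv_h2] at p4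
    rw [p1, p2, p3, p4]
    refine ⟨⟨?_, by norm_num⟩, sq_nonneg _, le_rfl⟩
    rw [abs_of_nonneg (by linarith)]; linarith
  · obtain ⟨p1, p2, p3, p4⟩ := h_piece5 c4
    rw [deriv_h1] at p3; rw [deriv_h2] at p4
    rw [p1, p2, p3, p4]
    refine ⟨⟨by norm_num, by norm_num⟩, by linarith, le_rfl⟩

theorem h1_deriv_bdd : ∃ M : ℝ, ∀ t, |deriv h1 t| ≤ M := by
  refine ⟨2, fun t => ?_⟩
  rcases le_total 0 t with h | h
  · rw [deriv_h1]; exact (cases_nonneg h).1.1
  · have e := (h_even t).2.2.1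
    have := (cases_nonneg (t := -t) (by linarith)).1.1
    rw [← deriv_h1, e, abs_neg] at this
    exact this

theorem h2_deriv_bdd : ∃ M : ℝ, ∀ t, |deriv h2 t| ≤ M := by
  refine ⟨2, fun t => ?_⟩
  rcases le_total 0 t with h | h
  · rw [deriv_h2]; exact (cases_nonneg h).1.2
  · have e := (h_even t).2.2.2
    have := (cases_nonneg (t := -t) (by linarith)).1.2
    rw [← deriv_h2, e, abs_neg] at this
    exact this

/-- **HFUN (c).** -/
theorem h_nonneg (t : ℝ) : 0 ≤ h1 t ∧ 0 ≤ h2 t ∧ h1 t + h2 t ≤ t ^ 2 := by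
  have h3 : h1 t + h2 t ≤ t ^ 2 := by
    rw [h1_add_h2]
    have : 0 ≤ pp (|t| - 1) := sq_nonneg _
    linarith
  rcases le_total 0 t with h | h
  · exact ⟨(cases_nonneg h).2.1, (cases_nonneg h).2.2, h3⟩
  · have e := h_even t
    have := (cases_nonneg (t := -t) (by linarith)).2
    rw [e.1, e.2.1] at this
    exact ⟨this.1, this.2, h3⟩

end MP_614bef_an
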