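import Pool.Agent.Lib.MP_614bef_an.CalCold
import Pool.Agent.Lib.MP_614bef_an.CalZone
import Pool.Agent.Lib.MP_614bef_an.CalHot
import Pool.Agent.Lib.MP_614bef_an.DivB
import Pool.Agent.Lib.MP_614bef_an.Cal

set_option autoImplicit false

namespace MP_614bef_an

open MeasureTheory Set Filter Metric
open scoped RealInnerProductSpace ENNReal NNReal Topology ContDiff

private theorem mainq_mm : mm = 1 / 10 ^ 8 := rfl
private theorem mainq_mm_pos : 0 < mm := by rw [mainq_mm]; norm_num
private theorem mainq_aa : aa = 1 / 10 ^ 4 := rfl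
private theorem mainq_R1 : R1 = 161 / 10 * mm := by unfold R1 ee e0; ring
private theorem mainq_R1_pos : 0 < R1 := by rw [mainq_R1, mainq_mm]; norm_num
private theorem mainq_c0 : c0 = 159 / 10 * mm := by unfold c0 ee e0; ring
private theorem mainq_c0_pos : 0 < c0 := by rw [mainq_c0, mainq_mm]; norm_num
private theorem mainq_ee : ee = 16 * mm := rfl
private theorem mainq_LL : LL = 5 / 3 * mm := rfl
private theorem mainq_LL_pos : 0 < LL := by rw [mainq_LL, mainq_mm]; norm_num
private theorem mainq_e0 : e0 = mm / 10 := rfl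

private theorem mainq_R1_inv : 2 / R1 - 1 ≥ 100 := by
  rw [mainq_R1, mainq_mm]; norm_num

private theorem mainq_b1_hot_sq {x : V} (hx : Hot x) : ‖b1 x‖ ^ 2 = ‖x‖ ^ 2 / R1 ^ 2 := by
  rw [b1_hot (le_of_lt hx), norm_neg, norm_smul, norm_inv, Real.norm_of_nonneg mainq_R1_pos.le,
    mul_pow, inv_pow]
  ring

/-- **MAINQ (a).** bounds in the phases -/
theorem hot_facts {E : Set V} {x : V} (hx : Hot x) :
    uu E x = Real.exp (-‖x‖ ^ 2 / (2 * R1)) ∧ a1 ≤ uu E x ∧ uu E x ≤ 1 ∧
      qq E x = 2 / R1 - ‖b1 x‖ ^ 2 ∧ gg E x = uu E x • b1 x := by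
  have hR := mainq_R1_pos
  have hu : uu E x = Real.exp (-‖x‖ ^ 2 / (2 * R1)) := by
    unfold uu; rw [if_pos hx]
  have hx' : ‖x‖ < R1 := hx
  have h0 : 0 ≤ ‖x‖ := norm_nonneg x
  refine ⟨hu, ?_, ?_, ?_, ?_⟩
  · rw [hu]
    unfold a1
    apply Real.exp_le_exp.2
    rw [neg_div, neg_div, neg_le_neg_iff, div_le_iff₀ (by positivity)]
    nlinarith
  · rw [hu]
    apply Real.exp_le_one_iff.2
    rw [neg_div, neg_nonpos]
    positivity
  · unfold qq
    rw [if_pos hx, mainq_b1_hot_sq hx]
  · unfold gg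
    rw [if_pos hx]

theorem a1_bounds : 99 / 100 ≤ a1 ∧ a1 ≤ 1 := by
  have hR := mainq_R1_pos
  constructor
  · unfold a1
    have h := Real.add_one_le_exp (-R1 / 2)
    have h1 : R1 ≤ 1 / 100 := by rw [mainq_R1, mainq_mm]; norm_num
    linarith
  · unfold a1
    apply Real.exp_le_one_iff.2
    linarith

private theorem mainq_etp_abs (d : ℝ) : |etp d| ≤ 1 := by
  unfold etp
  rw [abs_le]
  exact ⟨le_max_left _ _, max_le (by norm_num) (min_le_left _ _)⟩

private theorem mainq_cold_kap {E : Set V} {x : V} (hx : ee < infDist x E) :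
    kap E x ≤ 1 / (16 * mm) := by
  refine (kap_le E x).trans ?_
  have := mainq_mm_pos
  exact one_div_le_one_div_of_le (by positivity) (by rw [← mainq_ee]; exact hx.le)

theorem cold_facts {E : Set V} (h : Body E) {x : V} (hx : Cold E x) :
    ¬ Hot x ∧ R1 < ‖x‖ ∧ ‖x‖ ≤ 18 * mm ∧ uu E x = u2v (infDist x E) ∧ aa ≤ uu E x ∧
      uu E x ≤ 1001 / 1000 * aa ∧ 11 / 10 / mm ≤ qq E x ∧ qq E x ≤ 13 / 10 / mm ∧
      ‖b2 E x‖ ^ 2 = etp (infDist x E) ^ 2 ∧ gg E x = uu E x • b2 E x := by
  have hm := mainq_mm_pos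
  obtain ⟨hx1, hx2⟩ := hx
  have hnh : ¬ Hot x := fun hh => absurd (hot_lt h hh) (not_lt.2 hx1.le)
  have hc : Cold E x := ⟨hx1, hx2⟩
  have hu : uu E x = u2v (infDist x E) := by
    unfold uu; rw [if_neg hnh, if_pos hc]
  have haa : 0 < aa := by rw [mainq_aa]; norm_num
  set s := infDist x E - ee with hs
  have hs0 : 0 < s := sub_pos.2 hx1
  have hs1 : s < LL := by rw [hs]; linarith
  have hL := mainq_LL_pos
  have hsL : s ^ 2 / LL ≤ s := by
    rw [div_le_iff₀ hL]; nlinarith
  have hsL0 : 0 ≤ s ^ 2 / LL := by positivity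
  have hu2 : u2v (infDist x E) = aa * Real.exp (s - s ^ 2 / LL) := rfl
  have hq : qq E x = 2 / LL - etp (infDist x E) * kap E x - etp (infDist x E) ^ 2 := by
    unfold qq; rw [if_neg hnh, if_pos hc]
  have hk0 := kap_nonneg E x
  have hk1 := mainq_cold_kap (E := E) (x := x) hx1
  have he := mainq_etp_abs (infDist x E)
  have hek : |etp (infDist x E) * kap E x| ≤ 1 / (16 * mm) := by
    rw [abs_mul, abs_of_nonneg hk0]
    calc |etp (infDist x E)| * kap E x ≤ 1 * kap E x := by gcongr
      _ ≤ 1 / (16 * mm) := by rw [one_mul]; exact hk1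
  have he2 : etp (infDist x E) ^ 2 ≤ 1 := by
    rw [← sq_abs]; exact pow_le_one₀ (abs_nonneg _) he
  have h2L : 2 / LL = 12 / 10 / mm := by
    rw [mainq_LL]; field_simp; norm_num
  have h16 : 1 / (16 * mm) = 1 / 16 / mm := by field_simp
  have hminv : (1 : ℝ) ≤ 1 / 100 / mm := by
    rw [le_div_iff₀ hm, mainq_mm]; norm_num
  rw [abs_le] at hek
  refine ⟨hnh, ?_, ?_, hu, ?_, ?_, ?_, ?_, ?_, ?_⟩
  · rcases lt_trichotomy ‖x‖ R1 with h1 | h1 | h1
    · exact absurd h1 hnh
    · exact absurd (S1_le h (x := x) h1) (not_le.2 hx1)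
    · exact h1
  · have h1 := le_infDist h x
    rw [mainq_e0] at h1
    rw [mainq_ee, mainq_LL] at hx2
    linarith
  · rw [hu, hu2]
    have h1 : (1 : ℝ) ≤ Real.exp (s - s ^ 2 / LL) := Real.one_le_exp (by linarith)
    nlinarith
  · rw [hu, hu2]
    have h1 : Real.exp (s - s ^ 2 / LL) ≤ Real.exp (1 / 10000) :=
      Real.exp_le_exp.2 (by
        have : LL ≤ 1 / 10000 := by rw [mainq_LL, mainq_mm]; norm_num
        linarith)
    have h2 : Real.exp (1 / 10000) ≤ 1001 / 1000 := by
      have h3 := Real.add_one_le_exp (-(1 / 10000 : ℝ))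
      have h4 : Real.exp (-(1 / 10000 : ℝ)) * Real.exp (1 / 10000) = 1 := by
        rw [← Real.exp_add]; norm_num
      have h5 := Real.exp_pos (1 / 10000 : ℝ)
      nlinarith
    nlinarith
  · rw [hq, h2L]
    rw [h16] at hek
    have h3 : (11 / 10 : ℝ) / mm = 12 / 10 / mm - 1 / 10 / mm := by ring
    have h4 : (1 / 10 : ℝ) / mm = 1 / 16 / mm + 3 / 80 / mm := by ring
    have h5 : (1 / 100 : ℝ) / mm ≤ 3 / 80 / mm :=
      div_le_div_of_nonneg_right (by norm_num) hm.le
    linarith
  · rw [hq, h2L]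
    rw [h16] at hek
    have h3 : (13 / 10 : ℝ) / mm = 12 / 10 / mm + 1 / 10 / mm := by ring
    have h4 : (1 / 16 : ℝ) / mm ≤ 1 / 10 / mm := by gcongr; norm_num
    have h5 : 0 ≤ etp (infDist x E) ^ 2 := sq_nonneg _
    linarith
  · have hr : ‖rs E x‖ = infDist x E := rs_norm h.cl h.ne x
    have hc0 : c0 ≤ infDist x E := by
      rw [mainq_c0]; rw [mainq_ee] at hx1; linarith
    have hpos : 0 < infDist x E := lt_of_lt_of_le mainq_c0_pos hc0
    unfold b2 sat
    rw [hr, max_eq_left hc0, norm_smul, norm_smul, hr, norm_inv, Real.norm_of_nonneg hpos.le,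
      inv_mul_cancel₀ hpos.ne', mul_one, Real.norm_eq_abs, sq_abs]
  · unfold gg
    rw [if_neg hnh, if_pos hc]

theorem off_facts {E : Set V} {x : V} (h1 : ¬ Hot x) (h2 : ¬ Cold E x) :
    uu E x = 0 ∧ gg E x = 0 ∧ qq E x = 0 ∧ cc E x = 0 ∧ ff E x = 0 := by
  have hu : uu E x = 0 := by unfold uu; rw [if_neg h1, if_neg h2]
  refine ⟨hu, ?_, ?_, ?_, ?_⟩
  · unfold gg; rw [if_neg h1, if_neg h2]
  · unfold qq; rw [if_neg h1, if_neg h2]
  · unfold cc; rw [if_neg (not_or.2 ⟨h1, h2⟩)]
  · unfold ff; rw [hu, mul_zero]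

private theorem mainq_hot_meas : MeasurableSet {x : V | Hot x} :=
  (isOpen_lt continuous_norm continuous_const).measurableSet

private theorem mainq_cold_meas (E : Set V) : MeasurableSet {x : V | Cold E x} :=
  ((isOpen_lt continuous_const (continuous_infDist_pt E)).inter
    (isOpen_lt (continuous_infDist_pt E) continuous_const)).measurableSet

private theorem mainq_etp_cont : Continuous etp := by
  unfold etp; fun_prop

theorem uu_measurable (E : Set V) : Measurable (uu E) := by
  unfold uu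
  refine Measurable.ite mainq_hot_meas ?_ (Measurable.ite (mainq_cold_meas E) ?_ measurable_const)
  · fun_prop
  · have h1 : Continuous fun x : V => infDist x E := continuous_infDist_pt E
    have h2 : Continuous u2v := by unfold u2v; fun_prop
    exact (h2.comp h1).measurable

theorem qq_measurable {E : Set V} (h : Body E) : Measurable (qq E) := by
  unfold qq
  refine Measurable.ite mainq_hot_meas ?_ (Measurable.ite (mainq_cold_meas E) ?_ measurable_const)
  · fun_prop
  · have h1 : Measurable fun x : V => etp (infDist x E) :=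
      (mainq_etp_cont.comp (continuous_infDist_pt E)).measurable
    exact (measurable_const.sub (h1.mul (kap_measurable h))).sub (h1.pow_const 2)

private theorem mainq_qq_hot {E : Set V} {x : V} (hx : Hot x) :
    2 / R1 - 1 ≤ qq E x ∧ qq E x ≤ 2 / mm := by
  obtain ⟨-, -, -, h, -⟩ := hot_facts (E := E) hx
  have h1 := b1_norm x
  have h2 : ‖b1 x‖ ^ 2 ≤ 1 := pow_le_one₀ (norm_nonneg _) h1
  have h3 : 0 ≤ ‖b1 x‖ ^ 2 := sq_nonneg _
  have h4 : 2 / R1 ≤ 2 / mm := by
    have := mainq_mm_pos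
    apply div_le_div_of_nonneg_left (by norm_num) this
    rw [mainq_R1]; linarith
  rw [h]
  constructor <;> linarith

theorem qq_nonneg {E : Set V} (h : Body E) (x : V) : 0 ≤ qq E x := by
  by_cases h1 : Hot x
  · have := mainq_qq_hot (E := E) h1
    have := mainq_R1_inv
    linarith
  · by_cases h2 : Cold E x
    · obtain ⟨-, -, -, -, -, -, h3, -⟩ := cold_facts h h2
      have := mainq_mm_pos
      exact le_trans (by positivity) h3
    · rw [(off_facts h1 h2).2.2.1]

private theorem mainq_qq_le {E : Set V} (h : Body E) (x : V) : qq E x ≤ 2 / mm := by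
  have hm := mainq_mm_pos
  by_cases h1 : Hot x
  · exact (mainq_qq_hot h1).2
  · by_cases h2 : Cold E x
    · obtain ⟨-, -, -, -, -, -, -, h3, -⟩ := cold_facts h h2
      exact h3.trans (by gcongr; norm_num)
    · rw [(off_facts h1 h2).2.2.1]
      positivity

theorem uu_bounds {E : Set V} (h : Body E) (x : V) : 0 ≤ uu E x ∧ uu E x ≤ 1 := by
  by_cases h1 : Hot x
  · obtain ⟨-, h2, h3, -⟩ := hot_facts (E := E) h1
    exact ⟨by have := a1_bounds; linarith, h3⟩
  · by_cases h2 : Cold E x
    · obtain ⟨-, -, -, -, h3, h4, -⟩ := cold_facts h h2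
      rw [mainq_aa] at h3 h4
      exact ⟨le_trans (by norm_num) h3, h4.trans (by norm_num)⟩
    · rw [(off_facts h1 h2).1]
      norm_num

private theorem mainq_cc_nonneg {E : Set V} (h : Body E) (x : V) : 0 ≤ cc E x := by
  unfold cc
  split_ifs with h0
  · rcases h0 with h1 | h1
    · obtain ⟨-, h2, h3, -⟩ := hot_facts (E := E) h1
      have h4 := (mainq_qq_hot (E := E) h1).1
      have h5 := mainq_R1_inv
      have h6 := a1_bounds.1
      have h7 : (99 / 100 : ℝ) ^ 2 ≤ uu E x ^ 2 := by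
        apply pow_le_pow_left₀ (by norm_num); linarith
      nlinarith
    · obtain ⟨-, -, -, -, h2, -, h3, -⟩ := cold_facts h h1
      have h4 : aa ^ 2 ≤ uu E x ^ 2 := pow_le_pow_left₀ (by rw [mainq_aa]; norm_num) h2 2
      have h5 : aa ^ 2 = mm := by rw [mainq_aa, mainq_mm]; norm_num
      rw [h5] at h4
      have hm := mainq_mm_pos
      have h6 : 11 / 10 / mm * mm ≤ qq E x * uu E x ^ 2 :=
        mul_le_mul h3 h4 hm.le (le_trans (by positivity) h3)
      rw [div_mul_cancel₀ _ hm.ne'] at h6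
      linarith
  · exact le_refl _

private theorem mainq_cc_le {E : Set V} (h : Body E) (x : V) : cc E x ≤ 2 / mm := by
  have hm := mainq_mm_pos
  unfold cc
  split_ifs with h0
  · have h1 := mainq_qq_le h x
    have h2 := uu_bounds h x
    have h3 : uu E x ^ 2 ≤ 1 := pow_le_one₀ h2.1 h2.2
    have h4 := qq_nonneg h x
    have h5 : qq E x * uu E x ^ 2 ≤ qq E x * 1 := by gcongr
    linarith
  · positivity

/-- reduction of the inequality to positive `t` -/
private theorem mainq_red {c f d1 d2 : ℝ} {v1 v2 : V} (hf : 0 ≤ f)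
    (hp : ∀ t : ℝ, 0 < t → 0 ≤ 1 + c - f * t - (h1 t * d1 + h2 t * d2) -
      ‖deriv h1 t • v1 + deriv h2 t • v2‖ ^ 2 / 4) (t : ℝ) (ht : t ≠ 0) :
    0 ≤ 1 + c - f * t - (h1 t * d1 + h2 t * d2) -
      ‖deriv h1 t • v1 + deriv h2 t • v2‖ ^ 2 / 4 := by
  rcases lt_or_gt_of_ne ht with h | h
  · have h3 := hp (-t) (neg_pos.2 h)
    obtain ⟨e1, e2, e3, e4⟩ := h_even t
    rw [e1, e2, e3, e4, neg_smul, neg_smul, ← neg_add, norm_neg] at h3
    have h4 : f * t ≤ 0 := mul_nonpos_of_nonneg_of_nonpos hf h.le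
    linarith
  · exact hp t h

/-- **MAINQ (b).** the calibration.  PROOF: for `main` reduce to `t > 0` with `h_even` and
`ff ≥ 0`; then, for a.e. `x` (`divg_b2`), distinguish: `Hot x` (`cal_hot`, `divg_b1_hot`; if
`infDist < c0` the first clause, otherwise `kap ≤ 1/δ ≤ 2/c0`); `Cold E x` (`cal_cold`,
`divg_b1_out`, `B = 1/‖x‖ ≥ 1/(18 mm)`); not hot and `infDist < ee` (`cal_zone`:
`‖x‖ ≤ infDist + 2 e0 ≤ 16.2 mm`, `infDist ≥ ‖x‖ - 2 e0 > c0 = 15.9 mm`); `infDist > ee + LL`
(`cal_out`).  `c ≥ 0`: `q u² ≥ 1` in both phases. -/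
theorem calib_main {E : Set V} (h : Body E) {D : Set V} (hD : MeasurableSet D)
    (hb : Bornology.IsBounded D) : Calib D (ff E) (cc E) b1 (b2 E) h1 h2 := by
  have hm := mainq_mm_pos
  have hff0 : ∀ x, 0 ≤ ff E x := fun x =>
    mul_nonneg (mul_nonneg (by norm_num) (qq_nonneg h x)) (uu_bounds h x).1
  refine ⟨hD, hb, ?_, ⟨2 * (2 / mm), fun x => ?_⟩, ?_, mainq_cc_nonneg h, ⟨_, mainq_cc_le h⟩,
    b1_lip, b2_lip h, b1_norm, fun x => b2_norm x, h1_contDiff, h2_contDiff, h1_zero.1, h2_zero.1,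
    h1_deriv_bdd, h2_deriv_bdd, h1_zero.2, h2_zero.2, fun t => (h_nonneg t).1,
    fun t => (h_nonneg t).2.1, fun t => (h_nonneg t).2.2, ?_⟩
  · exact (measurable_const.mul (qq_measurable h)).mul (uu_measurable E)
  · rw [abs_of_nonneg (hff0 x)]
    have h2 := uu_bounds h x
    have h3 := qq_nonneg h x
    have h4 := mainq_qq_le h x
    calc ff E x = 2 * qq E x * uu E x := rfl
      _ ≤ 2 * qq E x * 1 := by gcongr; exact h2.2
      _ ≤ 2 * (2 / mm) := by linarith
  · unfold cc
    refine Measurable.ite (mainq_hot_meas.union (mainq_cold_meas E)) ?_ measurable_const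
    exact ((qq_measurable h).mul ((uu_measurable E).pow_const 2)).sub measurable_const
  · refine ae_restrict_of_ae ?_
    filter_upwards [divg_b2 h] with x hx
    obtain ⟨g1, g2, g3, g4, n1, n2, n3, n4⟩ := hx
    refine mainq_red (hff0 x) fun t ht => ?_
    by_cases hH : Hot x
    · obtain ⟨-, u1, u2, u3, -⟩ := hot_facts (E := E) hH
      have hd : divg (b2 E) x ≤ 2 / c0 := by
        rcases lt_or_gt_of_ne n1 with h3 | h3
        · exact (g1 h3).2
        · rw [g2 h3 (hot_lt h hH)]
          refine (kap_le E x).trans ?_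
          have hc0 := mainq_c0_pos
          calc 1 / infDist x E ≤ 1 / c0 := one_div_le_one_div_of_le hc0 h3.le
            _ ≤ 2 / c0 := by gcongr; norm_num
      have h5 := cal_hot (u := uu E x) (d2 := divg (b2 E) x) (v1 := b1 x) (v2 := b2 E x)
        (a1_bounds.1.trans u1) u2 hd (b1_norm x) (b2_norm x) ht
      have h6 : cc E x = qq E x * uu E x ^ 2 - 1 := by unfold cc; rw [if_pos (Or.inl hH)]
      rw [divg_b1_hot hH, h6]
      unfold QQ at h5
      rw [← u3] at h5
      have h7 : ff E x = 2 * qq E x * uu E x := rfl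
      rw [h7]
      linarith
    · by_cases hC : Cold E x
      · obtain ⟨-, k1, k2, -, k3, k4, k5, k6, k7, -⟩ := cold_facts h hC
        have hxpos : 0 < ‖x‖ := lt_trans mainq_R1_pos k1
        have h5 := cal_cold (q := qq E x) (u := uu E x) (B := 1 / ‖x‖) (v1 := b1 x) (v2 := b2 E x)
          k5 k6 k3 k4 (one_div_le_one_div_of_le hxpos k2) (b1_norm x) (b2_norm x) ht
        have h6 : cc E x = qq E x * uu E x ^ 2 - 1 := by unfold cc; rw [if_pos (Or.inr hC)]
        have h8 : qq E x = 2 / LL - etp (infDist x E) * kap E x - etp (infDist x E) ^ 2 := by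
          unfold qq; rw [if_neg hH, if_pos hC]
        have h9 : divg (b2 E) x = -(qq E x + ‖b2 E x‖ ^ 2) := by
          rw [g3 hC, k7, h8]; ring
        rw [divg_b1_out k1, h6, h9]
        unfold QQ at h5
        have h7 : ff E x = 2 * qq E x * uu E x := rfl
        rw [h7]
        linarith
      · obtain ⟨-, -, -, k4, k5⟩ := off_facts hH hC
        have hR : R1 < ‖x‖ := lt_of_le_of_ne (not_lt.1 hH) (Ne.symm n4)
        have hxpos : 0 < ‖x‖ := lt_trans mainq_R1_pos hR
        rw [k4, k5, divg_b1_out hR]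
        have h3 := le_infDist h x
        rcases lt_or_gt_of_ne n2 with h4 | h4
        · have h5 : c0 < infDist x E := by
            rw [mainq_c0]
            rw [mainq_e0] at h3
            rw [mainq_R1] at hR
            linarith
          have h6 : ‖x‖ ≤ 162 / 10 * mm := by
            rw [mainq_e0] at h3
            rw [mainq_ee] at h4
            linarith
          have h7 : kap E x ≤ 1 / (159 / 10 * mm) := by
            refine (kap_le E x).trans ?_
            rw [← mainq_c0]
            exact one_div_le_one_div_of_le mainq_c0_pos h5.le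
          have h8 := cal_zone (v1 := b1 x) (v2 := b2 E x)
            (one_div_le_one_div_of_le hxpos h6) (kap_nonneg E x) h7 (b1_norm x) (b2_norm x) ht
          rw [g2 h5 h4]
          unfold QQ at h8
          linarith
        · have h5 : ee + LL < infDist x E := by
            rcases lt_or_gt_of_ne n3 with h6 | h6
            · exact absurd ⟨h4, h6⟩ hC
            · exact h6
          have h8 := cal_out (B := 1 / ‖x‖) (v1 := b1 x) (v2 := b2 E x)
            (by positivity) (kap_nonneg E x) (b1_norm x) (b2_norm x) ht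
          rw [g4 h5]
          unfold QQ at h8
          linarith

end MP_614bef_an
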