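import Pool.Agent.Lib.MP_614bef_an.Moll

set_option autoImplicit false

namespace MP_614bef_an

open MeasureTheory Set Filter Metric
open scoped RealInnerProductSpace ENNReal NNReal Topology ContDiff

private theorem molAe_apply {ε : ℝ} (hε : 0 < ε) (x : V) :
    (⟨ε, 2 * ε, hε, by linarith⟩ : ContDiffBump (0 : V)) x = bmp (ε⁻¹ • x) := by
  rw [ContDiffBump.apply, ContDiffBump.apply]
  have e1 : 2 * ε / ε = bmp.rOut / bmp.rIn := by
    change 2 * ε / ε = 2 / 1
    field_simp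
  have e2 : bmp.rIn = 1 := rfl
  rw [e2, sub_zero, sub_zero, inv_one, one_smul]
  change _ = (someContDiffBumpBase V).toFun (bmp.rOut / bmp.rIn) (ε⁻¹ • x)
  rw [← e1]

/-- **MOLAE (a).** `rhoE ε` is the normalised `ContDiffBump` with radii `ε, 2ε`
(`ContDiffBump` is defined by `base (rOut/rIn) (rIn⁻¹ • x)`, so it is exactly the rescaled `bmp`; the
normalisation scales by `ε²`). -/
theorem rhoE_eq {ε : ℝ} (hε : 0 < ε) (x : V) :
    rhoE ε x = (⟨ε, 2 * ε, hε, by linarith⟩ : ContDiffBump (0 : V)).normed volume x := by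
  unfold rhoE rho
  rw [ContDiffBump.normed_def, ContDiffBump.normed_def, molAe_apply hε x]
  have h1 : ∫ y, (⟨ε, 2 * ε, hε, by linarith⟩ : ContDiffBump (0 : V)) y =
      ε ^ 2 * ∫ y, bmp y := by
    simp_rw [molAe_apply hε]
    rw [Measure.integral_comp_smul volume (fun y : V => bmp y) ε⁻¹]
    have e : Module.finrank ℝ V = 2 := by simp [V]
    rw [e, smul_eq_mul, inv_pow, inv_inv, abs_of_pos (by positivity)]
  rw [h1]
  have h2 : (∫ y, bmp y) ≠ 0 := (bmp.integral_pos (μ := volume)).ne'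
  field_simp

/-- **MOLAE (b).** a.e. convergence of the mollifications.  Use (a) and
`ContDiffBump.ae_convolution_tendsto_right_of_locallyIntegrable` (with index set `ℝ` and the filter
`𝓝[>] 0`; for `ε ≤ 0` use any bump), `rOut ≤ 2 * rIn`. -/
theorem mol_ae {v : V → ℝ} (hv : Integrable v) :
    ∀ᵐ y, Tendsto (fun ε : ℝ => mol ε v y) (𝓝[>] 0) (𝓝 (v y)) := by
  classical
  let φ : ℝ → ContDiffBump (0 : V) := fun ε =>
    if h : 0 < ε then ⟨ε, 2 * ε, h, by linarith⟩ else bmp
  have hφ : ∀ ε (h : 0 < ε), φ ε = ⟨ε, 2 * ε, h, by linarith⟩ := fun ε h => dif_pos h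
  have hpos : ∀ᶠ ε : ℝ in 𝓝[>] 0, 0 < ε := self_mem_nhdsWithin
  have h1 : Tendsto (fun ε => (φ ε).rOut) (𝓝[>] 0) (𝓝 0) := by
    have h2 : Tendsto (fun ε : ℝ => 2 * ε) (𝓝[>] 0) (𝓝 0) := by
      have h3 : Tendsto (fun ε : ℝ => 2 * ε) (𝓝 0) (𝓝 (2 * 0)) := by
        exact (continuous_const.mul continuous_id).tendsto 0
      rw [mul_zero] at h3
      exact h3.mono_left nhdsWithin_le_nhds
    refine h2.congr' ?_
    filter_upwards [hpos] with ε h
    rw [hφ ε h]
  have h2 : ∀ᶠ ε in 𝓝[>] 0, (φ ε).rOut ≤ 2 * (φ ε).rIn := by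
    filter_upwards [hpos] with ε h
    rw [hφ ε h]
  have h3 := ContDiffBump.ae_convolution_tendsto_right_of_locallyIntegrable (μ := volume) h1 h2
    hv.locallyIntegrable
  filter_upwards [h3] with y hy
  refine hy.congr' ?_
  filter_upwards [hpos] with ε h
  rw [convolution_eq_swap]
  unfold mol
  refine integral_congr_ae (Eventually.of_forall fun x => ?_)
  simp only [ContinuousLinearMap.lsmul_apply]
  rw [rhoE_eq h, hφ ε h]

end MP_614bef_an
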