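import Pool.Agent.Lib.MP_614bef_an.Defs

set_option autoImplicit false

namespace MP_614bef_an

open MeasureTheory Set Filter Metric
open scoped RealInnerProductSpace ENNReal NNReal Topology ContDiff

/-- a smooth bump with support in the ball of radius `2` -/
noncomputable def bmp : ContDiffBump (0 : V) := ⟨1, 2, one_pos, one_lt_two⟩

/-- the mollifier -/
noncomputable def rho (x : V) : ℝ := bmp.normed volume x

/-- the rescaled mollifier `ε⁻² ρ(x/ε)` -/
noncomputable def rhoE (ε : ℝ) (x : V) : ℝ := (ε ^ 2)⁻¹ * rho (ε⁻¹ • x)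

/-- mollification -/
noncomputable def mol {F : Type*} [NormedAddCommGroup F] [NormedSpace ℝ F] (ε : ℝ) (v : V → F)
    (y : V) : F := ∫ x, rhoE ε (y - x) • v x

theorem rho_smooth : ContDiff ℝ ∞ rho := bmp.contDiff_normed

theorem rho_nonneg (x : V) : 0 ≤ rho x := bmp.nonneg_normed x

theorem rho_zero {x : V} (hx : 2 ≤ ‖x‖) : rho x = 0 := by
  have h1 : x ∉ Function.support (bmp.normed (volume : Measure V)) := by
    rw [ContDiffBump.support_normed_eq, mem_ball_zero_iff, not_lt]
    exact hx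
  exact Function.notMem_support.mp h1

theorem rho_even (x : V) : rho (-x) = rho x := bmp.normed_neg x

theorem rho_int : ∫ x, rho x = 1 := bmp.integral_normed

private theorem moll_rho_compact : HasCompactSupport rho := by
  refine HasCompactSupport.of_support_subset_isCompact (isCompact_closedBall (0 : V) 2) ?_
  intro x hx
  rw [mem_closedBall_zero_iff]
  by_contra h
  exact hx (rho_zero (not_le.mp h).le)

theorem rho_bdd : ∃ M : ℝ, ∀ x, rho x ≤ M := by
  obtain ⟨M, hM⟩ := moll_rho_compact.exists_bound_of_continuous rho_smooth.continuous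
  exact ⟨M, fun x => (le_abs_self _).trans (hM x)⟩

theorem rhoE_smooth (ε : ℝ) : ContDiff ℝ ∞ (rhoE ε) :=
  contDiff_const.mul (rho_smooth.comp (contDiff_const_smul _))

theorem rhoE_nonneg (ε : ℝ) (x : V) : 0 ≤ rhoE ε x :=
  mul_nonneg (inv_nonneg.mpr (sq_nonneg ε)) (rho_nonneg _)

theorem rhoE_zero {ε : ℝ} (hε : 0 < ε) {x : V} (hx : 2 * ε ≤ ‖x‖) : rhoE ε x = 0 := by
  have h1 : 2 ≤ ‖ε⁻¹ • x‖ := by
    rw [norm_smul, norm_inv, Real.norm_of_nonneg hε.le, inv_mul_eq_div, le_div_iff₀ hε]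
    exact hx
  unfold rhoE
  rw [rho_zero h1, mul_zero]

theorem rhoE_even (ε : ℝ) (x : V) : rhoE ε (-x) = rhoE ε x := by
  unfold rhoE
  rw [smul_neg, rho_even]

theorem rhoE_compact {ε : ℝ} (hε : 0 < ε) : HasCompactSupport (rhoE ε) := by
  refine HasCompactSupport.of_support_subset_isCompact (isCompact_closedBall (0 : V) (2 * ε)) ?_
  intro x hx
  rw [mem_closedBall_zero_iff]
  by_contra h
  exact hx (rhoE_zero hε (not_le.mp h).le)

/-- change of variables (`finrank ℝ V = 2`) -/
theorem rhoE_int {ε : ℝ} (hε : 0 < ε) : ∫ x, rhoE ε x = 1 := by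
  unfold rhoE
  rw [integral_const_mul, Measure.integral_comp_smul volume rho ε⁻¹, rho_int, smul_eq_mul, mul_one]
  have h1 : Module.finrank ℝ V = 2 := by simp [V]
  rw [h1, inv_pow, inv_inv, abs_of_nonneg (sq_nonneg ε)]
  exact inv_mul_cancel₀ (pow_ne_zero 2 hε.ne')

/-- change of variables `x = y + ε w` -/
theorem mol_eq {F : Type*} [NormedAddCommGroup F] [NormedSpace ℝ F] {ε : ℝ} (hε : 0 < ε)
    (v : V → F) (y : V) : mol ε v y = ∫ w, rho w • v (y - ε • w) := by
  have h1 : Module.finrank ℝ V = 2 := by simp [V]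
  have h2 := Measure.integral_comp_smul (volume : Measure V)
    (fun x : V => rho (ε⁻¹ • x) • v (y - x)) ε
  rw [h1, abs_of_nonneg (inv_nonneg.mpr (sq_nonneg ε))] at h2
  have h3 : ∀ w : V, rho (ε⁻¹ • (ε • w)) • v (y - ε • w) = rho w • v (y - ε • w) := by
    intro w
    rw [smul_smul, inv_mul_cancel₀ hε.ne', one_smul]
  rw [integral_congr_ae (Eventually.of_forall h3)] at h2
  rw [h2]
  have h4 := integral_sub_left_eq_self (fun x : V => rho (ε⁻¹ • x) • v (y - x)) volume y
  rw [← h4, ← integral_smul]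
  unfold mol rhoE
  refine integral_congr_ae (Eventually.of_forall fun x => ?_)
  change ((ε ^ 2)⁻¹ * rho (ε⁻¹ • (y - x))) • v x =
    (ε ^ 2)⁻¹ • (rho (ε⁻¹ • (y - x)) • v (y - (y - x)))
  rw [sub_sub_cancel, mul_smul]

end MP_614bef_an
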