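import Pool.Agent.Lib.MP_614bef_an.Rad

set_option autoImplicit false

namespace MP_614bef_an

open MeasureTheory Set Filter Metric
open scoped RealInnerProductSpace ENNReal NNReal Topology ContDiff

private theorem nga_e0_pos : (0 : ℝ) < e0 := by unfold e0 mm; norm_num

private theorem nga_inner_ev (φ ψ : ℝ) : ⟪ev φ, ev ψ⟫ = Real.cos (φ - ψ) := by
  rw [Real.cos_sub]
  simp [ev, PiLp.inner_apply, Fin.sum_univ_two]
  ring

/-- **NG (a).** the convex body -/
theorem body_EE (C : Set ℝ) : Body (EE C) := by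
  have he := nga_e0_pos
  refine ⟨?_, ?_, ?_, ?_⟩
  · refine isClosed_closedBall.inter ?_
    have : {x : V | ∀ φ ∈ C, ⟪x, ev φ⟫ ≤ e0} = ⋂ φ ∈ C, {x : V | ⟪x, ev φ⟫ ≤ e0} := by
      ext x; simp
    rw [this]
    exact isClosed_biInter fun φ _ => isClosed_le (by fun_prop) continuous_const
  · refine (convex_closedBall _ _).inter ?_
    intro x hx y hy a b ha hb hab φ hφ
    have h1 := hx φ hφ
    have h2 := hy φ hφ
    rw [inner_add_left, inner_smul_left, inner_smul_left]
    simp only [conj_trivial]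
    nlinarith [mul_le_mul_of_nonneg_left h1 ha, mul_le_mul_of_nonneg_left h2 hb]
  · intro x hx
    rw [mem_closedBall, dist_zero_right] at hx
    refine ⟨?_, fun φ _ => ?_⟩
    · rw [mem_closedBall, dist_zero_right]; linarith
    · have h1 := real_inner_le_norm x (ev φ)
      rw [(ev_norm φ).1, mul_one] at h1
      exact h1.trans hx
  · exact inter_subset_left

/-- **NG (b).** touching points: for `φ ∈ C` all `y ∈ EE C` satisfy `⟪y, ev φ⟫ ≤ e0`, so
`‖R1 ev φ - y‖ ≥ R1 - e0 = ee`, with equality for `y = e0 ev φ ∈ EE C`. -/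
theorem touch_mem {C : Set ℝ} {φ : ℝ} (hφ : φ ∈ C) : infDist (R1 • ev φ) (EE C) = ee := by
  have he := nga_e0_pos
  have hB := body_EE C
  have hR : R1 = ee + e0 := rfl
  have hee : (0 : ℝ) < ee := by unfold ee mm; norm_num
  apply le_antisymm
  · have hm : e0 • ev φ ∈ EE C := hB.inn (by
      rw [mem_closedBall, dist_zero_right, norm_smul, (ev_norm φ).1, mul_one, Real.norm_eq_abs,
        abs_of_pos he])
    refine (infDist_le_dist_of_mem hm).trans ?_
    rw [dist_eq_norm, ← sub_smul, norm_smul, (ev_norm φ).1, mul_one, Real.norm_eq_abs, hR]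
    rw [add_sub_cancel_right, abs_of_pos hee]
  · rw [Metric.le_infDist hB.ne]
    intro y hy
    have h1 := hy.2 φ hφ
    have h2 := real_inner_le_norm (R1 • ev φ - y) (ev φ)
    rw [(ev_norm φ).1, mul_one, inner_sub_left, inner_smul_left, real_inner_self_eq_norm_sq,
      (ev_norm φ).1] at h2
    simp only [conj_trivial] at h2
    rw [dist_eq_norm]
    linarith

/-- **NG (c).** other directions: by compactness `cos (φ - ψ) ≤ 1 - η` for all `ψ ∈ C`, so
`(e0 + σ) ev φ ∈ EE C` for small `σ > 0`. -/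
theorem touch_not {C : Set ℝ} (hC : IsClosed C) (hC1 : C ⊆ Icc 0 1) {φ : ℝ} (h0 : φ ∈ Icc (0 : ℝ) 1)
    (hφ : φ ∉ C) : infDist (R1 • ev φ) (EE C) < ee := by
  have he := nga_e0_pos
  have hR : R1 = ee + e0 := rfl
  have hee : e0 < ee := by unfold e0 ee mm; norm_num
  have hpi := Real.pi_gt_three
  obtain ⟨r, hr, hball⟩ := Metric.isOpen_iff.1 hC.isOpen_compl φ hφ
  set s : ℝ := min r 1 with hs
  have hs0 : 0 < s := lt_min hr one_pos
  have hs1 : s ≤ 1 := min_le_right _ _
  have hcs : 0 < Real.cos s := Real.cos_pos_of_mem_Ioo ⟨by linarith, by linarith⟩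
  have hcs1 : Real.cos s < 1 := by
    have := Real.cos_lt_cos_of_nonneg_of_le_pi le_rfl (by linarith : s ≤ Real.pi) hs0
    rwa [Real.cos_zero] at this
  set η : ℝ := 1 - Real.cos s with hη
  have hη0 : 0 < η := by rw [hη]; linarith
  have hη1 : η < 1 := by rw [hη]; linarith
  have hcos : ∀ ψ ∈ C, Real.cos (φ - ψ) ≤ 1 - η := by
    intro ψ hψ
    have h1 : s ≤ |φ - ψ| := by
      by_contra hcon
      push Not at hcon
      have : ψ ∈ ball φ r := by
        rw [mem_ball, Real.dist_eq, abs_sub_comm]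
        exact hcon.trans_le (min_le_left _ _)
      exact hball this hψ
    have h2 : |φ - ψ| ≤ 1 := by
      rw [abs_le]
      have := hC1 hψ
      constructor <;> linarith [this.1, this.2, h0.1, h0.2]
    rw [← Real.cos_abs, hη, sub_sub_cancel]
    exact Real.cos_le_cos_of_nonneg_of_le_pi hs0.le (by linarith) h1
  set c : ℝ := e0 * (1 + η) with hc
  have hc0 : 0 < c := by positivity
  have hmem : c • ev φ ∈ EE C := by
    refine ⟨?_, fun ψ hψ => ?_⟩
    · rw [mem_closedBall, dist_zero_right, norm_smul, (ev_norm φ).1, mul_one, Real.norm_eq_abs,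
        abs_of_pos hc0, hc]
      nlinarith
    · rw [inner_smul_left, nga_inner_ev]
      simp only [conj_trivial]
      have h1 := mul_le_mul_of_nonneg_left (hcos ψ hψ) hc0.le
      refine h1.trans ?_
      rw [hc]
      nlinarith [sq_nonneg η, mul_pos he (mul_pos hη0 hη0)]
  refine (infDist_le_dist_of_mem hmem).trans_lt ?_
  rw [dist_eq_norm, ← sub_smul, norm_smul, (ev_norm φ).1, mul_one, Real.norm_eq_abs, hR, abs_lt]
  rw [hc]
  constructor <;> nlinarith [mul_pos he hη0, mul_lt_mul_of_pos_left hη1 he]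

/-- accumulation points of `C` in `C` -/
def Acc (C : Set ℝ) : Set ℝ := {φ | φ ∈ C ∧ ∀ r > 0, ∃ ψ ∈ C, ψ ≠ φ ∧ |ψ - φ| < r}

end MP_614bef_an
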