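import Pool.Agent.Lib.MP_614bef_an.Ev

set_option autoImplicit false

namespace MP_614bef_an

open MeasureTheory Set Filter Metric
open scoped RealInnerProductSpace ENNReal NNReal Topology ContDiff

/-- determinant of two plane vectors -/
def dt (x y : V) : ℝ := x 0 * y 1 - x 1 * y 0

/-- **PIOLA (a).** polar coordinates in `V` (from `integral_comp_polarCoord_symm` and the measure
preserving identification of `V` with `ℝ × ℝ`). -/
theorem polar_V (F : V → ℝ) : ∫ x, F x =
    ∫ p in Ioi (0 : ℝ) ×ˢ Ioo (-Real.pi) Real.pi, p.1 * F (p.1 • ev p.2) := by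
  have h1 : ∫ x, F x = ∫ y : Fin 2 → ℝ, F (WithLp.toLp 2 y) :=
    ((PiLp.volume_preserving_toLp (Fin 2)).integral_comp
      (MeasurableEquiv.toLp 2 (Fin 2 → ℝ)).measurableEmbedding F).symm
  have h2 : ∫ y : Fin 2 → ℝ, F (WithLp.toLp 2 y) =
      ∫ p : ℝ × ℝ, F (WithLp.toLp 2 ((MeasurableEquiv.finTwoArrow (α := ℝ)).symm p)) :=
    ((volume_preserving_finTwoArrow ℝ).symm.integral_comp'
      (fun y : Fin 2 → ℝ => F (WithLp.toLp 2 y))).symm
  rw [h1, h2, ← integral_comp_polarCoord_symm]
  refine setIntegral_congr_fun (measurableSet_Ioi.prod measurableSet_Ioo) fun p _ => ?_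
  change p.1 • F _ = p.1 * F _
  rw [smul_eq_mul]
  congr 2
  ext i
  fin_cases i <;> simp [ev]

private theorem piolaA_ev_cont : Continuous ev :=
  continuous_iff_continuousAt.mpr fun φ => (ev_hasDerivAt φ).continuousAt

/-- the angle -/
private noncomputable def piolaA_arg (x : V) : ℝ :=
  Complex.arg ((x 0 : ℂ) + (x 1 : ℂ) * Complex.I)

private theorem piolaA_arg_meas : Measurable piolaA_arg := by
  unfold piolaA_arg
  refine Complex.measurable_arg.comp ?_
  have h : Continuous fun x : V => (x 0 : ℂ) + (x 1 : ℂ) * Complex.I := by fun_prop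
  exact h.measurable

private theorem piolaA_arg_spec (x : V) : x = ‖x‖ • ev (piolaA_arg x) := by
  set z : ℂ := (x 0 : ℂ) + (x 1 : ℂ) * Complex.I with hz
  have hre : z.re = x 0 := by simp [hz]
  have him : z.im = x 1 := by simp [hz]
  have hn : ‖z‖ = ‖x‖ := by
    rw [Complex.norm_def, Complex.normSq_apply, hre, him, EuclideanSpace.norm_eq,
      Fin.sum_univ_two]
    congr 1
    simp only [Real.norm_eq_abs, sq_abs]
    ring
  have h1 : ‖z‖ * Real.cos (Complex.arg z) = x 0 := by
    rw [Complex.norm_mul_cos_arg, hre]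
  have h2 : ‖z‖ * Real.sin (Complex.arg z) = x 1 := by
    rw [Complex.norm_mul_sin_arg, him]
  rw [hn] at h1 h2
  ext i
  fin_cases i
  · simpa [ev, piolaA_arg] using h1.symm
  · simpa [ev, piolaA_arg] using h2.symm

/-- **PIOLA (b).** star-shaped domain `{t ev φ : 0 ≤ t < R φ}` in the coordinates `(ρ, φ)`,
`x = ρ R(φ) ev φ`, Jacobian `ρ R(φ)²`. -/
theorem polar_star {R R' : ℝ → ℝ} (hpos : ∀ φ, 0 < R φ) (hR : ∀ φ, HasDerivAt R (R' φ) φ)
    (hR' : Continuous R') (hper : ∀ φ, R (φ + 2 * Real.pi) = R φ) {Ω : Set V}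
    (hΩ : ∀ φ t : ℝ, 0 ≤ t → (t • ev φ ∈ Ω ↔ t < R φ)) {F : V → ℝ} (hF : Continuous F) :
    ∫ x in Ω, F x =
      ∫ φ in (-Real.pi)..Real.pi, ∫ ρ in (0 : ℝ)..1, F (ρ • (R φ • ev φ)) * (ρ * R φ ^ 2) := by
  have hRc : Continuous R := continuous_iff_continuousAt.mpr fun φ => (hR φ).continuousAt
  have hΩe : Ω = {x | ‖x‖ < R (piolaA_arg x)} := by
    ext x
    have h1 := hΩ (piolaA_arg x) ‖x‖ (norm_nonneg x)
    rw [← piolaA_arg_spec x] at h1
    exact h1
  have hΩm : MeasurableSet Ω := by
    rw [hΩe]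
    exact measurableSet_lt measurable_norm (hRc.measurable.comp piolaA_arg_meas)
  set A : Set (ℝ × ℝ) := {p | p.1 < R p.2} with hA
  have hAm : MeasurableSet A :=
    measurableSet_lt measurable_fst (hRc.measurable.comp measurable_snd)
  set H : ℝ × ℝ → ℝ := fun p => p.1 * F (p.1 • ev p.2) with hH
  have hHc : Continuous H := by
    have := piolaA_ev_cont
    fun_prop
  obtain ⟨M, hM⟩ := (isCompact_Icc (a := -Real.pi) (b := Real.pi)).bddAbove_image
    hRc.continuousOn
  have hMb : ∀ φ ∈ Ioo (-Real.pi) Real.pi, R φ ≤ M := fun φ hφ =>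
    hM ⟨φ, Ioo_subset_Icc_self hφ, rfl⟩
  have hint : IntegrableOn (A.indicator H) (Ioi (0 : ℝ) ×ˢ Ioo (-Real.pi) Real.pi) := by
    unfold IntegrableOn
    rw [integrable_indicator_iff hAm]
    unfold IntegrableOn
    rw [Measure.restrict_restrict hAm]
    have h1 : IntegrableOn H (Icc 0 M ×ˢ Icc (-Real.pi) Real.pi) :=
      hHc.continuousOn.integrableOn_compact (isCompact_Icc.prod isCompact_Icc)
    refine h1.mono_set ?_
    rintro ⟨t, φ⟩ ⟨h2, h3, h4⟩
    exact ⟨⟨le_of_lt h3, (le_of_lt h2).trans (hMb φ h4)⟩, Ioo_subset_Icc_self h4⟩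
  calc ∫ x in Ω, F x = ∫ x, Ω.indicator F x := (integral_indicator hΩm).symm
    _ = ∫ p in Ioi (0 : ℝ) ×ˢ Ioo (-Real.pi) Real.pi, p.1 * Ω.indicator F (p.1 • ev p.2) :=
        polar_V _
    _ = ∫ p in Ioi (0 : ℝ) ×ˢ Ioo (-Real.pi) Real.pi, A.indicator H p := by
        refine setIntegral_congr_fun (measurableSet_Ioi.prod measurableSet_Ioo) fun p hp => ?_
        have hp1 : 0 < p.1 := hp.1
        by_cases h : p.1 < R p.2
        · have h1 : p.1 • ev p.2 ∈ Ω := (hΩ p.2 p.1 hp1.le).mpr h
          have h2 : p ∈ A := h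
          change p.1 * Ω.indicator F (p.1 • ev p.2) = A.indicator H p
          rw [indicator_of_mem h1, indicator_of_mem h2]
        · have h1 : p.1 • ev p.2 ∉ Ω := fun h3 => h ((hΩ p.2 p.1 hp1.le).mp h3)
          have h2 : p ∉ A := h
          change p.1 * Ω.indicator F (p.1 • ev p.2) = A.indicator H p
          rw [indicator_of_notMem h1, indicator_of_notMem h2, mul_zero]
    _ = ∫ φ in Ioo (-Real.pi) Real.pi, ∫ t in Ioi (0 : ℝ), A.indicator H (t, φ) := by
        rw [Measure.volume_eq_prod, ← Measure.prod_restrict]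
        refine integral_prod_symm _ ?_
        rw [Measure.prod_restrict, ← Measure.volume_eq_prod]
        exact hint
    _ = ∫ φ in Ioo (-Real.pi) Real.pi, ∫ ρ in (0 : ℝ)..1,
          F (ρ • (R φ • ev φ)) * (ρ * R φ ^ 2) := by
        refine setIntegral_congr_fun measurableSet_Ioo fun φ _ => ?_
        have h1 : ∫ t in Ioi (0 : ℝ), A.indicator H (t, φ) =
            ∫ t in (0 : ℝ)..(R φ), t * F (t • ev φ) := by
          have h2 : (fun t : ℝ => A.indicator H (t, φ)) =
              (Iio (R φ)).indicator (fun t => t * F (t • ev φ)) := by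
            funext t
            by_cases h : t < R φ
            · rw [indicator_of_mem (show (t, φ) ∈ A from h),
                indicator_of_mem (show t ∈ Iio (R φ) from h)]
            · rw [indicator_of_notMem (show (t, φ) ∉ A from h),
                indicator_of_notMem (show t ∉ Iio (R φ) from h)]
          rw [h2, setIntegral_indicator measurableSet_Iio,
            intervalIntegral.integral_of_le (hpos φ).le, integral_Ioc_eq_integral_Ioo]
          rfl
        have h3 := intervalIntegral.integral_comp_mul_right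
          (a := (0 : ℝ)) (b := 1) (fun t => t * F (t • ev φ)) (hpos φ).ne'
        rw [zero_mul, one_mul] at h3
        change ∫ t in Ioi (0 : ℝ), A.indicator H (t, φ) = _
        rw [h1]
        have h4 : ∫ ρ in (0 : ℝ)..1, F (ρ • (R φ • ev φ)) * (ρ * R φ ^ 2) =
            R φ * ∫ ρ in (0 : ℝ)..1, (ρ * R φ) * F ((ρ * R φ) • ev φ) := by
          rw [← intervalIntegral.integral_const_mul]
          refine intervalIntegral.integral_congr fun ρ _ => ?_
          change F (ρ • (R φ • ev φ)) * (ρ * R φ ^ 2) =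
            R φ * ((ρ * R φ) * F ((ρ * R φ) • ev φ))
          rw [smul_smul]
          ring
        rw [h4, h3, smul_eq_mul, ← mul_assoc, mul_inv_cancel₀ (hpos φ).ne', one_mul]
    _ = _ := by
        rw [intervalIntegral.integral_of_le (by linarith [Real.pi_pos]),
          integral_Ioc_eq_integral_Ioo]

end MP_614bef_an
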