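import Pool.Agent.Lib.MP_614bef_an.PiolaA

set_option autoImplicit false

namespace MP_614bef_an

open MeasureTheory Set Filter Metric
open scoped RealInnerProductSpace ENNReal NNReal Topology ContDiff

private theorem vec_decomp (v : V) :
    v = v 0 • EuclideanSpace.single (0 : Fin 2) (1 : ℝ) +
      v 1 • EuclideanSpace.single (1 : Fin 2) (1 : ℝ) := by
  ext i
  fin_cases i <;> simp

/-- `tr A · dt(v,w) = dt(A v, w) + dt(v, A w)` -/
private theorem tr_dt (A : V →L[ℝ] V) (v w : V) :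
    (∑ i : Fin 2, (A (EuclideanSpace.single i 1)) i) * dt v w = dt (A v) w + dt v (A w) := by
  have hv : A v = v 0 • A (EuclideanSpace.single (0 : Fin 2) (1 : ℝ)) +
      v 1 • A (EuclideanSpace.single (1 : Fin 2) (1 : ℝ)) := by
    conv_lhs => rw [vec_decomp v]
    simp only [map_add, map_smul]
  have hw : A w = w 0 • A (EuclideanSpace.single (0 : Fin 2) (1 : ℝ)) +
      w 1 • A (EuclideanSpace.single (1 : Fin 2) (1 : ℝ)) := by
    conv_lhs => rw [vec_decomp w]
    simp only [map_add, map_smul]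
  rw [hv, hw, Fin.sum_univ_two]
  simp only [dt, PiLp.add_apply, PiLp.smul_apply, smul_eq_mul]
  ring

private theorem dt_swap (v w : V) : dt v w = -dt w v := by
  simp only [dt]; ring

private theorem coord_hasDerivAt {f : ℝ → V} {f' : V} {t : ℝ} (h : HasDerivAt f f' t) (i : Fin 2) :
    HasDerivAt (fun s => f s i) (f' i) t :=
  ((EuclideanSpace.proj (𝕜 := ℝ) i).hasFDerivAt.comp_hasDerivAt t h : _)

private theorem dt_hasDerivAt {f g : ℝ → V} {f' g' : V} {t : ℝ} (hf : HasDerivAt f f' t)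
    (hg : HasDerivAt g g' t) :
    HasDerivAt (fun s => dt (f s) (g s)) (dt f' (g t) + dt (f t) g') t := by
  have h0 := (coord_hasDerivAt hf 0).mul (coord_hasDerivAt hg 1)
  have h1 := (coord_hasDerivAt hf 1).mul (coord_hasDerivAt hg 0)
  have h2 := h0.sub h1
  refine h2.congr_deriv ?_
  simp only [dt]; ring

private theorem coord_continuous {α : Type*} [TopologicalSpace α] {f : α → V} (hf : Continuous f)
    (i : Fin 2) : Continuous (fun s => f s i) :=
  (EuclideanSpace.proj (𝕜 := ℝ) i).continuous.comp hf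

private theorem dt_continuous {α : Type*} [TopologicalSpace α] {f g : α → V} (hf : Continuous f)
    (hg : Continuous g) : Continuous (fun s => dt (f s) (g s)) := by
  unfold dt
  exact ((coord_continuous hf 0).mul (coord_continuous hg 1)).sub
    ((coord_continuous hf 1).mul (coord_continuous hg 0))

private theorem interval_swap {f : ℝ → ℝ → ℝ} (hf : Continuous (fun p : ℝ × ℝ => f p.1 p.2))
    {a b c d : ℝ} (hab : a ≤ b) (hcd : c ≤ d) :
    ∫ x in a..b, ∫ y in c..d, f x y = ∫ y in c..d, ∫ x in a..b, f x y := by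
  simp only [intervalIntegral.integral_of_le hab, intervalIntegral.integral_of_le hcd]
  apply integral_integral_swap
  rw [Measure.prod_restrict]
  have : IntegrableOn (fun p : ℝ × ℝ => f p.1 p.2) (Icc a b ×ˢ Icc c d) (volume.prod volume) :=
    hf.continuousOn.integrableOn_compact (isCompact_Icc.prod isCompact_Icc)
  exact this.mono_set (prod_mono Ioc_subset_Icc_self Ioc_subset_Icc_self)

/-- **PIOLA (c).** divergence theorem on the star-shaped domain. PROOF: `γ φ = R φ • ev φ`,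
`γ' = R' ev + R ev'`, `dt γ γ' = R²`; Piola identity
`ρ dt(γ,γ') (div X)(ρ γ) = ∂_ρ [ρ dt(X(ρ γ), γ')] + ∂_φ [dt(γ, X(ρ γ))]`
(from `tr A · dt(v,w) = dt(A v, w) + dt(v, A w)` for linear `A`).
Integrate over `[0,1] × [-π,π]`; the second term vanishes by periodicity. -/
theorem div_star {R R' : ℝ → ℝ} (hpos : ∀ φ, 0 < R φ) (hR : ∀ φ, HasDerivAt R (R' φ) φ)
    (hR' : Continuous R') (hper : ∀ φ, R (φ + 2 * Real.pi) = R φ) {Ω : Set V}
    (hΩ : ∀ φ t : ℝ, 0 ≤ t → (t • ev φ ∈ Ω ↔ t < R φ)) {X : V → V} (hX : ContDiff ℝ 1 X) :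
    ∫ x in Ω, divg X x =
      ∫ φ in (-Real.pi)..Real.pi, dt (X (R φ • ev φ)) (R' φ • ev φ + R φ • ev' φ) := by
  have hXc : Continuous X := hX.continuous
  have hX' : Continuous (fderiv ℝ X) := hX.continuous_fderiv one_ne_zero
  have hXd : Differentiable ℝ X := hX.differentiable one_ne_zero
  have hRc : Continuous R := by
    rw [continuous_iff_continuousAt]
    exact fun φ => (hR φ).continuousAt
  have hevc : Continuous ev := by
    rw [continuous_iff_continuousAt]
    exact fun φ => (ev_hasDerivAt φ).continuousAt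
  have hev'c : Continuous ev' := by
    rw [continuous_iff_continuousAt]
    exact fun φ => (ev'_hasDerivAt φ).continuousAt
  -- continuity of the divergence
  have hFc : Continuous (divg X) := by
    unfold divg
    refine continuous_finsetSum _ fun i _ => ?_
    exact coord_continuous (hX'.clm_apply continuous_const) i
  rw [polar_star hpos hR hR' hper hΩ hFc]
  set γ : ℝ → V := fun φ => R φ • ev φ with hγ
  set γ' : ℝ → V := fun φ => R' φ • ev φ + R φ • ev' φ with hγ'
  have hγd : ∀ φ, HasDerivAt γ (γ' φ) φ := by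
    intro φ
    refine ((hR φ).smul (ev_hasDerivAt φ)).congr_deriv ?_
    simp only [hγ']
    abel
  have hγc : Continuous γ := hRc.smul hevc
  have hγ'c : Continuous γ' := (hR'.smul hevc).add (hRc.smul hev'c)
  have hdt : ∀ φ, dt (γ φ) (γ' φ) = R φ ^ 2 := by
    intro φ
    simp only [dt, hγ, hγ', ev, ev', PiLp.add_apply, PiLp.smul_apply, smul_eq_mul]
    simp
    have := Real.sin_sq_add_cos_sq φ
    linear_combination (R φ ^ 2) * this
  -- the two parts
  set A : ℝ → ℝ → ℝ := fun φ ρ =>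
    dt (X (ρ • γ φ)) (γ' φ) + ρ * dt (fderiv ℝ X (ρ • γ φ) (γ φ)) (γ' φ) with hA
  set B : ℝ → ℝ → ℝ := fun φ ρ =>
    dt (γ' φ) (X (ρ • γ φ)) + ρ * dt (γ φ) (fderiv ℝ X (ρ • γ φ) (γ' φ)) with hB
  have hAB : ∀ φ ρ, divg X (ρ • γ φ) * (ρ * R φ ^ 2) = A φ ρ + B φ ρ := by
    intro φ ρ
    rw [← hdt φ]
    have h1 := tr_dt (fderiv ℝ X (ρ • γ φ)) (γ φ) (γ' φ)
    simp only [hA, hB, divg]
    rw [dt_swap (γ' φ) (X (ρ • γ φ))]
    linear_combination ρ * h1
  have hsm : Continuous (fun p : ℝ × ℝ => p.2 • γ p.1) :=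
    continuous_snd.smul (hγc.comp continuous_fst)
  have hAc : Continuous (fun p : ℝ × ℝ => A p.1 p.2) := by
    refine (dt_continuous (hXc.comp hsm) (hγ'c.comp continuous_fst)).add
      (continuous_snd.mul (dt_continuous ?_ (hγ'c.comp continuous_fst)))
    exact (hX'.comp hsm).clm_apply (hγc.comp continuous_fst)
  have hBc : Continuous (fun p : ℝ × ℝ => B p.1 p.2) := by
    refine (dt_continuous (hγ'c.comp continuous_fst) (hXc.comp hsm)).add
      (continuous_snd.mul (dt_continuous (hγc.comp continuous_fst) ?_))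
    exact (hX'.comp hsm).clm_apply (hγ'c.comp continuous_fst)
  have hAr : ∀ φ, ∫ ρ in (0 : ℝ)..1, A φ ρ = dt (X (γ φ)) (γ' φ) := by
    intro φ
    have hd : ∀ ρ : ℝ, HasDerivAt (fun ρ : ℝ => ρ * dt (X (ρ • γ φ)) (γ' φ)) (A φ ρ) ρ := by
      intro ρ
      have h1 : HasDerivAt (fun ρ : ℝ => ρ • γ φ) (γ φ) ρ := by
        simpa using (hasDerivAt_id ρ).smul_const (γ φ)
      have h2 : HasDerivAt (fun ρ : ℝ => X (ρ • γ φ)) (fderiv ℝ X (ρ • γ φ) (γ φ)) ρ :=
        (hXd (ρ • γ φ)).hasFDerivAt.comp_hasDerivAt ρ h1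
      have h3 := dt_hasDerivAt h2 (hasDerivAt_const ρ (γ' φ))
      have h4 := (hasDerivAt_id ρ).mul h3
      refine h4.congr_deriv ?_
      simp [hA, dt]
    rw [intervalIntegral.integral_eq_sub_of_hasDerivAt (fun ρ _ => hd ρ)
      ((hAc.comp (by fun_prop : Continuous fun ρ : ℝ => (φ, ρ))).intervalIntegrable _ _)]
    simp
  have hγper : γ Real.pi = γ (-Real.pi) := by
    have h1 : R Real.pi = R (-Real.pi) := by
      have := hper (-Real.pi)
      rw [← this]; congr 1; ring
    have h2 : ev Real.pi = ev (-Real.pi) := by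
      unfold ev
      simp
    simp only [hγ, h1, h2]
  have hBr : ∀ ρ, ∫ φ in (-Real.pi)..Real.pi, B φ ρ = 0 := by
    intro ρ
    have hd : ∀ φ : ℝ, HasDerivAt (fun φ : ℝ => dt (γ φ) (X (ρ • γ φ))) (B φ ρ) φ := by
      intro φ
      have h1 : HasDerivAt (fun φ : ℝ => ρ • γ φ) (ρ • γ' φ) φ := (hγd φ).const_smul ρ
      have h2 : HasDerivAt (fun φ : ℝ => X (ρ • γ φ)) (fderiv ℝ X (ρ • γ φ) (ρ • γ' φ)) φ :=
        (hXd (ρ • γ φ)).hasFDerivAt.comp_hasDerivAt φ h1
      refine (dt_hasDerivAt (hγd φ) h2).congr_deriv ?_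
      simp only [hB, map_smul, dt, PiLp.smul_apply, smul_eq_mul]
      ring
    rw [intervalIntegral.integral_eq_sub_of_hasDerivAt (fun φ _ => hd φ)
      ((hBc.comp (by fun_prop : Continuous fun φ : ℝ => (φ, ρ))).intervalIntegrable _ _)]
    rw [hγper]
    simp
  have hpi : -Real.pi ≤ Real.pi := by linarith [Real.pi_pos]
  have hstep : ∀ φ, ∫ ρ in (0 : ℝ)..1, divg X (ρ • (R φ • ev φ)) * (ρ * R φ ^ 2) =
      dt (X (γ φ)) (γ' φ) + ∫ ρ in (0 : ℝ)..1, B φ ρ := by
    intro φ
    rw [← hAr φ, ← intervalIntegral.integral_add]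
    · refine intervalIntegral.integral_congr fun ρ _ => ?_
      exact hAB φ ρ
    · exact (hAc.comp (by fun_prop : Continuous fun ρ : ℝ => (φ, ρ))).intervalIntegrable _ _
    · exact (hBc.comp (by fun_prop : Continuous fun ρ : ℝ => (φ, ρ))).intervalIntegrable _ _
  have hBint : Continuous (fun φ => ∫ ρ in (0 : ℝ)..1, B φ ρ) :=
    intervalIntegral.continuous_parametric_intervalIntegral_of_continuous' hBc 0 1
  calc ∫ φ in (-Real.pi)..Real.pi, ∫ ρ in (0 : ℝ)..1,
        divg X (ρ • (R φ • ev φ)) * (ρ * R φ ^ 2)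
      = ∫ φ in (-Real.pi)..Real.pi, (dt (X (γ φ)) (γ' φ) + ∫ ρ in (0 : ℝ)..1, B φ ρ) :=
        intervalIntegral.integral_congr fun φ _ => hstep φ
    _ = (∫ φ in (-Real.pi)..Real.pi, dt (X (γ φ)) (γ' φ)) +
        ∫ φ in (-Real.pi)..Real.pi, ∫ ρ in (0 : ℝ)..1, B φ ρ := by
        refine intervalIntegral.integral_add ?_ (hBint.intervalIntegrable _ _)
        exact (dt_continuous (hXc.comp hγc) hγ'c).intervalIntegrable _ _
    _ = ∫ φ in (-Real.pi)..Real.pi, dt (X (γ φ)) (γ' φ) := by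
        rw [interval_swap hBc hpi zero_le_one]
        simp only [hBr]
        simp

end MP_614bef_an
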