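import Pool.Agent.Lib.MP_614bef_an.Defs

set_option autoImplicit false

namespace MP_614bef_an

open MeasureTheory Set Filter Metric
open scoped RealInnerProductSpace ENNReal NNReal Topology ContDiff

open Classical in
/-- metric projection on a closed convex set (a nearest point of `E`) -/
noncomputable def prj (E : Set V) (x : V) : V :=
  if h : ∃ p ∈ E, dist x p = infDist x E then h.choose else x

/-- the residual `x - P x` -/
noncomputable def rs (E : Set V) (x : V) : V := x - prj E x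

variable {E : Set V}

private theorem Prj_spec (hE : IsClosed E) (hn : E.Nonempty) (x : V) :
    prj E x ∈ E ∧ dist x (prj E x) = infDist x E := by
  have h : ∃ p ∈ E, dist x p = infDist x E := by
    obtain ⟨y, hy, h1⟩ := hE.exists_infDist_eq_dist hn x
    exact ⟨y, hy, h1.symm⟩
  unfold prj
  rw [dif_pos h]
  exact h.choose_spec

theorem prj_mem (hE : IsClosed E) (hn : E.Nonempty) (x : V) : prj E x ∈ E :=
  (Prj_spec hE hn x).1

theorem rs_norm (hE : IsClosed E) (hn : E.Nonempty) (x : V) : ‖rs E x‖ = infDist x E := by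
  rw [← (Prj_spec hE hn x).2, dist_eq_norm]
  rfl

private theorem Prj_var (hc : Convex ℝ E) (hn : E.Nonempty) (x : V) {p : V} (hp : p ∈ E)
    (hd : dist x p ≤ infDist x E) {y : V} (hy : y ∈ E) : ⟪x - p, y - p⟫ ≤ 0 := by
  have : Nonempty E := hn.to_subtype
  refine (norm_eq_iInf_iff_real_inner_le_zero hc hp).1 ?_ y hy
  have h1 : infDist x E = ⨅ w : E, ‖x - w‖ := by
    rw [infDist_eq_iInf]
    simp only [dist_eq_norm]
  rw [← h1, ← dist_eq_norm]
  exact le_antisymm hd (infDist_le_dist_of_mem hp)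

/-- variational inequality -/
theorem prj_le (hE : IsClosed E) (hc : Convex ℝ E) (hn : E.Nonempty) (x : V) {y : V} (hy : y ∈ E) :
    ⟪rs E x, y - prj E x⟫ ≤ 0 :=
  Prj_var hc hn x (Prj_spec hE hn x).1 (Prj_spec hE hn x).2.le hy

/-- uniqueness of the nearest point -/
theorem prj_unique (hE : IsClosed E) (hc : Convex ℝ E) (hn : E.Nonempty) (x : V) {p : V}
    (hp : p ∈ E) (hd : dist x p ≤ infDist x E) : prj E x = p := by
  have h1 := prj_le hE hc hn x hp
  have h2 := Prj_var hc hn x hp hd (prj_mem hE hn x)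
  have h3 : ⟪p - prj E x, p - prj E x⟫ ≤ 0 := by
    have h4 : p - prj E x = rs E x - (x - p) := by unfold rs; abel
    have h5 : prj E x - p = -(p - prj E x) := by abel
    rw [h5, inner_neg_right] at h2
    have h6 : ⟪p - prj E x, p - prj E x⟫ = ⟪rs E x, p - prj E x⟫ - ⟪x - p, p - prj E x⟫ := by
      rw [← inner_sub_left, ← h4]
    rw [h6]
    linarith
  have h7 := real_inner_self_nonpos.1 h3
  exact (sub_eq_zero.1 h7).symm

private theorem Prj_add (x : V) : x = rs E x + prj E x := by unfold rs; abel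

private theorem Prj_cross (hE : IsClosed E) (hc : Convex ℝ E) (hn : E.Nonempty) (x y : V) :
    0 ≤ ⟪rs E x - rs E y, prj E x - prj E y⟫ := by
  have h1 := prj_le hE hc hn x (prj_mem hE hn y)
  have h2 := prj_le hE hc hn y (prj_mem hE hn x)
  have h3 : prj E y - prj E x = -(prj E x - prj E y) := by abel
  rw [h3, inner_neg_right] at h1
  rw [inner_sub_left]
  linarith

private theorem Prj_diff (x y : V) :
    x - y = (rs E x - rs E y) + (prj E x - prj E y) := by
  unfold rs; abel

/-- firm nonexpansiveness -/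
theorem rs_firm (hE : IsClosed E) (hc : Convex ℝ E) (hn : E.Nonempty) (x y : V) :
    ‖rs E x - rs E y‖ ^ 2 ≤ ⟪rs E x - rs E y, x - y⟫ := by
  have h1 := Prj_cross hE hc hn x y
  rw [Prj_diff (E := E) x y, inner_add_right, real_inner_self_eq_norm_sq]
  linarith

private theorem Prj_of_sq {a b : V} (h : ‖a‖ ^ 2 ≤ ⟪a, b⟫) : ‖a‖ ≤ ‖b‖ := by
  rcases eq_or_lt_of_le (norm_nonneg a) with h0 | h0
  · rw [← h0]; exact norm_nonneg b
  · have h1 := real_inner_le_norm a b
    have h2 : ‖a‖ * ‖a‖ ≤ ‖a‖ * ‖b‖ := by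
      rw [← sq]; exact h.trans h1
    exact le_of_mul_le_mul_left h2 h0

theorem rs_lip (hE : IsClosed E) (hc : Convex ℝ E) (hn : E.Nonempty) :
    LipschitzWith 1 (rs E) := by
  refine LipschitzWith.of_dist_le_mul fun x y => ?_
  rw [dist_eq_norm, dist_eq_norm, NNReal.coe_one, one_mul]
  exact Prj_of_sq (rs_firm hE hc hn x y)

theorem prj_lip (hE : IsClosed E) (hc : Convex ℝ E) (hn : E.Nonempty) :
    LipschitzWith 1 (prj E) := by
  refine LipschitzWith.of_dist_le_mul fun x y => ?_
  rw [dist_eq_norm, dist_eq_norm, NNReal.coe_one, one_mul]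
  apply Prj_of_sq
  have h1 := Prj_cross hE hc hn x y
  rw [real_inner_comm] at h1
  rw [Prj_diff (E := E) x y, inner_add_right, real_inner_self_eq_norm_sq]
  linarith

theorem prj_of_mem (hE : IsClosed E) (hn : E.Nonempty) {x : V} (hx : x ∈ E) : rs E x = 0 := by
  rw [← norm_eq_zero, rs_norm hE hn, infDist_zero_of_mem hx]

/-- if the ball of radius `e` is contained in `E` then `⟪x - P x, x⟫ ≥ e ‖x - P x‖ + ‖x - P x‖²`
(variational inequality with `y = (e/‖x - P x‖) (x - P x)`). -/
theorem rs_inner_ge (hE : IsClosed E) (hc : Convex ℝ E) {e : ℝ} (he : 0 ≤ e)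
    (hb : closedBall (0 : V) e ⊆ E) (x : V) :
    e * infDist x E + infDist x E ^ 2 ≤ ⟪rs E x, x⟫ := by
  have hn : E.Nonempty := ⟨0, hb (mem_closedBall_self he)⟩
  rw [← rs_norm hE hn x]
  by_cases h0 : rs E x = 0
  · rw [h0, inner_zero_left, norm_zero]
    simp
  · have hpos : 0 < ‖rs E x‖ := norm_pos_iff.2 h0
    have hy : (e / ‖rs E x‖) • rs E x ∈ E := by
      apply hb
      rw [mem_closedBall_zero_iff, norm_smul, Real.norm_of_nonneg (by positivity),
        div_mul_cancel₀ _ hpos.ne']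
    have h1 := prj_le hE hc hn x hy
    rw [inner_sub_right, inner_smul_right, real_inner_self_eq_norm_sq] at h1
    have h2 : e / ‖rs E x‖ * ‖rs E x‖ ^ 2 = e * ‖rs E x‖ := by
      field_simp
    rw [h2] at h1
    have h3 : ⟪rs E x, x⟫ = ‖rs E x‖ ^ 2 + ⟪rs E x, prj E x⟫ := by
      rw [← real_inner_self_eq_norm_sq, ← inner_add_right, ← Prj_add]
    rw [h3]
    linarith

private theorem Prj_upper (hE : IsClosed E) (hn : E.Nonempty) (x y : V) :
    infDist y E ^ 2 ≤ infDist x E ^ 2 + 2 * ⟪rs E x, y - x⟫ + ‖y - x‖ ^ 2 := by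
  have h1 : infDist y E ≤ ‖y - prj E x‖ := by
    rw [← dist_eq_norm]
    exact infDist_le_dist_of_mem (prj_mem hE hn x)
  have h2 : y - prj E x = rs E x + (y - x) := by unfold rs; abel
  rw [h2] at h1
  have h3 := pow_le_pow_left₀ infDist_nonneg h1 2
  rw [norm_add_sq_real, rs_norm hE hn] at h3
  exact h3

/-- the squared distance is `C^{1,1}` with gradient `2 (x - P x)`:
upper bound: `δ(y)² ≤ ‖y - P x‖²`; lower bound: the upper bound with `x, y` exchanged and
`⟪rs y - rs x, y - x⟫ ≥ 0`. -/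
theorem sq_expand (hE : IsClosed E) (hc : Convex ℝ E) (hn : E.Nonempty) (x y : V) :
    |infDist y E ^ 2 - infDist x E ^ 2 - 2 * ⟪rs E x, y - x⟫| ≤ ‖y - x‖ ^ 2 := by
  have h1 := Prj_upper hE hn x y
  have h2 := Prj_upper hE hn y x
  have h3 := rs_firm hE hc hn y x
  have h4 : 0 ≤ ‖rs E y - rs E x‖ ^ 2 := by positivity
  have h5 : ⟪rs E y, x - y⟫ = -⟪rs E y, y - x⟫ := by
    rw [← inner_neg_right, neg_sub]
  rw [inner_sub_left] at h3
  rw [h5, norm_sub_rev x y] at h2
  rw [abs_le]
  constructor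
  · linarith
  · linarith

end MP_614bef_an
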