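import Pool.Agent.Lib.MP_614bef_an.Defs

set_option autoImplicit false

namespace MP_614bef_an

open MeasureTheory Set Filter Metric
open scoped RealInnerProductSpace ENNReal NNReal Topology ContDiff

private theorem TraA_scale (x : V) {r : ℝ} (hr : 0 < r) (S : Set V) :
    volume.real {y : V | r⁻¹ • (y - x) ∈ S} = r ^ 2 * volume.real S := by
  have h1 : {y : V | r⁻¹ • (y - x) ∈ S} =
      (fun y => y + (-x)) ⁻¹' ((fun z : V => r⁻¹ • z) ⁻¹' S) := by
    ext y
    simp only [mem_ofPred_eq, mem_preimage, sub_eq_add_neg]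
  have h2 : Module.finrank ℝ V = 2 := by simp [V]
  rw [measureReal_def, h1, measure_preimage_add_right,
    Measure.addHaar_preimage_smul volume (inv_ne_zero hr.ne'), h2, ENNReal.toReal_mul,
    ENNReal.toReal_ofReal (abs_nonneg _), measureReal_def, inv_pow, inv_inv,
    abs_of_nonneg (sq_nonneg r)]

private theorem TraA_ball (x : V) {r : ℝ} (hr : 0 < r) (y : V) :
    y ∈ ball x r ↔ r⁻¹ • (y - x) ∈ ball (0 : V) 1 := by
  rw [mem_ball_iff_norm, mem_ball_zero_iff, norm_smul, Real.norm_of_nonneg (inv_nonneg.2 hr.le),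
    inv_mul_lt_iff₀ hr, mul_one]

private theorem TraA_plane {n : V} (hn : ‖n‖ = 1) :
    volume {z : V | ⟪z, n⟫ = 0} = 0 := by
  have h1 : {z : V | ⟪z, n⟫ = 0} =
      ((LinearMap.ker (innerSL ℝ n : V →L[ℝ] ℝ).toLinearMap : Submodule ℝ V) : Set V) := by
    ext z
    simp only [mem_ofPred_eq, SetLike.mem_coe, LinearMap.mem_ker, ContinuousLinearMap.coe_coe,
      innerSL_apply_apply]
    rw [real_inner_comm]
  rw [h1]
  refine Measure.addHaar_submodule volume _ fun h => ?_
  have h2 : n ∈ (LinearMap.ker (innerSL ℝ n : V →L[ℝ] ℝ).toLinearMap : Submodule ℝ V) := by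
    rw [h]
    exact Submodule.mem_top
  rw [LinearMap.mem_ker, ContinuousLinearMap.coe_coe, innerSL_apply_apply,
    real_inner_self_eq_norm_sq, hn] at h2
  norm_num at h2

private theorem TraA_strip0 {n : V} (hn : ‖n‖ = 1) :
    Tendsto (fun ε : ℝ => volume.real (ball (0 : V) 1 ∩ {z | |⟪z, n⟫| ≤ ε})) (𝓝[>] 0) (𝓝 0) := by
  have h1 := tendsto_measure_biInter_gt (μ := (volume : Measure V))
    (s := fun ε : ℝ => ball (0 : V) 1 ∩ {z | |⟪z, n⟫| ≤ ε}) (a := 0) ?_ ?_ ?_
  · have h2 : volume (⋂ r > (0 : ℝ), (ball (0 : V) 1 ∩ {z | |⟪z, n⟫| ≤ r})) = 0 := by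
      refine measure_mono_null (fun z hz => ?_) (TraA_plane hn)
      simp only [mem_iInter, mem_inter_iff, mem_ofPred_eq] at hz ⊢
      have h3 : |⟪z, n⟫| ≤ 0 := le_of_forall_gt_imp_ge_of_dense fun r hr => (hz r hr).2
      exact abs_nonpos_iff.1 h3
    rw [h2] at h1
    have h4 := (ENNReal.tendsto_toReal ENNReal.zero_ne_top).comp h1
    exact h4
  · intro r _
    refine (measurableSet_ball.inter ?_).nullMeasurableSet
    exact measurableSet_le (by fun_prop) measurable_const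
  · intro i j _ hij z hz
    exact ⟨hz.1, le_trans hz.2 hij⟩
  · exact ⟨1, one_pos, ((measure_mono inter_subset_left).trans_lt measure_ball_lt_top).ne⟩

/-- **TRA (a).** thin strips are negligible: scaling, and
`volume ({|⟪z,n⟫| ≤ η} ∩ B_1) → volume ({⟪z,n⟫ = 0} ∩ B_1) = 0` as `η → 0`. -/
theorem strip_small {n : V} (hn : ‖n‖ = 1) (x : V) (K : ℝ) :
    Tendsto (fun r : ℝ => volume.real (ball x r ∩ {y | |⟪y - x, n⟫| ≤ K * r ^ 2}) / r ^ 2)
      (𝓝[>] 0) (𝓝 0) := by
  have hK : 0 < max K 1 := lt_of_lt_of_le one_pos (le_max_right _ _)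
  have h1 : Tendsto (fun r : ℝ => max K 1 * r) (𝓝[>] 0) (𝓝[>] 0) := by
    refine tendsto_nhdsWithin_iff.2 ⟨?_, ?_⟩
    · have : Tendsto (fun r : ℝ => max K 1 * r) (𝓝 0) (𝓝 (max K 1 * 0)) :=
        (continuous_const.mul continuous_id).tendsto 0
      rw [mul_zero] at this
      exact this.mono_left nhdsWithin_le_nhds
    · filter_upwards [self_mem_nhdsWithin] with r hr
      exact mul_pos hK hr
  have h2 := (TraA_strip0 hn).comp h1
  refine squeeze_zero' (Eventually.of_forall fun r => by positivity) ?_ h2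
  filter_upwards [self_mem_nhdsWithin] with r hr
  have hr0 : (0 : ℝ) < r := hr
  rw [div_le_iff₀ (by positivity), Function.comp_apply, mul_comm (volume.real _),
    ← TraA_scale x hr0]
  refine measureReal_mono ?_ ?_
  · rintro y ⟨hy1, hy2⟩
    refine ⟨(TraA_ball x hr0 y).1 hy1, ?_⟩
    simp only [mem_ofPred_eq] at hy2 ⊢
    rw [real_inner_smul_left, abs_mul, abs_of_pos (inv_pos.2 hr0), inv_mul_le_iff₀ hr0]
    calc |⟪y - x, n⟫| ≤ K * r ^ 2 := hy2
      _ ≤ max K 1 * r ^ 2 := by gcongr; exact le_max_left _ _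
      _ = r * (max K 1 * r) := by ring
  · refine ((measure_mono (t := ball x r) fun y hy => ?_).trans_lt measure_ball_lt_top).ne
    exact (TraA_ball x hr0 y).2 hy.1

private theorem TraA_half (x ν : V) {r : ℝ} (hr : 0 < r) :
    volume.real (ball x r ∩ {y | 0 < ⟪y - x, ν⟫}) =
      r ^ 2 * volume.real (ball (0 : V) 1 ∩ {z | 0 < ⟪z, ν⟫}) := by
  rw [← TraA_scale x hr]
  congr 1
  ext y
  simp only [mem_inter_iff, mem_ofPred_eq]
  rw [TraA_ball x hr, real_inner_smul_left, mul_pos_iff_of_pos_left (inv_pos.2 hr)]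

private theorem TraA_half_pos {ν : V} (hν : ‖ν‖ = 1) :
    0 < volume.real (ball (0 : V) 1 ∩ {z | 0 < ⟪z, ν⟫}) := by
  rw [measureReal_def]
  refine ENNReal.toReal_pos ?_
    ((measure_mono inter_subset_left).trans_lt measure_ball_lt_top).ne
  have ho : IsOpen (ball (0 : V) 1 ∩ {z | 0 < ⟪z, ν⟫}) :=
    isOpen_ball.inter (isOpen_lt continuous_const (by fun_prop))
  refine (ho.measure_pos volume ⟨(1 / 2 : ℝ) • ν, ?_, ?_⟩).ne'
  · rw [mem_ball_zero_iff, norm_smul, hν]
    norm_num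
  · simp only [mem_ofPred_eq]
    rw [real_inner_smul_left, real_inner_self_eq_norm_sq, hν]
    norm_num

private theorem TraA_lim {w : V → ℝ} (hw : Measurable w) {M : ℝ} (hM : ∀ y, |w y| ≤ M) {x : V}
    (hc : ContinuousAt w x) {ν : V} (hν : ‖ν‖ = 1) {a : ℝ}
    (h : Tendsto (fun r : ℝ => (∫ y in ball x r ∩ {y | 0 < ⟪y - x, ν⟫}, |w y - a|) / r ^ 2)
      (𝓝[>] 0) (𝓝 0)) : a = w x := by
  set c := volume.real (ball (0 : V) 1 ∩ {z | 0 < ⟪z, ν⟫}) with hcdef
  have hcpos : 0 < c := TraA_half_pos hν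
  have key : ∀ ε : ℝ, 0 < ε → |a - w x| ≤ ε := by
    intro ε hε
    have h1 : ∀ᶠ r in 𝓝[>] (0 : ℝ), |a - w x| * c ≤
        (∫ y in ball x r ∩ {y | 0 < ⟪y - x, ν⟫}, |w y - a|) / r ^ 2 + ε * c := by
      obtain ⟨δ, hδ, hδ'⟩ := Metric.continuousAt_iff.1 hc ε hε
      filter_upwards [Ioo_mem_nhdsGT hδ] with r hr
      have hr0 : 0 < r := hr.1
      have hS : MeasurableSet (ball x r ∩ {y | 0 < ⟪y - x, ν⟫}) :=
        measurableSet_ball.inter (measurableSet_lt measurable_const (by fun_prop))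
      have hSf : volume (ball x r ∩ {y | 0 < ⟪y - x, ν⟫}) ≠ ⊤ :=
        ((measure_mono inter_subset_left).trans_lt measure_ball_lt_top).ne
      have i1 : IntegrableOn (fun y => |w y - a|) (ball x r ∩ {y | 0 < ⟪y - x, ν⟫}) := by
        refine Measure.integrableOn_of_bounded (M := M + |a|) hSf
          (by fun_prop : Measurable fun y => |w y - a|).aestronglyMeasurable
          (Eventually.of_forall fun y => ?_)
        rw [Real.norm_eq_abs, abs_abs]
        exact (abs_sub _ _).trans (add_le_add (hM y) le_rfl)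
      have i2 : ∀ C : ℝ, IntegrableOn (fun _ : V => C) (ball x r ∩ {y | 0 < ⟪y - x, ν⟫}) :=
        fun C => integrableOn_const hSf
      have h2 : ∫ y in ball x r ∩ {y | 0 < ⟪y - x, ν⟫}, |a - w x| ≤
          ∫ y in ball x r ∩ {y | 0 < ⟪y - x, ν⟫}, (|w y - a| + ε) := by
        refine setIntegral_mono_on (i2 _) (i1.add (i2 ε)) hS fun y hy => ?_
        have h3 := hδ' (lt_trans (mem_ball.1 hy.1) hr.2)
        rw [Real.dist_eq] at h3
        have h4 : |a - w x| ≤ |w y - a| + |w y - w x| := by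
          have h5 := abs_sub_le a (w y) (w x)
          rwa [abs_sub_comm a (w y)] at h5
        linarith
      rw [integral_add i1 (i2 ε), setIntegral_const, setIntegral_const, TraA_half x ν hr0,
        ← hcdef, smul_eq_mul, smul_eq_mul] at h2
      have hr2 : 0 < r ^ 2 := by positivity
      rw [← sub_le_iff_le_add, le_div_iff₀ hr2]
      nlinarith
    have h2 := h.add_const (ε * c)
    rw [zero_add] at h2
    have h3 := ge_of_tendsto h2 h1
    exact le_of_mul_le_mul_right h3 hcpos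
  have h0 : |a - w x| ≤ 0 := le_of_forall_pos_le_add fun ε hε => by
    rw [zero_add]; exact key ε hε
  exact sub_eq_zero.1 (abs_nonpos_iff.1 h0)

/-- **TRA (d).** points of continuity are not jump points: both half disc averages of
`|w - w x|` tend to zero, and half discs have area `π r²/2`, so `a = w x = b`. -/
theorem not_jump {w : V → ℝ} (hw : Measurable w) {M : ℝ} (hM : ∀ y, |w y| ≤ M) {x : V}
    (hc : ContinuousAt w x) : x ∉ jumpSet w := by
  rintro ⟨a, b, ν, hab, hν, h1, h2⟩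
  have ha := TraA_lim hw hM hc hν h1
  have hb : b = w x := by
    refine TraA_lim hw hM hc (ν := -ν) (by rwa [norm_neg]) ?_
    simpa only [inner_neg_right, neg_pos] using h2
  rw [ha, hb] at hab
  exact lt_irrefl _ hab

/-- reversing the direction -/
theorem HasTraces.of_neg {v : V → ℝ} {x : V} {a b : ℝ} {ν : V} (hν : ‖ν‖ = 1)
    (h1 : Tendsto (fun r : ℝ => (∫ y in ball x r ∩ {y | 0 < ⟪y - x, ν⟫}, |v y - b|) / r ^ 2)
      (𝓝[>] 0) (𝓝 0))
    (h2 : Tendsto (fun r : ℝ => (∫ y in ball x r ∩ {y | ⟪y - x, ν⟫ < 0}, |v y - a|) / r ^ 2)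
      (𝓝[>] 0) (𝓝 0)) : HasTraces v x a b (-ν) := by
  refine ⟨by rwa [norm_neg], ?_, ?_⟩
  · simpa only [inner_neg_right, neg_pos] using h2
  · simpa only [inner_neg_right, neg_neg_iff_pos] using h1

end MP_614bef_an
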