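import Pool.Agent.Lib.MP_614bef_an.TraA
import Pool.Agent.Lib.MP_614bef_an.Cst2

set_option autoImplicit false

namespace MP_614bef_an

open MeasureTheory Set Filter Metric
open scoped RealInnerProductSpace ENNReal NNReal Topology ContDiff

private theorem TraB_meas (x n : V) : Measurable (fun y : V => ⟪y - x, n⟫) := by
  have : Continuous (fun y : V => ⟪y - x, n⟫) := by fun_prop
  exact this.measurable

private theorem TraB_key {n : V} (hn : ‖n‖ = 1) {x : V} {w : V → ℝ} (hw : Measurable w) {M : ℝ}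
    (hM : ∀ y, |w y| ≤ M) {A : ℝ} {U S : Set V} (hA : Tendsto w (𝓝[U] x) (𝓝 A))
    (hSm : MeasurableSet S) {K : ℝ}
    (hS : ∀ r : ℝ, 0 < r → ∀ y ∈ ball x r ∩ S, y ∈ U ∨ |⟪y - x, n⟫| ≤ K * r ^ 2) :
    Tendsto (fun r : ℝ => (∫ y in ball x r ∩ S, |w y - A|) / r ^ 2) (𝓝[>] 0) (𝓝 0) := by
  have hM0 : 0 ≤ M := (abs_nonneg _).trans (hM x)
  set c : ℝ := volume.real (ball (0 : V) 1) with hc
  have hc0 : 0 ≤ c := measureReal_nonneg
  have hvol : ∀ r : ℝ, 0 < r → volume.real (ball x r) = r ^ 2 * c := by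
    intro r hr
    rw [hc, Measure.real, Measure.addHaar_ball _ _ hr.le, ENNReal.toReal_mul,
      ENNReal.toReal_ofReal (by positivity)]
    congr 2
    exact finrank_euclideanSpace_fin
  have hstrip := strip_small hn x K
  rw [Metric.tendsto_nhdsWithin_nhds] at hstrip ⊢
  intro ε hε
  set M' : ℝ := M + |A| + 1 with hM'
  have hM'0 : 0 < M' := by have := abs_nonneg A; linarith
  set ε1 : ℝ := ε / (2 * (c + 1)) with hε1
  have hε10 : 0 < ε1 := by positivity
  have hAn : ∀ᶠ y in 𝓝[U] x, |w y - A| < ε1 := by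
    have := (Metric.tendsto_nhds.1 hA) ε1 hε10
    simpa [Real.dist_eq] using this
  rw [eventually_nhdsWithin_iff, Metric.eventually_nhds_iff_ball] at hAn
  obtain ⟨δ1, hδ1, hδ1'⟩ := hAn
  obtain ⟨δ2, hδ2, hδ2'⟩ := hstrip (ε / (2 * M')) (by positivity)
  refine ⟨min δ1 δ2, lt_min hδ1 hδ2, ?_⟩
  intro r hr hr'
  have hr0 : 0 < r := hr
  have hrd : r < min δ1 δ2 := by
    rw [dist_zero_right, Real.norm_eq_abs, abs_of_pos hr0] at hr'
    exact hr'
  set T : Set V := {y | |⟪y - x, n⟫| ≤ K * r ^ 2} with hT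
  have hTm : MeasurableSet T := by
    exact measurableSet_le (TraB_meas x n).norm measurable_const
  have h2 := hδ2' hr (by
    rw [dist_zero_right, Real.norm_eq_abs, abs_of_pos hr0]
    exact hrd.trans_le (min_le_right _ _))
  rw [dist_zero_right, Real.norm_eq_abs] at h2
  have h2' : volume.real (ball x r ∩ T) / r ^ 2 < ε / (2 * M') := (le_abs_self _).trans_lt h2
  have hfin : volume (ball x r) ≠ ⊤ := measure_ball_lt_top.ne
  have hgint : IntegrableOn (fun y => ε1 + T.indicator (fun _ => M') y) (ball x r) := by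
    refine (integrableOn_const hfin).add ?_
    exact (integrableOn_const hfin).indicator hTm
  have hle : ∀ y ∈ ball x r ∩ S, |w y - A| ≤ ε1 + T.indicator (fun _ => M') y := by
    intro y hy
    rcases hS r hr0 y hy with h | h
    · have h3 : |w y - A| < ε1 := hδ1' y (by
        exact ball_subset_ball (hrd.le.trans (min_le_left _ _)) hy.1) h
      have h4 : 0 ≤ T.indicator (fun _ => M') y := indicator_nonneg (fun _ _ => hM'0.le) y
      linarith
    · rw [indicator_of_mem (show y ∈ T from h)]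
      have h5 : |w y - A| ≤ |w y| + |A| := abs_sub _ _
      have := hM y
      linarith
  have hwint : IntegrableOn (fun y => |w y - A|) (ball x r ∩ S) := by
    refine Measure.integrableOn_of_bounded (M := M') ?_ ?_ ?_
    · exact (measure_mono inter_subset_left).trans_lt measure_ball_lt_top |>.ne
    · exact ((hw.sub_const A).norm).aestronglyMeasurable
    · refine Eventually.of_forall fun y => ?_
      rw [Real.norm_eq_abs, abs_abs]
      have h5 : |w y - A| ≤ |w y| + |A| := abs_sub _ _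
      have := hM y
      linarith
  have hI1 : (∫ y in ball x r ∩ S, |w y - A|) ≤
      ∫ y in ball x r ∩ S, (ε1 + T.indicator (fun _ => M') y) :=
    setIntegral_mono_on hwint (hgint.mono_set inter_subset_left)
      (measurableSet_ball.inter hSm) hle
  have hI2 : (∫ y in ball x r ∩ S, (ε1 + T.indicator (fun _ => M') y)) ≤
      ∫ y in ball x r, (ε1 + T.indicator (fun _ => M') y) := by
    refine setIntegral_mono_set hgint ?_ (Eventually.of_forall inter_subset_left)
    refine Eventually.of_forall fun y => ?_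
    have h4 : 0 ≤ T.indicator (fun _ => M') y := indicator_nonneg (fun _ _ => hM'0.le) y
    show 0 ≤ ε1 + T.indicator (fun _ => M') y
    linarith
  have hI3 : (∫ y in ball x r, (ε1 + T.indicator (fun _ => M') y)) =
      ε1 * volume.real (ball x r) + M' * volume.real (ball x r ∩ T) := by
    have hi1 : IntegrableOn (fun _ : V => ε1) (ball x r) := integrableOn_const hfin
    have hi2 : IntegrableOn (fun y => T.indicator (fun _ => M') y) (ball x r) :=
      (integrableOn_const hfin).indicator hTm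
    rw [integral_add hi1 hi2, setIntegral_const,
      setIntegral_indicator hTm, setIntegral_const, smul_eq_mul, smul_eq_mul]
    ring
  have hnn : 0 ≤ (∫ y in ball x r ∩ S, |w y - A|) := integral_nonneg fun y => abs_nonneg _
  rw [dist_zero_right, Real.norm_eq_abs, abs_of_nonneg (by positivity), div_lt_iff₀ (by positivity)]
  rw [div_lt_iff₀ (by positivity)] at h2'
  have h6 : ε1 * (r ^ 2 * c) ≤ ε / 2 * r ^ 2 := by
    have : ε1 * c ≤ ε / 2 := by
      rw [hε1, div_mul_eq_mul_div, div_le_div_iff₀ (by positivity) (by positivity)]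
      nlinarith
    nlinarith [sq_nonneg r]
  have h7 : M' * volume.real (ball x r ∩ T) < ε / 2 * r ^ 2 := by
    have h8 : M' * volume.real (ball x r ∩ T) < M' * (ε / (2 * M') * r ^ 2) :=
      mul_lt_mul_of_pos_left h2' hM'0
    have h9 : M' * (ε / (2 * M') * r ^ 2) = ε / 2 * r ^ 2 := by
      field_simp
    linarith
  rw [hvol r hr0] at hI3
  linarith

private theorem TraB_norm {E : Set V} (h : Body E) {s : ℝ} (hs : 0 < s) {x : V}
    (hx : infDist x E = s) : ‖s⁻¹ • rs E x‖ = 1 := by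
  rw [norm_smul, rs_norm h.cl h.ne, hx, Real.norm_eq_abs, abs_of_pos (by positivity)]
  field_simp

private theorem TraB_inner {E : Set V} {s : ℝ} (hs : 0 < s) (x y : V) :
    ⟪rs E x, y - x⟫ = s * ⟪y - x, s⁻¹ • rs E x⟫ := by
  rw [inner_smul_right, real_inner_comm]
  field_simp

/-- **TRA (b).** outer side.  Let `infDist x E = s > 0`, `n = s⁻¹ (x - P x)`, `w` bounded and
measurable with limit `A` at `x` from `{infDist > s}`.  Then the half disc average of `|w - A|` on
`{⟪y-x,n⟫ > 0}` tends to zero.  PROOF: by `sq_expand`, `y ∈ B_r(x)` with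
`⟪y - x, n⟫ > r²/(2s)` satisfies `infDist y E > s`; the remaining strip is small (a);
`volume.real (ball x r) = π r²`. -/
theorem trace_out {E : Set V} (h : Body E) {s : ℝ} (hs : 0 < s) {x : V} (hx : infDist x E = s)
    {w : V → ℝ} (hw : Measurable w) {M : ℝ} (hM : ∀ y, |w y| ≤ M) {A : ℝ}
    (hA : Tendsto w (𝓝[{y | s < infDist y E}] x) (𝓝 A)) :
    Tendsto (fun r : ℝ => (∫ y in ball x r ∩ {y | 0 < ⟪y - x, s⁻¹ • rs E x⟫}, |w y - A|) / r ^ 2)
      (𝓝[>] 0) (𝓝 0) := by
  refine TraB_key (TraB_norm h hs hx) hw hM hA (K := 1 / (2 * s)) ?_ ?_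
  · exact measurableSet_lt measurable_const (TraB_meas _ _)
  · intro r hr y hy
    by_contra hcon
    rw [not_or] at hcon
    obtain ⟨h1, h2⟩ := hcon
    have hy0 : 0 < ⟪y - x, s⁻¹ • rs E x⟫ := hy.2
    rw [abs_of_pos hy0, not_le] at h2
    rw [mem_ofPred_eq, not_lt] at h1
    have h3 := (abs_le.1 (sq_expand h.cl h.cv h.ne x y)).1
    rw [hx, TraB_inner hs] at h3
    have h4 : ‖y - x‖ < r := by rw [← dist_eq_norm]; exact hy.1
    have h5 : ‖y - x‖ ^ 2 < r ^ 2 := by
      have := norm_nonneg (y - x)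
      nlinarith
    have h6 : r ^ 2 < 2 * (s * ⟪y - x, s⁻¹ • rs E x⟫) := by
      have h7 : s * (1 / (2 * s) * r ^ 2) < s * ⟪y - x, s⁻¹ • rs E x⟫ :=
        mul_lt_mul_of_pos_left h2 hs
      have h8 : s * (1 / (2 * s) * r ^ 2) = r ^ 2 / 2 := by field_simp
      linarith
    have h9 : infDist y E ^ 2 ≤ s ^ 2 := by
      have := infDist_nonneg (x := y) (s := E)
      nlinarith
    linarith

/-- **TRA (c).** inner side. -/
theorem trace_in {E : Set V} (h : Body E) {s : ℝ} (hs : 0 < s) {x : V} (hx : infDist x E = s)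
    {w : V → ℝ} (hw : Measurable w) {M : ℝ} (hM : ∀ y, |w y| ≤ M) {A : ℝ}
    (hA : Tendsto w (𝓝[{y | infDist y E < s}] x) (𝓝 A)) :
    Tendsto (fun r : ℝ => (∫ y in ball x r ∩ {y | ⟪y - x, s⁻¹ • rs E x⟫ < 0}, |w y - A|) / r ^ 2)
      (𝓝[>] 0) (𝓝 0) := by
  refine TraB_key (TraB_norm h hs hx) hw hM hA (K := 1 / (2 * s)) ?_ ?_
  · exact measurableSet_lt (TraB_meas _ _) measurable_const
  · intro r hr y hy
    by_contra hcon
    rw [not_or] at hcon
    obtain ⟨h1, h2⟩ := hcon
    have hy0 : ⟪y - x, s⁻¹ • rs E x⟫ < 0 := hy.2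
    rw [abs_of_neg hy0, not_le] at h2
    rw [mem_ofPred_eq, not_lt] at h1
    have h3 := (abs_le.1 (sq_expand h.cl h.cv h.ne x y)).2
    rw [hx, TraB_inner hs] at h3
    have h4 : ‖y - x‖ < r := by rw [← dist_eq_norm]; exact hy.1
    have h5 : ‖y - x‖ ^ 2 < r ^ 2 := by
      have := norm_nonneg (y - x)
      nlinarith
    have h6 : r ^ 2 < -(2 * (s * ⟪y - x, s⁻¹ • rs E x⟫)) := by
      have h7 : s * (1 / (2 * s) * r ^ 2) < s * -⟪y - x, s⁻¹ • rs E x⟫ :=
        mul_lt_mul_of_pos_left h2 hs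
      have h8 : s * (1 / (2 * s) * r ^ 2) = r ^ 2 / 2 := by field_simp
      linarith
    have h9 : s ^ 2 ≤ infDist y E ^ 2 := by nlinarith
    linarith

end MP_614bef_an
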