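import Pool.Agent.Lib.MP_614bef_an.MainQ

set_option autoImplicit false

namespace MP_614bef_an

open MeasureTheory Set Filter Metric
open scoped RealInnerProductSpace ENNReal NNReal Topology ContDiff

/-- hot part: `max (exp(-‖x‖²/(2R1)) - a1) 0` -/
noncomputable def w1 (x : V) : ℝ := max (Real.exp (-‖x‖ ^ 2 / (2 * R1)) - a1) 0

/-- cold part: `aa (exp(max (s - s²/L) 0) - 1)` with `s = infDist x E - ee` -/
noncomputable def w2 (E : Set V) (x : V) : ℝ :=
  aa * (Real.exp (max ((infDist x E - ee) - (infDist x E - ee) ^ 2 / LL) 0) - 1)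

private theorem R1_pos : 0 < R1 := by
  unfold R1 ee e0 mm; norm_num

private theorem LL_pos : 0 < LL := by
  unfold LL mm; norm_num

private theorem ee_pos : 0 < ee := by
  unfold ee mm; norm_num

private theorem aa_pos : 0 < aa := by
  unfold aa; norm_num

private theorem exp_sub_le {a b c : ℝ} (ha : a ≤ c) (hb : b ≤ c) :
    |Real.exp a - Real.exp b| ≤ Real.exp c * |a - b| := by
  have key : ∀ a b : ℝ, a ≤ b → b ≤ c → Real.exp b - Real.exp a ≤ Real.exp c * (b - a) := by
    intro a b hab hb
    have h1 : Real.exp a = Real.exp b * Real.exp (a - b) := by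
      rw [← Real.exp_add]; congr 1; ring
    have h2 : 1 + (a - b) ≤ Real.exp (a - b) := by
      have := Real.add_one_le_exp (a - b); linarith
    have h3 : Real.exp b ≤ Real.exp c := Real.exp_le_exp.2 hb
    have h4 : 0 < Real.exp b := Real.exp_pos b
    rw [h1]
    nlinarith
  rcases le_total a b with h | h
  · have h1 : Real.exp a ≤ Real.exp b := Real.exp_le_exp.2 h
    rw [abs_sub_comm, abs_of_nonneg (by linarith), abs_sub_comm a b, abs_of_nonneg (by linarith)]
    exact key a b h hb
  · have h1 : Real.exp b ≤ Real.exp a := Real.exp_le_exp.2 h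
    rw [abs_of_nonneg (by linarith), abs_of_nonneg (by linarith)]
    exact key b a h ha

private theorem w1_eq (x : V) :
    w1 x = Real.exp (-(min ‖x‖ R1) ^ 2 / (2 * R1)) - a1 := by
  have hR := R1_pos
  have hn := norm_nonneg x
  unfold w1
  rcases le_total ‖x‖ R1 with h | h
  · rw [min_eq_left h, max_eq_left]
    unfold a1
    rw [sub_nonneg, Real.exp_le_exp]
    rw [div_le_div_iff₀ (by norm_num) (by positivity)]
    nlinarith
  · rw [min_eq_right h, max_eq_right]
    · unfold a1
      rw [eq_comm, sub_eq_zero]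
      congr 1
      field_simp
    · unfold a1
      rw [sub_nonpos, Real.exp_le_exp]
      rw [div_le_div_iff₀ (by positivity) (by norm_num)]
      nlinarith

private theorem w1_lip : LipschitzWith 1 w1 := by
  have hR := R1_pos
  refine LipschitzWith.of_dist_le_mul fun x y => ?_
  rw [Real.dist_eq, w1_eq, w1_eq, NNReal.coe_one, one_mul, dist_eq_norm]
  set p := min ‖x‖ R1 with hp
  set q := min ‖y‖ R1 with hq
  have hp0 : 0 ≤ p := le_min (norm_nonneg x) hR.le
  have hq0 : 0 ≤ q := le_min (norm_nonneg y) hR.le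
  have hp1 : p ≤ R1 := min_le_right _ _
  have hq1 : q ≤ R1 := min_le_right _ _
  have hpq : |p - q| ≤ ‖x - y‖ := by
    have h1 : |p - q| ≤ |‖x‖ - ‖y‖| := by
      have := abs_min_sub_min_le_max ‖x‖ R1 ‖y‖ R1
      rw [sub_self, abs_zero, max_eq_left (abs_nonneg _)] at this
      exact this
    exact h1.trans (abs_norm_sub_norm_le x y)
  have h1 : Real.exp (-p ^ 2 / (2 * R1)) - a1 - (Real.exp (-q ^ 2 / (2 * R1)) - a1) =
      Real.exp (-p ^ 2 / (2 * R1)) - Real.exp (-q ^ 2 / (2 * R1)) := by ring
  rw [h1]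
  have h2 : -p ^ 2 / (2 * R1) ≤ 0 := div_nonpos_of_nonpos_of_nonneg (by nlinarith) (by linarith)
  have h3 : -q ^ 2 / (2 * R1) ≤ 0 := div_nonpos_of_nonpos_of_nonneg (by nlinarith) (by linarith)
  have h4 := exp_sub_le h2 h3
  rw [Real.exp_zero, one_mul] at h4
  refine h4.trans (le_trans ?_ hpq)
  have h5 : -p ^ 2 / (2 * R1) - -q ^ 2 / (2 * R1) = (q - p) * ((p + q) / (2 * R1)) := by
    field_simp
    ring
  rw [h5, abs_mul, abs_sub_comm q p]
  have h6 : |(p + q) / (2 * R1)| ≤ 1 := by
    rw [abs_of_nonneg (by positivity), div_le_one (by linarith)]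
    linarith
  calc |p - q| * |(p + q) / (2 * R1)| ≤ |p - q| * 1 :=
        mul_le_mul_of_nonneg_left h6 (abs_nonneg _)
    _ = |p - q| := mul_one _

private theorem hot_open : IsOpen {x : V | Hot x} :=
  isOpen_lt continuous_norm continuous_const

/-- **UIBP (a).** Lipschitz, compact support, gradient `u b1` in the hot disc and `0` outside. -/
theorem w1_facts {E : Set V} (h : Body E) : (∃ K : ℝ≥0, LipschitzWith K w1) ∧ HasCompactSupport w1 ∧
    (∀ x, Hot x → w1 x = uu E x - a1 ∧ ∀ y, fderiv ℝ w1 x y = uu E x * ⟪b1 x, y⟫) ∧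
    (∀ x, R1 < ‖x‖ → w1 x = 0 ∧ fderiv ℝ w1 x = 0) := by
  have hR := R1_pos
  have hz : ∀ x : V, R1 ≤ ‖x‖ → w1 x = 0 := by
    intro x hx
    rw [w1_eq, min_eq_right hx]
    unfold a1
    rw [sub_eq_zero]
    congr 1
    field_simp
  have hh : ∀ x : V, Hot x → w1 x = Real.exp (-‖x‖ ^ 2 / (2 * R1)) - a1 := by
    intro x hx
    rw [w1_eq, min_eq_left (le_of_lt hx)]
  refine ⟨⟨1, w1_lip⟩, ?_, ?_, ?_⟩
  · refine HasCompactSupport.intro (isCompact_closedBall (0 : V) R1) fun x hx => hz x ?_
    rw [mem_closedBall, dist_zero_right, not_le] at hx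
    exact hx.le
  · intro x hx
    have hu : uu E x = Real.exp (-‖x‖ ^ 2 / (2 * R1)) := by
      unfold uu
      rw [if_pos hx]
    refine ⟨by rw [hh x hx, hu], fun y => ?_⟩
    have hev : w1 =ᶠ[𝓝 x] fun z => Real.exp (-‖z‖ ^ 2 / (2 * R1)) - a1 := by
      filter_upwards [hot_open.mem_nhds hx] with z hz
      exact hh z hz
    rw [hev.fderiv_eq]
    have h1 : HasFDerivAt (fun z : V => ‖z‖ ^ 2) (2 • (innerSL ℝ x)) x :=
      (hasStrictFDerivAt_norm_sq x).hasFDerivAt
    have h2 : HasFDerivAt (fun z : V => Real.exp (-‖z‖ ^ 2 / (2 * R1)) - a1)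
        (Real.exp (-‖x‖ ^ 2 / (2 * R1)) •
          ((2 * R1)⁻¹ • (-(2 • (innerSL ℝ x : V →L[ℝ] ℝ))) : V →L[ℝ] ℝ)) x := by
      have h3 : HasFDerivAt (fun z : V => -‖z‖ ^ 2 / (2 * R1))
          ((2 * R1)⁻¹ • (-(2 • (innerSL ℝ x : V →L[ℝ] ℝ))) : V →L[ℝ] ℝ) x := by
        have h4 := (h1.neg).const_smul ((2 * R1)⁻¹)
        refine h4.congr_of_eventuallyEq (Eventually.of_forall fun z => ?_)
        simp only [Pi.smul_apply, Pi.neg_apply, smul_eq_mul]
        rw [div_eq_inv_mul]
      exact (h3.exp).sub_const a1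
    rw [h2.fderiv, hu, b1_hot (le_of_lt hx)]
    simp only [smul_apply, neg_apply, innerSL_apply_apply,
      smul_eq_mul, inner_neg_left, real_inner_smul_left, nsmul_eq_mul, Nat.cast_ofNat]
    field_simp
  · intro x hx
    refine ⟨hz x hx.le, ?_⟩
    have hev : w1 =ᶠ[𝓝 x] fun _ => (0 : ℝ) := by
      filter_upwards [(isOpen_lt continuous_const continuous_norm).mem_nhds hx] with z hz'
      exact hz z (le_of_lt hz')
    rw [hev.fderiv_eq]
    simp

private theorem TT (s : ℝ) : max (s - s ^ 2 / LL) 0 =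
    (max 0 (min s LL)) - (max 0 (min s LL)) ^ 2 / LL := by
  have hL := LL_pos
  rcases le_total s 0 with h | h
  · rw [max_eq_left ((min_le_left _ _).trans h), max_eq_right]
    · simp
    · have : 0 ≤ s ^ 2 / LL := by positivity
      linarith
  · rcases le_total s LL with h' | h'
    · rw [min_eq_left h', max_eq_right h, max_eq_left]
      rw [sub_nonneg, div_le_iff₀ hL]
      nlinarith
    · rw [min_eq_right h', max_eq_right hL.le, max_eq_right]
      · field_simp; ring
      · rw [sub_nonpos, le_div_iff₀ hL]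
        nlinarith

private theorem TT_lip (s t : ℝ) : |max (s - s ^ 2 / LL) 0 - max (t - t ^ 2 / LL) 0| ≤ |s - t| := by
  have hL := LL_pos
  rw [TT, TT]
  set p := max 0 (min s LL) with hp
  set q := max 0 (min t LL) with hq
  have hp0 : 0 ≤ p := le_max_left _ _
  have hq0 : 0 ≤ q := le_max_left _ _
  have hp1 : p ≤ LL := max_le hL.le (min_le_right _ _)
  have hq1 : q ≤ LL := max_le hL.le (min_le_right _ _)
  have hpq : |p - q| ≤ |s - t| := by
    have h1 := abs_max_sub_max_le_max 0 (min s LL) 0 (min t LL)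
    rw [sub_self, abs_zero, max_eq_right (abs_nonneg (min s LL - min t LL))] at h1
    have h2 := abs_min_sub_min_le_max s LL t LL
    rw [sub_self, abs_zero, max_eq_left (abs_nonneg _)] at h2
    exact h1.trans h2
  refine le_trans ?_ hpq
  have h5 : p - p ^ 2 / LL - (q - q ^ 2 / LL) = (p - q) * (1 - (p + q) / LL) := by
    field_simp
    ring
  rw [h5, abs_mul]
  have h6 : |1 - (p + q) / LL| ≤ 1 := by
    have h7 : 0 ≤ (p + q) / LL := by positivity
    have h8 : (p + q) / LL ≤ 2 := by
      rw [div_le_iff₀ hL]; linarith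
    rw [abs_le]
    constructor <;> linarith
  calc |p - q| * |1 - (p + q) / LL| ≤ |p - q| * 1 :=
        mul_le_mul_of_nonneg_left h6 (abs_nonneg _)
    _ = |p - q| := mul_one _

private theorem TT_le (s : ℝ) : max (s - s ^ 2 / LL) 0 ≤ 1 := by
  have hL := LL_pos
  rw [TT]
  set p := max 0 (min s LL) with hp
  have hp0 : 0 ≤ p := le_max_left _ _
  have hp1 : p ≤ LL := max_le hL.le (min_le_right _ _)
  have h1 : 0 ≤ p ^ 2 / LL := by positivity
  have h2 : LL ≤ 1 := by unfold LL mm; norm_num
  linarith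

private theorem cold_open (E : Set V) : IsOpen {x : V | Cold E x} := by
  have : {x : V | Cold E x} = {x | ee < infDist x E} ∩ {x | infDist x E < ee + LL} := rfl
  rw [this]
  exact (isOpen_lt continuous_const (continuous_infDist_pt E)).inter
    (isOpen_lt (continuous_infDist_pt E) continuous_const)

/-- **UIBP (b).** Lipschitz, compact support, gradient `u b2` in the cold ring and `0` outside
(derivative of `infDist`: `hasFDerivAt_dist`; `b2_cold`). -/
theorem w2_facts {E : Set V} (h : Body E) : (∃ K : ℝ≥0, LipschitzWith K (w2 E)) ∧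
    HasCompactSupport (w2 E) ∧
    (∀ x, Cold E x → w2 E x = uu E x - aa ∧ ∀ y, fderiv ℝ (w2 E) x y = uu E x * ⟪b2 E x, y⟫) ∧
    (∀ x, infDist x E < ee ∨ ee + LL < infDist x E → w2 E x = 0 ∧ fderiv ℝ (w2 E) x = 0) := by
  have hL := LL_pos
  have ha := aa_pos
  have he := ee_pos
  have hz : ∀ x : V, infDist x E ≤ ee ∨ ee + LL ≤ infDist x E → w2 E x = 0 := by
    intro x hx
    unfold w2
    have h1 : max ((infDist x E - ee) - (infDist x E - ee) ^ 2 / LL) 0 = 0 := by
      rw [TT]
      rcases hx with hx | hx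
      · rw [max_eq_left ((min_le_left _ _).trans (by linarith))]
        simp
      · rw [min_eq_right (by linarith), max_eq_right hL.le]
        field_simp; ring
    rw [h1, Real.exp_zero, sub_self, mul_zero]
  have hh : ∀ x : V, Cold E x → w2 E x =
      aa * (Real.exp ((infDist x E - ee) - (infDist x E - ee) ^ 2 / LL) - 1) := by
    intro x hx
    unfold w2
    rw [max_eq_left]
    obtain ⟨h1, h2⟩ := hx
    rw [sub_nonneg, div_le_iff₀ hL]
    nlinarith
  refine ⟨⟨⟨aa * Real.exp 1, by positivity⟩, ?_⟩, ?_, ?_, ?_⟩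
  · refine LipschitzWith.of_dist_le_mul fun x y => ?_
    rw [Real.dist_eq]
    show _ ≤ (aa * Real.exp 1) * dist x y
    unfold w2
    rw [← mul_sub, abs_mul, abs_of_pos ha, mul_assoc]
    refine mul_le_mul_of_nonneg_left ?_ ha.le
    have h1 := exp_sub_le (TT_le (infDist x E - ee)) (TT_le (infDist y E - ee))
    have h2 : Real.exp (max ((infDist x E - ee) - (infDist x E - ee) ^ 2 / LL) 0) - 1 -
        (Real.exp (max ((infDist y E - ee) - (infDist y E - ee) ^ 2 / LL) 0) - 1) =
        Real.exp (max ((infDist x E - ee) - (infDist x E - ee) ^ 2 / LL) 0) -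
        Real.exp (max ((infDist y E - ee) - (infDist y E - ee) ^ 2 / LL) 0) := by ring
    rw [h2]
    refine h1.trans (mul_le_mul_of_nonneg_left ?_ (Real.exp_pos 1).le)
    refine (TT_lip _ _).trans ?_
    have h3 : infDist x E - ee - (infDist y E - ee) = infDist x E - infDist y E := by ring
    rw [h3]
    have h4 := (lipschitz_infDist_pt E).dist_le_mul x y
    rw [Real.dist_eq, NNReal.coe_one, one_mul] at h4
    exact h4
  · refine HasCompactSupport.intro (isCompact_closedBall (0 : V) (ee + LL + 2 * e0))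
      fun x hx => hz x (Or.inr ?_)
    rw [mem_closedBall, dist_zero_right, not_le] at hx
    have := le_infDist h x
    linarith
  · intro x hx
    have hnh : ¬ Hot x := fun hhot => by
      have := hot_lt h hhot
      have := hx.1
      linarith
    have hu : uu E x = aa * Real.exp ((infDist x E - ee) - (infDist x E - ee) ^ 2 / LL) := by
      unfold uu
      rw [if_neg hnh, if_pos hx]
      rfl
    refine ⟨by rw [hh x hx, hu]; ring, fun y => ?_⟩
    have hev : w2 E =ᶠ[𝓝 x] fun z =>
        aa * (Real.exp ((infDist z E - ee) - (infDist z E - ee) ^ 2 / LL) - 1) := by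
      filter_upwards [(cold_open E).mem_nhds hx] with z hz
      exact hh z hz
    rw [hev.fderiv_eq]
    have hpos : 0 < infDist x E := lt_trans he hx.1
    have hxE : x ∉ E := by
      intro hxE
      rw [infDist_zero_of_mem hxE] at hpos
      exact lt_irrefl _ hpos
    have h1 := hasFDerivAt_dist h.cl h.cv h.ne hxE
    have h2 : HasDerivAt (fun d : ℝ => aa * (Real.exp ((d - ee) - (d - ee) ^ 2 / LL) - 1))
        (aa * (Real.exp ((infDist x E - ee) - (infDist x E - ee) ^ 2 / LL) *
          (1 - 2 * (infDist x E - ee) / LL))) (infDist x E) := by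
      have h3 : HasDerivAt (fun d : ℝ => (d - ee) - (d - ee) ^ 2 / LL)
          (1 - 2 * (infDist x E - ee) / LL) (infDist x E) := by
        have h4 : HasDerivAt (fun d : ℝ => d - ee) 1 (infDist x E) :=
          (hasDerivAt_id _).sub_const ee
        have h5 : HasDerivAt (fun d : ℝ => (d - ee) ^ 2 / LL) (2 * (infDist x E - ee) / LL)
            (infDist x E) := by
          have h6 := (h4.fun_pow 2).div_const LL
          simpa using h6
        exact h4.fun_sub h5
      exact (h3.exp.sub_const 1).const_mul aa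
    have h3 := h2.comp_hasFDerivAt x h1
    have h4 : fderiv ℝ (fun z =>
        aa * (Real.exp ((infDist z E - ee) - (infDist z E - ee) ^ 2 / LL) - 1)) x =
        (aa * (Real.exp ((infDist x E - ee) - (infDist x E - ee) ^ 2 / LL) *
          (1 - 2 * (infDist x E - ee) / LL))) • (innerSL ℝ ((infDist x E)⁻¹ • rs E x)) :=
      h3.fderiv
    rw [h4, b2_cold h hx.1.le hx.2.le, hu]
    simp only [smul_apply, innerSL_apply_apply, smul_eq_mul,
      real_inner_smul_left]
    field_simp
  · intro x hx
    have hx' : infDist x E ≤ ee ∨ ee + LL ≤ infDist x E := hx.imp le_of_lt le_of_lt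
    refine ⟨hz x hx', ?_⟩
    have hopen : IsOpen {z : V | infDist z E < ee ∨ ee + LL < infDist z E} :=
      (isOpen_lt (continuous_infDist_pt E) continuous_const).union
        (isOpen_lt continuous_const (continuous_infDist_pt E))
    have hev : w2 E =ᶠ[𝓝 x] fun _ => (0 : ℝ) := by
      filter_upwards [hopen.mem_nhds hx] with z hz'
      exact hz z (hz'.imp le_of_lt le_of_lt)
    rw [hev.fderiv_eq]
    simp

end MP_614bef_an
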