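import Pool.Agent.Lib.MP_614bef_an.GG
import Pool.Agent.Lib.MP_614bef_an.UGrad

set_option autoImplicit false

namespace MP_614bef_an

open MeasureTheory Set Filter Metric
open scoped RealInnerProductSpace ENNReal NNReal Topology ContDiff

private theorem uIbp_ee_pos : 0 < ee := by unfold ee mm; norm_num
private theorem uIbp_LL_pos : 0 < LL := by unfold LL mm; norm_num
private theorem uIbp_R1_pos : 0 < R1 := by unfold R1 ee e0 mm; norm_num

private theorem uIbp_divg_cont {φ : V → V} (hφ : ContDiff ℝ ∞ φ) : Continuous (divg φ) := by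
  unfold divg
  have h1 : Continuous (fderiv ℝ φ) := hφ.continuous_fderiv (by simp)
  refine continuous_finsetSum _ fun i _ => ?_
  have h2 : Continuous fun x => fderiv ℝ φ x (EuclideanSpace.single i 1) := h1.clm_apply continuous_const
  fun_prop

private theorem uIbp_divg_supp {φ : V → V} (hc : HasCompactSupport φ) :
    HasCompactSupport (divg φ) := by
  have h1 : HasCompactSupport (fderiv ℝ φ) := hc.fderiv ℝ
  refine h1.mono ?_
  intro x hx
  rw [Function.mem_support] at hx ⊢
  intro h0
  apply hx
  unfold divg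
  simp [h0]

private theorem uIbp_ae {E : Set V} (h : Body E) :
    ∀ᵐ x : V, ‖x‖ ≠ R1 ∧ infDist x E ≠ ee ∧ infDist x E ≠ ee + LL := by
  have h1 : volume {x : V | ‖x‖ = R1} = 0 := by
    have := Measure.addHaar_sphere (volume : Measure V) (0 : V) R1
    rwa [show {x : V | ‖x‖ = R1} = sphere (0 : V) R1 by
      ext x
      simp]
  have h2 := null_level h.cl h.cv h.ne uIbp_ee_pos
  have h3 := null_level h.cl h.cv h.ne (add_pos uIbp_ee_pos uIbp_LL_pos)
  have h1' : ∀ᵐ x : V, ‖x‖ ≠ R1 := by
    rw [ae_iff]
    simpa using h1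
  have h2' : ∀ᵐ x : V, infDist x E ≠ ee := by
    rw [ae_iff]
    simpa using h2
  have h3' : ∀ᵐ x : V, infDist x E ≠ ee + LL := by
    rw [ae_iff]
    simpa using h3
  filter_upwards [h1', h2', h3'] with x a b c
  exact ⟨a, b, c⟩

/-- pointwise decomposition off the three curves -/
private theorem uIbp_point {E : Set V} (h : Body E) {x : V}
    (hx : ‖x‖ ≠ R1 ∧ infDist x E ≠ ee ∧ infDist x E ≠ ee + LL) (D : V → ℝ) (y : V) :
    uu E x * D x = w1 x * D x + w2 E x * D x + a1 * {z : V | ‖z‖ < R1}.indicator D x +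
        aa * ({z : V | infDist z E < ee + LL}.indicator D x -
          {z : V | infDist z E < ee}.indicator D x) ∧
      ⟪gg E x, y⟫ = fderiv ℝ w1 x y + fderiv ℝ (w2 E) x y := by
  obtain ⟨hx1, hx2, hx3⟩ := hx
  obtain ⟨-, -, hw1, hw1'⟩ := w1_facts h
  obtain ⟨-, -, hw2, hw2'⟩ := w2_facts h
  have hLL := uIbp_LL_pos
  by_cases hh : Hot x
  · obtain ⟨e1, e2⟩ := hw1 x hh
    have hlt : infDist x E < ee := hot_lt h hh
    obtain ⟨e3, e4⟩ := hw2' x (Or.inl hlt)
    have i1 : x ∈ {z : V | ‖z‖ < R1} := hh
    have i2 : x ∈ {z : V | infDist z E < ee + LL} := by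
      change infDist x E < ee + LL
      linarith
    have i3 : x ∈ {z : V | infDist z E < ee} := hlt
    obtain ⟨-, -, -, -, hg⟩ := hot_facts (E := E) hh
    refine ⟨?_, ?_⟩
    · rw [indicator_of_mem i1, indicator_of_mem i2, indicator_of_mem i3, e1, e3]
      ring
    · rw [e2, e4, hg, inner_smul_left]
      simp
  · have hR : R1 < ‖x‖ := lt_of_le_of_ne (not_lt.mp hh) (Ne.symm hx1)
    obtain ⟨e1, e2⟩ := hw1' x hR
    have i1 : x ∉ {z : V | ‖z‖ < R1} := hh
    by_cases hc : Cold E x
    · obtain ⟨e3, e4⟩ := hw2 x hc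
      have i2 : x ∈ {z : V | infDist z E < ee + LL} := hc.2
      have i3 : x ∉ {z : V | infDist z E < ee} := fun h0 => lt_asymm h0 hc.1
      obtain ⟨-, -, -, -, -, -, -, -, -, hg⟩ := cold_facts h hc
      refine ⟨?_, ?_⟩
      · rw [indicator_of_notMem i1, indicator_of_mem i2, indicator_of_notMem i3, e1, e3]
        ring
      · rw [e2, e4, hg, inner_smul_left]
        simp
    · obtain ⟨hu, hg, -, -, -⟩ := off_facts hh hc
      rcases lt_or_gt_of_ne hx2 with h2 | h2
      · obtain ⟨e3, e4⟩ := hw2' x (Or.inl h2)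
        have i2 : x ∈ {z : V | infDist z E < ee + LL} := by
          change infDist x E < ee + LL
          linarith
        have i3 : x ∈ {z : V | infDist z E < ee} := h2
        refine ⟨?_, ?_⟩
        · rw [indicator_of_notMem i1, indicator_of_mem i2, indicator_of_mem i3, e1, e3, hu]
          ring
        · rw [e2, e4, hg]
          simp
      · have h3 : ee + LL < infDist x E := by
          rcases lt_or_gt_of_ne hx3 with h4 | h4
          · exact absurd ⟨h2, h4⟩ hc
          · exact h4
        obtain ⟨e3, e4⟩ := hw2' x (Or.inr h3)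
        have i2 : x ∉ {z : V | infDist z E < ee + LL} := fun h0 => lt_asymm h0 h3
        have i3 : x ∉ {z : V | infDist z E < ee} := fun h0 => lt_asymm h0 h2
        refine ⟨?_, ?_⟩
        · rw [indicator_of_notMem i1, indicator_of_notMem i2, indicator_of_notMem i3, e1, e3, hu]
          ring
        · rw [e2, e4, hg]
          simp

/-- pointwise decomposition on the curves -/
private theorem uIbp_curve {E : Set V} (h : Body E)
    (touch : ∀ x, x ∈ S1 → x ∈ S2 E → rs E x = (ee / R1) • x) (φ : V → V) (x : V) :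
    (GA E).indicator (fun x => (upp x - umm E x) * ⟪nuu E x, φ x⟫) x =
      -(a1 * S1.indicator (fun x => ⟪φ x, R1⁻¹ • x⟫) x) +
      aa * (S2 E).indicator (fun x => ⟪φ x, ee⁻¹ • rs E x⟫) x -
      aa * (S3 E).indicator (fun x => ⟪φ x, (ee + LL)⁻¹ • rs E x⟫) x := by
  have hLL := uIbp_LL_pos
  by_cases h1 : x ∈ S1
  · have h3 : x ∉ S3 E := by
      intro h3
      have h4 := S1_le h h1
      have h5 : infDist x E = ee + LL := h3
      linarith
    have hG : x ∈ GA E := Or.inl (Or.inl h1)
    rw [indicator_of_mem hG, indicator_of_mem h1, indicator_of_notMem h3]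
    by_cases h2 : x ∈ S2 E
    · rw [indicator_of_mem h2]
      have e1 : upp x = a1 := if_pos h1
      have e2 : umm E x = aa := if_pos ⟨h1, h2⟩
      have e3 : nuu E x = -(R1⁻¹ • x) := if_pos h1
      have e4 : ee⁻¹ • rs E x = R1⁻¹ • x := by
        rw [touch x h1 h2, smul_smul]
        congr 1
        have := uIbp_ee_pos
        field_simp
      rw [e1, e2, e3, e4, inner_neg_left, real_inner_comm]
      ring
    · rw [indicator_of_notMem h2]
      have e1 : upp x = a1 := if_pos h1
      have e2 : umm E x = 0 := if_neg fun h0 => h2 h0.2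
      have e3 : nuu E x = -(R1⁻¹ • x) := if_pos h1
      rw [e1, e2, e3, inner_neg_left, real_inner_comm]
      ring
  · rw [indicator_of_notMem h1]
    have e1 : upp x = aa := if_neg h1
    have e2 : umm E x = 0 := if_neg fun h0 => h1 h0.1
    by_cases h2 : x ∈ S2 E
    · have h3 : x ∉ S3 E := by
        intro h3
        have h4 : infDist x E = ee := h2
        have h5 : infDist x E = ee + LL := h3
        linarith
      have hG : x ∈ GA E := Or.inl (Or.inr h2)
      have e3 : nuu E x = ee⁻¹ • rs E x := by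
        unfold nuu
        rw [if_neg h1, if_pos h2]
      rw [indicator_of_mem hG, indicator_of_mem h2, indicator_of_notMem h3, e1, e2, e3,
        real_inner_comm]
      ring
    · rw [indicator_of_notMem h2]
      by_cases h3 : x ∈ S3 E
      · have hG : x ∈ GA E := Or.inr h3
        have e3 : nuu E x = -((ee + LL)⁻¹ • rs E x) := by
          unfold nuu
          rw [if_neg h1, if_neg h2]
        rw [indicator_of_mem hG, indicator_of_mem h3, e1, e2, e3, inner_neg_left,
          real_inner_comm]
        ring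
      · have hG : x ∉ GA E := by
          rintro ((h4 | h4) | h4)
          · exact h1 h4
          · exact h2 h4
          · exact h3 h4
        rw [indicator_of_notMem hG, indicator_of_notMem h3]
        ring

private theorem uIbp_int {S : Set V} (hS : MeasurableSet S) (hf : μH[1] S < ⊤) {f : V → ℝ}
    (hfc : Continuous f) (hcs : HasCompactSupport f) :
    Integrable (S.indicator f) (μH[1] : Measure V) := by
  rw [integrable_indicator_iff hS]
  have : IsFiniteMeasure ((μH[1] : Measure V).restrict S) :=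
    ⟨by rwa [Measure.restrict_apply_univ]⟩
  exact hfc.integrable_of_hasCompactSupport hcs

/-- **UIBP (c).** integration by parts for `uu`.  PROOF: off a null set
`uu = w1 + a1 1_{‖x‖<R1} + w2 + aa (1_{infDist < ee+LL} - 1_{infDist < ee})` and
`gg = ∇w1 + ∇w2`.  Use `ibp_lip` for `w1`, `w2` (the test field is Lipschitz), `gauss_green_disc`,
`gauss_green` (`s = ee`, `s = ee + LL`).  On the union of the curves
`(upp - umm) nuu = -a1 1_{S1} R1⁻¹ x + aa 1_{S2} ee⁻¹ rs - aa 1_{S3} (ee+LL)⁻¹ rs` (on `S1 ∩ S2` by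
`touch` : `ee⁻¹ • rs E x = R1⁻¹ • x`; `S3` is disjoint from `S1 ∪ S2`). -/
theorem uu_ibp {E : Set V} (h : Body E)
    (touch : ∀ x, x ∈ S1 → x ∈ S2 E → rs E x = (ee / R1) • x) {φ : V → V} (hφ : ContDiff ℝ ∞ φ)
    (hc : HasCompactSupport φ) :
    ∫ x, uu E x * divg φ x =
      -(∫ x, ⟪gg E x, φ x⟫) - ∫ x in GA E, (upp x - umm E x) * ⟪nuu E x, φ x⟫ ∂μH[1] := by
  obtain ⟨⟨K1, hw1L⟩, hw1c, -, -⟩ := w1_facts h
  obtain ⟨⟨K2, hw2L⟩, hw2c, -, -⟩ := w2_facts h
  have hDc : Continuous (divg φ) := uIbp_divg_cont hφ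
  have hDs : HasCompactSupport (divg φ) := uIbp_divg_supp hc
  have hDi : Integrable (divg φ) := hDc.integrable_of_hasCompactSupport hDs
  have hdist : Continuous fun x : V => infDist x E := continuous_infDist_pt E
  have hrs : Continuous (rs E) := (rs_lip h.cl h.cv h.ne).continuous
  have m1 : MeasurableSet {z : V | ‖z‖ < R1} :=
    measurableSet_lt measurable_norm measurable_const
  have m2 : MeasurableSet {z : V | infDist z E < ee + LL} :=
    measurableSet_lt hdist.measurable measurable_const
  have m3 : MeasurableSet {z : V | infDist z E < ee} :=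
    measurableSet_lt hdist.measurable measurable_const
  have s1 : MeasurableSet S1 := measurableSet_eq_fun measurable_norm measurable_const
  have s2 : MeasurableSet (S2 E) := measurableSet_eq_fun hdist.measurable measurable_const
  have s3 : MeasurableSet (S3 E) := measurableSet_eq_fun hdist.measurable measurable_const
  obtain ⟨K, hK⟩ : ∃ K : ℝ≥0, LipschitzWith K φ :=
    hφ.lipschitzWith_of_hasCompactSupport hc (by simp)
  -- integrability of the pieces
  have i1 : Integrable (fun x => w1 x * divg φ x) :=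
    (hw1L.continuous.mul hDc).integrable_of_hasCompactSupport hw1c.mul_right
  have i2 : Integrable (fun x => w2 E x * divg φ x) :=
    (hw2L.continuous.mul hDc).integrable_of_hasCompactSupport hw2c.mul_right
  have i3 : Integrable (fun x => a1 * {z : V | ‖z‖ < R1}.indicator (divg φ) x) :=
    (hDi.indicator m1).const_mul _
  have i4 : Integrable ({z : V | infDist z E < ee + LL}.indicator (divg φ)) := hDi.indicator m2
  have i5 : Integrable ({z : V | infDist z E < ee}.indicator (divg φ)) := hDi.indicator m3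
  have i6 : Integrable (fun x => aa * ({z : V | infDist z E < ee + LL}.indicator (divg φ) x -
      {z : V | infDist z E < ee}.indicator (divg φ) x)) := (i4.sub i5).const_mul _
  have L : ∫ x, uu E x * divg φ x = (∫ x, w1 x * divg φ x) + (∫ x, w2 E x * divg φ x) +
      a1 * (∫ x in {z : V | ‖z‖ < R1}, divg φ x) +
      aa * ((∫ x in {z : V | infDist z E < ee + LL}, divg φ x) -
        ∫ x in {z : V | infDist z E < ee}, divg φ x) := by
    have i12 : Integrable (fun x => w1 x * divg φ x + w2 E x * divg φ x) := i1.add i2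
    have i123 : Integrable (fun x => w1 x * divg φ x + w2 E x * divg φ x +
        a1 * {z : V | ‖z‖ < R1}.indicator (divg φ) x) := i12.add i3
    rw [← integral_indicator m1, ← integral_indicator m2, ← integral_indicator m3,
      ← integral_sub i4 i5, ← integral_const_mul, ← integral_const_mul, ← integral_add i1 i2,
      ← integral_add i12 i3, ← integral_add i123 i6]
    refine integral_congr_ae ?_
    filter_upwards [uIbp_ae h] with x hx
    exact (uIbp_point h hx (divg φ) 0).1
  -- the gradient
  have hφc : Continuous φ := hφ.continuous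
  have bound : ∀ {w : V → ℝ} {K : ℝ≥0}, LipschitzWith K w → HasCompactSupport w →
      Integrable (fun x => fderiv ℝ w x (φ x)) := by
    intro w K hw hwc
    have hms : Measurable fun x => fderiv ℝ w x (φ x) := by
      have h1 : Measurable (fderiv ℝ w) := measurable_fderiv ℝ w
      have h2 : Measurable fun x => (fderiv ℝ w x, φ x) := h1.prodMk hφc.measurable
      exact (isBoundedBilinearMap_apply (𝕜 := ℝ) (E := V) (F := ℝ)).continuous.measurable.comp h2
    have hnn : Integrable (fun x => (K : ℝ) * ‖φ x‖) :=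
      ((hφc.norm).integrable_of_hasCompactSupport hc.norm).const_mul _
    refine hnn.mono' hms.aestronglyMeasurable (Filter.Eventually.of_forall fun x => ?_)
    refine ((fderiv ℝ w x).le_opNorm (φ x)).trans ?_
    exact mul_le_mul_of_nonneg_right (norm_fderiv_le_of_lipschitz ℝ hw) (norm_nonneg _)
  have G : ∫ x, ⟪gg E x, φ x⟫ = (∫ x, fderiv ℝ w1 x (φ x)) + ∫ x, fderiv ℝ (w2 E) x (φ x) := by
    rw [← integral_add (bound hw1L hw1c) (bound hw2L hw2c)]
    refine integral_congr_ae ?_
    filter_upwards [uIbp_ae h] with x hx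
    exact (uIbp_point h hx (divg φ) (φ x)).2
  -- the curves
  have hC : ∀ {c : ℝ}, Continuous fun x : V => ⟪φ x, c • rs E x⟫ := by
    intro c
    exact hφc.inner (hrs.const_smul c)
  have hC' : ∀ {c : ℝ}, HasCompactSupport fun x : V => ⟪φ x, c • rs E x⟫ := by
    intro c
    refine hc.mono ?_
    intro x hx
    rw [Function.mem_support] at hx ⊢
    intro h0
    exact hx (by rw [h0, inner_zero_left])
  have hB : Continuous fun x : V => ⟪φ x, R1⁻¹ • x⟫ := hφc.inner (continuous_const_smul R1⁻¹)
  have hB' : HasCompactSupport fun x : V => ⟪φ x, R1⁻¹ • x⟫ := by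
    refine hc.mono ?_
    intro x hx
    rw [Function.mem_support] at hx ⊢
    intro h0
    exact hx (by rw [h0, inner_zero_left])
  have j1 := uIbp_int s1 S1_finite hB hB'
  have j2 := uIbp_int s2 (level_finite h uIbp_ee_pos) (hC (c := ee⁻¹)) (hC' (c := ee⁻¹))
  have j3 := uIbp_int s3 (level_finite h (add_pos uIbp_ee_pos uIbp_LL_pos))
    (hC (c := (ee + LL)⁻¹)) (hC' (c := (ee + LL)⁻¹))
  have C : ∫ x in GA E, (upp x - umm E x) * ⟪nuu E x, φ x⟫ ∂μH[1] =
      -(a1 * ∫ x in S1, ⟪φ x, R1⁻¹ • x⟫ ∂μH[1]) +
      aa * (∫ x in S2 E, ⟪φ x, ee⁻¹ • rs E x⟫ ∂μH[1]) -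
      aa * ∫ x in S3 E, ⟪φ x, (ee + LL)⁻¹ • rs E x⟫ ∂μH[1] := by
    have sG : MeasurableSet (GA E) := (s1.union s2).union s3
    have k1 : Integrable (fun x => -(a1 * S1.indicator (fun x => ⟪φ x, R1⁻¹ • x⟫) x))
        (μH[1] : Measure V) := (j1.const_mul a1).neg
    have k2 : Integrable (fun x => aa * (S2 E).indicator (fun x => ⟪φ x, ee⁻¹ • rs E x⟫) x)
        (μH[1] : Measure V) := j2.const_mul aa
    have k3 : Integrable (fun x => aa * (S3 E).indicator (fun x => ⟪φ x, (ee + LL)⁻¹ • rs E x⟫) x)
        (μH[1] : Measure V) := j3.const_mul aa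
    have k12 : Integrable (fun x => -(a1 * S1.indicator (fun x => ⟪φ x, R1⁻¹ • x⟫) x) +
        aa * (S2 E).indicator (fun x => ⟪φ x, ee⁻¹ • rs E x⟫) x)
        (μH[1] : Measure V) := k1.add k2
    rw [← integral_indicator sG, ← integral_indicator s1,
      ← integral_indicator s2, ← integral_indicator s3, ← integral_const_mul,
      ← integral_const_mul, ← integral_const_mul, ← integral_neg,
      ← integral_add k1 k2, ← integral_sub k12 k3]
    exact integral_congr_ae (Filter.Eventually.of_forall fun x => uIbp_curve h touch φ x)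
  have hφ1 : ContDiff ℝ 1 φ := hφ.of_le (by simp)
  rw [L, G, C, ibp_lip hw1L hw1c hK, ibp_lip hw2L hw2c hK, gauss_green_disc hφ1,
    gauss_green h uIbp_ee_pos hφ1, gauss_green h (add_pos uIbp_ee_pos uIbp_LL_pos) hφ1]
  change _ + _ + a1 * _ + aa * ((∫ x in S3 E, _ ∂μH[1]) - ∫ x in S2 E, _ ∂μH[1]) = _
  ring

end MP_614bef_an
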