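import Pool.Agent.Lib.MP_614bef_an.UJ
import Pool.Agent.Lib.MP_614bef_an.UIbp

set_option autoImplicit false

namespace MP_614bef_an

open MeasureTheory Set Filter Metric
open scoped RealInnerProductSpace ENNReal NNReal Topology ContDiff

private theorem UAdm_consts : 0 < aa ∧ 0 < mm ∧ 0 < e0 ∧ 0 < ee ∧ 0 < R1 ∧ 0 < LL ∧ c0 ≤ ee ∧
    R1 ≤ 18 * mm ∧ aa ≤ 2 * aa ∧ 201 * aa ≤ 99 / 100 ∧ 0 < c0 := by
  unfold R1 c0 e0 ee LL mm aa
  norm_num

private theorem UAdm_off {E : Set V} (h : Body E) {x : V} (hx : x ∉ closedBall (0 : V) (18 * mm)) :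
    ¬ Hot x ∧ ¬ Cold E x := by
  obtain ⟨-, -, -, -, -, -, -, hR, -⟩ := UAdm_consts
  rw [mem_closedBall, dist_zero_right, not_le] at hx
  refine ⟨fun h1 => ?_, fun h1 => ?_⟩
  · unfold Hot at h1
    linarith
  · have := (cold_facts h h1).2.2.1
    linarith

private theorem UAdm_hot_meas : MeasurableSet {x : V | Hot x} := by
  unfold Hot
  exact (isOpen_lt continuous_norm continuous_const).measurableSet

private theorem UAdm_cold_meas (E : Set V) : MeasurableSet {x : V | Cold E x} := by
  unfold Cold
  exact ((isOpen_lt continuous_const (continuous_infDist_pt E)).inter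
    (isOpen_lt (continuous_infDist_pt E) continuous_const)).measurableSet

private theorem UAdm_gg_meas {E : Set V} (h : Body E) : Measurable (gg E) := by
  obtain ⟨K1, hK1⟩ := b1_lip
  obtain ⟨K2, hK2⟩ := b2_lip h
  unfold gg
  exact Measurable.ite UAdm_hot_meas ((uu_measurable E).smul hK1.continuous.measurable)
    (Measurable.ite (UAdm_cold_meas E) ((uu_measurable E).smul hK2.continuous.measurable)
      measurable_const)

private theorem UAdm_gg_le {E : Set V} (h : Body E) (x : V) : ‖gg E x‖ ≤ 1 := by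
  obtain ⟨h0, h1⟩ := uu_bounds h x
  by_cases hH : Hot x
  · rw [(hot_facts hH).2.2.2.2, norm_smul, Real.norm_eq_abs, abs_of_nonneg h0]
    calc uu E x * ‖b1 x‖ ≤ 1 * 1 := mul_le_mul h1 (b1_norm x) (norm_nonneg _) (by norm_num)
      _ = 1 := one_mul _
  · by_cases hC : Cold E x
    · rw [(cold_facts h hC).2.2.2.2.2.2.2.2.2, norm_smul, Real.norm_eq_abs, abs_of_nonneg h0]
      calc uu E x * ‖b2 E x‖ ≤ 1 * 1 := mul_le_mul h1 (b2_norm x) (norm_nonneg _) (by norm_num)
        _ = 1 := one_mul _
    · rw [(off_facts hH hC).2.1, norm_zero]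
      norm_num

private theorem UAdm_memLp {F : Type*} [NormedAddCommGroup F] [MeasurableSpace F] [BorelSpace F]
    [SecondCountableTopology F] {w : V → F}
    (hw : Measurable w) (h1 : ∀ x, ‖w x‖ ≤ 1) {R : ℝ} (h0 : ∀ x, x ∉ closedBall (0 : V) R → w x = 0)
    (p : ℝ≥0∞) : MemLp w p := by
  have e : w = (closedBall (0 : V) R).indicator w := by
    ext x
    by_cases hx : x ∈ closedBall (0 : V) R
    · rw [indicator_of_mem hx]
    · rw [indicator_of_notMem hx, h0 x hx]
  rw [e, memLp_indicator_iff_restrict measurableSet_closedBall]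
  have : IsFiniteMeasure (volume.restrict (closedBall (0 : V) R)) :=
    ⟨by rw [Measure.restrict_apply_univ]; exact measure_closedBall_lt_top⟩
  exact MemLp.of_bound hw.aestronglyMeasurable 1 (Eventually.of_forall h1)

private theorem UAdm_nuu_meas {E : Set V} (h : Body E) : Measurable (nuu E) := by
  have hr := (rs_lip h.cl h.cv h.ne).continuous.measurable
  have m1 : MeasurableSet S1 := (isClosed_eq continuous_norm continuous_const).measurableSet
  have m2 : MeasurableSet (S2 E) :=
    (isClosed_eq (continuous_infDist_pt E) continuous_const).measurableSet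
  have a1 : Measurable (fun x : V => -(R1⁻¹ • x)) := (measurable_id.const_smul R1⁻¹).neg
  have a2 : Measurable (fun x : V => ee⁻¹ • rs E x) := hr.const_smul ee⁻¹
  have a3 : Measurable (fun x : V => -((ee + LL)⁻¹ • rs E x)) := (hr.const_smul (ee + LL)⁻¹).neg
  classical
  have a4 : Measurable (fun x : V => if x ∈ S2 E then ee⁻¹ • rs E x else
      -((ee + LL)⁻¹ • rs E x)) := Measurable.ite m2 a2 a3
  have a5 : Measurable (fun x : V => if x ∈ S1 then -(R1⁻¹ • x) else if x ∈ S2 E then
      ee⁻¹ • rs E x else -((ee + LL)⁻¹ • rs E x)) := Measurable.ite m1 a1 a4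
  convert a5 using 1
  ext1 x
  unfold nuu
  congr 1

private theorem UAdm_upp_meas : Measurable upp := by
  have m1 : MeasurableSet S1 := (isClosed_eq continuous_norm continuous_const).measurableSet
  unfold upp
  exact Measurable.ite m1 measurable_const measurable_const

private theorem UAdm_umm_meas (E : Set V) : Measurable (umm E) := by
  have m1 : MeasurableSet S1 := (isClosed_eq continuous_norm continuous_const).measurableSet
  have m2 : MeasurableSet (S2 E) :=
    (isClosed_eq (continuous_infDist_pt E) continuous_const).measurableSet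
  unfold umm
  exact Measurable.ite (m1.inter m2) measurable_const measurable_const

private theorem UAdm_GA_fin {E : Set V} (h : Body E) : μH[1] (GA E) < ⊤ := by
  obtain ⟨-, -, -, hee, -, hL, -⟩ := UAdm_consts
  have h1 := S1_finite
  have h2 := level_finite h hee
  have h3 := level_finite h (s := ee + LL) (by linarith)
  unfold GA
  refine (measure_union_le _ _).trans_lt ?_
  refine ENNReal.add_lt_top.2 ⟨(measure_union_le _ _).trans_lt (ENNReal.add_lt_top.2 ⟨h1, h2⟩), h3⟩

/-- **UADM (a).** `uu` is admissible in every `D` containing the disc of radius `18 mm`. -/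
theorem uu_adm {E : Set V} (h : Body E) {D : Set V} (hD : closedBall (0 : V) (18 * mm) ⊆ D) :
    Adm D (uu E) (gg E) upp (umm E) (nuu E) := by
  have hJ := jumpSet_uu h
  have h0u : ∀ x, x ∉ closedBall (0 : V) (18 * mm) → uu E x = 0 := fun x hx =>
    (off_facts (UAdm_off h hx).1 (UAdm_off h hx).2).1
  have h0g : ∀ x, x ∉ closedBall (0 : V) (18 * mm) → gg E x = 0 := fun x hx =>
    (off_facts (UAdm_off h hx).1 (UAdm_off h hx).2).2.1
  have hu1 : ∀ x, ‖uu E x‖ ≤ 1 := fun x => by
    rw [Real.norm_eq_abs, abs_of_nonneg (uu_bounds h x).1]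
    exact (uu_bounds h x).2
  refine ⟨⟨?_, ?_, ?_, UAdm_upp_meas, UAdm_umm_meas E, UAdm_nuu_meas h, ?_, ?_, ?_⟩, ?_, ?_⟩
  · exact memLp_one_iff_integrable.1 (UAdm_memLp (uu_measurable E) hu1 h0u 1)
  · exact memLp_one_iff_integrable.1 (UAdm_memLp (UAdm_gg_meas h) (UAdm_gg_le h) h0g 1)
  · rw [hJ]
    exact (GA_closed E).measurableSet
  · intro x hx
    rw [hJ] at hx
    exact uu_traces h hx
  · rw [hJ]
    have : IsFiniteMeasure ((μH[1] : Measure V).restrict (GA E)) :=
      ⟨by rw [Measure.restrict_apply_univ]; exact UAdm_GA_fin h⟩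
    refine Integrable.of_bound ((UAdm_upp_meas.sub (UAdm_umm_meas E)).aestronglyMeasurable) 2
      (Eventually.of_forall fun x => ?_)
    obtain ⟨ha, ha1⟩ := a1_bounds
    have haa : 0 < aa ∧ aa ≤ 1 := by unfold aa; norm_num
    have e1 : |upp x| ≤ 1 := by
      unfold upp
      split_ifs
      · rw [abs_of_nonneg (by linarith)]
        exact ha1
      · rw [abs_of_nonneg haa.1.le]
        exact haa.2
    have e2 : |umm E x| ≤ 1 := by
      unfold umm
      split_ifs
      · rw [abs_of_nonneg haa.1.le]
        exact haa.2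
      · rw [abs_zero]
        norm_num
    rw [Real.norm_eq_abs]
    calc |upp x - umm E x| ≤ |upp x| + |umm E x| := abs_sub _ _
      _ ≤ 2 := by linarith
  · intro φ hφ hc
    rw [hJ]
    exact uu_ibp h (fun x h1 h2 => touch_rs h h1 h2) hφ hc
  · filter_upwards with x hx
    exact h0u x fun hx2 => hx (hD hx2)
  · exact UAdm_memLp (UAdm_gg_meas h) (UAdm_gg_le h) h0g 2

/-- **UADM (b).** hypotheses of `calib_eq`, and the energy of `uu`. -/
theorem uu_energy {E : Set V} (h : Body E) {D : Set V} (hDm : MeasurableSet D)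
    (hDb : Bornology.IsBounded D) (hD : closedBall (0 : V) (18 * mm) ⊆ D) :
    energy D (ff E) (uu E) (gg E) upp (umm E) = ((-(∫ x in D, cc E x) : ℝ) : EReal) := by
  obtain ⟨haa, hmm, he0, hee, hR1, hLL, hcee, hR18, ha2, h201, hc0⟩ := UAdm_consts
  obtain ⟨ha, ha1⟩ := a1_bounds
  have hJ := jumpSet_uu h
  apply calib_eq (calib_main h hDm hDb) (uu_adm h hD)
  · apply ae_restrict_of_ae
    filter_upwards [divg_b2 h] with x hx hu
    by_cases hH : Hot x
    · obtain ⟨f1, f2, f3, f4, f5⟩ := hot_facts (E := E) hH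
      obtain ⟨p1, p2, p3, p4⟩ := h_piece4 (t := uu E x) (by linarith) f3
      have hc : cc E x = qq E x * uu E x ^ 2 - 1 := by
        unfold cc
        rw [if_pos (Or.inl hH)]
      rw [p1, p2, p3, p4, hc, divg_b1_hot hH, f5]
      unfold ff
      have hq := f4
      rw [zero_smul, add_zero, real_inner_smul_left, real_inner_smul_right,
        real_inner_self_eq_norm_sq, norm_smul, Real.norm_eq_abs, mul_pow, sq_abs]
      rw [hq]
      ring
    · by_cases hC : Cold E x
      · obtain ⟨-, -, -, -, f5, f6, -, -, f9, f10⟩ := cold_facts h hC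
        obtain ⟨p1, p2, p3, p4⟩ := h_piece1 (t := uu E x) (by linarith) (by linarith)
        have hc : cc E x = qq E x * uu E x ^ 2 - 1 := by
          unfold cc
          rw [if_pos (Or.inr hC)]
        have hq : qq E x = 2 / LL - etp (infDist x E) * kap E x - etp (infDist x E) ^ 2 := by
          unfold qq
          rw [if_neg hH, if_pos hC]
        rw [p1, p2, p3, p4, hc, hx.2.2.1 hC, f10]
        unfold ff
        rw [zero_smul, zero_add, real_inner_smul_left, real_inner_smul_right,
          real_inner_self_eq_norm_sq, norm_smul, Real.norm_eq_abs, mul_pow, sq_abs, f9, hq]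
        ring
      · exact absurd (off_facts hH hC).1 hu
  · filter_upwards with x hx
    have hH : ¬ Hot x := by
      intro hH
      have := (hot_facts (E := E) hH).2.1
      linarith
    have hC : ¬ Cold E x := by
      intro hC
      have := (cold_facts h hC).2.2.2.2.1
      linarith
    exact ⟨(off_facts hH hC).2.1, (off_facts hH hC).2.2.2.1⟩
  · intro x hx
    rw [hJ] at hx
    obtain ⟨p1, p2, -, -⟩ := h_piece4 (t := a1) (by linarith) ha1
    obtain ⟨q1, q2, -, -⟩ := h_piece1 (t := aa) haa.le ha2
    have hz1 := h1_zero.1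
    have hz2 := h2_zero.1
    by_cases hS1 : x ∈ S1
    · have hn : ‖x‖ = R1 := hS1
      have hb1 : b1 x = -(R1⁻¹ • x) := b1_hot hn.le
      have hup : upp x = a1 := by unfold upp; rw [if_pos hS1]
      have hnu : nuu E x = -(R1⁻¹ • x) := by unfold nuu; rw [if_pos hS1]
      have hin : ⟪R1⁻¹ • x, R1⁻¹ • x⟫ = (1 : ℝ) := by
        rw [real_inner_self_eq_norm_sq, norm_smul, norm_inv, Real.norm_eq_abs, abs_of_pos hR1, hn,
          inv_mul_cancel₀ hR1.ne', one_pow]
      by_cases hS2 : x ∈ S2 E
      · have hum : umm E x = aa := by unfold umm; rw [if_pos ⟨hS1, hS2⟩]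
        have hd : infDist x E = ee := hS2
        have hb2 : b2 E x = R1⁻¹ • x := by
          rw [b2_mid h (by rw [hd]; exact hcee) hd.le, touch_rs h hS1 hS2, hd, smul_smul]
          congr 1
          field_simp
        rw [hup, hum, hb1, hb2, hnu, inner_neg_neg, inner_neg_right, hin, p1, p2, q1, q2]
        ring
      · have hum : umm E x = 0 := by unfold umm; rw [if_neg fun hh => hS2 hh.2]
        rw [hup, hum, hb1, hnu, inner_neg_neg, hin, p1, p2, hz1, hz2]
        ring
    · have hup : upp x = aa := by unfold upp; rw [if_neg hS1]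
      have hum : umm E x = 0 := by unfold umm; rw [if_neg fun hh => hS1 hh.1]
      have hnrm := rs_norm h.cl h.ne x
      by_cases hS2 : x ∈ S2 E
      · have hd : infDist x E = ee := hS2
        have hnu : nuu E x = ee⁻¹ • rs E x := by unfold nuu; rw [if_neg hS1, if_pos hS2]
        have hb2 : b2 E x = ee⁻¹ • rs E x := by
          rw [b2_mid h (by rw [hd]; exact hcee) hd.le, hd]
        have hin : ⟪ee⁻¹ • rs E x, ee⁻¹ • rs E x⟫ = (1 : ℝ) := by
          rw [real_inner_self_eq_norm_sq, norm_smul, norm_inv, Real.norm_eq_abs, abs_of_pos hee,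
            hnrm, hd, inv_mul_cancel₀ hee.ne', one_pow]
        rw [hup, hum, hb2, hnu, hin, q1, q2, hz1, hz2]
        ring
      · have hS3 : x ∈ S3 E := by
          rcases hx with (hx | hx) | hx
          · exact absurd hx hS1
          · exact absurd hx hS2
          · exact hx
        have hd : infDist x E = ee + LL := hS3
        have hnu : nuu E x = -((ee + LL)⁻¹ • rs E x) := by
          unfold nuu; rw [if_neg hS1, if_neg hS2]
        have hb2 : b2 E x = -((ee + LL)⁻¹ • rs E x) := by
          rw [b2_out h hd.ge, hd]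
        have hin : ⟪(ee + LL)⁻¹ • rs E x, (ee + LL)⁻¹ • rs E x⟫ = (1 : ℝ) := by
          rw [real_inner_self_eq_norm_sq, norm_smul, norm_inv, Real.norm_eq_abs,
            abs_of_pos (by linarith : 0 < ee + LL), hnrm, hd,
            inv_mul_cancel₀ (by linarith : ee + LL ≠ 0), one_pow]
        rw [hup, hum, hb2, hnu, inner_neg_neg, hin, q1, q2, hz1, hz2]
        ring

/-- **UADM (c).** -/
theorem uu_min {E : Set V} (h : Body E) {D : Set V} (hDm : MeasurableSet D)
    (hDb : Bornology.IsBounded D) (hD : closedBall (0 : V) (18 * mm) ⊆ D)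
    {v : V → ℝ} {g : V → V} {vp vm : V → ℝ} {ν : V → V} (hv : Adm D v g vp vm ν) :
    energy D (ff E) (uu E) (gg E) upp (umm E) ≤ energy D (ff E) v g vp vm := by
  rw [uu_energy h hDm hDb hD]
  exact calib_lower (calib_main h hDm hDb) hv

end MP_614bef_an
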