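import Pool.Agent.Lib.MP_614bef_an.TraB
import Pool.Agent.Lib.MP_614bef_an.GG
import Pool.Agent.Lib.MP_614bef_an.MainQ

set_option autoImplicit false

namespace MP_614bef_an

open MeasureTheory Set Filter Metric
open scoped RealInnerProductSpace ENNReal NNReal Topology ContDiff

private theorem uj_R1 : 0 < R1 := by
  unfold R1 ee e0 mm; norm_num

private theorem uj_LL : 0 < LL := by
  unfold LL mm; norm_num

private theorem uj_ee : 0 < ee := by
  unfold ee mm; norm_num

private theorem uj_e0 : 0 < e0 := by
  unfold e0 mm; norm_num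

private theorem uj_aa : 0 < aa := by
  unfold aa; norm_num

private theorem uj_aa_lt : aa < a1 := by
  have h := (a1_bounds).1
  have : aa < 99 / 100 := by unfold aa; norm_num
  linarith

/-- **UJ (a).** On the touching set the two normals coincide.  PROOF: `x ∈ S1 ∩ S2`:
`infDist x E = ee = ‖x‖ - e0` and `p = (e0/R1) x ∈ closedBall 0 e0 ⊆ E` has distance `ee` from `x`,
so `P x = p` (`prj_unique`) and `rs E x = (ee/R1) x`. -/
theorem touch_rs {E : Set V} (h : Body E) {x : V} (h1 : x ∈ S1) (h2 : x ∈ S2 E) :
    rs E x = (ee / R1) • x := by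
  have hR := uj_R1
  have he := uj_e0
  have hx : ‖x‖ = R1 := h1
  have hd : infDist x E = ee := h2
  have hp : (e0 / R1) • x ∈ E := by
    apply h.inn
    rw [mem_closedBall, dist_zero_right, norm_smul, Real.norm_eq_abs,
      abs_of_pos (div_pos he hR), hx]
    field_simp
    exact le_rfl
  have hs : x - (e0 / R1) • x = (ee / R1) • x := by
    have h3 : (ee / R1 : ℝ) = 1 - e0 / R1 := by
      rw [eq_sub_iff_add_eq, ← add_div]
      exact div_self hR.ne'
    rw [h3, sub_smul, one_smul]
  have h4 : prj E x = (e0 / R1) • x := by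
    refine prj_unique h.cl h.cv h.ne x hp ?_
    rw [hd, dist_eq_norm, hs, norm_smul, Real.norm_eq_abs, abs_of_pos (div_pos uj_ee hR), hx]
    field_simp
    exact le_rfl
  unfold rs
  rw [h4, hs]

private theorem uj_hot_open : IsOpen {x : V | Hot x} :=
  isOpen_lt continuous_norm continuous_const

private theorem uj_cold_open (E : Set V) : IsOpen {x : V | Cold E x} := by
  have : {x : V | Cold E x} = {x | ee < infDist x E} ∩ {x | infDist x E < ee + LL} := rfl
  rw [this]
  exact (isOpen_lt continuous_const (continuous_infDist_pt E)).inter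
    (isOpen_lt (continuous_infDist_pt E) continuous_const)

private theorem u2v_cont : Continuous u2v := by
  unfold u2v
  fun_prop

private theorem hotf_cont : Continuous fun y : V => Real.exp (-‖y‖ ^ 2 / (2 * R1)) := by
  fun_prop

private theorem uu_hot {E : Set V} {x : V} (hx : Hot x) :
    uu E x = Real.exp (-‖x‖ ^ 2 / (2 * R1)) := by
  unfold uu; rw [if_pos hx]

private theorem uu_cold {E : Set V} (h : Body E) {x : V} (hx : Cold E x) :
    uu E x = u2v (infDist x E) := by
  have hnh : ¬ Hot x := fun hhot => by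
    have := hot_lt h hhot
    have := hx.1
    linarith
  unfold uu; rw [if_neg hnh, if_pos hx]

private theorem uu_off {E : Set V} {x : V} (h1 : ¬ Hot x) (h2 : ¬ Cold E x) : uu E x = 0 := by
  unfold uu; rw [if_neg h1, if_neg h2]

/-- **UJ (b).** `uu` is continuous off the three curves (near such a point it is given by one of the
three formulas). -/
theorem uu_continuousAt {E : Set V} (h : Body E) {x : V} (hx : x ∉ GA E) :
    ContinuousAt (uu E) x := by
  have hn1 : ‖x‖ ≠ R1 := fun hh => hx (Or.inl (Or.inl hh))
  have hn2 : infDist x E ≠ ee := fun hh => hx (Or.inl (Or.inr hh))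
  have hn3 : infDist x E ≠ ee + LL := fun hh => hx (Or.inr hh)
  have hcd := continuous_infDist_pt E
  rcases lt_or_gt_of_ne hn1 with h1 | h1
  · refine (hotf_cont.continuousAt).congr ?_
    filter_upwards [uj_hot_open.mem_nhds (show Hot x from h1)] with y hy
    exact (uu_hot hy).symm
  · have hnh : ∀ᶠ y in 𝓝 x, ¬ Hot y := by
      filter_upwards [(isOpen_lt continuous_const continuous_norm).mem_nhds h1] with y hy
      exact not_lt.2 (le_of_lt hy)
    rcases lt_or_gt_of_ne hn2 with h2 | h2
    · refine (continuousAt_const (y := (0 : ℝ))).congr ?_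
      filter_upwards [hnh, (isOpen_lt hcd continuous_const).mem_nhds h2] with y hy1 hy2
      exact (uu_off hy1 (fun hc => lt_asymm hc.1 hy2)).symm
    · rcases lt_or_gt_of_ne hn3 with h3 | h3
      · refine ((u2v_cont.comp hcd).continuousAt).congr ?_
        filter_upwards [(uj_cold_open E).mem_nhds (show Cold E x from ⟨h2, h3⟩)] with y hy
        exact (uu_cold h hy).symm
      · refine (continuousAt_const (y := (0 : ℝ))).congr ?_
        filter_upwards [hnh, (isOpen_lt continuous_const hcd).mem_nhds h3] with y hy1 hy2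
        exact (uu_off hy1 (fun hc => lt_asymm hc.2 hy2)).symm

private theorem uu_abs {E : Set V} (h : Body E) (y : V) : |uu E y| ≤ 1 := by
  have := uu_bounds h y
  rw [abs_of_nonneg this.1]
  exact this.2

/-- limit from outside `S2` -/
private theorem lim_out2 {E : Set V} (h : Body E) {x : V} (hx : infDist x E = ee) :
    Tendsto (uu E) (𝓝[{y | ee < infDist y E}] x) (𝓝 aa) := by
  have hcd := continuous_infDist_pt E
  have h1 : u2v (infDist x E) = aa := by
    rw [hx]; unfold u2v; simp
  have h2 : Tendsto (fun y => u2v (infDist y E)) (𝓝[{y | ee < infDist y E}] x) (𝓝 aa) := by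
    rw [← h1]
    exact ((u2v_cont.comp hcd).continuousAt).mono_left nhdsWithin_le_nhds
  refine h2.congr' ?_
  have h3 : infDist x E < ee + LL := by rw [hx]; linarith [uj_LL]
  filter_upwards [self_mem_nhdsWithin,
    mem_nhdsWithin_of_mem_nhds ((isOpen_lt hcd continuous_const).mem_nhds h3)] with y hy1 hy2
  exact (uu_cold h ⟨hy1, hy2⟩).symm

/-- limit from inside `S3` -/
private theorem lim_in3 {E : Set V} (h : Body E) {x : V} (hx : infDist x E = ee + LL) :
    Tendsto (uu E) (𝓝[{y | infDist y E < ee + LL}] x) (𝓝 aa) := by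
  have hcd := continuous_infDist_pt E
  have hL := uj_LL
  have h1 : u2v (infDist x E) = aa := by
    rw [hx]; unfold u2v
    have : ee + LL - ee - (ee + LL - ee) ^ 2 / LL = 0 := by
      have : ee + LL - ee = LL := by ring
      rw [this]
      field_simp
      ring
    rw [this, Real.exp_zero, mul_one]
  have h2 : Tendsto (fun y => u2v (infDist y E)) (𝓝[{y | infDist y E < ee + LL}] x) (𝓝 aa) := by
    rw [← h1]
    exact ((u2v_cont.comp hcd).continuousAt).mono_left nhdsWithin_le_nhds
  refine h2.congr' ?_
  have h3 : ee < infDist x E := by rw [hx]; linarith [uj_LL]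
  filter_upwards [self_mem_nhdsWithin,
    mem_nhdsWithin_of_mem_nhds ((isOpen_lt continuous_const hcd).mem_nhds h3)] with y hy1 hy2
  exact (uu_cold h ⟨hy2, hy1⟩).symm

/-- `S1` as a level line of the distance to the small ball -/
private theorem ball_iff_lt {y : V} : infDist y (closedBall (0 : V) e0) < ee ↔ Hot y := by
  rcases le_total e0 ‖y‖ with hy | hy
  · rw [(infDist_ball hy).1]
    unfold Hot R1
    constructor <;> intro h <;> linarith
  · rw [infDist_ball_in hy]
    have := uj_ee
    unfold Hot R1
    constructor <;> intro h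
    · linarith
    · exact this

private theorem ball_gt {y : V} (hy : ee < infDist y (closedBall (0 : V) e0)) : ¬ Hot y := by
  intro h
  exact lt_asymm hy (ball_iff_lt.2 h)

private theorem ball_S1 {x : V} (hx : x ∈ S1) : infDist x (closedBall (0 : V) e0) = ee ∧
    ee⁻¹ • rs (closedBall (0 : V) e0) x = R1⁻¹ • x := by
  have hx' : ‖x‖ = R1 := hx
  have he : e0 ≤ ‖x‖ := by
    rw [hx']; unfold R1; linarith [uj_ee]
  have hR := uj_R1
  have hee := uj_ee
  refine ⟨?_, ?_⟩
  · rw [(infDist_ball he).1, hx']; unfold R1; ring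
  · rw [(infDist_ball he).2, hx', smul_smul]
    congr 1
    have h1 : 1 - e0 / R1 = ee / R1 := by
      rw [sub_eq_iff_eq_add, ← add_div]
      exact (div_self hR.ne').symm
    rw [h1]
    field_simp

private theorem norm_dir {E : Set V} (h : Body E) {x : V} {s : ℝ} (hs : 0 < s)
    (hx : infDist x E = s) : ‖s⁻¹ • rs E x‖ = 1 := by
  rw [norm_smul, rs_norm h.cl h.ne, hx, Real.norm_eq_abs, abs_of_pos (inv_pos.2 hs)]
  exact inv_mul_cancel₀ hs.ne'

/-- **UJ (c).** one-sided limits on the curves. -/
theorem uu_traces {E : Set V} (h : Body E) {x : V} (hx : x ∈ GA E) :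
    umm E x < upp x ∧ HasTraces (uu E) x (upp x) (umm E x) (nuu E x) := by
  have hcd := continuous_infDist_pt E
  have hR := uj_R1
  have hee := uj_ee
  have hL := uj_LL
  have haa := uj_aa
  have hm := uu_measurable E
  have hb := uu_abs h
  by_cases h1 : x ∈ S1
  · have hx' : ‖x‖ = R1 := h1
    have hnu : nuu E x = -(R1⁻¹ • x) := by unfold nuu; rw [if_pos h1]
    have hup : upp x = a1 := by unfold upp; rw [if_pos h1]
    obtain ⟨hb1, hb2⟩ := ball_S1 h1
    have hnorm : ‖R1⁻¹ • x‖ = 1 := by
      rw [norm_smul, hx', Real.norm_eq_abs, abs_of_pos (inv_pos.2 hR)]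
      exact inv_mul_cancel₀ hR.ne'
    have hin : Tendsto (fun r : ℝ =>
        (∫ y in ball x r ∩ {y | ⟪y - x, R1⁻¹ • x⟫ < 0}, |uu E y - a1|) / r ^ 2)
        (𝓝[>] 0) (𝓝 0) := by
      rw [← hb2]
      refine trace_in body_ball hee hb1 hm hb ?_
      have h2 : Real.exp (-‖x‖ ^ 2 / (2 * R1)) = a1 := by
        rw [hx']; unfold a1; congr 1; field_simp
      rw [← h2]
      refine ((hotf_cont.continuousAt).mono_left nhdsWithin_le_nhds : Tendsto _ _ _).congr' ?_
      filter_upwards [self_mem_nhdsWithin] with y hy
      exact (uu_hot (ball_iff_lt.1 hy)).symm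
    by_cases h2 : x ∈ S2 E
    · have hum : umm E x = aa := by unfold umm; rw [if_pos ⟨h1, h2⟩]
      rw [hup, hum, hnu]
      refine ⟨uj_aa_lt, HasTraces.of_neg hnorm ?_ hin⟩
      have h3 : R1⁻¹ • x = ee⁻¹ • rs E x := by
        rw [touch_rs h h1 h2, smul_smul]
        congr 1
        field_simp
      rw [h3]
      exact trace_out h hee h2 hm hb (lim_out2 h h2)
    · have hum : umm E x = 0 := by unfold umm; rw [if_neg (fun hh => h2 hh.2)]
      rw [hup, hum, hnu]
      refine ⟨haa.trans uj_aa_lt, HasTraces.of_neg hnorm ?_ hin⟩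
      rw [← hb2]
      refine trace_out body_ball hee hb1 hm hb ?_
      refine (tendsto_const_nhds (x := (0 : ℝ))).congr' ?_
      have h3 : infDist x E < ee := lt_of_le_of_ne (S1_le h h1) h2
      filter_upwards [self_mem_nhdsWithin,
        mem_nhdsWithin_of_mem_nhds ((isOpen_lt hcd continuous_const).mem_nhds h3)] with y hy1 hy2
      exact (uu_off (ball_gt hy1) (fun hc => lt_asymm hc.1 hy2)).symm
  · have hup : upp x = aa := by unfold upp; rw [if_neg h1]
    have hum : umm E x = 0 := by unfold umm; rw [if_neg (fun hh => h1 hh.1)]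
    by_cases h2 : x ∈ S2 E
    · have h2' : infDist x E = ee := h2
      have hnu : nuu E x = ee⁻¹ • rs E x := by unfold nuu; rw [if_neg h1, if_pos h2]
      rw [hup, hum, hnu]
      refine ⟨haa, norm_dir h hee h2, trace_out h hee h2 hm hb (lim_out2 h h2),
        trace_in h hee h2 hm hb ?_⟩
      refine (tendsto_const_nhds (x := (0 : ℝ))).congr' ?_
      have h3 : R1 < ‖x‖ := by
        refine lt_of_le_of_ne (not_lt.1 fun hh => ?_) (fun hh => h1 hh.symm)
        have := hot_lt h (show Hot x from hh)
        rw [h2'] at this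
        exact lt_irrefl _ this
      filter_upwards [self_mem_nhdsWithin, mem_nhdsWithin_of_mem_nhds
        ((isOpen_lt continuous_const continuous_norm).mem_nhds h3)] with y hy1 hy2
      exact (uu_off (not_lt.2 (le_of_lt hy2)) (fun hc => lt_asymm hc.1 hy1)).symm
    · have h3 : infDist x E = ee + LL := by
        rcases hx with (hx | hx) | hx
        · exact absurd hx h1
        · exact absurd hx h2
        · exact hx
      have hs : 0 < ee + LL := by linarith
      have hnu : nuu E x = -((ee + LL)⁻¹ • rs E x) := by unfold nuu; rw [if_neg h1, if_neg h2]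
      rw [hup, hum, hnu]
      refine ⟨haa, HasTraces.of_neg (norm_dir h hs h3) (trace_out h hs h3 hm hb ?_)
        (trace_in h hs h3 hm hb (lim_in3 h h3))⟩
      refine (tendsto_const_nhds (x := (0 : ℝ))).congr' ?_
      filter_upwards [self_mem_nhdsWithin] with y hy
      have hy' : ee + LL < infDist y E := hy
      refine (uu_off (fun hh => ?_) (fun hc => lt_asymm hc.2 hy')).symm
      have := hot_lt h hh
      linarith

/-- **UJ (d).** -/
theorem jumpSet_uu {E : Set V} (h : Body E) : jumpSet (uu E) = GA E := by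
  apply Subset.antisymm
  · intro x hx
    by_contra hn
    exact not_jump (uu_measurable E) (uu_abs h) (uu_continuousAt h hn) hx
  · intro x hx
    obtain ⟨h1, h2⟩ := uu_traces h hx
    exact ⟨_, _, _, h1, h2⟩

theorem GA_closed (E : Set V) : IsClosed (GA E) := by
  have hcd := continuous_infDist_pt E
  unfold GA S1 S2 S3
  exact ((isClosed_eq continuous_norm continuous_const).union
    (isClosed_eq hcd continuous_const)).union (isClosed_eq hcd continuous_const)

end MP_614bef_an
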